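import Pool.Agent.MMS14.ExM

/-!
# MMS14/Apri: a priori bounds (Cantelli and fourth moment) and the list `aprs`

`cantelli_pr`: for `x > 0`, `σ² = p (1 - p) ss l`: use
`1_{X < -x} ≤ ((σ² - x X) / (σ² + x²))²` for all `X` (if `X < -x` then `σ² - x X ≥ σ² + x²`), take expectations:
`(σ⁴ + x² σ²) / (σ² + x²)² = σ² / (σ² + x²)`.  For `x = 0` the left side is `0` (also if `σ = 0`: `0 / 0 = 0`).
`fourth_pr`: `1_{X < -x} ≤ X⁴ / x⁴`.
`aprs_sound`: for `i ≥ 200` (and behind the end of the list) the entry is `0`.  For `i < 200` put `n = 200 - i`; the entry is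
`max ⌊65536 n² / (n² + 2500)⌋ ⌊65536 (4 n⁴ - 13 * 2500²) / (4 n⁴)⌋`: prove this by `decide` for all `i < 200` (as a statement on
natural numbers, `Nat.sub` truncated); `t ≤ - (n / 50) σ`, so `Pr p l t ≥ Pr p l (- (n / 50) σ)` and Cantelli gives
`n² / (n² + 2500)`, the fourth moment `1 - (13/4) 50⁴ / n⁴`.  (`σ > 0` because `ss l > 0`.)
-/

set_option autoImplicit false

namespace Pool.Agent.MMS14

theorem cantelli_pr {p : ℝ} (h0 : 0 ≤ p) (h1 : p ≤ 1) (l : List ℝ) {x : ℝ} (hx : 0 ≤ x) :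
    x ^ 2 / (x ^ 2 + p * (1 - p) * ss l) ≤ Pr p l (-x) := by
  have hV : 0 ≤ p * (1 - p) * ss l := mul_nonneg (mul_nonneg h0 (by linarith)) (ss_nonneg l)
  rcases hx.eq_or_lt with hx0 | hx0
  · rw [← hx0]
    simp only [ne_eq, OfNat.ofNat_ne_zero, not_false_eq_true, zero_pow, zero_div]
    exact Pr_nonneg h0 h1 l _
  have hD : 0 < x ^ 2 + p * (1 - p) * ss l := by positivity
  set V : ℝ := p * (1 - p) * ss l with hVd
  set D : ℝ := x ^ 2 + V with hDd
  rw [Pr_eq_Ex]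
  have key : Ex p l (fun y => (1 - V ^ 2 / D ^ 2) + ((2 * V * x / D ^ 2) * y +
      (-(x ^ 2 / D ^ 2)) * y ^ 2)) = x ^ 2 / D := by
    rw [Ex_add, Ex_const, Ex_add, Ex_smul, Ex_smul, Ex_id, Ex_sq, ← hVd]
    field_simp
    rw [hDd]
    ring
  rw [← key]
  refine Ex_mono h0 h1 l fun y => ?_
  have h2 : (1 - V ^ 2 / D ^ 2) + ((2 * V * x / D ^ 2) * y + (-(x ^ 2 / D ^ 2)) * y ^ 2) =
      1 - ((V - x * y) / D) ^ 2 := by
    field_simp
    ring
  rw [h2]
  split_ifs with h3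
  · have := sq_nonneg ((V - x * y) / D)
    linarith
  · have h4 : 1 ≤ (V - x * y) / D := by
      rw [le_div_iff₀ hD, hDd]
      push Not at h3
      nlinarith
    nlinarith

theorem fourth_pr {p : ℝ} (h0 : 1 / 5 ≤ p) (h1 : p ≤ 1 / 2) (l : List ℝ) {x : ℝ} (hx : 0 < x) :
    1 - 13 / 4 * (p * (1 - p) * ss l) ^ 2 / x ^ 4 ≤ Pr p l (-x) := by
  have hp0 : 0 ≤ p := by linarith
  have hp1 : p ≤ 1 := by linarith
  rw [Pr_eq_Ex]
  have key : Ex p l (fun y => 1 + (-(1 / x ^ 4)) * y ^ 4) = 1 + (-(1 / x ^ 4)) * Ex p l (fun y => y ^ 4) := by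
    rw [Ex_add, Ex_const, Ex_smul]
  have h4 := Ex_four h0 h1 l
  have hx4 : 0 < x ^ 4 := by positivity
  have h5 : 1 - 13 / 4 * (p * (1 - p) * ss l) ^ 2 / x ^ 4 ≤
      Ex p l (fun y => 1 + (-(1 / x ^ 4)) * y ^ 4) := by
    rw [key]
    have h6 : Ex p l (fun y => y ^ 4) / x ^ 4 ≤ 13 / 4 * (p * (1 - p) * ss l) ^ 2 / x ^ 4 :=
      div_le_div_of_nonneg_right h4 hx4.le
    have h7 : -(1 / x ^ 4) * Ex p l (fun y => y ^ 4) = -(Ex p l (fun y => y ^ 4) / x ^ 4) := by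
      ring
    rw [h7]
    linarith
  refine h5.trans (Ex_mono hp0 hp1 l fun y => ?_)
  have h8 : 1 + -(1 / x ^ 4) * y ^ 4 = 1 - (y / x) ^ 4 := by
    rw [div_pow]
    ring
  rw [h8]
  split_ifs with h3
  · have : 0 ≤ (y / x) ^ 4 := by positivity
    linarith
  · have h9 : y / x ≤ -1 := by
      rw [div_le_iff₀ hx]
      push Not at h3
      linarith
    have h10 : 1 ≤ (y / x) ^ 2 := by nlinarith
    have h11 : (y / x) ^ 4 = (y / x) ^ 2 * (y / x) ^ 2 := by ring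
    rw [h11]
    nlinarith

private theorem aprs_check : ∀ i, i < 200 →
    (aprs.getD i 0 * ((200 - i) ^ 2 + 2500) ≤ 65536 * (200 - i) ^ 2 ∨
      aprs.getD i 0 * (4 * (200 - i) ^ 4) + 65536 * 13 * 2500 ^ 2 ≤ 65536 * 4 * (200 - i) ^ 4) := by
  decide +kernel

private theorem aprs_zero (i : ℕ) (hi : 200 ≤ i) : aprs.getD i 0 = 0 := by
  by_cases h : i < 351
  · have h1 : ∀ j, j < 351 → 200 ≤ j → aprs.getD j 0 = 0 := by decide +kernel
    exact h1 i h hi
  · exact List.getD_eq_default _ _ (by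
      have : aprs.length = 351 := by decide +kernel
      omega)

theorem aprs_sound {p : ℝ} (h0 : 1 / 5 ≤ p) (h1 : p ≤ 1 / 2) (l : List ℝ) (hl : 0 < ss l) (i : ℕ) (t : ℝ)
    (ht : t ≤ ((i : ℝ) - 200) / 50 * sd p l) : ((aprs.getD i 0 : ℕ) : ℝ) / 65536 ≤ Pr p l t := by
  have hp0 : 0 ≤ p := by linarith
  have hp1 : p ≤ 1 := by linarith
  by_cases hi : i < 200
  · have hV : 0 < p * (1 - p) * ss l := mul_pos (mul_pos (by linarith) (by linarith)) hl
    have hsd : 0 < sd p l := Real.sqrt_pos.2 hV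
    have hsd2 : sd p l ^ 2 = p * (1 - p) * ss l := Real.sq_sqrt hV.le
    obtain ⟨n, hn, hn0⟩ : ∃ n : ℕ, 200 - i = n ∧ 0 < n := ⟨_, rfl, by omega⟩
    have hnr : (i : ℝ) - 200 = -(n : ℝ) := by
      have : (i : ℝ) + n = 200 := by exact_mod_cast (by omega : i + n = 200)
      linarith
    have hn0' : (0 : ℝ) < n := by exact_mod_cast hn0
    have hx : 0 < (n : ℝ) / 50 * sd p l := by positivity
    have htx : t ≤ -((n : ℝ) / 50 * sd p l) := by
      refine ht.trans (le_of_eq ?_)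
      rw [hnr]
      ring
    have hanti := Pr_anti hp0 hp1 l htx
    refine le_trans ?_ hanti
    have hcheck := aprs_check i hi
    rw [hn] at hcheck
    rcases hcheck with hc | hc
    · refine le_trans ?_ (cantelli_pr hp0 hp1 l hx.le)
      have e : ((n : ℝ) / 50 * sd p l) ^ 2 / (((n : ℝ) / 50 * sd p l) ^ 2 + p * (1 - p) * ss l) =
          (n : ℝ) ^ 2 / ((n : ℝ) ^ 2 + 2500) := by
        rw [← hsd2]
        field_simp
        ring
      rw [e, div_le_div_iff₀ (by norm_num) (by positivity)]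
      have hc' : ((aprs.getD i 0 : ℕ) : ℝ) * ((n : ℝ) ^ 2 + 2500) ≤ 65536 * (n : ℝ) ^ 2 := by
        exact_mod_cast hc
      linarith
    · refine le_trans ?_ (fourth_pr h0 h1 l hx)
      have e : 1 - 13 / 4 * (p * (1 - p) * ss l) ^ 2 / ((n : ℝ) / 50 * sd p l) ^ 4 =
          (4 * (n : ℝ) ^ 4 - 13 * 2500 ^ 2) / (4 * (n : ℝ) ^ 4) := by
        rw [← hsd2]
        field_simp
        ring
      rw [e, div_le_div_iff₀ (by norm_num) (by positivity)]
      have hc' : ((aprs.getD i 0 : ℕ) : ℝ) * (4 * (n : ℝ) ^ 4) + 65536 * 13 * 2500 ^ 2 ≤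
          65536 * 4 * (n : ℝ) ^ 4 := by
        exact_mod_cast hc
      linarith
  · rw [aprs_zero i (by omega)]
    simp only [Nat.cast_zero, zero_div]
    exact Pr_nonneg hp0 hp1 l t

end Pool.Agent.MMS14
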