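import Pool.Agent.MMS14.ErrDefs

/-!
# MMS14/Base: the objects of the theory (weighted sums of independent Bernoulli variables)

`Pr p l t = P(∑_(a ∈ l) a (ξ_a - p) ≥ t)` with independent `ξ_a` equal to `1` with probability `p` and `0` otherwise.
-/

set_option autoImplicit false

namespace Pool.Agent.MMS14

/-- `P(∑ a (ξ_a - p) ≥ t)` -/
noncomputable def Pr (p : ℝ) : List ℝ → ℝ → ℝ
  | [], t => if t ≤ 0 then 1 else 0
  | a :: l, t => p * Pr p l (t - (1 - p) * a) + (1 - p) * Pr p l (t + p * a)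

/-- the expectation of `f (∑ a (ξ_a - p))` -/
noncomputable def Ex (p : ℝ) : List ℝ → (ℝ → ℝ) → ℝ
  | [], f => f 0
  | a :: l, f => p * Ex p l (fun x => f (x + (1 - p) * a)) + (1 - p) * Ex p l (fun x => f (x - p * a))

/-- sum of squares -/
noncomputable def ss (l : List ℝ) : ℝ := (l.map (fun a => a ^ 2)).sum

/-- sorted by decreasing absolute value -/
def Srt (l : List ℝ) : Prop := l.Pairwise (fun a b => |b| ≤ |a|)

/-- the standard deviation of the sum -/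
noncomputable def sd (p : ℝ) (l : List ℝ) : ℝ := √(p * (1 - p) * ss l)

/-- boundary number `k` of the cells -/
def Yk (k : ℕ) : ℕ := Ys.getD k 0

/-- `S_k` -/
noncomputable def Sc (k : ℕ) : ℝ := (((Yk k : ℝ) ^ 2 + 10 ^ 8) / (20000 * (Yk k : ℝ))) ^ 2

/-- `S` lies in the cell number `k ≤ 126` -/
def InC (k : ℕ) (S : ℝ) : Prop := k ≤ 126 ∧ Sc k ≤ S ∧ (k < 126 → S ≤ Sc (k + 1))

/-- lane number `k` of a row -/
def lane (r k : ℕ) : ℕ := Nat.land (Nat.shiftRight r (Nat.mul 32 k)) 4294967295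

/-- row number `i` (`0` behind the end) -/
def rowv (rows : List ℕ) (i : ℕ) : ℕ := rows.getD i 0

/-- a row all of whose 254 lanes are below `2 ^ 17` -/
def RowP (r : ℕ) : Prop := r < 2 ^ 8128 ∧ ∀ k, k < 254 → lane r k < 131072

/-- `2 ^ 16 Pr ≥ v` for all sorted lists `h :: l` with `l.length ≤ n`, sign `pos` of `h`, `ss (h :: l) / h ^ 2` in the cell
`k` and threshold at most `(i - 200) / 50` standard deviations, for all `p ∈ [P0, P1] / 2 ^ 14` with `1 / 5 ≤ p ≤ 1 / 2` -/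
def LB (P0 P1 n v : ℕ) (pos : Bool) (k i : ℕ) : Prop :=
  ∀ p : ℝ, (P0 : ℝ) / 16384 ≤ p → p ≤ (P1 : ℝ) / 16384 → 1 / 5 ≤ p → p ≤ 1 / 2 →
    ∀ (h : ℝ) (l : List ℝ), Srt (h :: l) → l.length ≤ n → (if pos then 0 < h else h < 0) →
      InC k (ss (h :: l) / h ^ 2) → ∀ t : ℝ, t ≤ ((i : ℝ) - 200) / 50 * sd p (h :: l) →
        (v : ℝ) / 65536 ≤ Pr p (h :: l) t

/-- the table is right for all lists with at most `n + 1` elements -/
def GoodN (P0 P1 : ℕ) (rows : List ℕ) (n : ℕ) : Prop :=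
  ∀ k, k ≤ 126 → ∀ i, LB P0 P1 n (lane (rowv rows i) k) true k i ∧ LB P0 P1 n (lane (rowv rows i) (127 + k)) false k i

/-- the table is right -/
def Good (P0 P1 : ℕ) (rows : List ℕ) : Prop := ∀ n, GoodN P0 P1 rows n

/-- lower bounds for lists with `ss / h² ≥ S_126` (values of `gns` minus `E`) -/
def BaseOk (P0 E : ℕ) : Prop :=
  ∀ p : ℝ, (P0 : ℝ) / 16384 ≤ p → 1 / 5 ≤ p → p ≤ 1 / 2 →
    ∀ (h : ℝ) (l : List ℝ), Srt (h :: l) → h ≠ 0 → Sc 126 ≤ ss (h :: l) / h ^ 2 →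
      ∀ (i : ℕ) (t : ℝ), t ≤ ((i : ℝ) - 200) / 50 * sd p (h :: l) →
        ((gns.getD i 0 : ℝ) - (E : ℝ)) / 65536 ≤ Pr p (h :: l) t

/-- real meaning of a tree of prefix patterns: `p = ((1 - u) P0 + u P1) / 2 ^ 14`, `l` the rest of the list -/
noncomputable def Tr.val (p u : ℝ) (l : List ℝ) : Tr → ℝ
  | .lf a b => Pr p l (((1 - u) * (a : ℝ) + u * (b : ℝ) - 1099511627776) / 16384000)
  | .nd P x y => (P : ℝ) / 16384 * Tr.val p u l x + (1 - (P : ℝ) / 16384) * Tr.val p u l y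

/-- all weights of the tree are at most `2 ^ 14` -/
def Tr.Wt : Tr → Prop
  | .lf _ _ => True
  | .nd P x y => P ≤ 16384 ∧ Tr.Wt x ∧ Tr.Wt y

end Pool.Agent.MMS14
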