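import Pool.Agent.MMS14.EvS

/-!
# MMS14/Minor: the trigonometric minorant of the indicator of `[0, ∞)`

`pos_all`, `neg_all` by `decide +kernel` (3 s).  With `δ = 1/100`: for every `ω`, `φ` the function `cos (ω y + φ) + ω² y² / 2` is convex,
so on `[a, a + δ]` a trigonometric polynomial `g` satisfies `g(y) ≤ (1-λ) g(a) + λ g(a+δ) + M₂ δ² / 8` with
`M₂ = ∑ (m π/10)² √(Am² + Bm²) ≤ ∑ (m π/10)² Cm_m / 2^30 ≤ 4.0562` (`Cm_m² ≥ coP² + coN²`-type integer checks: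
`(coP_m.1 + coN_m.1)² + (coP_m.2 + coN_m.2)² ≤ Cm_m²`), and `c y² ≥ (1-λ) c a² + λ c (a+δ)² - 2 c δ²/8 ..` exactly
`c y² = chord - c λ(1-λ) δ²`.  Total loss at most `(4.0562 + 2 * 0.00978) / 80000 ≤ 5.1e-5`, the checks have slack `64000 / 2^30 = 5.96e-5`.
Let `c = c30 / 2^30`.  From the checks: (1) `g0 y ≤ c y²` on `[-10, 0]` (points `j = 1000 .. 2000`, `y = (j - 2000)/100`; the value at
`j` equals the value at `j - 2000` by periodicity), (2) `g0 y ≤ 1 + c y²` and `g0 y ≤ c (20 - y)²` on `[0, 10]`.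
For general `y` reduce modulo 20 to `y' ∈ [-10, 10]`, `y = y' + 20 n`: if `n = 0` use (1), (2).  `n ≥ 1` (`y ≥ 10 > 0`): need `g0 ≤ 1 + c y²`:
`y² ≥ y'²`.  `n ≤ -1` (`y < 0`): need `g0 ≤ c y²`: if `y' ≤ 0`, `y² ≥ y'²`; if `y' ≥ 0`, `|y| ≥ 20 - y'`.
-/

set_option autoImplicit false

namespace Pool.Agent.MMS14

theorem pos_all : allb 1001 posOk = true := by
  decide +kernel

theorem neg_all : allb 1001 (fun m => negOk (Nat.add m 1000)) = true := by
  decide +kernel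

private theorem trig_le {a b M t : ℝ} (hM : a ^ 2 + b ^ 2 ≤ M ^ 2) (hM0 : 0 ≤ M) :
    a * Real.cos t + b * Real.sin t ≤ M := by
  have h1 := Real.sin_sq_add_cos_sq t
  have h2 : (a * Real.cos t + b * Real.sin t) ^ 2 ≤ M ^ 2 := by
    have h3 : (a * Real.cos t + b * Real.sin t) ^ 2 + (a * Real.sin t - b * Real.cos t) ^ 2 =
        (a ^ 2 + b ^ 2) * (Real.sin t ^ 2 + Real.cos t ^ 2) := by ring
    rw [h1, mul_one] at h3
    nlinarith [sq_nonneg (a * Real.sin t - b * Real.cos t)]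
  exact abs_le_of_sq_le_sq' h2 hM0 |>.2

private theorem conv_aux {a b ω M : ℝ} (hM : a ^ 2 + b ^ 2 ≤ M ^ 2) (hM0 : 0 ≤ M) :
    ConvexOn ℝ Set.univ (fun t : ℝ => a * Real.cos (ω * t) + b * Real.sin (ω * t) + ω ^ 2 * M / 2 * t ^ 2) := by
  have hl : ∀ t : ℝ, HasDerivAt (fun t : ℝ => ω * t) ω t := fun t => by
    simpa using (hasDerivAt_id t).const_mul ω
  have h1 : ∀ t : ℝ, HasDerivAt (fun t : ℝ => a * Real.cos (ω * t) + b * Real.sin (ω * t) + ω ^ 2 * M / 2 * t ^ 2)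
      (-(a * ω) * Real.sin (ω * t) + b * ω * Real.cos (ω * t) + ω ^ 2 * M * t) t := fun t => by
    have := (((hl t).cos.const_mul a).add ((hl t).sin.const_mul b)).add ((hasDerivAt_pow 2 t).const_mul (ω ^ 2 * M / 2))
    refine this.congr_deriv ?_
    push_cast
    ring
  have h2 : ∀ t : ℝ, HasDerivAt (fun t : ℝ => -(a * ω) * Real.sin (ω * t) + b * ω * Real.cos (ω * t) + ω ^ 2 * M * t)
      (ω ^ 2 * (M - (a * Real.cos (ω * t) + b * Real.sin (ω * t)))) t := fun t => by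
    have := (((hl t).sin.const_mul (-(a * ω))).add ((hl t).cos.const_mul (b * ω))).add ((hasDerivAt_id t).const_mul (ω ^ 2 * M))
    refine this.congr_deriv ?_
    ring
  have hd1 : deriv (fun t : ℝ => a * Real.cos (ω * t) + b * Real.sin (ω * t) + ω ^ 2 * M / 2 * t ^ 2) =
      fun t : ℝ => -(a * ω) * Real.sin (ω * t) + b * ω * Real.cos (ω * t) + ω ^ 2 * M * t := by
    funext t
    exact (h1 t).deriv
  refine convexOn_univ_of_deriv2_nonneg (fun t => (h1 t).differentiableAt) ?_ ?_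
  · rw [hd1]
    exact fun t => (h2 t).differentiableAt
  · intro t
    rw [Function.iterate_succ, Function.iterate_one, Function.comp_apply, hd1, (h2 t).deriv]
    exact mul_nonneg (sq_nonneg ω) (sub_nonneg.mpr (trig_le hM hM0))

theorem interp {a b ω y x δ M : ℝ} (hδ : 0 < δ) (h1 : x ≤ y) (h2 : y ≤ x + δ) (hM : a ^ 2 + b ^ 2 ≤ M ^ 2) (hM0 : 0 ≤ M) :
    a * Real.cos (ω * y) + b * Real.sin (ω * y) ≤
      (1 - (y - x) / δ) * (a * Real.cos (ω * x) + b * Real.sin (ω * x)) +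
        (y - x) / δ * (a * Real.cos (ω * (x + δ)) + b * Real.sin (ω * (x + δ))) + ω ^ 2 * M * δ ^ 2 / 8 := by
  have hc := conv_aux (ω := ω) hM hM0
  obtain ⟨l, hl⟩ : ∃ l : ℝ, l = (y - x) / δ := ⟨_, rfl⟩
  have hl0 : 0 ≤ l := by rw [hl]; exact div_nonneg (by linarith) hδ.le
  have hl1 : l ≤ 1 := by rw [hl, div_le_one hδ]; linarith
  have hy : y = x + l * δ := by rw [hl]; field_simp; ring
  have h := hc.2 (Set.mem_univ x) (Set.mem_univ (x + δ)) (sub_nonneg.mpr hl1) hl0 (by ring : (1 - l) + l = 1)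
  simp only [smul_eq_mul] at h
  have he : (1 - l) * x + l * (x + δ) = y := by rw [hy]; ring
  rw [he] at h
  rw [← hl]
  have hq : (1 - l) * x ^ 2 + l * (x + δ) ^ 2 - y ^ 2 = l * (1 - l) * δ ^ 2 := by rw [hy]; ring
  have hq2 : l * (1 - l) ≤ 1 / 4 := by nlinarith [sq_nonneg (l - 1 / 2)]
  have hq3 : l * (1 - l) * δ ^ 2 ≤ δ ^ 2 / 4 := by nlinarith [sq_nonneg δ]
  have hq4 : ω ^ 2 * M / 2 * (l * (1 - l) * δ ^ 2) ≤ ω ^ 2 * M / 2 * (δ ^ 2 / 4) :=
    mul_le_mul_of_nonneg_left hq3 (by positivity)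
  rw [← hq] at hq4
  nlinarith [h, hq4]

/-- the checks for the amplitudes -/
private def cmb : Bool := (List.range 18).all fun m =>
  Nat.ble (((coP.getD m (0, 0)).1 + (coN.getD m (0, 0)).1) ^ 2 + ((coP.getD m (0, 0)).2 + (coN.getD m (0, 0)).2) ^ 2)
    ((Cm.getD m 0) ^ 2)

private theorem cmb_true : cmb = true := by decide +kernel

private theorem cm_le {m : ℕ} (hm : m < 18) :
    cA coP coN m ^ 2 + cB coP coN m ^ 2 ≤ ((Cm.getD m 0 : ℕ) / 1073741824 : ℝ) ^ 2 := by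
  have h1 := cmb_true
  unfold cmb at h1
  rw [List.all_eq_true] at h1
  have h2 := Nat.le_of_ble_eq_true (h1 m (List.mem_range.mpr hm))
  have h3 : (((((coP.getD m (0, 0)).1 + (coN.getD m (0, 0)).1) ^ 2 + ((coP.getD m (0, 0)).2 + (coN.getD m (0, 0)).2) ^ 2 : ℕ)) : ℝ) ≤
      (((Cm.getD m 0) ^ 2 : ℕ) : ℝ) := Nat.cast_le.mpr h2
  push_cast at h3
  unfold cA cB
  rw [div_pow, div_pow, div_pow, ← add_div]
  refine div_le_div_of_nonneg_right ?_ (by positivity)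
  have p1 : (0 : ℝ) ≤ ((coP.getD m (0, 0)).1 : ℝ) := Nat.cast_nonneg _
  have p2 : (0 : ℝ) ≤ ((coN.getD m (0, 0)).1 : ℝ) := Nat.cast_nonneg _
  have p3 : (0 : ℝ) ≤ ((coP.getD m (0, 0)).2 : ℝ) := Nat.cast_nonneg _
  have p4 : (0 : ℝ) ≤ ((coN.getD m (0, 0)).2 : ℝ) := Nat.cast_nonneg _
  nlinarith [mul_nonneg p1 p2, mul_nonneg p3 p4]

private theorem cm_sum : (∑ m ∈ Finset.range 18, (m + 1) ^ 2 * Cm.getD m 0) ≤ 44129000000 := by decide +kernel

private theorem m2_le : ∑ m ∈ Finset.range 18, (((m : ℝ) + 1) * (Real.pi / 10)) ^ 2 * ((Cm.getD m 0 : ℕ) / 1073741824 : ℝ) *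
    (1 / 100 : ℝ) ^ 2 / 8 ≤ 51 / 1000000 := by
  have h1 : ∑ m ∈ Finset.range 18, (((m : ℝ) + 1) * (Real.pi / 10)) ^ 2 * ((Cm.getD m 0 : ℕ) / 1073741824 : ℝ) *
    (1 / 100 : ℝ) ^ 2 / 8 = Real.pi ^ 2 * (1 / (100 * 1073741824 * 80000)) *
      ((∑ m ∈ Finset.range 18, (m + 1) ^ 2 * Cm.getD m 0 : ℕ) : ℝ) := by
    push_cast
    rw [Finset.mul_sum]
    refine Finset.sum_congr rfl fun m _ => ?_
    ring
  rw [h1]
  have h2 : ((∑ m ∈ Finset.range 18, (m + 1) ^ 2 * Cm.getD m 0 : ℕ) : ℝ) ≤ 44129000000 := by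
    exact_mod_cast cm_sum
  have h3 : Real.pi ^ 2 ≤ 98697 / 10000 := by
    have := Real.pi_lt_d4
    have h0 := Real.pi_pos
    nlinarith
  have h4 : Real.pi ^ 2 * (1 / (100 * 1073741824 * 80000)) *
      ((∑ m ∈ Finset.range 18, (m + 1) ^ 2 * Cm.getD m 0 : ℕ) : ℝ) ≤ 98697 / 10000 * (1 / (100 * 1073741824 * 80000)) * 44129000000 := by
    refine mul_le_mul (mul_le_mul_of_nonneg_right h3 (by positivity)) h2 (Nat.cast_nonneg _) (by positivity)
  refine h4.trans ?_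
  norm_num

/-- linear interpolation of the trigonometric polynomial -/
private theorem tp_interp {x y : ℝ} (h1 : x ≤ y) (h2 : y ≤ x + 1 / 100) :
    tp coP coN y ≤ (1 - (y - x) / (1 / 100)) * tp coP coN x + (y - x) / (1 / 100) * tp coP coN (x + 1 / 100) + 51 / 1000000 := by
  have h3 : ∑ m ∈ Finset.range 18,
      (cA coP coN m * Real.cos (((m : ℝ) + 1) * (Real.pi / 10) * y) + cB coP coN m * Real.sin (((m : ℝ) + 1) * (Real.pi / 10) * y)) ≤
      ∑ m ∈ Finset.range 18,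
      ((1 - (y - x) / (1 / 100)) * (cA coP coN m * Real.cos (((m : ℝ) + 1) * (Real.pi / 10) * x) + cB coP coN m * Real.sin (((m : ℝ) + 1) * (Real.pi / 10) * x)) +
       (y - x) / (1 / 100) * (cA coP coN m * Real.cos (((m : ℝ) + 1) * (Real.pi / 10) * (x + 1 / 100)) + cB coP coN m * Real.sin (((m : ℝ) + 1) * (Real.pi / 10) * (x + 1 / 100))) +
       (((m : ℝ) + 1) * (Real.pi / 10)) ^ 2 * ((Cm.getD m 0 : ℕ) / 1073741824 : ℝ) * (1 / 100 : ℝ) ^ 2 / 8) := by
    refine Finset.sum_le_sum fun m hm => ?_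
    exact interp (by norm_num) h1 h2 (cm_le (Finset.mem_range.mp hm)) (by positivity)
  have hsum : ∀ (l : ℝ) (F G H : ℕ → ℝ), ∑ m ∈ Finset.range 18, ((1 - l) * F m + l * G m + H m) =
      (1 - l) * ∑ m ∈ Finset.range 18, F m + l * ∑ m ∈ Finset.range 18, G m + ∑ m ∈ Finset.range 18, H m := by
    intro l F G H
    rw [Finset.mul_sum, Finset.mul_sum, ← Finset.sum_add_distrib, ← Finset.sum_add_distrib]
  rw [hsum] at h3
  have h4 := m2_le
  unfold tp
  linarith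

/-- comparison with a parabola on one grid interval -/
private theorem step_le {al ga : ℝ} {j : ℕ} {y : ℝ} (h1 : (j : ℝ) / 100 ≤ y) (h2 : y ≤ ((j + 1 : ℕ) : ℝ) / 100)
    (hj : tp coP coN ((j : ℝ) / 100) ≤ al + (c30 : ℝ) / 1073741824 * (ga - (j : ℝ) / 100) ^ 2 - 59 / 1000000)
    (hj' : tp coP coN (((j + 1 : ℕ) : ℝ) / 100) ≤ al + (c30 : ℝ) / 1073741824 * (ga - ((j + 1 : ℕ) : ℝ) / 100) ^ 2 - 59 / 1000000) :
    tp coP coN y ≤ al + (c30 : ℝ) / 1073741824 * (ga - y) ^ 2 := by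
  obtain ⟨x, hx⟩ : ∃ x : ℝ, x = (j : ℝ) / 100 := ⟨_, rfl⟩
  have hx' : ((j + 1 : ℕ) : ℝ) / 100 = x + 1 / 100 := by rw [hx]; push_cast; ring
  rw [hx'] at h2 hj'
  rw [← hx] at h1 hj
  have h3 := tp_interp h1 h2
  obtain ⟨l, hl⟩ : ∃ l : ℝ, l = (y - x) / (1 / 100) := ⟨_, rfl⟩
  have hl0 : 0 ≤ l := by rw [hl]; exact div_nonneg (by linarith) (by norm_num)
  have hl1 : l ≤ 1 := by rw [hl, div_le_one (by norm_num)]; linarith
  have hy : y = x + l * (1 / 100) := by rw [hl]; ring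
  rw [← hl] at h3
  have h4 : (1 - l) * tp coP coN x ≤ (1 - l) * (al + (c30 : ℝ) / 1073741824 * (ga - x) ^ 2 - 59 / 1000000) :=
    mul_le_mul_of_nonneg_left hj (by linarith)
  have h5 : l * tp coP coN (x + 1 / 100) ≤ l * (al + (c30 : ℝ) / 1073741824 * (ga - (x + 1 / 100)) ^ 2 - 59 / 1000000) :=
    mul_le_mul_of_nonneg_left hj' hl0
  have hc : (c30 : ℝ) / 1073741824 ≤ 1 / 100 := by
    unfold c30; norm_num
  have hc0 : 0 ≤ (c30 : ℝ) / 1073741824 := by positivity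
  obtain ⟨c, hcd⟩ : ∃ c : ℝ, c = (c30 : ℝ) / 1073741824 := ⟨_, rfl⟩
  rw [← hcd] at h4 h5 hc hc0 ⊢
  have hq : (1 - l) * (al + c * (ga - x) ^ 2 - 59 / 1000000) + l * (al + c * (ga - (x + 1 / 100)) ^ 2 - 59 / 1000000) =
      al + c * (ga - y) ^ 2 - 59 / 1000000 + c * (l * (1 - l)) * (1 / 10000) := by
    rw [hy]; ring
  have hq2 : l * (1 - l) ≤ 1 / 4 := by nlinarith [sq_nonneg (l - 1 / 2)]
  have hq3 : c * (l * (1 - l)) ≤ 1 / 100 * (1 / 4) :=
    mul_le_mul hc hq2 (mul_nonneg hl0 (by linarith)) (by norm_num)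
  nlinarith [h3, h4, h5, hq, hq3]

private theorem grid {j : ℕ} {al ga : ℝ} (h : ((lhs coP coN j : ℝ) + (slk : ℝ) * o56) / (1073741824 * 72057594037927936) -
      (rhs coP coN j : ℝ) / (1073741824 * 72057594037927936) ≤ al + (c30 : ℝ) / 1073741824 * (ga - (j : ℝ) / 100) ^ 2) :
    tp coP coN ((j : ℝ) / 100) ≤ al + (c30 : ℝ) / 1073741824 * (ga - (j : ℝ) / 100) ^ 2 - 59 / 1000000 := by
  have h1 := (abs_le.mp (ev_sound (P := coP) (N := coN) (by decide) (by decide) su_co j)).1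
  have h2 : (slk : ℝ) * o56 / (1073741824 * 72057594037927936) = 64000 / 1073741824 := by
    unfold slk o56; norm_num
  rw [add_div, h2] at h
  rw [sub_div] at h1
  have h3 : (1 : ℝ) / 2 ^ 38 ≤ 64000 / 1073741824 - 59 / 1000000 := by norm_num
  linarith

private theorem pos_grid {j : ℕ} (hj : j < 1001) :
    tp coP coN ((j : ℝ) / 100) ≤ 1 + (c30 : ℝ) / 1073741824 * (0 - (j : ℝ) / 100) ^ 2 - 59 / 1000000 ∧
    tp coP coN ((j : ℝ) / 100) ≤ 0 + (c30 : ℝ) / 1073741824 * (20 - (j : ℝ) / 100) ^ 2 - 59 / 1000000 := by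
  have h1 := allb_sound pos_all j hj
  unfold posOk at h1
  rw [et_true] at h1
  obtain ⟨h2, h3⟩ := h1
  replace h2 := Nat.le_of_ble_eq_true h2
  replace h3 := Nat.le_of_ble_eq_true h3
  simp only [Nat.add_eq, Nat.mul_eq, Nat.sub_eq] at h2 h3
  have h2' : ((10000 * (lhs coP coN j + slk * o56) : ℕ) : ℝ) ≤
      ((10000 * (rhs coP coN j + 1073741824 * o56) + c30 * (j * j) * o56 : ℕ) : ℝ) := Nat.cast_le.mpr h2
  have h3' : ((10000 * (lhs coP coN j + slk * o56) : ℕ) : ℝ) ≤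
      ((10000 * rhs coP coN j + c30 * ((2000 - j) * (2000 - j)) * o56 : ℕ) : ℝ) := Nat.cast_le.mpr h3
  have ho : (o56 : ℝ) = 72057594037927936 := by unfold o56; norm_num
  have hs : ((2000 - j : ℕ) : ℝ) = 2000 - (j : ℝ) := by
    rw [Nat.cast_sub (by omega)]; norm_num
  constructor
  · refine grid ?_
    push_cast at h2'
    rw [← sub_div, div_le_iff₀ (by positivity)]
    rw [ho] at h2' ⊢
    have : (1 + (c30 : ℝ) / 1073741824 * (0 - (j : ℝ) / 100) ^ 2) * (1073741824 * 72057594037927936) =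
      1073741824 * 72057594037927936 + (c30 : ℝ) * ((j : ℝ) * j) * 72057594037927936 / 10000 := by
      ring
    rw [this]
    linarith
  · refine grid ?_
    push_cast at h3'
    rw [hs] at h3'
    rw [← sub_div, div_le_iff₀ (by positivity)]
    rw [ho] at h3' ⊢
    have : (0 + (c30 : ℝ) / 1073741824 * (20 - (j : ℝ) / 100) ^ 2) * (1073741824 * 72057594037927936) =
      (c30 : ℝ) * ((2000 - (j : ℝ)) * (2000 - (j : ℝ))) * 72057594037927936 / 10000 := by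
      ring
    rw [this]
    linarith

private theorem neg_grid {j : ℕ} (h0 : 1000 ≤ j) (hj : j ≤ 2000) :
    tp coP coN ((j : ℝ) / 100) ≤ 0 + (c30 : ℝ) / 1073741824 * (20 - (j : ℝ) / 100) ^ 2 - 59 / 1000000 := by
  have h1 := allb_sound neg_all (j - 1000) (by omega)
  have he : Nat.add (j - 1000) 1000 = j := by
    rw [Nat.add_eq]; omega
  simp only [he] at h1
  unfold negOk at h1
  replace h1 := Nat.le_of_ble_eq_true h1
  simp only [Nat.add_eq, Nat.mul_eq, Nat.sub_eq] at h1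
  have h3' : ((10000 * (lhs coP coN j + slk * o56) : ℕ) : ℝ) ≤
      ((10000 * rhs coP coN j + c30 * ((2000 - j) * (2000 - j)) * o56 : ℕ) : ℝ) := Nat.cast_le.mpr h1
  have ho : (o56 : ℝ) = 72057594037927936 := by unfold o56; norm_num
  have hs : ((2000 - j : ℕ) : ℝ) = 2000 - (j : ℝ) := by
    rw [Nat.cast_sub (by omega)]; norm_num
  refine grid ?_
  push_cast at h3'
  rw [hs] at h3'
  rw [← sub_div, div_le_iff₀ (by positivity)]
  rw [ho] at h3' ⊢
  have : (0 + (c30 : ℝ) / 1073741824 * (20 - (j : ℝ) / 100) ^ 2) * (1073741824 * 72057594037927936) =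
    (c30 : ℝ) * ((2000 - (j : ℝ)) * (2000 - (j : ℝ))) * 72057594037927936 / 10000 := by
    ring
  rw [this]
  linarith

/-- the bound by `c (20 - y)²` on `[0, 20]` -/
private theorem le_right {y : ℝ} (h0 : 0 ≤ y) (h1 : y < 20) :
    tp coP coN y ≤ (c30 : ℝ) / 1073741824 * (20 - y) ^ 2 := by
  obtain ⟨j, hj⟩ : ∃ j : ℕ, j = ⌊100 * y⌋₊ := ⟨_, rfl⟩
  have h2 : (j : ℝ) ≤ 100 * y := by rw [hj]; exact Nat.floor_le (by linarith)
  have h3 : 100 * y < (j : ℝ) + 1 := by rw [hj]; exact Nat.lt_floor_add_one _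
  have h4 : j < 2000 := by
    have : (j : ℝ) < 2000 := by linarith
    exact_mod_cast this
  have key : ∀ i : ℕ, i ≤ 2000 →
      tp coP coN ((i : ℝ) / 100) ≤ 0 + (c30 : ℝ) / 1073741824 * (20 - (i : ℝ) / 100) ^ 2 - 59 / 1000000 := by
    intro i hi
    rcases lt_or_ge i 1000 with h | h
    · exact (pos_grid (by omega)).2
    · exact neg_grid h hi
  have h5 := step_le (al := 0) (ga := 20) (j := j) (y := y) (by linarith) (by push_cast; linarith) (key j h4.le) (key (j + 1) h4)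
  linarith

/-- the bound by `1 + c y²` on `[0, 10]` -/
private theorem le_left {y : ℝ} (h0 : 0 ≤ y) (h1 : y < 10) :
    tp coP coN y ≤ 1 + (c30 : ℝ) / 1073741824 * y ^ 2 := by
  obtain ⟨j, hj⟩ : ∃ j : ℕ, j = ⌊100 * y⌋₊ := ⟨_, rfl⟩
  have h2 : (j : ℝ) ≤ 100 * y := by rw [hj]; exact Nat.floor_le (by linarith)
  have h3 : 100 * y < (j : ℝ) + 1 := by rw [hj]; exact Nat.lt_floor_add_one _
  have h4 : j < 1000 := by
    have : (j : ℝ) < 1000 := by linarith
    exact_mod_cast this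
  have h5 := step_le (al := 1) (ga := 0) (j := j) (y := y) (by linarith) (by push_cast; linarith)
    (pos_grid (by omega)).1 (pos_grid (by omega)).1
  have h6 : (0 - y) ^ 2 = y ^ 2 := by ring
  rw [h6] at h5
  exact h5

theorem minorant (y : ℝ) :
    tp coP coN y - (c30 : ℝ) / 1073741824 * y ^ 2 ≤ if 0 ≤ y then 1 else 0 := by
  have hper : Function.Periodic (tp coP coN) 20 := fun z => tp_period coP coN z
  obtain ⟨n, hn⟩ : ∃ n : ℤ, n = ⌊y / 20⌋ := ⟨_, rfl⟩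
  obtain ⟨z, hz⟩ : ∃ z : ℝ, z = y - (n : ℝ) * 20 := ⟨_, rfl⟩
  have hn1 : (n : ℝ) ≤ y / 20 := by rw [hn]; exact Int.floor_le _
  have hn2 : y / 20 < (n : ℝ) + 1 := by rw [hn]; exact Int.lt_floor_add_one _
  have hz0 : 0 ≤ z := by rw [hz]; linarith
  have hz1 : z < 20 := by rw [hz]; linarith
  have hyz : tp coP coN y = tp coP coN z := by
    rw [hz]
    exact (hper.sub_int_mul_eq n).symm
  have hc0 : 0 ≤ (c30 : ℝ) / 1073741824 := by positivity
  rw [hyz]
  split_ifs with hy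
  · have hn0 : (0 : ℝ) ≤ (n : ℝ) := by
      have : 0 ≤ n := by rw [hn]; exact Int.floor_nonneg.mpr (by positivity)
      exact_mod_cast this
    have hzy : z ≤ y := by rw [hz]; linarith
    rcases lt_or_ge z 10 with h | h
    · have h1 := le_left hz0 h
      have h2 : (c30 : ℝ) / 1073741824 * z ^ 2 ≤ (c30 : ℝ) / 1073741824 * y ^ 2 :=
        mul_le_mul_of_nonneg_left (pow_le_pow_left₀ hz0 hzy 2) hc0
      linarith
    · have h1 := le_right hz0 hz1
      have h2 : (c30 : ℝ) / 1073741824 * (20 - z) ^ 2 ≤ (c30 : ℝ) / 1073741824 * y ^ 2 :=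
        mul_le_mul_of_nonneg_left (pow_le_pow_left₀ (by linarith) (by linarith) 2) hc0
      linarith
  · have hn0 : (n : ℝ) ≤ -1 := by
      have h3 : n < 0 := by
        rw [hn]
        refine Int.floor_lt.mpr ?_
        push_cast
        have := not_le.mp hy
        linarith
      have h4 : n ≤ -1 := by omega
      exact_mod_cast h4
    have h1 := le_right hz0 hz1
    have h2 : (c30 : ℝ) / 1073741824 * (20 - z) ^ 2 ≤ (c30 : ℝ) / 1073741824 * y ^ 2 := by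
      refine mul_le_mul_of_nonneg_left ?_ hc0
      have h3 : 0 ≤ 20 - z := by linarith
      have h4 : 20 - z ≤ -y := by rw [hz]; linarith
      have h5 := pow_le_pow_left₀ h3 h4 2
      have h6 : (-y) ^ 2 = y ^ 2 := by ring
      rw [h6] at h5
      exact h5
    linarith

end Pool.Agent.MMS14
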