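import Pool.Agent.MMS14.ExM

/-!
# MMS14/Char: characteristic function of the sum

`chf p s l = E exp (i s X) = ∏ (p e^(i s (1-p) a) + (1-p) e^(-i s p a))`.  `Ex_cos`, `Ex_sin`: induction on `l` for the statement
with an arbitrary phase `φ`: `Ex p l (fun x => cos (s x + φ)) = Re (e^(iφ) chf)`, `.. sin .. = Im (e^(iφ) chf)`
(multiplication of `e^(iφ)` by `e^(i s (1-p) a)` shifts the phase).
`trig_ge`: with `z = chf p s l`, `g = exp (- s² σ² / 2)` real: `Ex (a cos (s (x - τ)) + b sin (s (x - τ)))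
= Re ((a - i b) e^(-i s τ) z) = g (a cos (s τ) - b sin (s τ)) + Re ((a - i b) e^(-i s τ) (z - g))`
and the last term is at least `- √(a² + b²) ‖z - g‖`.
-/

set_option autoImplicit false

namespace Pool.Agent.MMS14

open Complex in
/-- the characteristic function -/
noncomputable def chf (p s : ℝ) (l : List ℝ) : ℂ :=
  (l.map (fun a : ℝ => (p : ℂ) * Complex.exp (((s * ((1 - p) * a) : ℝ) : ℂ) * Complex.I)
    + (1 - (p : ℂ)) * Complex.exp (((-(s * (p * a)) : ℝ) : ℂ) * Complex.I))).prod

private theorem exp_chf_cons (p s φ a : ℝ) (l : List ℝ) :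
    Complex.exp ((φ : ℂ) * Complex.I) * chf p s (a :: l) =
      ((p : ℝ) : ℂ) * (Complex.exp (((φ + s * ((1 - p) * a) : ℝ) : ℂ) * Complex.I) * chf p s l) +
      ((1 - p : ℝ) : ℂ) * (Complex.exp (((φ + -(s * (p * a)) : ℝ) : ℂ) * Complex.I) *
        chf p s l) := by
  have e1 : ∀ u : ℝ, Complex.exp (((φ + u : ℝ) : ℂ) * Complex.I) =
      Complex.exp ((φ : ℂ) * Complex.I) * Complex.exp ((u : ℂ) * Complex.I) := by
    intro u
    rw [← Complex.exp_add]
    congr 1
    push_cast
    ring
  rw [e1, e1]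
  unfold chf
  rw [List.map_cons, List.prod_cons]
  push_cast
  ring

private theorem chf_nil (p s : ℝ) : chf p s [] = 1 := by
  unfold chf
  rw [List.map_nil, List.prod_nil]

theorem Ex_cos (p s φ : ℝ) (l : List ℝ) :
    Ex p l (fun x => Real.cos (s * x + φ)) = (Complex.exp ((φ : ℂ) * Complex.I) * chf p s l).re := by
  induction l generalizing φ with
  | nil =>
    rw [chf_nil, mul_one, Complex.exp_ofReal_mul_I_re]
    simp [Ex]
  | cons a l ih =>
    rw [exp_chf_cons, Complex.add_re, Complex.re_ofReal_mul, Complex.re_ofReal_mul, ← ih, ← ih]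
    have h1 : (fun x : ℝ => Real.cos (s * x + (φ + s * ((1 - p) * a)))) =
        fun x => Real.cos (s * (x + (1 - p) * a) + φ) := by
      funext x
      congr 1
      ring
    have h2 : (fun x : ℝ => Real.cos (s * x + (φ + -(s * (p * a))))) =
        fun x => Real.cos (s * (x - p * a) + φ) := by
      funext x
      congr 1
      ring
    rw [h1, h2]
    rfl

theorem Ex_sin (p s φ : ℝ) (l : List ℝ) :
    Ex p l (fun x => Real.sin (s * x + φ)) = (Complex.exp ((φ : ℂ) * Complex.I) * chf p s l).im := by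
  induction l generalizing φ with
  | nil =>
    rw [chf_nil, mul_one, Complex.exp_ofReal_mul_I_im]
    simp [Ex]
  | cons a l ih =>
    rw [exp_chf_cons, Complex.add_im, Complex.im_ofReal_mul, Complex.im_ofReal_mul, ← ih, ← ih]
    have h1 : (fun x : ℝ => Real.sin (s * x + (φ + s * ((1 - p) * a)))) =
        fun x => Real.sin (s * (x + (1 - p) * a) + φ) := by
      funext x
      congr 1
      ring
    have h2 : (fun x : ℝ => Real.sin (s * x + (φ + -(s * (p * a))))) =
        fun x => Real.sin (s * (x - p * a) + φ) := by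
      funext x
      congr 1
      ring
    rw [h1, h2]
    rfl

theorem trig_ge (p s τ a b c g D : ℝ) (l : List ℝ) (hD : ‖chf p s l - (g : ℂ)‖ ≤ D) (hc : a ^ 2 + b ^ 2 ≤ c ^ 2)
    (hc0 : 0 ≤ c) :
    g * (a * Real.cos (s * τ) - b * Real.sin (s * τ)) - c * D ≤
      Ex p l (fun x => a * Real.cos (s * (x - τ)) + b * Real.sin (s * (x - τ))) := by
  have h1 : (fun x : ℝ => a * Real.cos (s * (x - τ)) + b * Real.sin (s * (x - τ))) =
      fun x => a * Real.cos (s * x + (-(s * τ))) + b * Real.sin (s * x + (-(s * τ))) := by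
    funext x
    have : s * (x - τ) = s * x + (-(s * τ)) := by ring
    rw [this]
  rw [h1, Ex_add p l (fun x => a * Real.cos (s * x + (-(s * τ))))
      (fun x => b * Real.sin (s * x + (-(s * τ)))),
    Ex_smul p a l (fun x => Real.cos (s * x + (-(s * τ)))),
    Ex_smul p b l (fun x => Real.sin (s * x + (-(s * τ)))), Ex_cos, Ex_sin]
  set w : ℂ := Complex.exp (((-(s * τ) : ℝ) : ℂ) * Complex.I) with hw
  set z : ℂ := chf p s l with hz
  have hwn : ‖w‖ = 1 := Complex.norm_exp_ofReal_mul_I _
  have hsplit : w * z = (g : ℂ) * w + w * (z - g) := by ring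
  have hre : w.re = Real.cos (s * τ) := by
    rw [hw, Complex.exp_ofReal_mul_I_re, Real.cos_neg]
  have him : w.im = -Real.sin (s * τ) := by
    rw [hw, Complex.exp_ofReal_mul_I_im, Real.sin_neg]
  set u : ℂ := w * (z - g) with hu
  have hun : ‖u‖ ≤ D := by
    rw [hu, norm_mul, hwn, one_mul]
    exact hD
  have hcs : |a * u.re + b * u.im| ≤ c * ‖u‖ := by
    apply abs_le_of_sq_le_sq _ (by positivity)
    rw [mul_pow, Complex.sq_norm, Complex.normSq_apply]
    have h2 : 0 ≤ u.re * u.re + u.im * u.im :=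
      add_nonneg (mul_self_nonneg _) (mul_self_nonneg _)
    calc (a * u.re + b * u.im) ^ 2 ≤ (a ^ 2 + b ^ 2) * (u.re * u.re + u.im * u.im) := by
          nlinarith [sq_nonneg (a * u.im - b * u.re)]
      _ ≤ c ^ 2 * (u.re * u.re + u.im * u.im) := mul_le_mul_of_nonneg_right hc h2
  have hlow := (abs_le.1 hcs).1
  have hD' : c * ‖u‖ ≤ c * D := mul_le_mul_of_nonneg_left hun hc0
  rw [hsplit, Complex.add_re, Complex.add_im, Complex.re_ofReal_mul, Complex.im_ofReal_mul,
    hre, him]
  nlinarith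

end Pool.Agent.MMS14
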