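import Mathlib

/-!
# MMS14/CharA: one factor of the characteristic function

`f(v) = p e^(i (1-p) v) + (1-p) e^(-i p v)`, `0 ≤ p ≤ 1/2`.

`one_norm`: `|f|² = 1 - 2 p (1-p) (1 - cos v) ≤ exp (- 2 p (1-p) (1 - cos v))` (`1 + x ≤ exp x`).
`one_gauss`: `|e^(ix) - (1 + ix - x²/2 - i x³/6)| ≤ x⁴/24` for real `x` (Taylor with integral remainder; e.g. from
`Complex.norm_exp_sub_sum_le_norm_mul_exp` is too weak for large `x`; use the derivative chain: `|e^(ix) - 1| ≤ |x|`,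
`|e^(ix) - 1 - ix| ≤ x²/2`, ... by integration, or `cos`, `sin` bounds of Mathlib and `norm_num`), hence with `E (ξ-p) = 0`,
`E (ξ-p)² = p(1-p)`, `E (ξ-p)³ = p(1-p)(1-2p)`, `E (ξ-p)⁴ = p(1-p)(1-3p(1-p))`:
`|f(v) - (1 - p(1-p) v²/2)| ≤ p(1-p)(1-2p)|v|³/6 + p(1-p)(1-3p(1-p)) v⁴/24`, and
`|e^(-z) - (1 - z)| ≤ z²/2` for `z = p(1-p)v²/2 ≥ 0` adds `(p(1-p))² v⁴ / 8 = 3 (p(1-p))² v⁴/24`.
`cos_ge`: `1 - cos v ≥ v²/2 - v⁴/24 + v⁶/720 - v⁸/40320` for all real `v`, and `κ(x) = 1 - x/12 + x²/360 - x³/20160` is decreasing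
in `x = v²` (its derivative `-1/12 + x/180 - x²/6720` has negative discriminant), so `κ(u²) ≤ κ(v²)` for `|v| ≤ u`.
-/

set_option autoImplicit false

namespace Pool.Agent.MMS14

/-- one factor -/
noncomputable def f1 (p v : ℝ) : ℂ :=
  (p : ℂ) * Complex.exp ((((1 - p) * v : ℝ) : ℂ) * Complex.I) + (1 - (p : ℂ)) * Complex.exp (((-(p * v) : ℝ) : ℂ) * Complex.I)

theorem one_norm {p : ℝ} (h0 : 0 ≤ p) (h1 : p ≤ 1) (v : ℝ) :
    ‖f1 p v‖ ≤ Real.exp (-(p * (1 - p) * (1 - Real.cos v))) := by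
  have e1 : f1 p v = Complex.exp (((-(p * v) : ℝ) : ℂ) * Complex.I) *
      ((p : ℂ) * Complex.exp ((v : ℂ) * Complex.I) + (1 - (p : ℂ))) := by
    unfold f1
    have : Complex.exp ((((1 - p) * v : ℝ) : ℂ) * Complex.I) =
        Complex.exp (((-(p * v) : ℝ) : ℂ) * Complex.I) * Complex.exp ((v : ℂ) * Complex.I) := by
      rw [← Complex.exp_add]
      congr 1
      push_cast
      ring
    rw [this]
    ring
  have e2 : ‖f1 p v‖ = ‖(p : ℂ) * Complex.exp ((v : ℂ) * Complex.I) + (1 - (p : ℂ))‖ := by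
    rw [e1, norm_mul, Complex.norm_exp_ofReal_mul_I, one_mul]
  have e3 : ‖f1 p v‖ ^ 2 = 1 + -(2 * (p * (1 - p) * (1 - Real.cos v))) := by
    rw [e2, ← Complex.normSq_eq_norm_sq, Complex.normSq_apply]
    have hre : ((p : ℂ) * Complex.exp ((v : ℂ) * Complex.I) + (1 - (p : ℂ))).re =
        p * Real.cos v + (1 - p) := by
      simp [Complex.exp_ofReal_mul_I_re]
    have him : ((p : ℂ) * Complex.exp ((v : ℂ) * Complex.I) + (1 - (p : ℂ))).im =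
        p * Real.sin v := by
      simp [Complex.exp_ofReal_mul_I_im]
    rw [hre, him]
    have := Real.sin_sq_add_cos_sq v
    linear_combination p ^ 2 * this
  have e4 : ‖f1 p v‖ ^ 2 ≤ (Real.exp (-(p * (1 - p) * (1 - Real.cos v)))) ^ 2 := by
    rw [e3, ← Real.exp_nat_mul]
    have := Real.add_one_le_exp (-(2 * (p * (1 - p) * (1 - Real.cos v))))
    have e5 : ((2 : ℕ) : ℝ) * -(p * (1 - p) * (1 - Real.cos v)) =
        -(2 * (p * (1 - p) * (1 - Real.cos v))) := by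
      push_cast
      ring
    rw [e5]
    linarith
  exact le_of_sq_le_sq e4 (Real.exp_pos _).le

private theorem step {f f' : ℝ → ℂ} {B B' : ℝ → ℝ} (hf : ∀ x, HasDerivAt f (f' x) x)
    (h0 : f 0 = 0) (hB0 : B 0 = 0) (hB : ∀ x, HasDerivAt B (B' x) x)
    (h : ∀ x, 0 ≤ x → ‖f' x‖ ≤ B' x) : ∀ x, 0 ≤ x → ‖f x‖ ≤ B x := by
  intro x hx
  refine image_norm_le_of_norm_deriv_right_le_deriv_boundary (f := f) (f' := f') (a := 0) (b := x)
    (fun y _ => (hf y).continuousAt.continuousWithinAt) (fun y _ => (hf y).hasDerivWithinAt)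
    (by rw [h0, hB0]; simp) hB (fun y hy => h y hy.1) ⟨hx, le_refl x⟩

private theorem dexp (x : ℝ) : HasDerivAt (fun y : ℝ => Complex.exp ((y : ℂ) * Complex.I))
    (Complex.I * Complex.exp ((x : ℂ) * Complex.I)) x := by
  have h1 : HasDerivAt (fun y : ℂ => Complex.exp (y * Complex.I))
      (Complex.exp ((x : ℂ) * Complex.I) * (1 * Complex.I)) (x : ℂ) :=
    ((hasDerivAt_id (x : ℂ)).mul_const Complex.I).cexp
  have h2 := h1.comp_ofReal
  convert h2 using 1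
  ring

private theorem dpow (n : ℕ) (c : ℂ) (x : ℝ) : HasDerivAt (fun y : ℝ => c * (y : ℂ) ^ n)
    (c * ((n : ℂ) * (x : ℂ) ^ (n - 1))) x := by
  have h1 : HasDerivAt (fun y : ℂ => c * y ^ n) (c * ((n : ℂ) * (x : ℂ) ^ (n - 1))) (x : ℂ) :=
    (hasDerivAt_pow n (x : ℂ)).const_mul c
  exact h1.comp_ofReal

private theorem g1b : ∀ x : ℝ, 0 ≤ x → ‖Complex.exp ((x : ℂ) * Complex.I) - 1‖ ≤ x := by
  refine step (f' := fun x => Complex.I * Complex.exp ((x : ℂ) * Complex.I)) (B := fun x => x)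
    (B' := fun _ => 1) (fun x => (dexp x).sub_const 1) (by simp) rfl (fun x => hasDerivAt_id x) ?_
  intro x _
  rw [norm_mul, Complex.norm_exp_ofReal_mul_I, Complex.norm_I]
  norm_num

private theorem g2b : ∀ x : ℝ, 0 ≤ x →
    ‖Complex.exp ((x : ℂ) * Complex.I) - 1 - Complex.I * (x : ℂ) ^ 1‖ ≤ x ^ 2 / 2 := by
  refine step (f' := fun x => Complex.I * (Complex.exp ((x : ℂ) * Complex.I) - 1))
    (B := fun x => x ^ 2 / 2) (B' := fun x => x) (fun x => ?_) (by simp) (by simp) (fun x => ?_) ?_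
  · have := ((dexp x).sub_const 1).sub (dpow 1 Complex.I x)
    refine this.congr_deriv ?_
    simp
    ring
  · have := (hasDerivAt_pow 2 x).div_const 2
    refine this.congr_deriv ?_
    simp
  · intro x hx
    rw [norm_mul, Complex.norm_I, one_mul]
    exact g1b x hx

private theorem g3b : ∀ x : ℝ, 0 ≤ x →
    ‖Complex.exp ((x : ℂ) * Complex.I) - 1 - Complex.I * (x : ℂ) ^ 1 + 1 / 2 * (x : ℂ) ^ 2‖ ≤
      x ^ 3 / 6 := by
  refine step (f' := fun x => Complex.I *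
      (Complex.exp ((x : ℂ) * Complex.I) - 1 - Complex.I * (x : ℂ) ^ 1))
    (B := fun x => x ^ 3 / 6) (B' := fun x => x ^ 2 / 2) (fun x => ?_) (by simp) (by simp)
    (fun x => ?_) ?_
  · have := (((dexp x).sub_const 1).sub (dpow 1 Complex.I x)).add (dpow 2 (1 / 2) x)
    refine this.congr_deriv ?_
    simp
    linear_combination (x : ℂ) * Complex.I_mul_I
  · have := (hasDerivAt_pow 3 x).div_const 6
    refine this.congr_deriv ?_
    simp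
    ring
  · intro x hx
    rw [norm_mul, Complex.norm_I, one_mul]
    exact g2b x hx

private theorem g4b : ∀ x : ℝ, 0 ≤ x →
    ‖Complex.exp ((x : ℂ) * Complex.I) - 1 - Complex.I * (x : ℂ) ^ 1 + 1 / 2 * (x : ℂ) ^ 2 +
      Complex.I / 6 * (x : ℂ) ^ 3‖ ≤ x ^ 4 / 24 := by
  refine step (f' := fun x => Complex.I *
      (Complex.exp ((x : ℂ) * Complex.I) - 1 - Complex.I * (x : ℂ) ^ 1 + 1 / 2 * (x : ℂ) ^ 2))
    (B := fun x => x ^ 4 / 24) (B' := fun x => x ^ 3 / 6) (fun x => ?_) (by simp) (by simp)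
    (fun x => ?_) ?_
  · have := ((((dexp x).sub_const 1).sub (dpow 1 Complex.I x)).add (dpow 2 (1 / 2) x)).add
      (dpow 3 (Complex.I / 6) x)
    refine this.congr_deriv ?_
    simp
    linear_combination (x : ℂ) * Complex.I_mul_I
  · have := (hasDerivAt_pow 4 x).div_const 24
    refine this.congr_deriv ?_
    simp
    ring
  · intro x hx
    rw [norm_mul, Complex.norm_I, one_mul]
    exact g3b x hx

private theorem g4 (x : ℝ) :
    ‖Complex.exp ((x : ℂ) * Complex.I) - 1 - Complex.I * (x : ℂ) ^ 1 + 1 / 2 * (x : ℂ) ^ 2 +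
      Complex.I / 6 * (x : ℂ) ^ 3‖ ≤ x ^ 4 / 24 := by
  rcases le_total 0 x with hx | hx
  · exact g4b x hx
  · have h := g4b (-x) (by linarith)
    have e1 : (starRingEnd ℂ) (Complex.exp (((-x : ℝ) : ℂ) * Complex.I) - 1 -
        Complex.I * ((-x : ℝ) : ℂ) ^ 1 + 1 / 2 * ((-x : ℝ) : ℂ) ^ 2 +
        Complex.I / 6 * ((-x : ℝ) : ℂ) ^ 3) =
        Complex.exp ((x : ℂ) * Complex.I) - 1 - Complex.I * (x : ℂ) ^ 1 + 1 / 2 * (x : ℂ) ^ 2 +
          Complex.I / 6 * (x : ℂ) ^ 3 := by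
      simp only [map_add, map_sub, map_mul, map_pow, map_div₀, map_one, Complex.conj_I,
        Complex.conj_ofReal, ← Complex.exp_conj, map_ofNat]
      push_cast
      ring_nf
    rw [← e1, Complex.norm_conj]
    have e2 : (-x) ^ 4 = x ^ 4 := by ring
    rw [e2] at h
    exact h

private theorem expb {z : ℝ} (hz : 0 ≤ z) : |Real.exp (-z) - (1 - z)| ≤ z ^ 2 / 2 := by
  rw [abs_le]
  constructor
  · have := Real.add_one_le_exp (-z)
    nlinarith [sq_nonneg z]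
  · have h1 := Real.quadratic_le_exp_of_nonneg hz
    have h2 : Real.exp (-z) * Real.exp z = 1 := by
      rw [← Real.exp_add]
      simp
    have h3 : 0 < Real.exp (-z) := Real.exp_pos _
    have h4 : 0 < 1 + z + z ^ 2 / 2 := by positivity
    have h5 : Real.exp (-z) * (1 + z + z ^ 2 / 2) ≤ 1 := by
      exact (mul_le_mul_of_nonneg_left h1 h3.le).trans h2.le
    have h6 : (1 : ℝ) ≤ (1 - z + z ^ 2 / 2) * (1 + z + z ^ 2 / 2) := by
      nlinarith [sq_nonneg (z ^ 2)]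
    have h7 : Real.exp (-z) ≤ 1 - z + z ^ 2 / 2 := le_of_mul_le_mul_right (h5.trans h6) h4
    linarith

theorem one_gauss {p : ℝ} (h0 : 0 ≤ p) (h1 : p ≤ 1 / 2) (v : ℝ) :
    ‖f1 p v - (Real.exp (-(p * (1 - p) * v ^ 2 / 2)) : ℂ)‖ ≤
      p * (1 - p) * v ^ 2 * ((1 - 2 * p) * |v| / 6 + v ^ 2 / 24) := by
  have hq : 0 ≤ 1 - p := by linarith
  set x1 : ℝ := (1 - p) * v with hx1
  set x2 : ℝ := -(p * v) with hx2
  set z : ℝ := p * (1 - p) * v ^ 2 / 2 with hz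
  have hz0 : 0 ≤ z := by positivity
  set A1 : ℂ := Complex.exp ((x1 : ℂ) * Complex.I) - 1 - Complex.I * (x1 : ℂ) ^ 1 +
    1 / 2 * (x1 : ℂ) ^ 2 + Complex.I / 6 * (x1 : ℂ) ^ 3 with hA1
  set A2 : ℂ := Complex.exp ((x2 : ℂ) * Complex.I) - 1 - Complex.I * (x2 : ℂ) ^ 1 +
    1 / 2 * (x2 : ℂ) ^ 2 + Complex.I / 6 * (x2 : ℂ) ^ 3 with hA2
  have hb1 : ‖A1‖ ≤ x1 ^ 4 / 24 := g4 x1
  have hb2 : ‖A2‖ ≤ x2 ^ 4 / 24 := g4 x2
  have hb3 := expb hz0
  have key : f1 p v - ((Real.exp (-z) : ℝ) : ℂ) = (p : ℂ) * A1 + (1 - (p : ℂ)) * A2 +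
      (-(Complex.I * ((p * (1 - p) * (1 - 2 * p) * v ^ 3 / 6 : ℝ) : ℂ))) -
      ((Real.exp (-z) - (1 - z) : ℝ) : ℂ) := by
    unfold f1
    rw [← hx1, ← hx2, hA1, hA2]
    push_cast
    rw [hz, hx1, hx2]
    push_cast
    ring
  rw [key]
  have t1 : ‖(p : ℂ) * A1‖ ≤ p * (x1 ^ 4 / 24) := by
    rw [norm_mul, Complex.norm_real, Real.norm_eq_abs, abs_of_nonneg h0]
    exact mul_le_mul_of_nonneg_left hb1 h0
  have t2 : ‖(1 - (p : ℂ)) * A2‖ ≤ (1 - p) * (x2 ^ 4 / 24) := by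
    have e : (1 - (p : ℂ)) = ((1 - p : ℝ) : ℂ) := by push_cast; ring
    rw [norm_mul, e, Complex.norm_real, Real.norm_eq_abs, abs_of_nonneg hq]
    exact mul_le_mul_of_nonneg_left hb2 hq
  have t3 : ‖-(Complex.I * ((p * (1 - p) * (1 - 2 * p) * v ^ 3 / 6 : ℝ) : ℂ))‖ =
      p * (1 - p) * (1 - 2 * p) * |v| ^ 3 / 6 := by
    rw [norm_neg, norm_mul, Complex.norm_I, one_mul, Complex.norm_real, Real.norm_eq_abs, abs_div,
      abs_mul, abs_mul, abs_mul, abs_of_nonneg h0, abs_of_nonneg hq,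
      abs_of_nonneg (by linarith : (0 : ℝ) ≤ 1 - 2 * p), abs_pow]
    norm_num
  have t4 : ‖((Real.exp (-z) - (1 - z) : ℝ) : ℂ)‖ ≤ z ^ 2 / 2 := by
    rw [Complex.norm_real, Real.norm_eq_abs]
    exact hb3
  refine (norm_sub_le _ _).trans ?_
  refine (add_le_add ((norm_add_le _ _).trans (add_le_add ((norm_add_le _ _).trans
    (add_le_add t1 t2)) t3.le)) t4).trans ?_
  have e3 : |v| ^ 3 = v ^ 2 * |v| := by
    rw [pow_succ, sq_abs]
  rw [e3, hx1, hx2, hz]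
  apply le_of_eq
  ring

private theorem nonneg_of_deriv {f f' : ℝ → ℝ} (hf : ∀ x, HasDerivAt f (f' x) x) (h0 : f 0 = 0)
    (h : ∀ x, 0 ≤ x → 0 ≤ f' x) : ∀ x, 0 ≤ x → 0 ≤ f x := by
  intro x hx
  have hm : MonotoneOn f (Set.Ici 0) := by
    refine monotoneOn_of_deriv_nonneg (convex_Ici 0)
      (fun y _ => (hf y).continuousAt.continuousWithinAt)
      (fun y _ => (hf y).differentiableAt.differentiableWithinAt) ?_
    intro y hy
    rw [interior_Ici] at hy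
    rw [(hf y).deriv]
    exact h y (le_of_lt hy)
  have := hm (Set.mem_Ici.2 (le_refl 0)) (Set.mem_Ici.2 hx) hx
  rw [h0] at this
  exact this

private theorem dp (n : ℕ) (c x : ℝ) : HasDerivAt (fun y : ℝ => c * y ^ n)
    (c * ((n : ℝ) * x ^ (n - 1))) x := (hasDerivAt_pow n x).const_mul c

private theorem s1 : ∀ x : ℝ, 0 ≤ x → 0 ≤ 1 * x ^ 1 - Real.sin x := by
  refine nonneg_of_deriv (f' := fun x => 1 - Real.cos x) (fun x => ?_) (by simp) ?_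
  · have := (dp 1 1 x).sub (Real.hasDerivAt_sin x)
    refine this.congr_deriv ?_
    simp
  · intro x _
    linarith [Real.cos_le_one x]

private theorem c2 : ∀ x : ℝ, 0 ≤ x → 0 ≤ Real.cos x - 1 + 1 / 2 * x ^ 2 := by
  refine nonneg_of_deriv (f' := fun x => 1 * x ^ 1 - Real.sin x) (fun x => ?_) (by simp) s1
  have := ((Real.hasDerivAt_cos x).sub_const 1).add (dp 2 (1 / 2) x)
  refine this.congr_deriv ?_
  simp
  ring

private theorem s3 : ∀ x : ℝ, 0 ≤ x → 0 ≤ Real.sin x - 1 * x ^ 1 + 1 / 6 * x ^ 3 := by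
  refine nonneg_of_deriv (f' := fun x => Real.cos x - 1 + 1 / 2 * x ^ 2) (fun x => ?_) (by simp) c2
  have := ((Real.hasDerivAt_sin x).sub (dp 1 1 x)).add (dp 3 (1 / 6) x)
  refine this.congr_deriv ?_
  simp
  ring

private theorem c4 : ∀ x : ℝ, 0 ≤ x →
    0 ≤ 1 - Real.cos x - 1 / 2 * x ^ 2 + 1 / 24 * x ^ 4 := by
  refine nonneg_of_deriv (f' := fun x => Real.sin x - 1 * x ^ 1 + 1 / 6 * x ^ 3) (fun x => ?_)
    (by simp) s3
  have := (((Real.hasDerivAt_cos x).const_sub 1).sub (dp 2 (1 / 2) x)).add (dp 4 (1 / 24) x)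
  refine this.congr_deriv ?_
  simp
  ring

private theorem s5 : ∀ x : ℝ, 0 ≤ x →
    0 ≤ 1 * x ^ 1 - Real.sin x - 1 / 6 * x ^ 3 + 1 / 120 * x ^ 5 := by
  refine nonneg_of_deriv (f' := fun x => 1 - Real.cos x - 1 / 2 * x ^ 2 + 1 / 24 * x ^ 4)
    (fun x => ?_) (by simp) c4
  have := (((dp 1 1 x).sub (Real.hasDerivAt_sin x)).sub (dp 3 (1 / 6) x)).add (dp 5 (1 / 120) x)
  refine this.congr_deriv ?_
  simp
  ring

private theorem c6 : ∀ x : ℝ, 0 ≤ x →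
    0 ≤ Real.cos x - 1 + 1 / 2 * x ^ 2 - 1 / 24 * x ^ 4 + 1 / 720 * x ^ 6 := by
  refine nonneg_of_deriv
    (f' := fun x => 1 * x ^ 1 - Real.sin x - 1 / 6 * x ^ 3 + 1 / 120 * x ^ 5)
    (fun x => ?_) (by simp) s5
  have := ((((Real.hasDerivAt_cos x).sub_const 1).add (dp 2 (1 / 2) x)).sub
    (dp 4 (1 / 24) x)).add (dp 6 (1 / 720) x)
  refine this.congr_deriv ?_
  simp
  ring

private theorem s7 : ∀ x : ℝ, 0 ≤ x →
    0 ≤ Real.sin x - 1 * x ^ 1 + 1 / 6 * x ^ 3 - 1 / 120 * x ^ 5 + 1 / 5040 * x ^ 7 := by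
  refine nonneg_of_deriv
    (f' := fun x => Real.cos x - 1 + 1 / 2 * x ^ 2 - 1 / 24 * x ^ 4 + 1 / 720 * x ^ 6)
    (fun x => ?_) (by simp) c6
  have := ((((Real.hasDerivAt_sin x).sub (dp 1 1 x)).add (dp 3 (1 / 6) x)).sub
    (dp 5 (1 / 120) x)).add (dp 7 (1 / 5040) x)
  refine this.congr_deriv ?_
  simp
  ring

private theorem c8 : ∀ x : ℝ, 0 ≤ x →
    0 ≤ 1 - Real.cos x - 1 / 2 * x ^ 2 + 1 / 24 * x ^ 4 - 1 / 720 * x ^ 6 + 1 / 40320 * x ^ 8 := by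
  refine nonneg_of_deriv
    (f' := fun x => Real.sin x - 1 * x ^ 1 + 1 / 6 * x ^ 3 - 1 / 120 * x ^ 5 + 1 / 5040 * x ^ 7)
    (fun x => ?_) (by simp) s7
  have := (((((Real.hasDerivAt_cos x).const_sub 1).sub (dp 2 (1 / 2) x)).add
    (dp 4 (1 / 24) x)).sub (dp 6 (1 / 720) x)).add (dp 8 (1 / 40320) x)
  refine this.congr_deriv ?_
  simp
  ring

theorem cos_ge (v : ℝ) : v ^ 2 / 2 - v ^ 4 / 24 + v ^ 6 / 720 - v ^ 8 / 40320 ≤ 1 - Real.cos v := by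
  have h := c8 |v| (abs_nonneg v)
  rw [Real.cos_abs] at h
  have e2 : |v| ^ 2 = v ^ 2 := sq_abs v
  have e4 : |v| ^ 4 = v ^ 4 := by
    rw [show (4 : ℕ) = 2 * 2 from rfl, pow_mul, pow_mul, e2]
  have e6 : |v| ^ 6 = v ^ 6 := by
    rw [show (6 : ℕ) = 2 * 3 from rfl, pow_mul, pow_mul, e2]
  have e8 : |v| ^ 8 = v ^ 8 := by
    rw [show (8 : ℕ) = 2 * 4 from rfl, pow_mul, pow_mul, e2]
  rw [e2, e4, e6, e8] at h
  linarith

/-- `1 - cos v ≥ κ v² / 2` for `|v| ≤ u` -/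
theorem cos_kap {u v κ : ℝ} (hv : |v| ≤ u) (hκ : κ ≤ 1 - u ^ 2 / 12 + u ^ 4 / 360 - u ^ 6 / 20160) :
    κ * v ^ 2 / 2 ≤ 1 - Real.cos v := by
  have hxy : v ^ 2 ≤ u ^ 2 := by
    rw [← sq_abs v]
    exact pow_le_pow_left₀ (abs_nonneg v) hv 2
  have hx : 0 ≤ v ^ 2 := sq_nonneg v
  have hmono : 1 - u ^ 2 / 12 + u ^ 4 / 360 - u ^ 6 / 20160 ≤
      1 - v ^ 2 / 12 + v ^ 4 / 360 - v ^ 6 / 20160 := by
    have hb : 0 ≤ 1 / 12 - (v ^ 2 + u ^ 2) / 360 +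
        ((v ^ 2) ^ 2 + v ^ 2 * u ^ 2 + (u ^ 2) ^ 2) / 20160 := by
      nlinarith [sq_nonneg (v ^ 2 - u ^ 2), sq_nonneg (v ^ 2 + u ^ 2 - 37)]
    nlinarith [mul_nonneg (sub_nonneg.2 hxy) hb]
  have h1 := cos_ge v
  have h2 : κ * v ^ 2 / 2 ≤ (1 - v ^ 2 / 12 + v ^ 4 / 360 - v ^ 6 / 20160) * v ^ 2 / 2 := by
    have := mul_le_mul_of_nonneg_right (hκ.trans hmono) hx
    linarith
  refine h2.trans (le_trans (le_of_eq ?_) h1)
  ring

end Pool.Agent.MMS14
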