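import Pool.Agent.MMS14.LoopS

/-!
# MMS14/CosT: the table of cosines

`rot_all` by `decide +kernel` (0.4 s).  Let `c_j = ct j / 2^56 - 1`, `s_j = ct (j + 1500) / 2^56 - 1`, `ct` has period 2000 (`Nat.mod`).
`rotOk j` says `|c_(j+1) - (c_j C - s_j S)| ≤ 2^-55`, `|s_(j+1) - (s_j C + c_j S)| ≤ 2^-55` (`C = C56 / 2^56`, `S = S56 / 2^56`; expand
`(ct - o)(..)`), and `|C - cos (π/1000)|, |S - sin (π/1000)| ≤ 2^-55` (Taylor with `Real.pi_gt_d20`, `Real.pi_lt_d20`;
`Real.cos_bound`-type estimates are too weak, use `Real.cos_le_one_sub..`/alternating series to order 6, or `Complex.exp_bound`).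
With `z_j = c_j + i s_j`, `w = e^(iπ/1000)`: `|z_(j+1) - w^(j+1)| ≤ |z_j - w^j| + 2^-52` (as long as `|z_j| ≤ 2`), start: `ct 0 = 2^57`,
`ct 1500 = 2^56`.  So the error is at most `2000 * 2^-52 < 2^-40` for `j ≤ 2000`; then all `j` by periodicity.
-/

set_option autoImplicit false

namespace Pool.Agent.MMS14

theorem allb_sound {n : ℕ} {f : ℕ → Bool} (h : allb n f = true) : ∀ m, m < n → f m = true := by
  induction n with
  | zero =>
    intro m hm
    omega
  | succ n ih =>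
    have h1 : et (f n) (allb n f) = true := h
    unfold et at h1
    simp only [Bool.cond_false_right, Bool.and_eq_true] at h1
    intro m hm
    rcases Nat.lt_succ_iff_lt_or_eq.1 hm with hm | hm
    · exact ih h1.2 m hm
    · rw [hm]
      exact h1.1

theorem rot_all : allb 2000 rotOk = true := by
  decide +kernel

theorem ct_period (j : ℕ) : ct (j + 2000) = ct j := by
  unfold ct
  rw [show Nat.mod (j + 2000) 2000 = Nat.mod j 2000 from Nat.add_mod_right j 2000]

/-- Taylor bound for the exponential on the imaginary axis -/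
private theorem exp6 {x : ℝ} (h0 : 0 ≤ x) (h1 : x ≤ 1) :
    |Real.cos x - (1 - x ^ 2 / 2 + x ^ 4 / 24)| ≤ x ^ 6 * (7 / 4320) ∧
      |Real.sin x - (x - x ^ 3 / 6 + x ^ 5 / 120)| ≤ x ^ 6 * (7 / 4320) := by
  have hn : ‖(x : ℂ) * Complex.I‖ = x := by
    rw [norm_mul, Complex.norm_I, mul_one, Complex.norm_real, Real.norm_of_nonneg h0]
  have h2 := Complex.exp_bound (x := (x : ℂ) * Complex.I) (by rw [hn]; exact h1) (n := 6) (by norm_num)
  rw [hn] at h2
  have h3 : (x : ℝ) ^ 6 * (((Nat.succ 6 : ℕ) : ℝ) * ((Nat.factorial 6 * 6 : ℝ))⁻¹) = x ^ 6 * (7 / 4320) := by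
    norm_num [Nat.factorial]
  have h4 : Complex.exp ((x : ℂ) * Complex.I) - ∑ m ∈ Finset.range 6, ((x : ℂ) * Complex.I) ^ m / (Nat.factorial m : ℂ) =
      ((Real.cos x - (1 - x ^ 2 / 2 + x ^ 4 / 24) : ℝ) : ℂ) +
        ((Real.sin x - (x - x ^ 3 / 6 + x ^ 5 / 120) : ℝ) : ℂ) * Complex.I := by
    rw [Complex.exp_mul_I]
    simp only [Finset.sum_range_succ, Finset.sum_range_zero, Nat.factorial]
    push_cast
    have hI2 : Complex.I ^ 2 = -1 := Complex.I_sq
    have hI3 : Complex.I ^ 3 = -Complex.I := by rw [pow_succ, hI2]; ring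
    have hI4 : Complex.I ^ 4 = 1 := Complex.I_pow_four
    have hI5 : Complex.I ^ 5 = Complex.I := by rw [pow_succ, hI4, one_mul]
    simp only [mul_pow, hI2, hI3, hI4, hI5, pow_zero, pow_one]
    ring
  rw [h4] at h2
  have h5 := Complex.abs_re_le_norm (((Real.cos x - (1 - x ^ 2 / 2 + x ^ 4 / 24) : ℝ) : ℂ) +
        ((Real.sin x - (x - x ^ 3 / 6 + x ^ 5 / 120) : ℝ) : ℂ) * Complex.I)
  have h6 := Complex.abs_im_le_norm (((Real.cos x - (1 - x ^ 2 / 2 + x ^ 4 / 24) : ℝ) : ℂ) +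
        ((Real.sin x - (x - x ^ 3 / 6 + x ^ 5 / 120) : ℝ) : ℂ) * Complex.I)
  have h7 : (((Real.cos x - (1 - x ^ 2 / 2 + x ^ 4 / 24) : ℝ) : ℂ) +
        ((Real.sin x - (x - x ^ 3 / 6 + x ^ 5 / 120) : ℝ) : ℂ) * Complex.I).re =
        Real.cos x - (1 - x ^ 2 / 2 + x ^ 4 / 24) := by
    rw [Complex.add_re, Complex.ofReal_re, Complex.re_ofReal_mul, Complex.I_re, mul_zero, add_zero]
  have h8 : (((Real.cos x - (1 - x ^ 2 / 2 + x ^ 4 / 24) : ℝ) : ℂ) +
        ((Real.sin x - (x - x ^ 3 / 6 + x ^ 5 / 120) : ℝ) : ℂ) * Complex.I).im =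
        Real.sin x - (x - x ^ 3 / 6 + x ^ 5 / 120) := by
    rw [Complex.add_im, Complex.ofReal_im, Complex.im_ofReal_mul, Complex.I_im, mul_one, zero_add]
  rw [h7] at h5
  rw [h8] at h6
  have h9 : (x : ℝ) ^ 6 * (((Nat.succ 6 : ℕ) : ℝ) * ((Nat.factorial 6 * 6 : ℝ))⁻¹) ≤ x ^ 6 * (7 / 4320) := h3.le
  exact ⟨h5.trans (h2.trans h9), h6.trans (h2.trans h9)⟩

private theorem xb : (0.00314159265358979323846 : ℝ) ≤ Real.pi / 1000 ∧
    Real.pi / 1000 ≤ (0.00314159265358979323847 : ℝ) := by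
  have h1 := Real.pi_gt_d20
  have h2 := Real.pi_lt_d20
  constructor <;> norm_num at h1 h2 ⊢ <;> linarith

theorem C56_sound : |(C56 : ℝ) / 72057594037927936 - Real.cos (Real.pi / 1000)| ≤ 1 / 2 ^ 55 := by
  obtain ⟨ha, hb⟩ := xb
  set x := Real.pi / 1000 with hx
  have h0 : (0 : ℝ) ≤ x := by linarith [show (0 : ℝ) ≤ 0.00314159265358979323846 by norm_num]
  obtain ⟨h1, -⟩ := exp6 h0 (hb.trans (by norm_num))
  have hxa : (0 : ℝ) ≤ 0.00314159265358979323846 := by norm_num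
  have e2 := pow_le_pow_left₀ hxa ha 2
  have e2' := pow_le_pow_left₀ h0 hb 2
  have e4 := pow_le_pow_left₀ hxa ha 4
  have e4' := pow_le_pow_left₀ h0 hb 4
  have e6' := pow_le_pow_left₀ h0 hb 6
  rw [abs_le] at h1 ⊢
  unfold C56
  norm_num at e2 e2' e4 e4' e6' h1 ⊢
  constructor <;> linarith

theorem S56_sound : |(S56 : ℝ) / 72057594037927936 - Real.sin (Real.pi / 1000)| ≤ 1 / 2 ^ 55 := by
  obtain ⟨ha, hb⟩ := xb
  set x := Real.pi / 1000 with hx
  have h0 : (0 : ℝ) ≤ x := by linarith [show (0 : ℝ) ≤ 0.00314159265358979323846 by norm_num]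
  obtain ⟨-, h1⟩ := exp6 h0 (hb.trans (by norm_num))
  have hxa : (0 : ℝ) ≤ 0.00314159265358979323846 := by norm_num
  have e3 := pow_le_pow_left₀ hxa ha 3
  have e3' := pow_le_pow_left₀ h0 hb 3
  have e5 := pow_le_pow_left₀ hxa ha 5
  have e5' := pow_le_pow_left₀ h0 hb 5
  have e6' := pow_le_pow_left₀ h0 hb 6
  rw [abs_le] at h1 ⊢
  unfold S56
  norm_num at e3 e3' e5 e5' e6' h1 ha hb ⊢
  constructor <;> linarith

private theorem near_sound {a b d : ℕ} (h : near a b d = true) : |(a : ℝ) - b| ≤ d := by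
  unfold near et at h
  simp only [Bool.cond_false_right, Bool.and_eq_true] at h
  have h1 : a ≤ b + d := Nat.le_of_ble_eq_true h.1
  have h2 : b ≤ a + d := Nat.le_of_ble_eq_true h.2
  have h1' : (a : ℝ) ≤ b + d := by exact_mod_cast h1
  have h2' : (b : ℝ) ≤ a + d := by exact_mod_cast h2
  rw [abs_le]
  constructor <;> linarith

/-- `c_j` -/
private noncomputable def cj (j : ℕ) : ℝ := (ct j : ℝ) / 72057594037927936 - 1
/-- `s_j` -/
private noncomputable def sj (j : ℕ) : ℝ := (ct (j + 1500) : ℝ) / 72057594037927936 - 1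

private theorem rot_real {j : ℕ} (hj : j < 2000) :
    |cj (j + 1) - (cj j * ((C56 : ℝ) / 72057594037927936) - sj j * ((S56 : ℝ) / 72057594037927936))| ≤ 1 / 2 ^ 55 ∧
    |sj (j + 1) - (sj j * ((C56 : ℝ) / 72057594037927936) + cj j * ((S56 : ℝ) / 72057594037927936))| ≤ 1 / 2 ^ 55 := by
  have h := allb_sound rot_all j hj
  unfold rotOk at h
  unfold et at h
  simp only [Bool.cond_false_right, Bool.and_eq_true] at h
  have h1 := near_sound h.1
  have h2 := near_sound h.2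
  have e1 : ((Nat.add (Nat.add (Nat.mul (ct (Nat.add j 1)) o56) (Nat.mul o56 C56)) (Nat.mul (ct (Nat.add j 1500)) S56) : ℕ) : ℝ) =
      (ct (j + 1) : ℝ) * 72057594037927936 + 72057594037927936 * C56 + ct (j + 1500) * S56 := by
    change (((ct (j + 1)) * o56 + o56 * C56 + ct (j + 1500) * S56 : ℕ) : ℝ) = _
    rw [Nat.cast_add, Nat.cast_add, Nat.cast_mul, Nat.cast_mul, Nat.cast_mul]
    rfl
  have e2 : ((Nat.add (Nat.add (Nat.mul o56 o56) (Nat.mul (ct j) C56)) (Nat.mul o56 S56) : ℕ) : ℝ) =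
      72057594037927936 * 72057594037927936 + (ct j : ℝ) * C56 + 72057594037927936 * S56 := by
    change ((o56 * o56 + ct j * C56 + o56 * S56 : ℕ) : ℝ) = _
    rw [Nat.cast_add, Nat.cast_add, Nat.cast_mul, Nat.cast_mul, Nat.cast_mul]
    rfl
  have e3 : ((Nat.add (Nat.add (Nat.mul (ct (Nat.add j 1501)) o56) (Nat.mul o56 C56)) (Nat.mul o56 S56) : ℕ) : ℝ) =
      (ct (j + 1501) : ℝ) * 72057594037927936 + 72057594037927936 * C56 + 72057594037927936 * S56 := by
    change (((ct (j + 1501)) * o56 + o56 * C56 + o56 * S56 : ℕ) : ℝ) = _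
    rw [Nat.cast_add, Nat.cast_add, Nat.cast_mul, Nat.cast_mul, Nat.cast_mul]
    rfl
  have e4 : ((Nat.add (Nat.add (Nat.mul o56 o56) (Nat.mul (ct (Nat.add j 1500)) C56)) (Nat.mul (ct j) S56) : ℕ) : ℝ) =
      72057594037927936 * 72057594037927936 + (ct (j + 1500) : ℝ) * C56 + (ct j : ℝ) * S56 := by
    change ((o56 * o56 + ct (j + 1500) * C56 + ct j * S56 : ℕ) : ℝ) = _
    rw [Nat.cast_add, Nat.cast_add, Nat.cast_mul, Nat.cast_mul, Nat.cast_mul]
    rfl
  have e5 : ((Nat.mul 2 o56 : ℕ) : ℝ) = 2 * 72057594037927936 := by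
    change ((2 * 72057594037927936 : ℕ) : ℝ) = _
    push_cast
    ring
  rw [e1, e2, e5] at h1
  rw [e3, e4, e5] at h2
  have e6 : j + 1 + 1500 = j + 1501 := by omega
  unfold cj sj
  rw [e6]
  generalize (ct (j + 1) : ℝ) = u1 at h1 ⊢
  generalize (ct (j + 1501) : ℝ) = u2 at h2 ⊢
  generalize (ct (j + 1500) : ℝ) = u3 at h1 h2 ⊢
  generalize (ct j : ℝ) = u4 at h1 h2 ⊢
  generalize (C56 : ℝ) = u5 at h1 h2 ⊢
  generalize (S56 : ℝ) = u6 at h1 h2 ⊢
  clear e1 e2 e3 e4 e5 h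
  have hpos : (0 : ℝ) < 72057594037927936 * 72057594037927936 := by norm_num
  have k1 : u1 / 72057594037927936 - 1 - ((u4 / 72057594037927936 - 1) * (u5 / 72057594037927936) -
      (u3 / 72057594037927936 - 1) * (u6 / 72057594037927936)) =
      (u1 * 72057594037927936 + 72057594037927936 * u5 + u3 * u6 -
        (72057594037927936 * 72057594037927936 + u4 * u5 + 72057594037927936 * u6)) /
        (72057594037927936 * 72057594037927936) := by
    ring
  have k2 : u2 / 72057594037927936 - 1 - ((u3 / 72057594037927936 - 1) * (u5 / 72057594037927936) +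
      (u4 / 72057594037927936 - 1) * (u6 / 72057594037927936)) =
      (u2 * 72057594037927936 + 72057594037927936 * u5 + 72057594037927936 * u6 -
        (72057594037927936 * 72057594037927936 + u3 * u5 + u4 * u6)) /
        (72057594037927936 * 72057594037927936) := by
    ring
  rw [k1, k2, abs_div, abs_div, abs_of_pos hpos, div_le_iff₀ hpos, div_le_iff₀ hpos]
  refine ⟨h1.trans (le_of_eq ?_), h2.trans (le_of_eq ?_)⟩ <;> norm_num

private theorem norm_le_two {a b d : ℝ} (ha : |a| ≤ d) (hb : |b| ≤ d) :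
    ‖(a : ℂ) + (b : ℂ) * Complex.I‖ ≤ 2 * d := by
  refine (norm_add_le _ _).trans ?_
  rw [norm_mul, Complex.norm_I, mul_one, Complex.norm_real, Complex.norm_real, Real.norm_eq_abs, Real.norm_eq_abs]
  linarith

private theorem main_err : ∀ j : ℕ, j ≤ 2000 →
    ‖((cj j : ℂ) + (sj j : ℂ) * Complex.I) - Complex.exp (((Real.pi / 1000 * j : ℝ) : ℂ) * Complex.I)‖ ≤ j * (1 / 2 ^ 52) := by
  intro j
  induction j with
  | zero =>
    intro _
    have h1 : cj 0 = 1 := by
      have h2 : ct 0 = 144115188075855872 := by decide +kernel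
      unfold cj
      rw [h2]
      norm_num
    have h3 : sj 0 = 0 := by
      have h2 : ct (0 + 1500) = 72057594037927936 := by decide +kernel
      unfold sj
      rw [h2]
      norm_num
    rw [h1, h3]
    simp
  | succ j ih =>
    intro hj
    have ih' := ih (by omega)
    obtain ⟨r1, r2⟩ := rot_real (show j < 2000 by omega)
    set C : ℝ := (C56 : ℝ) / 72057594037927936 with hC
    set S : ℝ := (S56 : ℝ) / 72057594037927936 with hS
    set z : ℂ := (cj j : ℂ) + (sj j : ℂ) * Complex.I with hz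
    set z' : ℂ := (cj (j + 1) : ℂ) + (sj (j + 1) : ℂ) * Complex.I with hz'
    set w : ℂ := Complex.exp (((Real.pi / 1000 : ℝ) : ℂ) * Complex.I) with hw
    set e : ℂ := Complex.exp (((Real.pi / 1000 * j : ℝ) : ℂ) * Complex.I) with he
    have hw1 : ‖w‖ = 1 := Complex.norm_exp_ofReal_mul_I _
    have he1 : ‖e‖ = 1 := Complex.norm_exp_ofReal_mul_I _
    have hww : ‖((C : ℂ) + (S : ℂ) * Complex.I) - w‖ ≤ 2 * (1 / 2 ^ 55) := by
      have h1 : ((C : ℂ) + (S : ℂ) * Complex.I) - w =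
          ((C - Real.cos (Real.pi / 1000) : ℝ) : ℂ) + ((S - Real.sin (Real.pi / 1000) : ℝ) : ℂ) * Complex.I := by
        rw [hw, Complex.exp_mul_I]
        push_cast
        ring
      rw [h1]
      exact norm_le_two C56_sound S56_sound
    have hzz : ‖z' - z * ((C : ℂ) + (S : ℂ) * Complex.I)‖ ≤ 2 * (1 / 2 ^ 55) := by
      have h1 : z' - z * ((C : ℂ) + (S : ℂ) * Complex.I) =
          ((cj (j + 1) - (cj j * C - sj j * S) : ℝ) : ℂ) + ((sj (j + 1) - (sj j * C + cj j * S) : ℝ) : ℂ) * Complex.I := by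
        rw [hz, hz']
        push_cast
        ring_nf
        rw [Complex.I_sq]
        ring
      rw [h1]
      exact norm_le_two r1 r2
    have hee : Complex.exp (((Real.pi / 1000 * ((j + 1 : ℕ) : ℝ) : ℝ) : ℂ) * Complex.I) = e * w := by
      rw [he, hw, ← Complex.exp_add]
      congr 1
      push_cast
      ring
    rw [hee]
    have hj2 : (j : ℝ) ≤ 2000 := by
      have : j ≤ 2000 := by omega
      exact_mod_cast this
    have hz2 : ‖z‖ ≤ 2 := by
      have h1 : z = (z - e) + e := by ring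
      rw [h1]
      refine (norm_add_le _ _).trans ?_
      rw [he1]
      have h2 : (j : ℝ) * (1 / 2 ^ 52) ≤ 1 := by
        norm_num
        linarith
      linarith
    have h1 : z' - e * w = (z' - z * ((C : ℂ) + (S : ℂ) * Complex.I)) +
        z * (((C : ℂ) + (S : ℂ) * Complex.I) - w) + (z - e) * w := by ring
    rw [h1]
    refine (norm_add_le _ _).trans ?_
    refine (add_le_add (norm_add_le _ _) le_rfl).trans ?_
    rw [norm_mul, norm_mul, hw1, mul_one]
    have h3 : ‖z‖ * ‖((C : ℂ) + (S : ℂ) * Complex.I) - w‖ ≤ 2 * (2 * (1 / 2 ^ 55)) :=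
      mul_le_mul hz2 hww (norm_nonneg _) (by norm_num)
    rw [Nat.cast_add, Nat.cast_one]
    have h4 : ((j : ℝ) + 1) * (1 / 2 ^ 52) = j * (1 / 2 ^ 52) + 1 / 2 ^ 52 := by ring
    rw [h4]
    have h5 : (2 : ℝ) * (1 / 2 ^ 55) + 2 * (2 * (1 / 2 ^ 55)) ≤ 1 / 2 ^ 52 := by norm_num
    linarith

private theorem cs_err {j : ℕ} (hj : j ≤ 2000) :
    |cj j - Real.cos (Real.pi / 1000 * j)| ≤ 1 / 2 ^ 40 ∧ |sj j - Real.sin (Real.pi / 1000 * j)| ≤ 1 / 2 ^ 40 := by
  have h := main_err j hj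
  have hj2 : (j : ℝ) ≤ 2000 := by exact_mod_cast hj
  have h2 : (j : ℝ) * (1 / 2 ^ 52) ≤ 1 / 2 ^ 40 := by
    norm_num
    linarith
  have h3 : ((cj j : ℂ) + (sj j : ℂ) * Complex.I) - Complex.exp (((Real.pi / 1000 * j : ℝ) : ℂ) * Complex.I) =
      ((cj j - Real.cos (Real.pi / 1000 * j) : ℝ) : ℂ) + ((sj j - Real.sin (Real.pi / 1000 * j) : ℝ) : ℂ) * Complex.I := by
    rw [Complex.exp_mul_I]
    push_cast
    ring
  rw [h3] at h
  have h5 := Complex.abs_re_le_norm (((cj j - Real.cos (Real.pi / 1000 * j) : ℝ) : ℂ) +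
    ((sj j - Real.sin (Real.pi / 1000 * j) : ℝ) : ℂ) * Complex.I)
  have h6 := Complex.abs_im_le_norm (((cj j - Real.cos (Real.pi / 1000 * j) : ℝ) : ℂ) +
    ((sj j - Real.sin (Real.pi / 1000 * j) : ℝ) : ℂ) * Complex.I)
  rw [Complex.add_re, Complex.ofReal_re, Complex.re_ofReal_mul, Complex.I_re, mul_zero, add_zero] at h5
  rw [Complex.add_im, Complex.ofReal_im, Complex.im_ofReal_mul, Complex.I_im, mul_one, zero_add] at h6
  exact ⟨h5.trans (h.trans h2), h6.trans (h.trans h2)⟩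

private theorem ct_mod (j : ℕ) : ct j = ct (j % 2000) := by
  unfold ct
  rw [show Nat.mod (j % 2000) 2000 = Nat.mod j 2000 from Nat.mod_mod j 2000]

private theorem ct_mod' (j : ℕ) : ct (j + 1500) = ct (j % 2000 + 1500) := by
  unfold ct
  rw [show Nat.mod (j % 2000 + 1500) 2000 = Nat.mod (j + 1500) 2000 from by
    change (j % 2000 + 1500) % 2000 = (j + 1500) % 2000
    omega]

private theorem arg_mod (j : ℕ) : Real.pi * j / 1000 = Real.pi / 1000 * ((j % 2000 : ℕ) : ℝ) + ((j / 2000 : ℕ) : ℝ) * (2 * Real.pi) := by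
  have h1 : (j : ℝ) = 2000 * ((j / 2000 : ℕ) : ℝ) + ((j % 2000 : ℕ) : ℝ) := by
    exact_mod_cast (Nat.div_add_mod j 2000).symm
  rw [h1]
  ring

theorem ct_cos (j : ℕ) : |(ct j : ℝ) / 72057594037927936 - 1 - Real.cos (Real.pi * j / 1000)| ≤ 1 / 2 ^ 40 := by
  have h1 := (cs_err (Nat.mod_lt j (by norm_num : 0 < 2000)).le).1
  rw [arg_mod, Real.cos_add_nat_mul_two_pi, ct_mod]
  exact h1

theorem ct_sin (j : ℕ) : |(ct (j + 1500) : ℝ) / 72057594037927936 - 1 - Real.sin (Real.pi * j / 1000)| ≤ 1 / 2 ^ 40 := by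
  have h1 := (cs_err (Nat.mod_lt j (by norm_num : 0 < 2000)).le).2
  rw [arg_mod, Real.sin_add_nat_mul_two_pi, ct_mod']
  exact h1

end Pool.Agent.MMS14
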