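import Pool.Agent.MMS14.LoopS

/-!
# MMS14/Cover: the cells

`Sc k = ((Y² + D²) / (2 Y D))²`, `D = 10 ^ 4`, `Y = Yk k` increasing from `Yk 0 = D` (check `∀ k < 126, Yk k < Yk (k + 1)` by
`decide`), and `y ↦ (y + 1 / y) / 2` is increasing for `y ≥ 1`.  `Su`: check the integer inequality
`10 ^ 6 (Y² + D²)² ≤ Su_k (2 Y D)²` for all `1 ≤ k ≤ 126` by `decide +kernel` / `decide`.
`jOk` says `√S_j = (W² + D²) / (2 W D) ≤ (Y² - D²) / (2 Y D) = √(S_i - 1)`.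
-/

set_option autoImplicit false

namespace Pool.Agent.MMS14

private theorem cover_frac {y z : ℝ} (hy : 10000 ≤ y) (hyz : y ≤ z) :
    (y ^ 2 + 10 ^ 8) / (20000 * y) ≤ (z ^ 2 + 10 ^ 8) / (20000 * z) := by
  have hy0 : 0 < y := by linarith
  have hz0 : 0 < z := by linarith
  rw [div_le_div_iff₀ (by positivity) (by positivity)]
  have h1 : (10000 : ℝ) * 10000 ≤ y * z := mul_le_mul hy (hy.trans hyz) (by norm_num) hy0.le
  nlinarith [mul_nonneg (sub_nonneg.2 hyz) (sub_nonneg.2 h1)]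

private theorem cover_j {Y W : ℕ} (hY : 10000 ≤ Y) (hW : 10000 ≤ W)
    (h2 : (W * W + 100000000) * Y ≤ (Y * Y - 100000000) * W) :
    (((W : ℝ) ^ 2 + 10 ^ 8) / (20000 * (W : ℝ))) ^ 2 ≤
      (((Y : ℝ) ^ 2 + 10 ^ 8) / (20000 * (Y : ℝ))) ^ 2 - 1 := by
  have hYY : 100000000 ≤ Y * Y := by nlinarith
  have h3 : (((W * W + 100000000) * Y : ℕ) : ℝ) ≤ (((Y * Y - 100000000) * W : ℕ) : ℝ) := by
    exact_mod_cast h2
  rw [Nat.cast_mul (Y * Y - 100000000), Nat.cast_sub hYY] at h3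
  push_cast at h3
  have hY' : (10000 : ℝ) ≤ (Y : ℝ) := by exact_mod_cast hY
  have hW' : (10000 : ℝ) ≤ (W : ℝ) := by exact_mod_cast hW
  have hY0 : (0 : ℝ) < Y := by linarith
  have hW0 : (0 : ℝ) < W := by linarith
  have h4 : ((W : ℝ) ^ 2 + 10 ^ 8) / (20000 * (W : ℝ)) ≤
      ((Y : ℝ) ^ 2 - 10 ^ 8) / (20000 * (Y : ℝ)) := by
    rw [div_le_div_iff₀ (by positivity) (by positivity)]
    have e1 : ((W : ℝ) ^ 2 + 10 ^ 8) * (20000 * (Y : ℝ)) =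
        20000 * (((W : ℝ) * W + 100000000) * Y) := by ring
    have e2 : ((Y : ℝ) ^ 2 - 10 ^ 8) * (20000 * (W : ℝ)) =
        20000 * (((Y : ℝ) * Y - 100000000) * W) := by ring
    rw [e1, e2]
    exact mul_le_mul_of_nonneg_left h3 (by norm_num)
  have h5 : 0 ≤ ((W : ℝ) ^ 2 + 10 ^ 8) / (20000 * (W : ℝ)) := by positivity
  have h6 := pow_le_pow_left₀ h5 h4 2
  have h7 : (((Y : ℝ) ^ 2 + 10 ^ 8) / (20000 * (Y : ℝ))) ^ 2 - 1 =
      (((Y : ℝ) ^ 2 - 10 ^ 8) / (20000 * (Y : ℝ))) ^ 2 := by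
    have h8 : (20000 * (Y : ℝ)) ^ 2 ≠ 0 := by positivity
    rw [div_pow, div_pow, eq_div_iff h8, sub_mul, div_mul_cancel₀ _ h8]
    ring
  rw [h7]
  exact h6

private theorem cover_s {Y s : ℕ} (hY : 10000 ≤ Y)
    (h1 : 1000000 * (Y * Y + 100000000) ^ 2 ≤ s * (20000 * Y) ^ 2) :
    1000000 * (((Y : ℝ) ^ 2 + 10 ^ 8) / (20000 * (Y : ℝ))) ^ 2 ≤ (s : ℝ) := by
  have hY' : (10000 : ℝ) ≤ (Y : ℝ) := by exact_mod_cast hY
  have hY0 : (0 : ℝ) < Y := by linarith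
  have h2 : (1000000 : ℝ) * ((Y : ℝ) * Y + 100000000) ^ 2 ≤ (s : ℝ) * (20000 * (Y : ℝ)) ^ 2 := by
    exact_mod_cast h1
  rw [div_pow, mul_div_assoc', div_le_iff₀ (by positivity)]
  have h3 : (Y : ℝ) ^ 2 + 10 ^ 8 = (Y : ℝ) * Y + 100000000 := by ring
  rw [h3]
  exact h2

theorem Yk_lt {k : ℕ} (h : k < 126) : Yk k < Yk (k + 1) := by
  have key : ∀ k < 126, Yk k < Yk (k + 1) := by decide +kernel
  exact key k h

theorem Yk_ge {k : ℕ} (h : k ≤ 126) : 10000 ≤ Yk k := by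
  have key : ∀ k < 127, 10000 ≤ Yk k := by decide +kernel
  exact key k (by omega)

theorem Yk_le {k : ℕ} (h : k ≤ 126) : Yk k ≤ 61624 := by
  have key : ∀ k < 127, Yk k ≤ 61624 := by decide +kernel
  exact key k (by omega)

theorem Sc_zero : Sc 0 = 1 := by
  have h : Yk 0 = 10000 := rfl
  unfold Sc
  rw [h]
  norm_num

theorem Sc_mono {i j : ℕ} (hij : i ≤ j) (hj : j ≤ 126) : Sc i ≤ Sc j := by
  have key : ∀ n, i + n ≤ 126 → Yk i ≤ Yk (i + n) := by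
    intro n
    induction n with
    | zero => intro _; exact le_rfl
    | succ n ih =>
      intro hn
      exact (ih (by omega)).trans (Yk_lt (k := i + n) (by omega)).le
  obtain ⟨n, rfl⟩ := Nat.exists_eq_add_of_le hij
  have h1 : (Yk i : ℝ) ≤ (Yk (i + n) : ℝ) := by exact_mod_cast key n hj
  have h2 : (10000 : ℝ) ≤ (Yk i : ℝ) := by exact_mod_cast Yk_ge (k := i) (by omega)
  unfold Sc
  have h3 := cover_frac h2 h1
  have h4 : 0 ≤ ((Yk i : ℝ) ^ 2 + 10 ^ 8) / (20000 * (Yk i : ℝ)) := by positivity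
  exact pow_le_pow_left₀ h4 h3 2

theorem Sc_one : 1 < Sc 1 := by
  have h : Yk 1 = 11450 := rfl
  unfold Sc
  rw [h]
  norm_num

theorem Sc_126 : 10 ≤ Sc 126 ∧ Sc 126 ≤ 10.001 := by
  have h : Yk 126 = 61623 := by decide +kernel
  unfold Sc
  rw [h]
  norm_num

theorem cover_from {j : ℕ} (hj : j ≤ 126) {S : ℝ} (hS : Sc j ≤ S) : ∃ k, j ≤ k ∧ InC k S := by
  obtain ⟨n, hn⟩ : ∃ n, n + j = 126 := ⟨126 - j, by omega⟩
  induction n generalizing j with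
  | zero =>
    exact ⟨j, le_rfl, by omega, hS, fun h => by omega⟩
  | succ n ih =>
    rcases le_total S (Sc (j + 1)) with h | h
    · exact ⟨j, le_rfl, hj, hS, fun _ => h⟩
    · obtain ⟨k, hk, hk'⟩ := ih (j := j + 1) (by omega) h (by omega)
      exact ⟨k, by omega, hk'⟩

theorem jOk_sound {i j : ℕ} (hi : 1 ≤ i) (hi' : i ≤ 126) (hj : j ≤ 126) (h : jOk j (Yk i) (Yk j) = true) :
    j = 0 ∨ Sc j ≤ Sc i - 1 := by
  unfold jOk at h
  rcases ou_true.1 h with h | h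
  · exact Or.inl (Nat.eq_of_beq_eq_true h)
  · right
    have h1 := Nat.le_of_ble_eq_true h
    exact cover_j (Yk_ge hi') (Yk_ge hj) h1

theorem Su_sound {k : ℕ} (h : 1 ≤ k) (h' : k ≤ 126) : 1000000 * Sc k ≤ ((Su.getD (k - 1) 0 : ℕ) : ℝ) := by
  have key : ∀ k < 127, 1 ≤ k →
      1000000 * (Yk k * Yk k + 100000000) ^ 2 ≤ Su.getD (k - 1) 0 * (20000 * Yk k) ^ 2 := by
    decide +kernel
  exact cover_s (Yk_ge h') (key k (by omega) h)

theorem Su_length : Su.length = 126 := by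
  rfl

end Pool.Agent.MMS14
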