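import Mathlib

/-!
# MMS14/Defs: the certificate checkers (kernel-friendly functions on natural numbers)

Everything is about weighted sums of independent Bernoulli variables, `X = ∑ a_i (ξ_i - p)`.
Rows of a table are indexed by `i < 351` (threshold `τ = (i - 200) / 50` in standard deviations); a row is a natural
number with 254 lanes of 32 bits; lane `k ≤ 126` (head positive) and lane `127 + k` (head negative) hold
`2 ^ 16 *` (a lower bound of the probability) for the cell number `k` of `S = (∑ a_i²) / a_1²`.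
The cells are `[S_k, S_(k+1)]` (`k < 126`) and `[S_126, ∞)`, `S_k = ((Y² + D²) / (2 Y D))²`, `Y = Y_k`, `D = 10000`.
All recursions are written with recursors (fast in the kernel); the equations needed are stated by `rfl`.
-/

set_option autoImplicit false

namespace Pool.Agent.MMS14

/-! ### small helpers -/

/-- head of a list of naturals, `0` if empty -/
noncomputable def hd0 (l : List ℕ) : ℕ := List.rec (motive := fun _ => ℕ) 0 (fun a _ _ => a) l

/-- tail -/
noncomputable def tl {α : Type} (l : List α) : List α :=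
  List.rec (motive := fun _ => List α) List.nil (fun _ t _ => t) l

/-- drop -/
noncomputable def dr {α : Type} (n : ℕ) (l : List α) : List α :=
  Nat.rec (motive := fun _ => List α) l (fun _ ih => tl ih) n

/-- head of a list of lists -/
noncomputable def hdL (l : List (List ℕ)) : List ℕ := List.rec (motive := fun _ => List ℕ) List.nil (fun a _ _ => a) l

/-- maximum -/
def mx (a b : ℕ) : ℕ := cond (Nat.ble a b) b a

/-- minimum -/
def mn (a b : ℕ) : ℕ := cond (Nat.ble a b) a b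

/-- lazy conjunction -/
def et (a b : Bool) : Bool := cond a b false

/-- lazy disjunction -/
def ou (a b : Bool) : Bool := cond a true b

/-- row number of a scaled threshold: `⌈m / 2 ^ 20⌉ - 4096` (truncated at `0`) -/
def idx (m : ℕ) : ℕ := Nat.sub (Nat.shiftRight (Nat.add m 1048575) 20) 4096

/-- the number with `127` lanes equal to `1` -/
def ones : ℕ := Nat.div (Nat.sub (Nat.pow 2 4064) 1) 4294967295

/-- lanes `k ≥ j` (`k ≤ 126`) of both halves -/
def msk (j : ℕ) : ℕ :=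
  Nat.mul (Nat.shiftLeft (Nat.shiftRight ones (Nat.mul 32 j)) (Nat.mul 32 j)) (Nat.add 1 (Nat.pow 2 4064))

/-- all lanes marked in `O` of `X` are at least `c` (for lanes `< 2 ^ 31`), `OH = 2 ^ 31 * O` -/
def geOk (X c O OH : ℕ) : Bool :=
  Nat.beq (Nat.land (Nat.add X (Nat.mul (Nat.sub 2147483648 c) O)) OH) OH

/-- one entry of the table: `2 ^ 14 v ≤ P A + Q B` in all lanes marked in `O` -/
def entOk (P Q A B v O OH : ℕ) : Bool :=
  geOk (Nat.add (Nat.mul P A) (Nat.mul Q B)) (Nat.mul v 16384) O OH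

/-- all lanes of a row are below `2 ^ 17` -/
def rowOk (r : ℕ) : Bool :=
  cond (Nat.blt r (Nat.pow 2 8128)) (Nat.beq (Nat.land r (Nat.mul (Nat.mul ones (Nat.add 1 (Nat.pow 2 4064))) 4294836224)) 0) false

/-! ### the game, cells `1 .. 125` -/

/-- loop over the rows for a fixed cell and sign; `lm` remaining rows, `lp` a priori values, `la`, `lb` rows from number
`ia`, `ib` on, `xa`, `xb`, `ya`, `yb` scaled thresholds of the two branches at the two ends of the cell -/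
noncomputable def loop (P Q O OH sh ra rb : ℕ) (lm : List ℕ) :
    List ℕ → List ℕ → List ℕ → ℕ → ℕ → ℕ → ℕ → ℕ → ℕ → Bool :=
  List.rec (motive := fun _ => List ℕ → List ℕ → List ℕ → ℕ → ℕ → ℕ → ℕ → ℕ → ℕ → Bool)
    (fun _ _ _ _ _ _ _ _ _ => true)
    (fun r _ ih lp la lb ia ib xa xb ya yb =>
      (fun v ja jb => (fun la' lb' =>
        et (ou (Nat.ble v (hd0 lp)) (entOk P Q (hd0 la') (hd0 lb') v O OH))
          (ih (tl lp) la' lb' ja jb (Nat.add xa ra) (Nat.add xb rb) (Nat.add ya ra) (Nat.add yb rb)))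
        (dr (Nat.sub ja ia) la) (dr (Nat.sub jb ib) lb))
      (Nat.land (Nat.shiftRight r sh) 4294967295) (idx (mx xa xb)) (idx (mx ya yb))) lm

/-- slope of the threshold at the boundary `Y` -/
def slope (Y : ℕ) : ℕ := Nat.div (Nat.mul 1048576 (Nat.add (Nat.mul Y Y) 100000000)) (Nat.sub (Nat.mul Y Y) 100000000)

/-- start value (row 0) at the boundary `Y`, additive constant `+ c / 2 ^ 20` (times `1 / √(S - 1)`) -/
def startP (Y c : ℕ) : ℕ := Nat.add (Nat.div (Nat.add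
  (Nat.mul 1048576 (Nat.sub (Nat.mul 4296 (Nat.sub (Nat.mul Y Y) 100000000)) (Nat.mul 200 (Nat.add (Nat.mul Y Y) 100000000))))
  (Nat.mul c (Nat.mul 20000 Y))) (Nat.sub (Nat.mul Y Y) 100000000)) 352

/-- start value (row 0) at the boundary `Y`, additive constant `- c / 2 ^ 20` (times `1 / √(S - 1)`) -/
def startM (Y c : ℕ) : ℕ := Nat.add (Nat.div (Nat.sub
  (Nat.mul 1048576 (Nat.sub (Nat.mul 4296 (Nat.sub (Nat.mul Y Y) 100000000)) (Nat.mul 200 (Nat.add (Nat.mul Y Y) 100000000))))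
  (Nat.mul c (Nat.mul 20000 Y))) (Nat.sub (Nat.mul Y Y) 100000000)) 352

/-- excess for a positive constant inside the cell `[Y, Z]` -/
def exc (Y Z c : ℕ) : ℕ := Nat.succ (Nat.div (Nat.mul (Nat.mul c (Nat.mul (Nat.sub Z Y) (Nat.sub Z Y))) 10000)
  (Nat.mul (Nat.mul 2 Y) (Nat.sub (Nat.mul Y Y) 100000000)))

/-- parameters of a table: weights `P0 ≤ P1` (`p = P / 2 ^ 14`) and bounds of `50 * 2 ^ 20 * √(q / p)` and
`50 * 2 ^ 20 * √(p / q)`: `c1m ≤ ` value at `P1`, `c1p ≥ ` value at `P0`, `c2m ≤ ` value at `P0`, `c2p ≥ ` value at `P1` -/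
structure Par where
  (P0 P1 c1m c1p c2m c2p : ℕ)

/-- the constants are right -/
def parOk (q : Par) : Bool :=
  et (Nat.blt 0 q.P0) (et (Nat.ble q.P0 q.P1) (et (Nat.ble q.P1 8192) (et
  (Nat.ble (Nat.mul (Nat.mul q.c1m q.c1m) q.P1) (Nat.mul 2748779069440000 (Nat.sub 16384 q.P1))) (et
  (Nat.ble (Nat.mul 2748779069440000 (Nat.sub 16384 q.P0)) (Nat.mul (Nat.mul q.c1p q.c1p) q.P0)) (et
  (Nat.ble (Nat.mul (Nat.mul q.c2m q.c2m) (Nat.sub 16384 q.P0)) (Nat.mul 2748779069440000 q.P0))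
  (Nat.ble (Nat.mul 2748779069440000 q.P1) (Nat.mul (Nat.mul q.c2p q.c2p) (Nat.sub 16384 q.P1))))))))

/-- the loop for a positive head, cell `[Y, Z]` number `i`, smallest lane `j` of the rest -/
noncomputable def cellP (q : Par) (rows apr : List ℕ) (i j Y Z : ℕ) : Bool :=
  loop q.P0 (Nat.sub 16384 q.P0) (msk j) (Nat.mul (msk j) 2147483648) (Nat.mul 32 i) (slope Y) (slope Z) rows apr rows rows 0 0
    (startM Y q.c1m) (startM Z q.c1m) (Nat.add (startP Y q.c2p) (exc Y Z q.c2p)) (Nat.add (startP Z q.c2p) (exc Y Z q.c2p))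

/-- the loop for a negative head -/
noncomputable def cellM (q : Par) (rows apr : List ℕ) (i j Y Z : ℕ) : Bool :=
  loop q.P1 (Nat.sub 16384 q.P1) (msk j) (Nat.mul (msk j) 2147483648) (Nat.add 4064 (Nat.mul 32 i)) (slope Y) (slope Z)
    rows apr rows rows 0 0
    (Nat.add (startP Y q.c1p) (exc Y Z q.c1p)) (Nat.add (startP Z q.c1p) (exc Y Z q.c1p)) (startM Y q.c2m) (startM Z q.c2m)

/-- `S_j ≤ S - 1` at the boundary `Y` (or `j = 0`), `W = Y_j` -/
def jOk (j Y W : ℕ) : Bool :=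
  ou (Nat.beq j 0) (Nat.ble (Nat.mul (Nat.add (Nat.mul W W) 100000000) Y) (Nat.mul (Nat.sub (Nat.mul Y Y) 100000000) W))

/-- the list of the boundaries `Y_0, ..., Y_126` (`S_k` about `10 ^ (k / 126)`) -/
def Ys : List ℕ := [10000, 11450, 12114, 12652, 13126, 13561, 13968, 14355, 14726, 15085, 15435, 15776, 16111, 16440, 16764, 17085, 17402, 17716, 18029, 18339, 18648, 18955, 19261, 19567, 19872, 20176, 20481, 20785, 21089, 21394, 21699, 22004, 22310, 22617, 22925, 23233, 23542, 23853, 24164, 24477, 24791, 25106, 25422, 25741, 26060, 26381, 26704, 27028, 27355, 27683, 28012, 28344, 28678, 29013, 29351, 29690, 30032, 30376, 30722, 31071, 31421, 31774, 32130, 32487, 32848, 33210, 33576, 33943, 34314, 34687, 35063, 35441, 35822, 36206, 36593, 36983, 37376, 37771, 38170, 38572, 38977, 39385, 39796, 40210, 40627, 41048, 41472, 41900, 42330, 42765, 43202, 43643, 44088, 44537, 44988, 45444, 45904, 46367, 46834, 47304, 47779, 48257, 48740, 49226,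 49717, 50212, 50710, 51213, 51720, 52232, 52748, 53268, 53792, 54321, 54855, 55392, 55935, 56482, 57034, 57591, 58152, 58718, 59289, 59865, 60446, 61032, 61623]

/-- `⌈10 ^ 6 S_k⌉`, `k = 1, .., 126` -/
def Su : List ℕ := [1018447, 1037232, 1056362, 1075833, 1095695, 1115899, 1136486, 1157423, 1178756, 1200535, 1222655, 1245227, 1268183, 1291538, 1315390, 1339629, 1364296, 1389525, 1415132, 1441261, 1467812, 1494854, 1522466, 1550549, 1579092, 1608278, 1637909, 1668077, 1698879, 1730213, 1762075, 1794568, 1827695, 1861458, 1895747, 1930673, 1966354, 2002563, 2039537, 2077162, 2115442, 2154379, 2194228, 2234622, 2275815, 2317818, 2360505, 2404150, 2448494, 2493541, 2539575, 2586468, 2634086, 2682723, 2732102, 2782522, 2833848, 2886091, 2939414, 2993521, 3048731, 3105060, 3162201, 3220648, 3279928, 3340546, 3402018, 3464859, 3528749, 3593870, 3660065, 3727522, 3796258, 3866290, 3937635, 4010310, 4084145, 4159532, 4236302, 4314473, 4394063,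 4475090, 4557573, 4641530, 4727184, 4814353, 4903266, 4993525, 5085783, 5179427, 5274904, 5372242, 5471465, 5572153, 5674999, 5779808, 5886376, 5994957, 6105344, 6218034, 6332581, 6449493, 6568315, 6689565, 6813029, 6938483, 7066461, 7196742, 7329619, 7464864, 7602511, 7742588, 7885400, 8030986, 8178833, 8329802, 8483378, 8639879, 8799346, 8961531, 9126760, 9295076, 9466522, 9641140, 9818975, 10000069]

/-- smallest lanes of the rest, cells `1 .. 125`, in five blocks of 25 -/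
def J1 : List ℕ := [0, 0, 0, 0, 0, 0, 0, 0, 0, 0, 0, 0, 0, 0, 0, 0, 0, 0, 0, 0, 0, 0, 0, 0, 0]
def J2 : List ℕ := [0, 0, 0, 0, 0, 0, 0, 0, 0, 0, 0, 0, 0, 2, 4, 5, 7, 9, 11, 13, 15, 16, 18, 20, 21]
def J3 : List ℕ := [23, 25, 26, 28, 30, 31, 33, 34, 36, 37, 39, 40, 42, 43, 45, 46, 47, 49, 50, 52, 53, 54, 56, 57, 58]
def J4 : List ℕ := [60, 61, 62, 64, 65, 66, 68, 69, 70, 71, 73, 74, 75, 77, 78, 79, 80, 81, 83, 84, 85, 86, 88, 89, 90]
def J5 : List ℕ := [91, 92, 93, 95, 96, 97, 98, 99, 100, 102, 103, 104, 105, 106, 107, 109, 110, 111, 112, 113, 114, 115, 116, 118, 119]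

/-- a priori values (Cantelli, fourth moment): entry `i < 200` is
`max ⌊65536 n² / (n² + 2500)⌋ ⌊65536 (4 n⁴ - 13 * 2500²) / (4 n⁴)⌋`, `n = 200 - i`; `0` from `i = 200` on -/
def aprs : List ℕ := [64704, 64687, 64669, 64652, 64633, 64615, 64596, 64576, 64556, 64535, 64514, 64492, 64470, 64447, 64423, 64399, 64374, 64349, 64322, 64295, 64267, 64239, 64209, 64179, 64148, 64116, 64083, 64049, 64014, 63979, 63942, 63904, 63864, 63824, 63782, 63739, 63695, 63650, 63603, 63554, 63504, 63453, 63399, 63344, 63288, 63229, 63169, 63106, 63042, 62975, 62906, 62835, 62761, 62685, 62606, 62524, 62440, 62352, 62261, 62168, 62070, 61969, 61865, 61757, 61644, 61528, 61407, 61281, 61151, 61015, 60875, 60728, 60576, 60418, 60254, 60083, 59905, 59720, 59526, 59325, 59116, 58897, 58669, 58432, 58183, 57924, 57654, 57371, 57075, 56766, 56443, 56105, 55751, 55380, 54991, 54584, 54156, 53708, 53237, 52743, 52428, 52216, 51999, 51778, 51551, 51319, 51082, 50840,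 50592, 50338, 50079, 49813, 49542, 49264, 48979, 48688, 48390, 48085, 47773, 47454, 47127, 46792, 46449, 46098, 45738, 45371, 44994, 44608, 44213, 43809, 43395, 42971, 42537, 42093, 41638, 41173, 40696, 40209, 39710, 39199, 38676, 38142, 37596, 37037, 36465, 35881, 35284, 34675, 34052, 33416, 32768, 32106, 31431, 30743, 30042, 29328, 28601, 27862, 27111, 26349, 25575, 24789, 23994, 23189, 22374, 21552, 20721, 19885, 19043, 18197, 17347, 16496, 15645, 14795, 13949, 13107, 12272, 11445, 10629, 9827, 9039, 8269, 7519, 6790, 6087, 5411, 4764, 4149, 3569, 3025, 2520, 2056, 1635, 1259, 930, 648, 416, 235, 104, 26, 0, 0, 0, 0, 0, 0, 0, 0, 0, 0, 0, 0, 0, 0, 0, 0, 0, 0, 0, 0, 0, 0, 0, 0, 0, 0, 0, 0, 0, 0, 0, 0, 0, 0, 0, 0, 0, 0, 0, 0, 0, 0, 0, 0, 0, 0, 0, 0, 0, 0, 0, 0, 0, 0, 0, 0, 0, 0, 0, 0, 0, 0, 0, 0, 0, 0, 0, 0, 0, 0, 0, 0, 0, 0, 0, 0, 0, 0, 0, 0, 0, 0, 0, 0, 0, 0, 0, 0, 0, 0, 0, 0, 0, 0, 0, 0, 0, 0, 0, 0, 0, 0, 0, 0, 0, 0, 0, 0, 0, 0, 0,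 0, 0, 0, 0, 0, 0, 0, 0, 0, 0, 0, 0, 0, 0, 0, 0, 0, 0, 0, 0, 0, 0, 0, 0, 0, 0, 0, 0, 0, 0, 0, 0, 0, 0, 0, 0, 0, 0, 0, 0]

/-- cells `i, i + 1, ..`; `ly` = boundaries from `Y_i` on; `js` = smallest lanes of the rest -/
noncomputable def cells (q : Par) (rows apr : List ℕ) (js : List ℕ) : List ℕ → ℕ → Bool :=
  List.rec (motive := fun _ => List ℕ → ℕ → Bool) (fun _ _ => true)
    (fun j _ ih ly i => et (jOk j (hd0 ly) (hd0 (dr j Ys))) (et (cellP q rows apr i j (hd0 ly) (hd0 (tl ly)))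
      (et (cellM q rows apr i j (hd0 ly) (hd0 (tl ly))) (ih (tl ly) (Nat.succ i))))) js

/-! ### cell `0` and lane `126` -/

/-- `2 ^ 16 x² / (x² + d)` -/
def fc (d x : ℕ) : ℕ := Nat.div (Nat.mul 65536 (Nat.mul x x)) (Nat.add (Nat.mul x x) d)

/-- value of cell 0, positive head, row `i`; `ρ ≥ 2 ^ 20 √S_1`, `d ≥ 2500 * 2 ^ 40 (S_1 - 1)` -/
def v0P (q : Par) (ρ d i : ℕ) : ℕ := cond (Nat.blt i 200)
  (Nat.div (Nat.add (Nat.mul q.P0 (fc d (Nat.add (Nat.mul (Nat.sub 200 i) 1048576) q.c1m)))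
    (Nat.mul (Nat.sub 16384 q.P0) (fc d (Nat.sub (Nat.mul (Nat.sub 200 i) 1048576) q.c2p)))) 16384)
  (Nat.div (Nat.mul q.P0 (fc d (Nat.sub q.c1m (Nat.mul (Nat.sub i 200) ρ)))) 16384)

/-- value of cell 0, negative head -/
def v0M (q : Par) (ρ d i : ℕ) : ℕ := cond (Nat.blt i 200)
  (Nat.div (Nat.add (Nat.mul q.P1 (fc d (Nat.sub (Nat.mul (Nat.sub 200 i) 1048576) q.c1p)))
    (Nat.mul (Nat.sub 16384 q.P1) (fc d (Nat.add (Nat.mul (Nat.sub 200 i) 1048576) q.c2m)))) 16384)
  (Nat.div (Nat.mul (Nat.sub 16384 q.P1) (fc d (Nat.sub q.c2m (Nat.mul (Nat.sub i 200) ρ)))) 16384)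

/-- `ρ = ⌈2 ^ 20 √S_1⌉` -/
def rho (Y : ℕ) : ℕ := Nat.succ (Nat.div (Nat.mul 1048576 (Nat.add (Nat.mul Y Y) 100000000)) (Nat.mul 20000 Y))

/-- `d = ⌈2500 * 2 ^ 40 (S_1 - 1)⌉` -/
def dd (Y : ℕ) : ℕ := Nat.succ (Nat.div (Nat.mul 2748779069440000
  (Nat.mul (Nat.sub (Nat.mul Y Y) 100000000) (Nat.sub (Nat.mul Y Y) 100000000))) (Nat.mul (Nat.mul 20000 Y) (Nat.mul 20000 Y)))

/-- checks of one row: `rowOk`, lane 0 and lane 126 of both halves (`ap` a priori value, `g` global base value) -/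
def endOk (q : Par) (ρ d E r ap g i : ℕ) : Bool :=
  et (rowOk r) (et
  (ou (Nat.ble (Nat.land r 4294967295) ap) (Nat.ble (Nat.land r 4294967295) (v0P q ρ d i))) (et
  (ou (Nat.ble (Nat.land (Nat.shiftRight r 4064) 4294967295) ap)
    (Nat.ble (Nat.land (Nat.shiftRight r 4064) 4294967295) (v0M q ρ d i))) (et
  (ou (Nat.ble (Nat.land (Nat.shiftRight r 4032) 4294967295) ap)
    (Nat.ble (Nat.add (Nat.land (Nat.shiftRight r 4032) 4294967295) E) g))
  (ou (Nat.ble (Nat.land (Nat.shiftRight r 8096) 4294967295) ap)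
    (Nat.ble (Nat.add (Nat.land (Nat.shiftRight r 8096) 4294967295) E) g)))))

/-- the checks `endOk` of all rows -/
noncomputable def ends (q : Par) (ρ d E : ℕ) (lm : List ℕ) : List ℕ → List ℕ → ℕ → Bool :=
  List.rec (motive := fun _ => List ℕ → List ℕ → ℕ → Bool) (fun _ _ _ => true)
    (fun r _ ih lp lg i => et (endOk q ρ d E r (hd0 lp) (hd0 lg) i) (ih (tl lp) (tl lg) (Nat.succ i))) lm

/-! ### the search at the root -/

/-- lookup in a two-level list (13 rows per block) -/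
noncomputable def look (tab : List (List ℕ)) (i : ℕ) : ℕ := hd0 (dr (Nat.mod i 13) (hdL (dr (Nat.div i 13) tab)))

/-- `look` agrees with the list of rows (`n` rows from number `i` on) -/
noncomputable def lookOk (tab : List (List ℕ)) (lm : List ℕ) : ℕ → Bool :=
  List.rec (motive := fun _ => ℕ → Bool) (fun _ => true)
    (fun r _ ih i => et (Nat.beq (look tab i) r) (ih (Nat.succ i))) lm

/-- Newton step for square roots -/
def nst (n x : ℕ) : ℕ := Nat.div (Nat.add x (Nat.div n x)) 2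

/-- approximate integer square root -/
def isq (n : ℕ) : ℕ := nst n (nst n (nst n (nst n (nst n (nst n (nst n (Nat.pow 2 (Nat.succ (Nat.div (Nat.log2 n) 2)))))))))

/-- `(sqL1 n s)² ≤ n` -/
def sqL1 (n s : ℕ) : ℕ :=
  cond (Nat.ble (Nat.mul s s) n) s (cond (Nat.ble (Nat.mul (Nat.pred s) (Nat.pred s)) n) (Nat.pred s) 0)

/-- `(sqL n)² ≤ n` -/
def sqL (n : ℕ) : ℕ := sqL1 n (isq n)

/-- `n ≤ (sqU1 n s)²` -/
def sqU1 (n s : ℕ) : ℕ :=
  cond (Nat.ble n (Nat.mul s s)) s (cond (Nat.ble n (Nat.mul (Nat.succ s) (Nat.succ s))) (Nat.succ s) n)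

/-- `n ≤ (sqU n)²` -/
def sqU (n : ℕ) : ℕ := sqU1 n (isq n)

/-- row number of a threshold `T` (offset `2 ^ 40`); `qL`, `qU`: bounds of the standard deviation of the rest -/
def slot (qL qU T : ℕ) : ℕ := cond (Nat.ble T 1099511627776)
  (Nat.sub 200 (Nat.div (Nat.mul 50 (Nat.sub 1099511627776 T)) qU))
  (cond (Nat.beq qL 0) 351 (Nat.add 201 (Nat.div (Nat.mul 50 (Nat.sub T 1099511627776)) qL)))

/-- row for the row number `i` (`0` if `i > 350`) -/
noncomputable def lk (tab : List (List ℕ)) (i : ℕ) : ℕ := cond (Nat.ble i 350) (look tab i) 0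

/-- lanewise `⌊(P A + (2 ^ 14 - P) B) / 2 ^ 14⌋` -/
def comb (P A B : ℕ) : ℕ :=
  Nat.land (Nat.shiftRight (Nat.add (Nat.mul P A) (Nat.mul (Nat.sub 16384 P) B)) 14)
    (Nat.mul (Nat.mul ones (Nat.add 1 (Nat.pow 2 4064))) 262143)

/-- patterns of a prefix: thresholds (at `p = P0` and `p = P1`, in units `1 / (1000 * 2 ^ 14)`, offset `2 ^ 40`) at the
leaves; `nd P x y`: `x` if the atom is chosen (weight `P / 2 ^ 14`), `y` if not -/
inductive Tr where
  | lf : ℕ → ℕ → Tr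
  | nd : ℕ → Tr → Tr → Tr

/-- the row of a tree -/
noncomputable def Tr.row (tab : List (List ℕ)) (qL qU : ℕ) (t : Tr) : ℕ :=
  Tr.rec (motive := fun _ => ℕ) (fun a b => lk tab (slot qL qU (mx a b))) (fun P _ _ x y => comb P x y) t

/-- the value of a tree without rest (`65536` or `0` at the leaves) -/
noncomputable def Tr.emp (t : Tr) : ℕ :=
  Tr.rec (motive := fun _ => ℕ) (fun a b => cond (Nat.ble (mx a b) 1099511627776) 65536 0)
    (fun P _ _ x y => Nat.shiftRight (Nat.add (Nat.mul P x) (Nat.mul (Nat.sub 16384 P) y)) 14) t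

/-- one more atom in `[lo, hi] / 1000` -/
noncomputable def Tr.extP (q : Par) (lo hi : ℕ) (t : Tr) : Tr :=
  Tr.rec (motive := fun _ => Tr) (fun a b => Tr.nd q.P0
    (Tr.lf (Nat.sub a (Nat.mul (Nat.sub 16384 q.P0) lo)) (Nat.sub b (Nat.mul (Nat.sub 16384 q.P1) lo)))
    (Tr.lf (Nat.add a (Nat.mul q.P0 hi)) (Nat.add b (Nat.mul q.P1 hi)))) (fun P _ _ x y => Tr.nd P x y) t

/-- one more atom in `- [lo, hi] / 1000` -/
noncomputable def Tr.extM (q : Par) (lo hi : ℕ) (t : Tr) : Tr :=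
  Tr.rec (motive := fun _ => Tr) (fun a b => Tr.nd q.P1
    (Tr.lf (Nat.add a (Nat.mul (Nat.sub 16384 q.P0) hi)) (Nat.add b (Nat.mul (Nat.sub 16384 q.P1) hi)))
    (Tr.lf (Nat.sub a (Nat.mul q.P0 lo)) (Nat.sub b (Nat.mul q.P1 lo)))) (fun P _ _ x y => Tr.nd P x y) t

/-- number of `j ≥ 1` with `S_j ≤ R / L2` (`su` = list of `⌈10 ^ 6 S_j⌉`, `j ≥ 1`) -/
noncomputable def jmax (R L2 : ℕ) (su : List ℕ) : ℕ :=
  List.rec (motive := fun _ => ℕ) 0 (fun a _ ih => cond (Nat.ble (Nat.mul a L2) R) (Nat.succ ih) 0) su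

/-- value of a prefix; `R0 ≤ 10 ^ 6 R² ≤ R1`, last atom at most `last / 1000` -/
noncomputable def evalR (q : Par) (tab : List (List ℕ)) (su : List ℕ) (tgt : ℕ) (t : Tr) (R0 R1 last : ℕ) : Bool :=
  (fun O => geOk (Tr.row tab (sqL (Nat.mul (Nat.mul q.P0 (Nat.sub 16384 q.P0)) R0))
    (sqU (Nat.succ (Nat.mul (Nat.mul q.P1 (Nat.sub 16384 q.P1)) R1))) t) tgt O (Nat.mul O 2147483648))
    (msk (jmax (Nat.mul R0 1000000) (Nat.mul last last) su))

/-- conjunction over `m < n` -/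
noncomputable def allb (n : ℕ) (f : ℕ → Bool) : Bool :=
  Nat.rec (motive := fun _ => Bool) true (fun m ih => et (f m) ih) n

/-- the search; `cap` bounds the next atom if it is positive (used once, after a negative first atom) -/
noncomputable def rs (q : Par) (tab : List (List ℕ)) (su : List ℕ) (tgt : ℕ) (f : ℕ) : Tr → ℕ → ℕ → ℕ → ℕ → Bool :=
  Nat.rec (motive := fun _ => Tr → ℕ → ℕ → ℕ → ℕ → Bool)
    (fun t R0 R1 last _ => evalR q tab su tgt t R0 R1 last)
    (fun _ ih t R0 R1 last cap =>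
      ou (evalR q tab su tgt t R0 R1 last)
        (et (ou (Nat.blt 0 R0) (Nat.ble tgt (Tr.emp t)))
          (allb 50 (fun m => (fun lo =>
            ou (ou (Nat.ble last lo) (Nat.blt R1 (Nat.mul lo lo)))
              (et (ou (Nat.ble cap lo)
                ((fun h => ih (Tr.extP q lo h t) (Nat.sub R0 (Nat.mul h h)) (Nat.sub R1 (Nat.mul lo lo)) h 2000)
                  (mn (Nat.add lo 20) (mn last cap))))
                ((fun h => ih (Tr.extM q lo h t) (Nat.sub R0 (Nat.mul h h)) (Nat.sub R1 (Nat.mul lo lo)) h 2000)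
                  (mn (Nat.add lo 20) last)))) (Nat.mul 20 m))))) f

/-- root, positive first atom, `S ∈ [sa, sb] / 1000` -/
noncomputable def rootP (q : Par) (tab : List (List ℕ)) (su : List ℕ) (tgt eps f sa sb : ℕ) : Bool :=
  rs q tab su tgt f (Tr.extP q 1000 1000 (Tr.lf (Nat.add 1099511627776 eps) (Nat.add 1099511627776 eps)))
    (Nat.sub (Nat.mul 1000 sa) 1000000) (Nat.sub (Nat.mul 1000 sb) 1000000) 1000 2000

/-- root, negative first atom -/
noncomputable def rootM (q : Par) (tab : List (List ℕ)) (su : List ℕ) (tgt eps f sa sb : ℕ) : Bool :=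
  rs q tab su tgt f (Tr.extM q 1000 1000 (Tr.lf (Nat.add 1099511627776 eps) (Nat.add 1099511627776 eps)))
    (Nat.sub (Nat.mul 1000 sa) 1000000) (Nat.sub (Nat.mul 1000 sb) 1000000) 1000 (sqU (Nat.succ (Nat.div (Nat.mul sb 100000) 203)))

/-- positive first atom, `c` cells of width `w / 1000` from `sa / 1000` on -/
noncomputable def rangeP (q : Par) (tab : List (List ℕ)) (su : List ℕ) (tgt eps f w c : ℕ) : ℕ → Bool :=
  Nat.rec (motive := fun _ => ℕ → Bool) (fun _ => true)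
    (fun _ ih sa => et (rootP q tab su tgt eps f sa (Nat.add sa w)) (ih (Nat.add sa w))) c

/-- negative first atom, `c` cells of width `w / 1000` from `sa / 1000` on -/
noncomputable def rangeM (q : Par) (tab : List (List ℕ)) (su : List ℕ) (tgt eps f w c : ℕ) : ℕ → Bool :=
  Nat.rec (motive := fun _ => ℕ → Bool) (fun _ => true)
    (fun _ ih sa => et (rootM q tab su tgt eps f sa (Nat.add sa w)) (ih (Nat.add sa w))) c

/-! ### the star regime -/

/-- all lanes of the rows number `i, i - 1, ..` are at least the given values -/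
noncomputable def minOk (tab : List (List ℕ)) (lv : List ℕ) : ℕ → Bool :=
  List.rec (motive := fun _ => ℕ → Bool) (fun _ => true)
    (fun v _ ih i => et (geOk (look tab i) v (msk 0) (Nat.mul (msk 0) 2147483648)) (ih (Nat.pred i))) lv

/-- `w / 2 ^ 20 ≥ √((1 - π) / π)`, `π = (v - 8) / 2 ^ 16`, and `π (1 + g²) ≥ P1 / 2 ^ 14` for
`g = c1 / 2 ^ 20 - P1 / 2 ^ 14 * ((m + 1) / 50 + w / 2 ^ 20)` (`0` if negative) -/
def starC (P1 c1 w v m : ℕ) : Bool :=
  et (Nat.ble (Nat.mul 1099511627776 (Nat.sub 65544 v)) (Nat.mul (Nat.mul w w) (Nat.sub v 8)))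
    ((fun g => Nat.ble (Nat.mul P1 4398046511104) (Nat.mul (Nat.sub v 8) (Nat.add 1099511627776 (Nat.mul g g))))
      (Nat.sub c1 (Nat.succ (Nat.div (Nat.mul P1 (Nat.add (Nat.mul 1048576 (Nat.succ m)) (Nat.mul 50 w))) 819200))))

/-- the numeric condition of the star lemma: `lv` = lower bounds `v_0, .., v_M` (units `2 ^ -16`), `ws` = `w_0, .., w_(M-1)` -/
noncomputable def starS (P1 c1 : ℕ) (ws : List ℕ) : List ℕ → ℕ → Bool :=
  List.rec (motive := fun _ => List ℕ → ℕ → Bool) (fun lv _ => Nat.ble (Nat.add (Nat.mul 4 P1) 8) (hd0 lv))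
    (fun w _ ih lv m => et (starC P1 c1 w (hd0 lv) m) (ih (tl lv) (Nat.succ m))) ws

/-- `c1 / 2 ^ 20 ≤ √((1 - P) / (1.04 P))`, `P = P1 / 2 ^ 14`, and the conditions `starC` -/
noncomputable def starOk (P1 c1 : ℕ) (ws lv : List ℕ) : Bool :=
  et (Nat.ble (Nat.mul (Nat.mul c1 c1) (Nat.mul 104 P1)) (Nat.mul 109951162777600 (Nat.sub 16384 P1))) (starS P1 c1 ws lv 0)

end Pool.Agent.MMS14
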