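import Pool.Agent.MMS14.StepAux

/-!
# MMS14/StepM: one step of the game, negative head, cell `i ∈ [1, 125]`

As `StepP` (read its header first), with `h < 0`.  The branch `ξ = 1` has the threshold `t - (1 - p) h = t + (1 - p) |h|`
(`slotP_sound` with `K = 50 √((1 - p) / p)`, `c = q.c1p`), the branch `ξ = 0` the threshold `t + p h = t - p |h|`
(`slotM_sound` with `K = 50 √(p / (1 - p))`, `c = q.c2m`).  `parOk` gives `(50 * 2 ^ 20)² (2 ^ 14 - P0) ≤ c1p² P0` and
`c2m² (2 ^ 14 - P0) ≤ (50 * 2 ^ 20)² P0`.  The weight is `P1 / 2 ^ 14 ≥ p` (`Pr_low_neg`).  `sh = 4064 + 32 i = 32 (127 + i)`.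
-/

set_option autoImplicit false

namespace Pool.Agent.MMS14

theorem stepM {q : Par} {rows : List ℕ} (hp : parOk q = true) (hlen : rows.length = 351)
    (hrow : ∀ r, RowP (rowv rows r)) {n : ℕ} (hG : GoodN q.P0 q.P1 rows n) {i j : ℕ} (hi : 1 ≤ i) (hi' : i < 126)
    (hj : j ≤ 126) (hjo : jOk j (Yk i) (Yk j) = true) (hc : cellM q rows aprs i j (Yk i) (Yk (i + 1)) = true) (r : ℕ) :
    LB q.P0 q.P1 (n + 1) (lane (rowv rows r) (127 + i)) false i r := by
  intro p hpa hpb hp5 hp2 h l hs hl hpos hin t ht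
  have hh : h < 0 := by simpa using hpos
  obtain ⟨hi126, hS1, hS2⟩ := hin
  have hS2 := hS2 hi'
  have p0 : 0 < p := by linarith
  have p1 : p < 1 := by linarith
  obtain ⟨q1, q2, q3, -⟩ := parOk_spec hp
  by_cases hr : r < 351
  swap
  · rw [lane_out (by omega), Nat.cast_zero, zero_div]
    exact Pr_nonneg p0.le p1.le _ _
  have hssp : 0 < ss (h :: l) := by
    rw [ss_cons]
    have := ss_nonneg l
    have hh0 : h ≠ 0 := ne_of_lt hh
    have : 0 < h ^ 2 := by positivity
    linarith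
  have hsh : Nat.add 4064 (Nat.mul 32 i) = Nat.mul 32 (127 + i) := by
    change 4064 + 32 * i = 32 * (127 + i)
    omega
  have hc' := hc
  unfold cellM at hc'
  rw [hsh] at hc'
  rcases loop_sound hc' r (by omega) with h1 | h1
  · have h2 : lane (rowv rows r) (127 + i) ≤ aprs.getD r 0 := h1
    refine le_trans ?_ (aprs_sound hp5 hp2 (h :: l) hssp r t ht)
    have h3 : ((lane (rowv rows r) (127 + i) : ℕ) : ℝ) ≤ ((aprs.getD r 0 : ℕ) : ℝ) := Nat.cast_le.2 h2
    linarith
  · obtain ⟨k, hk1, hk2, o, ho, hlow⟩ := tail_low hG hi hi' hj hjo hpa hpb hp5 hp2 hs hl hh.ne hS1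
    set ja := idx (max (startP (Yk i) q.c1p + exc (Yk i) (Yk (i + 1)) q.c1p + r * slope (Yk i))
      (startP (Yk (i + 1)) q.c1p + exc (Yk i) (Yk (i + 1)) q.c1p + r * slope (Yk (i + 1)))) with hja
    set jb := idx (max (startM (Yk i) q.c2m + r * slope (Yk i))
      (startM (Yk (i + 1)) q.c2m + r * slope (Yk (i + 1)))) with hjb
    have h1' : entOk q.P1 (16384 - q.P1) (rowv rows ja) (rowv rows jb) (lane (rowv rows r) (127 + i)) (msk j)
        (Nat.mul (msk j) 2147483648) = true := h1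
    have hPQ : q.P1 + (16384 - q.P1) = 16384 := by omega
    have h3 := entOk_msk hj hPQ (hrow ja) (hrow jb) ((hrow r).2 (127 + i) (by omega)) h1' k hk1 hk2
    have h4 : lane (rowv rows r) (127 + i) * 16384 ≤ q.P1 * lane (rowv rows ja) (o + k) +
        (16384 - q.P1) * lane (rowv rows jb) (o + k) := by
      rcases ho with rfl | rfl
      · rw [Nat.zero_add]; exact h3.1
      · exact h3.2
    set S := ss (h :: l) / h ^ 2 with hS
    have hh0 : h ≠ 0 := ne_of_lt hh
    have hh2 : 0 < h ^ 2 := by positivity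
    have e1 : ss (h :: l) = S * h ^ 2 := by rw [hS]; field_simp
    have e2 : ss l = (S - 1) * h ^ 2 := by
      have := ss_cons h l
      rw [e1] at this
      linarith
    have hS1' : 1 < S := lt_of_lt_of_le Sc_one ((Sc_mono hi (by omega)).trans hS1)
    have e3 := sd_eq p0.le p1.le (by linarith : 0 ≤ S) e1
    have e4 := sd_eq p0.le p1.le (by linarith : 0 ≤ S - 1) e2
    rw [abs_of_neg hh] at e3 e4
    rw [e3] at ht
    have w0 : 0 ≤ √(p * (1 - p)) := Real.sqrt_nonneg _
    have t1 : t - (1 - p) * h ≤ ((ja : ℝ) - 200) / 50 * sd p l := by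
      rw [e4, show t - (1 - p) * h = t + (1 - p) * (-h) by ring]
      refine thr_up w0 (by linarith) (K := 50 * √((1 - p) / p)) ?_ ?_ ht
      · have := sq_fac1 p0 p1
        linear_combination 50 * this
      · exact slotP_sound hi hi' hr hS1 hS2 (by positivity) (par_c1p hp p0 hpa)
    have t2 : t + p * h ≤ ((jb : ℝ) - 200) / 50 * sd p l := by
      rw [e4, show t + p * h = t - p * (-h) by ring]
      refine thr_low w0 (by linarith) (K := 50 * √(p / (1 - p))) ?_ ?_ ht
      · have := sq_fac2 p0 p1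
        linear_combination 50 * this
      · exact slotM_sound hi hi' hr hS1 hS2 (par_c2m hp p1 hpa)
    have hP1 : (q.P1 : ℝ) / 16384 ≤ 1 := by
      have : (q.P1 : ℝ) ≤ 8192 := by exact_mod_cast q3
      linarith
    exact comb_low hPQ h4 (hlow ja _ t1) (hlow jb _ t2)
      (Pr_low_neg p0.le hpb hP1 hh.le l t)

end Pool.Agent.MMS14
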