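import Pool.Agent.MMS14.Base

/-!
# MMS14/Lanes: packed arithmetic

Lane `k` of `X` is `X / 2 ^ (32 k) % 2 ^ 32`.  Suggested route: `lane_eq`, then the representation
`X = ∑ k ∈ range 254, lane X k * 2 ^ (32 k)` for `X < 2 ^ 8128` and the converse: if `X = ∑ k ∈ range 254, c k * 2 ^ (32 k)` with all
`c k < 2 ^ 32`, then `lane X k = c k` and `X < 2 ^ 8128` (`Nat.ofDigits` or induction on the number of lanes).
`msk j = ∑_(j ≤ k ≤ 126) (2 ^ (32 k) + 2 ^ (32 (127 + k)))` (`ones = ∑_(k < 127) 2 ^ (32 k)`, geometric sum, or `decide +kernel`).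
`geOk`: all lanes of `X` are `< 2 ^ 31` and `c ≤ 2 ^ 31`, so in `X + (2 ^ 31 - c) * O` no lane overflows; `land` with `2 ^ 31 O`
being equal to `2 ^ 31 O` says that bit `31` of the lanes `k ∈ O` is set: `lane X k + 2 ^ 31 - c ≥ 2 ^ 31`.
`comb`: the lanes of `P A + (2 ^ 14 - P) B` are `< 2 ^ 31`; after the shift by 14 bits the lower 18 bits of lane `k` are
`⌊lane / 2 ^ 14⌋ < 2 ^ 17`, and the mask removes the bits that come from lane `k + 1`.
-/

set_option autoImplicit false

namespace Pool.Agent.MMS14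

theorem lane_eq (r k : ℕ) : lane r k = r / 2 ^ (32 * k) % 2 ^ 32 := by
  unfold lane
  show (r >>> (32 * k)) &&& 4294967295 = _
  rw [show (4294967295 : ℕ) = 2 ^ 32 - 1 by norm_num, Nat.and_two_pow_sub_one_eq_mod,
    Nat.shiftRight_eq_div_pow]

/-- the number with the lanes `f 0, .., f (n - 1)` -/
private def pk (f : ℕ → ℕ) (n : ℕ) : ℕ := ∑ k ∈ Finset.range n, f k * 2 ^ (32 * k)

private theorem pk_succ (f : ℕ → ℕ) (n : ℕ) : pk f (n + 1) = pk f n + f n * 2 ^ (32 * n) :=
  Finset.sum_range_succ _ _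

private theorem pow_step (n : ℕ) : 2 ^ (32 * (n + 1)) = 2 ^ (32 * n) * 2 ^ 32 := by
  rw [← pow_add]
  rfl

private theorem pk_lt {f : ℕ → ℕ} {n : ℕ} (h : ∀ k, k < n → f k < 2 ^ 32) : pk f n < 2 ^ (32 * n) := by
  induction n with
  | zero => simp [pk]
  | succ n ih =>
    rw [pk_succ, pow_step]
    have h1 := ih (fun k hk => h k (Nat.lt_succ_of_lt hk))
    have h2 : (f n + 1) * 2 ^ (32 * n) ≤ 2 ^ 32 * 2 ^ (32 * n) :=
      Nat.mul_le_mul_right _ (h n (Nat.lt_succ_self n))
    rw [add_mul, one_mul] at h2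
    rw [mul_comm (2 ^ (32 * n)) (2 ^ 32)]
    omega

private theorem lane_pk {f : ℕ → ℕ} {n : ℕ} (h : ∀ k, k < n → f k < 2 ^ 32) {k : ℕ} (hk : k < n) :
    lane (pk f n) k = f k := by
  induction n with
  | zero => omega
  | succ n ih =>
    have hn : ∀ k, k < n → f k < 2 ^ 32 := fun k hk => h k (Nat.lt_succ_of_lt hk)
    rw [lane_eq, pk_succ]
    rcases Nat.lt_succ_iff_lt_or_eq.1 hk with h1 | rfl
    · obtain ⟨d, rfl⟩ := Nat.exists_eq_add_of_lt h1
      have e : f (k + d + 1) * 2 ^ (32 * (k + d + 1)) =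
          (f (k + d + 1) * 2 ^ (32 * d) * 2 ^ 32) * 2 ^ (32 * k) := by
        rw [show 32 * (k + d + 1) = 32 * d + 32 + 32 * k by ring, pow_add, pow_add]
        ring
      rw [e, Nat.add_mul_div_right _ _ (Nat.two_pow_pos _), Nat.add_mul_mod_self_right,
        ← lane_eq]
      exact ih hn h1
    · rw [Nat.add_mul_div_right _ _ (Nat.two_pow_pos _), Nat.div_eq_of_lt (pk_lt hn), zero_add,
        Nat.mod_eq_of_lt (h k hk)]

private theorem pk_lane (X n : ℕ) : pk (lane X) n = X % 2 ^ (32 * n) := by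
  induction n with
  | zero => simp [pk, Nat.mod_one]
  | succ n ih => rw [pk_succ, ih, pow_step, Nat.mod_mul, lane_eq, mul_comm (_ % 2 ^ 32)]

private theorem pk_self {X n : ℕ} (h : X < 2 ^ (32 * n)) : pk (lane X) n = X := by
  rw [pk_lane, Nat.mod_eq_of_lt h]

private theorem pk_lin (f g : ℕ → ℕ) (P Q n : ℕ) :
    P * pk f n + Q * pk g n = pk (fun k => P * f k + Q * g k) n := by
  unfold pk
  rw [Finset.mul_sum, Finset.mul_sum, ← Finset.sum_add_distrib]
  exact Finset.sum_congr rfl (fun k _ => by ring)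

private theorem e8128 : (2 : ℕ) ^ 8128 = 2 ^ (32 * 254) := by
  congr 1

private theorem e4064 : (2 : ℕ) ^ 4064 = 2 ^ (32 * 127) := by
  congr 1

private theorem npow (a b : ℕ) : Nat.pow a b = a ^ b := rfl

private theorem nmul (a b : ℕ) : Nat.mul a b = a * b := rfl

private theorem nadd (a b : ℕ) : Nat.add a b = a + b := rfl

private theorem nsub (a b : ℕ) : Nat.sub a b = a - b := rfl

private theorem ndiv (a b : ℕ) : Nat.div a b = a / b := rfl

private theorem lane_lin {A B P Q : ℕ} (hA : A < 2 ^ 8128) (hB : B < 2 ^ 8128)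
    (h : ∀ k, k < 254 → P * lane A k + Q * lane B k < 2 ^ 32) :
    P * A + Q * B < 2 ^ 8128 ∧
      ∀ k, k < 254 → lane (P * A + Q * B) k = P * lane A k + Q * lane B k := by
  rw [e8128] at hA hB ⊢
  have e : P * A + Q * B = pk (fun k => P * lane A k + Q * lane B k) 254 := by
    rw [← pk_lin, pk_self hA, pk_self hB]
  rw [e]
  exact ⟨pk_lt h, fun k hk => lane_pk h hk⟩

private theorem lane_land (A B k : ℕ) : lane (Nat.land A B) k = Nat.land (lane A k) (lane B k) := by
  unfold lane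
  show ((A &&& B) >>> (32 * k)) &&& 4294967295 =
    ((A >>> (32 * k)) &&& 4294967295) &&& ((B >>> (32 * k)) &&& 4294967295)
  apply Nat.eq_of_testBit_eq
  intro i
  simp only [Nat.testBit_and, Nat.testBit_shiftRight]
  cases A.testBit (32 * k + i) <;> cases B.testBit (32 * k + i) <;>
    cases Nat.testBit 4294967295 i <;> rfl

private theorem lane_dbl {m : ℕ} (hm : m < 2 ^ 4064) (k : ℕ) :
    lane (Nat.mul m (Nat.add 1 (Nat.pow 2 4064))) k =
      if k < 127 then lane m k else lane m (k - 127) := by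
  have e : Nat.mul m (Nat.add 1 (Nat.pow 2 4064)) = m + m * 2 ^ (32 * 127) := by
    rw [nmul, nadd, npow, e4064, mul_add, mul_one]
  rw [e4064] at hm
  rw [e, lane_eq]
  split_ifs with h
  · obtain ⟨d, hd⟩ := Nat.exists_eq_add_of_lt h
    have e : m * 2 ^ (32 * 127) = (m * 2 ^ (32 * d) * 2 ^ 32) * 2 ^ (32 * k) := by
      rw [show 32 * 127 = 32 * d + 32 + 32 * k by omega, pow_add, pow_add]
      ring
    rw [e, Nat.add_mul_div_right _ _ (Nat.two_pow_pos _), Nat.add_mul_mod_self_right, ← lane_eq]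
  · obtain ⟨d, rfl⟩ := Nat.exists_eq_add_of_le (not_lt.1 h)
    rw [show 32 * (127 + d) = 32 * 127 + 32 * d by ring, pow_add, ← Nat.div_div_eq_div_mul,
      Nat.add_mul_div_right _ _ (Nat.two_pow_pos _), Nat.div_eq_of_lt hm, zero_add, ← lane_eq,
      Nat.add_sub_cancel_left]

private theorem dbl_lt {m : ℕ} (hm : m < 2 ^ 4064) : Nat.mul m (Nat.add 1 (Nat.pow 2 4064)) < 2 ^ 8128 := by
  have e : (2 : ℕ) ^ 8128 = 2 ^ 4064 * 2 ^ 4064 := by rw [← pow_add]
  rw [nmul, nadd, npow, e]
  generalize (2 : ℕ) ^ 4064 = x at hm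
  have h1 : m + 1 ≤ x := hm
  nlinarith

private theorem ones_eq : ones = pk (fun _ => 1) 127 := by
  unfold ones pk
  rw [ndiv, nsub, npow, e4064, pow_mul]
  have h := Nat.geomSum_eq (m := 2 ^ 32) (by norm_num) 127
  rw [show (4294967295 : ℕ) = 2 ^ 32 - 1 by norm_num, ← h]
  refine Finset.sum_congr rfl (fun k _ => ?_)
  rw [one_mul, pow_mul]

private theorem ones_lt : ones < 2 ^ 4064 := by
  rw [ones_eq, e4064]
  exact pk_lt (fun _ _ => by norm_num)

private theorem lane_ones {k : ℕ} (hk : k < 127) : lane ones k = 1 := by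
  rw [ones_eq]
  exact lane_pk (fun _ _ => by norm_num) hk

private theorem full_lane (c : ℕ) (hc : c < 2 ^ 32) :
    Nat.mul (Nat.mul ones (Nat.add 1 (Nat.pow 2 4064))) c < 2 ^ 8128 ∧
      ∀ k, k < 254 → lane (Nat.mul (Nat.mul ones (Nat.add 1 (Nat.pow 2 4064))) c) k = c := by
  have h0 : ∀ k, k < 254 → lane (Nat.mul ones (Nat.add 1 (Nat.pow 2 4064))) k = 1 := by
    intro k hk
    rw [lane_dbl ones_lt]
    split_ifs with h
    · exact lane_ones h
    · exact lane_ones (by omega)
  have h1 := dbl_lt ones_lt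
  have h2 := lane_lin (A := Nat.mul ones (Nat.add 1 (Nat.pow 2 4064))) (B := 0) (P := c) (Q := 0)
    h1 (Nat.two_pow_pos _) (fun k hk => by rw [h0 k hk]; omega)
  rw [zero_mul, add_zero] at h2
  have e : Nat.mul (Nat.mul ones (Nat.add 1 (Nat.pow 2 4064))) c =
      c * Nat.mul ones (Nat.add 1 (Nat.pow 2 4064)) := Nat.mul_comm _ _
  rw [e]
  refine ⟨h2.1, fun k hk => ?_⟩
  rw [h2.2 k hk, h0 k hk]
  omega

private theorem land_eq_zero_lt {x : ℕ} (hx : x < 2 ^ 32) (h : Nat.land x 4294836224 = 0) : x < 131072 := by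
  by_contra hc
  have h1 : 131072 ≤ x := not_lt.1 hc
  have h2 : ∃ i, 17 ≤ i ∧ x.testBit i = true := by
    by_contra hn
    push Not at hn
    have h3 : x < 2 ^ 17 := by
      apply Nat.lt_pow_two_of_testBit
      intro i hi
      have := hn i hi
      simpa using this
    norm_num at h3
    omega
  obtain ⟨i, hi, h3⟩ := h2
  have h4 : i < 32 := by
    by_contra h5
    have h6 : x < 2 ^ i := lt_of_lt_of_le hx (Nat.pow_le_pow_right (by norm_num) (not_lt.1 h5))
    rw [Nat.testBit_lt_two_pow h6] at h3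
    exact absurd h3 (by decide)
  have h5 : (Nat.land x 4294836224).testBit i = false := by
    rw [h, Nat.zero_testBit]
  have h6 : (x &&& 4294836224).testBit i = false := h5
  rw [Nat.testBit_and, h3, Bool.true_and] at h6
  have h7 : ∀ i, 17 ≤ i → i < 32 → Nat.testBit 4294836224 i = true := by decide
  rw [h7 i hi h4] at h6
  exact absurd h6 (by decide)

private theorem lane_lt (X k : ℕ) : lane X k < 2 ^ 32 := by
  rw [lane_eq]
  exact Nat.mod_lt _ (by norm_num)

theorem lane_zero (k : ℕ) : lane 0 k = 0 := by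
  rw [lane_eq, Nat.zero_div, Nat.zero_mod]

theorem rowOk_sound {r : ℕ} (h : rowOk r = true) : RowP r := by
  unfold rowOk at h
  cases h1 : Nat.blt r (Nat.pow 2 8128) with
  | false =>
    rw [h1] at h
    exact absurd h Bool.false_ne_true
  | true =>
    rw [h1] at h
    have h2 : r < 2 ^ 8128 := by
      have h3 : Nat.ble (r + 1) (Nat.pow 2 8128) = true := h1
      rw [Nat.ble_eq, npow] at h3
      exact h3
    have h3 : Nat.land r (Nat.mul (Nat.mul ones (Nat.add 1 (Nat.pow 2 4064))) 4294836224) = 0 :=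
      Nat.eq_of_beq_eq_true h
    refine ⟨h2, fun k hk => ?_⟩
    have h4 : lane (Nat.land r (Nat.mul (Nat.mul ones (Nat.add 1 (Nat.pow 2 4064))) 4294836224)) k =
      lane 0 k := by rw [h3]
    rw [lane_land, (full_lane _ (by norm_num)).2 k hk, lane_zero] at h4
    exact land_eq_zero_lt (lane_lt r k) h4

private theorem cut_lane (X j k : ℕ) :
    lane (Nat.shiftLeft (Nat.shiftRight X (Nat.mul 32 j)) (Nat.mul 32 j)) k =
      if j ≤ k then lane X k else 0 := by
  have e : Nat.shiftLeft (Nat.shiftRight X (Nat.mul 32 j)) (Nat.mul 32 j) =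
      X / 2 ^ (32 * j) * 2 ^ (32 * j) := by
    show (X >>> (32 * j)) <<< (32 * j) = _
    rw [Nat.shiftLeft_eq, Nat.shiftRight_eq_div_pow]
  rw [e, lane_eq]
  split_ifs with h
  · obtain ⟨d, rfl⟩ := Nat.exists_eq_add_of_le h
    rw [lane_eq, show 32 * (j + d) = 32 * j + 32 * d by ring, pow_add, ← Nat.div_div_eq_div_mul,
      ← Nat.div_div_eq_div_mul, Nat.mul_div_cancel _ (Nat.two_pow_pos _)]
  · obtain ⟨d, hd⟩ := Nat.exists_eq_add_of_lt (not_le.1 h)
    have e : X / 2 ^ (32 * j) * 2 ^ (32 * j) =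
        (X / 2 ^ (32 * j) * 2 ^ (32 * d) * 2 ^ 32) * 2 ^ (32 * k) := by
      conv_lhs => rw [show 32 * j = 32 * d + 32 + 32 * k by omega, pow_add, pow_add]
      conv_rhs => rw [show 32 * j = 32 * d + 32 + 32 * k by omega, pow_add, pow_add]
      ring
    rw [e, Nat.mul_div_cancel _ (Nat.two_pow_pos _), Nat.mul_mod_left]

private theorem cut_le (X j : ℕ) :
    Nat.shiftLeft (Nat.shiftRight X (Nat.mul 32 j)) (Nat.mul 32 j) ≤ X := by
  have e : Nat.shiftLeft (Nat.shiftRight X (Nat.mul 32 j)) (Nat.mul 32 j) =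
      X / 2 ^ (32 * j) * 2 ^ (32 * j) := by
    show (X >>> (32 * j)) <<< (32 * j) = _
    rw [Nat.shiftLeft_eq, Nat.shiftRight_eq_div_pow]
  rw [e]
  exact Nat.div_mul_le_self _ _

private theorem msk_lt (j : ℕ) : msk j < 2 ^ 8128 := by
  unfold msk
  exact dbl_lt (lt_of_le_of_lt (cut_le _ _) ones_lt)

private theorem lane_msk {j k : ℕ} (hk : k < 254) :
    lane (msk j) k = if k < 127 then (if j ≤ k then 1 else 0) else if j ≤ k - 127 then 1 else 0 := by
  unfold msk
  rw [lane_dbl (lt_of_le_of_lt (cut_le _ _) ones_lt)]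
  split_ifs with h1 h2 h2
  · rw [cut_lane, if_pos h2, lane_ones h1]
  · rw [cut_lane, if_neg h2]
  · rw [cut_lane, if_pos h2, lane_ones (by omega)]
  · rw [cut_lane, if_neg h2]

private theorem lane_msk_le (j : ℕ) {k : ℕ} (hk : k < 254) : lane (msk j) k ≤ 1 := by
  rw [lane_msk hk]
  split_ifs <;> norm_num

theorem geOk_msk {X c j : ℕ} (hj : j ≤ 126) (hc : c ≤ 2147483648) (hX : X < 2 ^ 8128)
    (hl : ∀ k, k < 254 → lane X k < 2147483648)
    (h : geOk X c (msk j) (Nat.mul (msk j) 2147483648) = true) :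
    ∀ k, j ≤ k → k ≤ 126 → c ≤ lane X k ∧ c ≤ lane X (127 + k) := by
  have h1 : Nat.land (X + (2147483648 - c) * msk j) (msk j * 2147483648) = msk j * 2147483648 :=
    Nat.eq_of_beq_eq_true h
  have h2 := lane_lin (A := X) (B := msk j) (P := 1) (Q := 2147483648 - c) hX (msk_lt j)
    (fun k hk => by
      have := hl k hk
      have h3 := lane_msk_le j hk
      have h4 : (2147483648 - c) * lane (msk j) k ≤ (2147483648 - c) * 1 :=
        Nat.mul_le_mul_left _ h3
      omega)
  have h3 := lane_lin (A := msk j) (B := 0) (P := 2147483648) (Q := 0) (msk_lt j)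
    (Nat.two_pow_pos _) (fun k hk => by
      have h3 := lane_msk_le j hk
      omega)
  rw [zero_mul, add_zero, mul_comm] at h3
  rw [one_mul] at h2
  have key : ∀ k, k < 254 → lane (msk j) k = 1 → c ≤ lane X k := by
    intro k hk h4
    have h5 : lane (Nat.land (X + (2147483648 - c) * msk j) (msk j * 2147483648)) k =
      lane (msk j * 2147483648) k := by rw [h1]
    rw [lane_land, h2.2 k hk, h3.2 k hk, h4, one_mul, mul_one, zero_mul, add_zero, mul_one] at h5
    have h6 : Nat.land (lane X k + (2147483648 - c)) 2147483648 ≤ lane X k + (2147483648 - c) :=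
      Nat.and_le_left
    rw [h5] at h6
    omega
  intro k hk hk'
  constructor
  · apply key k (by omega)
    rw [lane_msk (by omega), if_pos (by omega), if_pos hk]
  · apply key (127 + k) (by omega)
    rw [lane_msk (by omega), if_neg (by omega), if_pos (by omega)]

theorem entOk_msk {P Q A B v j : ℕ} (hj : j ≤ 126) (hPQ : P + Q = 16384) (hA : RowP A) (hB : RowP B) (hv : v < 131072)
    (h : entOk P Q A B v (msk j) (Nat.mul (msk j) 2147483648) = true) :
    ∀ k, j ≤ k → k ≤ 126 → v * 16384 ≤ P * lane A k + Q * lane B k ∧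
      v * 16384 ≤ P * lane A (127 + k) + Q * lane B (127 + k) := by
  have h0 : ∀ k, k < 254 → P * lane A k + Q * lane B k < 2147483648 := by
    intro k hk
    have h1 : P * lane A k ≤ P * 131071 := Nat.mul_le_mul_left _ (by have := hA.2 k hk; omega)
    have h2 : Q * lane B k ≤ Q * 131071 := Nat.mul_le_mul_left _ (by have := hB.2 k hk; omega)
    omega
  have h1 := lane_lin (P := P) (Q := Q) hA.1 hB.1 (fun k hk => by have := h0 k hk; omega)
  have h2 : geOk (P * A + Q * B) (v * 16384) (msk j) (Nat.mul (msk j) 2147483648) = true := h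
  have h3 := geOk_msk hj (by omega) h1.1 (fun k hk => by rw [h1.2 k hk]; exact h0 k hk) h2
  intro k hk hk'
  have h4 := h3 k hk hk'
  rw [h1.2 k (by omega), h1.2 (127 + k) (by omega)] at h4
  exact h4

private theorem comb_eq (P A B : ℕ) : comb P A B = Nat.land ((P * A + (16384 - P) * B) >>> 14)
    (Nat.mul (Nat.mul ones (Nat.add 1 (Nat.pow 2 4064))) 262143) := by
  unfold comb
  rw [nadd, nmul, nmul, nsub]
  rfl

private theorem land_le_right (a b : ℕ) : Nat.land a b ≤ b := Nat.and_le_right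

theorem comb_lane {P A B k : ℕ} (hP : P ≤ 16384) (hA : RowP A) (hB : RowP B) (hk : k < 254) :
    lane (comb P A B) k = (P * lane A k + (16384 - P) * lane B k) / 16384 := by
  have h0 : ∀ k, k < 254 → P * lane A k + (16384 - P) * lane B k < 2 ^ 32 := by
    intro k hk
    have h1 : P * lane A k ≤ P * 131071 := Nat.mul_le_mul_left _ (by have := hA.2 k hk; omega)
    have h2 : (16384 - P) * lane B k ≤ (16384 - P) * 131071 :=
      Nat.mul_le_mul_left _ (by have := hB.2 k hk; omega)
    omega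
  have h1 := lane_lin (P := P) (Q := 16384 - P) hA.1 hB.1 h0
  rw [comb_eq, lane_land, (full_lane _ (by norm_num)).2 k hk, ← h1.2 k hk]
  generalize P * A + (16384 - P) * B = X
  show lane (X >>> 14) k &&& 262143 = _
  rw [show (262143 : ℕ) = 2 ^ 18 - 1 by norm_num, Nat.and_two_pow_sub_one_eq_mod, lane_eq, lane_eq,
    Nat.shiftRight_eq_div_pow, Nat.div_div_eq_div_mul, mul_comm (2 ^ 14), ← Nat.div_div_eq_div_mul,
    show (16384 : ℕ) = 2 ^ 14 by norm_num]
  generalize X / 2 ^ (32 * k) = Y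
  rw [show (2 : ℕ) ^ 32 = 2 ^ 14 * 2 ^ 18 by norm_num, Nat.mod_mul_right_div_self,
    mul_comm, Nat.mod_mul_right_mod]

theorem comb_row {P A B : ℕ} (hP : P ≤ 16384) (hA : RowP A) (hB : RowP B) : RowP (comb P A B) := by
  constructor
  · have h1 := (full_lane 262143 (by norm_num)).1
    rw [comb_eq]
    revert h1
    generalize Nat.mul (Nat.mul ones (Nat.add 1 (Nat.pow 2 4064))) 262143 = x
    intro h1
    exact lt_of_le_of_lt (land_le_right _ _) h1
  · intro k hk
    rw [comb_lane hP hA hB hk, Nat.div_lt_iff_lt_mul (by norm_num)]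
    have h1 : P * lane A k ≤ P * 131071 := Nat.mul_le_mul_left _ (by have := hA.2 k hk; omega)
    have h2 : (16384 - P) * lane B k ≤ (16384 - P) * 131071 :=
      Nat.mul_le_mul_left _ (by have := hB.2 k hk; omega)
    omega

end Pool.Agent.MMS14
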