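import Pool.Agent.MMS14.Cover
import Pool.Agent.MMS14.Apri
import Pool.Agent.MMS14.Lanes

/-!
# MMS14/Zero: the cell `0` (`1 ≤ S ≤ S_1`) by Cantelli for the rest

`|h| = 1` after scaling, or directly with `h`: `S = ss (h :: l) / h² ≤ S_1`, rest variance `p (1 - p) (S - 1) h²`.
In units `√(p (1 - p)) |h|`: for `x ≥ 0`, `Pr p l (- x √(p(1-p)) |h|) ≥ x² / (x² + (S - 1)) ≥ x² / (x² + (S_1 - 1))` (`cantelli_pr`),
and with `X ≤ 50 * 2 ^ 20 x`, `d ≥ 2500 * 2 ^ 40 (S_1 - 1)`: `fc d X / 2 ^ 16 ≤ X² / (X² + d) ≤ x² / (x² + (S_1 - 1))`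
(`fc` is increasing in `X`).  `rho 11450 ≥ 2 ^ 20 √S_1`, `dd 11450 ≥ 2500 * 2 ^ 40 (S_1 - 1)` (`Yk 1 = 11450`;
`√S_1 = (Y² + D²) / (2 Y D)`, `√(S_1 - 1) = (Y² - D²) / (2 Y D)`).
`h > 0`, `i < 200`, `t ≤ - (200 - i)/50 σ`, `σ ≥ √(p(1-p)) h`: branch `ξ = 1`: `x ≥ (200 - i)/50 + √((1 - p)/p)`; branch `ξ = 0`:
`x ≥ (200 - i)/50 - √(p / (1 - p))` (if negative, the value is `0`: `fc d 0 = 0`); weights by `Pr_low_pos` with `P = P0 / 2 ^ 14`.
`h > 0`, `i ≥ 200`: branch `ξ = 1` only: `x ≥ √((1-p)/p) - (i - 200)/50 √S_1`, the other branch is `≥ 0`.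
`h < 0`: branch `ξ = 1` has weight `P1 / 2 ^ 14` (`Pr_low_neg`) and `x ≥ (200 - i)/50 - √((1-p)/p)`; branch `ξ = 0`:
`x ≥ (200 - i)/50 + √(p/(1-p))`; for `i ≥ 200`: branch `ξ = 0` only, `x ≥ √(p/(1-p)) - (i - 200)/50 √S_1`.
In `lb0P`, `lb0M` the value is at most the a priori value or `v0P`, `v0M` (the checks in `endOk`).
-/

set_option autoImplicit false

namespace Pool.Agent.MMS14

private theorem Yk_one : Yk 1 = 11450 := rfl

private theorem rho_val : rho 11450 = 1058204 := by decide +kernel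

private theorem dd_val : dd 11450 = 50706013540517 := by decide +kernel

theorem sqrt_Sc_one : √(Sc 1) = ((11450 : ℝ) ^ 2 + 10 ^ 8) / (20000 * 11450) := by
  unfold Sc
  rw [Yk_one]
  rw [Real.sqrt_sq (by positivity)]
  norm_num

theorem rho_ge : 1048576 * √(Sc 1) ≤ (rho 11450 : ℝ) := by
  rw [sqrt_Sc_one, rho_val]
  norm_num

theorem dd_ge : 2748779069440000 * (Sc 1 - 1) ≤ (dd 11450 : ℝ) := by
  rw [dd_val]
  unfold Sc
  rw [Yk_one]
  norm_num

private theorem fc_zero (d : ℕ) : fc d 0 = 0 := by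
  unfold fc
  show (65536 * (0 * 0)) / (0 * 0 + d) = 0
  simp

/-- `fc` against the Cantelli value -/
private theorem fc_le {d X : ℕ} {x D : ℝ} (hX0 : 0 < X) (hX : (X : ℝ) ≤ 52428800 * x) (hD : 0 ≤ D)
    (hd : 2748779069440000 * D ≤ (d : ℝ)) : (fc d X : ℝ) / 65536 ≤ x ^ 2 / (x ^ 2 + D) := by
  have hX0' : (0 : ℝ) < X := by exact_mod_cast hX0
  have hx : 0 < x := by nlinarith
  have hd0 : (0 : ℝ) ≤ d := by positivity
  have h1 : (fc d X : ℝ) ≤ (65536 * ((X : ℝ) * X)) / ((X : ℝ) * X + d) := by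
    unfold fc
    have := Nat.cast_div_le (α := ℝ) (m := 65536 * (X * X)) (n := X * X + d)
    push_cast at this
    exact this
  have h2 : (65536 * ((X : ℝ) * X)) / ((X : ℝ) * X + d) / 65536 ≤ x ^ 2 / (x ^ 2 + D) := by
    rw [div_div, div_le_div_iff₀ (by positivity) (by positivity)]
    have hXX : (X : ℝ) * X ≤ 2748779069440000 * (x * x) := by nlinarith
    have h3 : (X : ℝ) * X * D ≤ x * x * d := by
      calc (X : ℝ) * X * D ≤ 2748779069440000 * (x * x) * D := by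
            exact mul_le_mul_of_nonneg_right hXX hD
        _ = x * x * (2748779069440000 * D) := by ring
        _ ≤ x * x * d := by exact mul_le_mul_of_nonneg_left hd (by positivity)
    nlinarith
  calc (fc d X : ℝ) / 65536 ≤ (65536 * ((X : ℝ) * X)) / ((X : ℝ) * X + d) / 65536 := by
        exact div_le_div_of_nonneg_right h1 (by norm_num)
    _ ≤ _ := h2

/-- Cantelli for the rest: `s = √(p (1 - p)) |h|` -/
private theorem cant {d : ℕ} (hd : 2748779069440000 * (Sc 1 - 1) ≤ (d : ℝ)) {p : ℝ} (h0' : 1 / 5 ≤ p) (h1' : p ≤ 1 / 2) {h : ℝ} (hh : h ≠ 0) {l : List ℝ}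
    (hS : ss (h :: l) / h ^ 2 ≤ Sc 1) {X : ℕ} {x y : ℝ} (hX : X = 0 ∨ (X : ℝ) ≤ 52428800 * x)
    (hy : y ≤ -(x * (√(p * (1 - p)) * |h|))) : (fc (d) X : ℝ) / 65536 ≤ Pr p l y := by
  have h0 : 0 ≤ p := by linarith
  have h1 : p ≤ 1 := by linarith
  by_cases hX0 : X = 0
  · rw [hX0, fc_zero]
    simpa using Pr_nonneg h0 h1 l y
  have hXp : 0 < X := Nat.pos_of_ne_zero hX0
  have hX' : (X : ℝ) ≤ 52428800 * x := by
    rcases hX with hX | hX
    · exact absurd hX hX0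
    · exact hX
  have hXr : (0 : ℝ) < X := by exact_mod_cast hXp
  have hx : 0 < x := by nlinarith
  have hpp : 0 ≤ p * (1 - p) := mul_nonneg h0 (by linarith)
  have hs0 : 0 ≤ √(p * (1 - p)) * |h| := by positivity
  have hh2 : 0 < h ^ 2 := by positivity
  set s := √(p * (1 - p)) * |h| with hs
  have hs2 : s ^ 2 = p * (1 - p) * h ^ 2 := by
    rw [hs, mul_pow, Real.sq_sqrt hpp, sq_abs]
  have hSl : ss l ≤ (Sc 1 - 1) * h ^ 2 := by
    rw [ss_cons, div_le_iff₀ hh2] at hS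
    linarith
  have hSc : 0 ≤ Sc 1 - 1 := by
    have := Sc_one
    linarith
  have hb := fc_le hXp hX' hSc hd
  refine hb.trans ?_
  have hc := cantelli_pr h0 h1 l (x := x * s) (by positivity)
  have hmono : Pr p l (-(x * s)) ≤ Pr p l y := Pr_anti h0 h1 l hy
  refine le_trans ?_ (hc.trans hmono)
  have hsp : 0 < s := by
    have : 0 < p * (1 - p) := mul_pos (by linarith) (by linarith)
    rw [hs]
    have := Real.sqrt_pos.mpr this
    positivity
  have hvar : p * (1 - p) * ss l ≤ (Sc 1 - 1) * s ^ 2 := by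
    rw [hs2]
    calc p * (1 - p) * ss l ≤ p * (1 - p) * ((Sc 1 - 1) * h ^ 2) := mul_le_mul_of_nonneg_left hSl hpp
      _ = (Sc 1 - 1) * (p * (1 - p) * h ^ 2) := by ring
  have hvar0 : 0 ≤ p * (1 - p) * ss l := mul_nonneg hpp (ss_nonneg l)
  have hxs : 0 < (x * s) ^ 2 := by positivity
  rw [div_le_div_iff₀ (by positivity) (by positivity)]
  have : x ^ 2 * (p * (1 - p) * ss l) ≤ x ^ 2 * ((Sc 1 - 1) * s ^ 2) :=
    mul_le_mul_of_nonneg_left hvar (by positivity)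
  nlinarith

/-- `√((1 - p) / p)` times `√(p (1 - p))` -/
private theorem sq_q {p : ℝ} (h0 : 1 / 5 ≤ p) (h1 : p ≤ 1 / 2) (a : ℝ) :
    √((1 - p) / p) * (√(p * (1 - p)) * a) = (1 - p) * a := by
  have hp : 0 < p := by linarith
  have hq : 0 < 1 - p := by linarith
  rw [← mul_assoc, ← Real.sqrt_mul (by positivity)]
  have : (1 - p) / p * (p * (1 - p)) = (1 - p) ^ 2 := by field_simp
  rw [this, Real.sqrt_sq hq.le]

/-- `√(p / (1 - p))` times `√(p (1 - p))` -/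
private theorem sq_p {p : ℝ} (h0 : 1 / 5 ≤ p) (h1 : p ≤ 1 / 2) (a : ℝ) :
    √(p / (1 - p)) * (√(p * (1 - p)) * a) = p * a := by
  have hp : 0 < p := by linarith
  have hq : 0 < 1 - p := by linarith
  rw [← mul_assoc, ← Real.sqrt_mul (by positivity)]
  have : p / (1 - p) * (p * (1 - p)) = p ^ 2 := by field_simp
  rw [this, Real.sqrt_sq hp.le]

/-- the four constants -/
private theorem consts {q : Par} (hp : parOk q = true) :
    0 < q.P0 ∧ q.P0 ≤ q.P1 ∧ q.P1 ≤ 8192 ∧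
    (∀ p : ℝ, (q.P0 : ℝ) / 16384 ≤ p → p ≤ (q.P1 : ℝ) / 16384 → 1 / 5 ≤ p → p ≤ 1 / 2 →
      (q.c1m : ℝ) ≤ 52428800 * √((1 - p) / p) ∧ 52428800 * √((1 - p) / p) ≤ (q.c1p : ℝ) ∧
      (q.c2m : ℝ) ≤ 52428800 * √(p / (1 - p)) ∧ 52428800 * √(p / (1 - p)) ≤ (q.c2p : ℝ)) := by
  unfold parOk at hp
  simp only [et_true] at hp
  obtain ⟨a1, a2, a3, a4, a5, a6, a7⟩ := hp
  have a1 : 0 < q.P0 := by
    have : Nat.blt 0 q.P0 = true := a1
    simpa [Nat.blt_eq] using this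
  have a2 : q.P0 ≤ q.P1 := Nat.le_of_ble_eq_true a2
  have a3 : q.P1 ≤ 8192 := Nat.le_of_ble_eq_true a3
  have a4 : q.c1m * q.c1m * q.P1 ≤ 2748779069440000 * (16384 - q.P1) := Nat.le_of_ble_eq_true a4
  have a5 : 2748779069440000 * (16384 - q.P0) ≤ q.c1p * q.c1p * q.P0 := Nat.le_of_ble_eq_true a5
  have a6 : q.c2m * q.c2m * (16384 - q.P0) ≤ 2748779069440000 * q.P0 := Nat.le_of_ble_eq_true a6
  have a7 : 2748779069440000 * q.P1 ≤ q.c2p * q.c2p * (16384 - q.P1) := Nat.le_of_ble_eq_true a7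
  refine ⟨a1, a2, a3, ?_⟩
  intro p hp0 hp1 h5 h2
  have hpp : 0 < p := by linarith
  have hqq : 0 < 1 - p := by linarith
  have b1 : ((16384 - q.P1 : ℕ) : ℝ) = 16384 - q.P1 := by
    rw [Nat.cast_sub (by omega)]; norm_num
  have b0 : ((16384 - q.P0 : ℕ) : ℝ) = 16384 - q.P0 := by
    rw [Nat.cast_sub (by omega)]; norm_num
  have r4 : (q.c1m : ℝ) * q.c1m * q.P1 ≤ 2748779069440000 * (16384 - q.P1) := by
    rw [← b1]; exact_mod_cast a4
  have r5 : 2748779069440000 * (16384 - (q.P0 : ℝ)) ≤ (q.c1p : ℝ) * q.c1p * q.P0 := by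
    rw [← b0]; exact_mod_cast a5
  have r6 : (q.c2m : ℝ) * q.c2m * (16384 - q.P0) ≤ 2748779069440000 * q.P0 := by
    rw [← b0]; exact_mod_cast a6
  have r7 : 2748779069440000 * (q.P1 : ℝ) ≤ (q.c2p : ℝ) * q.c2p * (16384 - q.P1) := by
    rw [← b1]; exact_mod_cast a7
  have P0pos : (0 : ℝ) < q.P0 := by exact_mod_cast a1
  have P1le : (q.P1 : ℝ) ≤ 8192 := by exact_mod_cast a3
  have hp0' : (q.P0 : ℝ) ≤ 16384 * p := by
    rw [div_le_iff₀ (by norm_num)] at hp0; linarith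
  have hp1' : 16384 * p ≤ (q.P1 : ℝ) := by
    rw [le_div_iff₀ (by norm_num)] at hp1; linarith
  have key : ∀ c r : ℝ, 0 ≤ c → 0 ≤ r → (52428800 * √r) ^ 2 = 2748779069440000 * r := by
    intro c r _ hr
    rw [mul_pow, Real.sq_sqrt hr]; norm_num
  have c1m0 : (0 : ℝ) ≤ q.c1m := by positivity
  have c1p0 : (0 : ℝ) ≤ q.c1p := by positivity
  have c2m0 : (0 : ℝ) ≤ q.c2m := by positivity
  have c2p0 : (0 : ℝ) ≤ q.c2p := by positivity
  refine ⟨?_, ?_, ?_, ?_⟩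
  · apply (sq_le_sq₀ (by positivity) (by positivity)).mp
    rw [key _ _ c1m0 (by positivity), ← mul_div_assoc, le_div_iff₀ hpp]
    have h1 : (q.c1m : ℝ) ^ 2 * (16384 * p) ≤ (q.c1m : ℝ) ^ 2 * q.P1 :=
      mul_le_mul_of_nonneg_left hp1' (by positivity)
    nlinarith
  · apply (sq_le_sq₀ (by positivity) (by positivity)).mp
    rw [key _ _ c1p0 (by positivity), ← mul_div_assoc, div_le_iff₀ hpp]
    have h1 : (q.c1p : ℝ) ^ 2 * q.P0 ≤ (q.c1p : ℝ) ^ 2 * (16384 * p) :=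
      mul_le_mul_of_nonneg_left hp0' (by positivity)
    nlinarith
  · apply (sq_le_sq₀ (by positivity) (by positivity)).mp
    rw [key _ _ c2m0 (by positivity), ← mul_div_assoc, le_div_iff₀ hqq]
    have h1 : (q.c2m : ℝ) ^ 2 * (16384 * (1 - p)) ≤ (q.c2m : ℝ) ^ 2 * (16384 - q.P0) :=
      mul_le_mul_of_nonneg_left (by linarith) (by positivity)
    nlinarith
  · apply (sq_le_sq₀ (by positivity) (by positivity)).mp
    rw [key _ _ c2p0 (by positivity), ← mul_div_assoc, div_le_iff₀ hqq]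
    have h1 : (q.c2p : ℝ) ^ 2 * (16384 - q.P1) ≤ (q.c2p : ℝ) ^ 2 * (16384 * (1 - p)) :=
      mul_le_mul_of_nonneg_left (by linarith) (by positivity)
    nlinarith

/-- the standard deviation in terms of `s` -/
private theorem sd_eq {p : ℝ} (h0 : 1 / 5 ≤ p) (h1 : p ≤ 1 / 2) {h : ℝ} (hh : h ≠ 0) (l : List ℝ) :
    sd p (h :: l) = √(ss (h :: l) / h ^ 2) * (√(p * (1 - p)) * |h|) := by
  have hpp : 0 ≤ p * (1 - p) := mul_nonneg (by linarith) (by linarith)
  have hS : 0 ≤ ss (h :: l) / h ^ 2 := div_nonneg (ss_nonneg _) (by positivity)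
  unfold sd
  have : p * (1 - p) * ss (h :: l) = ss (h :: l) / h ^ 2 * (p * (1 - p) * h ^ 2) := by
    field_simp
  rw [this, Real.sqrt_mul hS, Real.sqrt_mul hpp, Real.sqrt_sq_eq_abs]

/-- `i < 200`, threshold lowered by `c s` -/
private theorem br1 {d : ℕ} (hd : 2748779069440000 * (Sc 1 - 1) ≤ (d : ℝ)) {p : ℝ} (h0 : 1 / 5 ≤ p) (h1 : p ≤ 1 / 2) {h : ℝ} (hh : h ≠ 0) {l : List ℝ}
    (hS0 : 1 ≤ ss (h :: l) / h ^ 2) (hS : ss (h :: l) / h ^ 2 ≤ Sc 1) {i C : ℕ} (hi : i < 200) {c : ℝ}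
    (hc : (C : ℝ) ≤ 52428800 * c) :
    (fc d (Nat.add (Nat.mul (Nat.sub 200 i) 1048576) C) : ℝ) / 65536 ≤
      Pr p l (((i : ℝ) - 200) / 50 * sd p (h :: l) - c * (√(p * (1 - p)) * |h|)) := by
  simp only [Nat.add_eq, Nat.mul_eq, Nat.sub_eq]
  have hi' : ((200 - i : ℕ) : ℝ) = 200 - (i : ℝ) := by
    rw [Nat.cast_sub hi.le]; norm_num
  have hir : (i : ℝ) ≤ 200 := by exact_mod_cast hi.le
  have hs0 : 0 ≤ √(p * (1 - p)) * |h| := by positivity
  have hr : 1 ≤ √(ss (h :: l) / h ^ 2) := by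
    rw [← Real.sqrt_one]
    exact Real.sqrt_le_sqrt hS0
  apply cant hd h0 h1 hh hS (x := (200 - (i : ℝ)) / 50 + c)
  · right
    push_cast
    rw [hi']
    nlinarith
  · rw [sd_eq h0 h1 hh]
    set s := √(p * (1 - p)) * |h|
    have : (200 - (i : ℝ)) / 50 * s ≤ (200 - (i : ℝ)) / 50 * (√(ss (h :: l) / h ^ 2) * s) := by
      apply mul_le_mul_of_nonneg_left _ (by linarith)
      nlinarith
    nlinarith

/-- `i < 200`, threshold raised by `c s` -/
private theorem br2 {d : ℕ} (hd : 2748779069440000 * (Sc 1 - 1) ≤ (d : ℝ)) {p : ℝ} (h0 : 1 / 5 ≤ p) (h1 : p ≤ 1 / 2) {h : ℝ} (hh : h ≠ 0) {l : List ℝ}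
    (hS0 : 1 ≤ ss (h :: l) / h ^ 2) (hS : ss (h :: l) / h ^ 2 ≤ Sc 1) {i C : ℕ} (hi : i < 200) {c : ℝ}
    (hc : 52428800 * c ≤ (C : ℝ)) :
    (fc d (Nat.sub (Nat.mul (Nat.sub 200 i) 1048576) C) : ℝ) / 65536 ≤
      Pr p l (((i : ℝ) - 200) / 50 * sd p (h :: l) + c * (√(p * (1 - p)) * |h|)) := by
  simp only [Nat.mul_eq, Nat.sub_eq]
  have hi' : ((200 - i : ℕ) : ℝ) = 200 - (i : ℝ) := by
    rw [Nat.cast_sub hi.le]; norm_num
  have hir : (i : ℝ) ≤ 200 := by exact_mod_cast hi.le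
  have hs0 : 0 ≤ √(p * (1 - p)) * |h| := by positivity
  have hr : 1 ≤ √(ss (h :: l) / h ^ 2) := by
    rw [← Real.sqrt_one]
    exact Real.sqrt_le_sqrt hS0
  apply cant hd h0 h1 hh hS (x := (200 - (i : ℝ)) / 50 - c)
  · rcases le_total ((200 - i) * 1048576) C with h' | h'
    · left
      exact Nat.sub_eq_zero_of_le h'
    · right
      rw [Nat.cast_sub h']
      push_cast
      rw [hi']
      nlinarith
  · rw [sd_eq h0 h1 hh]
    set s := √(p * (1 - p)) * |h|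
    have : (200 - (i : ℝ)) / 50 * s ≤ (200 - (i : ℝ)) / 50 * (√(ss (h :: l) / h ^ 2) * s) := by
      apply mul_le_mul_of_nonneg_left _ (by linarith)
      nlinarith
    nlinarith

/-- `i ≥ 200`, threshold lowered by `c s` -/
private theorem br3 {d ρ : ℕ} (hd : 2748779069440000 * (Sc 1 - 1) ≤ (d : ℝ))
    (hρ : 1048576 * √(Sc 1) ≤ (ρ : ℝ)) {p : ℝ} (h0 : 1 / 5 ≤ p) (h1 : p ≤ 1 / 2) {h : ℝ} (hh : h ≠ 0) {l : List ℝ}
    (hS : ss (h :: l) / h ^ 2 ≤ Sc 1) {i C : ℕ} (hi : 200 ≤ i) {c : ℝ}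
    (hc : (C : ℝ) ≤ 52428800 * c) :
    (fc d (Nat.sub C (Nat.mul (Nat.sub i 200) ρ)) : ℝ) / 65536 ≤
      Pr p l (((i : ℝ) - 200) / 50 * sd p (h :: l) - c * (√(p * (1 - p)) * |h|)) := by
  simp only [Nat.mul_eq, Nat.sub_eq]
  have hi' : ((i - 200 : ℕ) : ℝ) = (i : ℝ) - 200 := by
    rw [Nat.cast_sub hi]; norm_num
  have hir : (200 : ℝ) ≤ i := by exact_mod_cast hi
  have hs0 : 0 ≤ √(p * (1 - p)) * |h| := by positivity
  have hr : √(ss (h :: l) / h ^ 2) ≤ √(Sc 1) := Real.sqrt_le_sqrt hS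
  apply cant hd h0 h1 hh hS (x := c - ((i : ℝ) - 200) / 50 * √(Sc 1))
  · rcases le_total C ((i - 200) * ρ) with h' | h'
    · left
      exact Nat.sub_eq_zero_of_le h'
    · right
      rw [Nat.cast_sub h']
      push_cast
      rw [hi']
      have : ((i : ℝ) - 200) * (1048576 * √(Sc 1)) ≤ ((i : ℝ) - 200) * (ρ : ℝ) :=
        mul_le_mul_of_nonneg_left hρ (by linarith)
      linarith
  · rw [sd_eq h0 h1 hh]
    set s := √(p * (1 - p)) * |h|
    have : ((i : ℝ) - 200) / 50 * (√(ss (h :: l) / h ^ 2) * s) ≤ ((i : ℝ) - 200) / 50 * (√(Sc 1) * s) := by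
      apply mul_le_mul_of_nonneg_left _ (by linarith)
      exact mul_le_mul_of_nonneg_right hr hs0
    nlinarith

/-- combination of two branches -/
private theorem comb2 {v P A B : ℕ} (hP : P ≤ 16384)
    (hv0 : v ≤ Nat.div (Nat.add (Nat.mul P A) (Nat.mul (Nat.sub 16384 P) B)) 16384) {x y z : ℝ}
    (hx : (A : ℝ) / 65536 ≤ x) (hy : (B : ℝ) / 65536 ≤ y)
    (hz : (P : ℝ) / 16384 * x + (1 - (P : ℝ) / 16384) * y ≤ z) : (v : ℝ) / 65536 ≤ z := by
  have hv : v ≤ (P * A + (16384 - P) * B) / 16384 := hv0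
  have h1 : v * 16384 ≤ P * A + (16384 - P) * B := (Nat.le_div_iff_mul_le (by norm_num)).mp hv
  have h2 : (v : ℝ) * 16384 ≤ P * A + (16384 - P) * B := by
    have : ((v * 16384 : ℕ) : ℝ) ≤ ((P * A + (16384 - P) * B : ℕ) : ℝ) := by exact_mod_cast h1
    push_cast [Nat.cast_sub hP] at this
    exact this
  have hPr : (P : ℝ) ≤ 16384 := by exact_mod_cast hP
  have hP0 : (0 : ℝ) ≤ P := by positivity
  have h3 : (P : ℝ) / 16384 * ((A : ℝ) / 65536) ≤ (P : ℝ) / 16384 * x := mul_le_mul_of_nonneg_left hx (by positivity)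
  have h4 : (1 - (P : ℝ) / 16384) * ((B : ℝ) / 65536) ≤ (1 - (P : ℝ) / 16384) * y := by
    apply mul_le_mul_of_nonneg_left hy
    have : (P : ℝ) / 16384 ≤ 1 := by rw [div_le_one (by norm_num)]; exact hPr
    linarith
  have h5 : (v : ℝ) / 65536 ≤ (P : ℝ) / 16384 * ((A : ℝ) / 65536) + (1 - (P : ℝ) / 16384) * ((B : ℝ) / 65536) := by
    have : (P : ℝ) / 16384 * ((A : ℝ) / 65536) + (1 - (P : ℝ) / 16384) * ((B : ℝ) / 65536) =
        ((P : ℝ) * A + (16384 - P) * B) / 16384 / 65536 := by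
      field_simp
    rw [this]
    apply div_le_div_of_nonneg_right _ (by norm_num)
    rw [le_div_iff₀ (by norm_num)]
    exact h2
  linarith

private theorem comb1 {v P A : ℕ} (hv0 : v ≤ Nat.div (Nat.mul P A) 16384) {x z : ℝ}
    (hx : (A : ℝ) / 65536 ≤ x) (hz : (P : ℝ) / 16384 * x ≤ z) : (v : ℝ) / 65536 ≤ z := by
  have hv : v ≤ (P * A) / 16384 := hv0
  have h1 : v * 16384 ≤ P * A := (Nat.le_div_iff_mul_le (by norm_num)).mp hv
  have h2 : (v : ℝ) * 16384 ≤ P * A := by exact_mod_cast h1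
  have hP0 : (0 : ℝ) ≤ P := by positivity
  have h3 : (P : ℝ) / 16384 * ((A : ℝ) / 65536) ≤ (P : ℝ) / 16384 * x := mul_le_mul_of_nonneg_left hx (by positivity)
  have h5 : (v : ℝ) / 65536 ≤ (P : ℝ) / 16384 * ((A : ℝ) / 65536) := by
    have : (P : ℝ) / 16384 * ((A : ℝ) / 65536) = ((P : ℝ) * A) / 16384 / 65536 := by
      field_simp
    rw [this]
    apply div_le_div_of_nonneg_right _ (by norm_num)
    rw [le_div_iff₀ (by norm_num)]
    exact h2
  linarith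

theorem lb0P {q : Par} (hp : parOk q = true) {v i : ℕ}
    (hv : v ≤ aprs.getD i 0 ∨ v ≤ v0P q (rho 11450) (dd 11450) i) (n : ℕ) : LB q.P0 q.P1 n v true 0 i := by
  intro p hp0 hp1 h5 h2 h l hs hlen hpos hC t ht
  have hpos : 0 < h := by simpa using hpos
  have hne : h ≠ 0 := hpos.ne'
  have hd := dd_ge
  have hρ := rho_ge
  generalize dd 11450 = d at hd hv
  generalize rho 11450 = ρ at hρ hv
  obtain ⟨a1, a2, a3, a4⟩ := consts hp
  obtain ⟨b1, b2, b3, b4⟩ := a4 p hp0 hp1 h5 h2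
  obtain ⟨-, hS0, hS1⟩ := hC
  rw [Sc_zero] at hS0
  have hS1 := hS1 (by norm_num)
  rcases hv with hv | hv
  · have hss : 0 < ss (h :: l) := by
      rw [ss_cons]
      have := ss_nonneg l
      positivity
    have := aprs_sound h5 h2 (h :: l) hss i t ht
    have hvr : (v : ℝ) ≤ ((aprs.getD i 0 : ℕ) : ℝ) := by exact_mod_cast hv
    exact (div_le_div_of_nonneg_right hvr (by norm_num)).trans this
  have habs : |h| = h := abs_of_pos hpos
  refine le_trans ?_ (Pr_anti (by linarith) (by linarith) (h :: l) ht)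
  have hlow := Pr_low_pos (p := p) (P := (q.P0 : ℝ) / 16384) (by positivity) hp0 (by linarith) hpos.le l
    (((i : ℝ) - 200) / 50 * sd p (h :: l))
  have e1 : (1 - p) * h = √((1 - p) / p) * (√(p * (1 - p)) * |h|) := by rw [habs, sq_q h5 h2]
  have e2 : p * h = √(p / (1 - p)) * (√(p * (1 - p)) * |h|) := by rw [habs, sq_p h5 h2]
  rw [e1, e2] at hlow
  rcases Nat.lt_or_ge i 200 with hi | hi
  · have hb : Nat.blt i 200 = true := by simpa [Nat.blt_eq] using hi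
    unfold v0P at hv
    rw [hb, cond_true] at hv
    exact comb2 (by omega) hv (br1 hd h5 h2 hne hS0 hS1 hi b1) (br2 hd h5 h2 hne hS0 hS1 hi b4) hlow
  · have hb : Nat.blt i 200 = false := by
      rw [Bool.eq_false_iff]
      intro hb
      have : i < 200 := by simpa [Nat.blt_eq] using hb
      omega
    unfold v0P at hv
    rw [hb, cond_false] at hv
    refine comb1 hv (br3 hd hρ h5 h2 hne hS1 hi b1) (le_trans ?_ hlow)
    have hn := Pr_nonneg (p := p) (by linarith) (by linarith) l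
      ((((i : ℝ) - 200) / 50 * sd p (h :: l)) + √(p / (1 - p)) * (√(p * (1 - p)) * |h|))
    have hw : 0 ≤ 1 - (q.P0 : ℝ) / 16384 := by linarith
    have := mul_nonneg hw hn
    linarith

theorem lb0M {q : Par} (hp : parOk q = true) {v i : ℕ}
    (hv : v ≤ aprs.getD i 0 ∨ v ≤ v0M q (rho 11450) (dd 11450) i) (n : ℕ) : LB q.P0 q.P1 n v false 0 i := by
  intro p hp0 hp1 h5 h2 h l hs hlen hpos hC t ht
  have hpos : h < 0 := by simpa using hpos
  have hne : h ≠ 0 := hpos.ne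
  have hd := dd_ge
  have hρ := rho_ge
  generalize dd 11450 = d at hd hv
  generalize rho 11450 = ρ at hρ hv
  obtain ⟨a1, a2, a3, a4⟩ := consts hp
  obtain ⟨b1, b2, b3, b4⟩ := a4 p hp0 hp1 h5 h2
  obtain ⟨-, hS0, hS1⟩ := hC
  rw [Sc_zero] at hS0
  have hS1 := hS1 (by norm_num)
  rcases hv with hv | hv
  · have hss : 0 < ss (h :: l) := by
      rw [ss_cons]
      have := ss_nonneg l
      have : 0 < h ^ 2 := by positivity
      linarith
    have := aprs_sound h5 h2 (h :: l) hss i t ht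
    have hvr : (v : ℝ) ≤ ((aprs.getD i 0 : ℕ) : ℝ) := by exact_mod_cast hv
    exact (div_le_div_of_nonneg_right hvr (by norm_num)).trans this
  have habs : |h| = -h := abs_of_neg hpos
  refine le_trans ?_ (Pr_anti (by linarith) (by linarith) (h :: l) ht)
  have hP1 : (q.P1 : ℝ) / 16384 ≤ 1 := by
    rw [div_le_one (by norm_num)]
    have : (q.P1 : ℝ) ≤ 8192 := by exact_mod_cast a3
    linarith
  have hlow := Pr_low_neg (p := p) (P := (q.P1 : ℝ) / 16384) (by linarith) hp1 hP1 hpos.le l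
    (((i : ℝ) - 200) / 50 * sd p (h :: l))
  have e1 : (((i : ℝ) - 200) / 50 * sd p (h :: l)) - (1 - p) * h =
      (((i : ℝ) - 200) / 50 * sd p (h :: l)) + √((1 - p) / p) * (√(p * (1 - p)) * |h|) := by
    rw [sq_q h5 h2, habs]; ring
  have e2 : (((i : ℝ) - 200) / 50 * sd p (h :: l)) + p * h =
      (((i : ℝ) - 200) / 50 * sd p (h :: l)) - √(p / (1 - p)) * (√(p * (1 - p)) * |h|) := by
    rw [sq_p h5 h2, habs]; ring
  rw [e1, e2] at hlow
  rcases Nat.lt_or_ge i 200 with hi | hi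
  · have hb : Nat.blt i 200 = true := by simpa [Nat.blt_eq] using hi
    unfold v0M at hv
    rw [hb, cond_true] at hv
    exact comb2 (by omega) hv (br2 hd h5 h2 hne hS0 hS1 hi b2) (br1 hd h5 h2 hne hS0 hS1 hi b3) hlow
  · have hb : Nat.blt i 200 = false := by
      rw [Bool.eq_false_iff]
      intro hb
      have : i < 200 := by simpa [Nat.blt_eq] using hb
      omega
    unfold v0M at hv
    rw [hb, cond_false] at hv
    have hcast : ((Nat.sub 16384 q.P1 : ℕ) : ℝ) / 16384 = 1 - (q.P1 : ℝ) / 16384 := by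
      rw [Nat.sub_eq, Nat.cast_sub (by omega)]
      field_simp
      norm_num
    refine comb1 hv (br3 hd hρ h5 h2 hne hS1 hi b3) (le_trans ?_ hlow)
    rw [hcast]
    have hn := Pr_nonneg (p := p) (by linarith) (by linarith) l
      ((((i : ℝ) - 200) / 50 * sd p (h :: l)) + √((1 - p) / p) * (√(p * (1 - p)) * |h|))
    have hw : 0 ≤ (q.P1 : ℝ) / 16384 := by positivity
    have := mul_nonneg hw hn
    linarith

end Pool.Agent.MMS14
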