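import Pool.Agent.MMS14.StepP
import Pool.Agent.MMS14.StepM
import Pool.Agent.MMS14.Zero

/-!
# MMS14/Dp: the table is right

Induction on `n`.  `n = 0`: the lists are `[h]`, `S = 1`, which lies in no cell `k ≥ 1` (`Sc k ≥ Sc 1 > 1`), so `LB` is vacuous for
`k ≥ 1` and `lb0P`, `lb0M` give `k = 0` (for all `n`).  Step: `k = 0` as before; `1 ≤ k ≤ 125`: `cells_sound` for the five blocks
(`k = 25 b + 1 + a`, `js` entries are `≤ 126` by `decide`), `stepP`, `stepM`; `k = 126`: `endOk` says that the value is at most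
the a priori value (`aprs_sound`) or at most `gns_i - E` (`BaseOk`; `v + E ≤ g`).  `RowP` of all rows from `endOk` (`rowOk_sound`);
behind the end `rowv = 0`.  For `i ≥ 351` all lanes are `0` and `LB` holds by `Pr_nonneg`.
-/

set_option autoImplicit false

namespace Pool.Agent.MMS14

private theorem rowP_zero : RowP 0 := by
  refine ⟨by positivity, ?_⟩
  intro k _
  rw [lane_zero]
  norm_num

private theorem rowv_of_ge {rows : List ℕ} {r : ℕ} (h : rows.length ≤ r) : rowv rows r = 0 := by
  exact List.getD_eq_default _ _ h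

theorem rowP_all {q : Par} {rows : List ℕ} {E : ℕ} (hlen : rows.length = 351)
    (he : ends q (rho 11450) (dd 11450) E rows aprs gns 0 = true) : ∀ r, RowP (rowv rows r) := by
  intro r
  by_cases hr : r < rows.length
  · have h1 := ends_sound he r hr
    unfold endOk at h1
    exact rowOk_sound (et_true.1 h1).1
  · rw [rowv_of_ge (not_lt.1 hr)]
    exact rowP_zero

private theorem lane_shift (r k sh : ℕ) (h : sh = 32 * k) :
    Nat.land (Nat.shiftRight r sh) 4294967295 = lane r k := by
  subst h
  rfl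

private theorem lane_first (r : ℕ) : Nat.land r 4294967295 = lane r 0 := rfl

private theorem lb126 {P0 P1 E n v i : ℕ} {pos : Bool} (hb : BaseOk P0 E)
    (hv : v ≤ aprs.getD i 0 ∨ v + E ≤ gns.getD i 0) : LB P0 P1 n v pos 126 i := by
  intro p hp0 _ hp2 hp3 h l hs _ hsign hC t ht
  have hh : h ≠ 0 := by
    cases pos
    · simp only [Bool.false_eq_true, if_false] at hsign
      exact hsign.ne
    · simp only [if_true] at hsign
      exact hsign.ne'
  rcases hv with hv | hv
  · have hss : 0 < ss (h :: l) := by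
      rw [ss_cons]
      have := ss_nonneg l
      positivity
    have h1 := aprs_sound hp2 hp3 (h :: l) hss i t ht
    refine le_trans ?_ h1
    have : (v : ℝ) ≤ ((aprs.getD i 0 : ℕ) : ℝ) := by exact_mod_cast hv
    linarith
  · have h1 := hb p hp0 hp2 hp3 h l hs hh hC.2.1 i t ht
    refine le_trans ?_ h1
    have : (v : ℝ) + (E : ℝ) ≤ ((gns.getD i 0 : ℕ) : ℝ) := by exact_mod_cast hv
    linarith

private theorem lb_zero_len {P0 P1 v k i : ℕ} {pos : Bool} (hk : 1 ≤ k) (hk' : k ≤ 126) :
    LB P0 P1 0 v pos k i := by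
  intro p _ _ _ _ h l _ hl hsign hC t _
  exfalso
  have hh : h ≠ 0 := by
    cases pos
    · simp only [Bool.false_eq_true, if_false] at hsign
      exact hsign.ne
    · simp only [if_true] at hsign
      exact hsign.ne'
  have hl0 : l = [] := List.length_eq_zero_iff.1 (Nat.le_zero.1 hl)
  subst hl0
  have h1 : ss [h] / h ^ 2 = 1 := by
    rw [ss_cons, ss_nil, add_zero]
    exact div_self (pow_ne_zero 2 hh)
  have h2 := hC.2.1
  rw [h1] at h2
  have h3 := Sc_mono hk hk'
  have h4 := Sc_one
  linarith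

private theorem block_J1 : ∀ a < 25, J1.getD a 0 ≤ 126 := by decide
private theorem block_J2 : ∀ a < 25, J2.getD a 0 ≤ 126 := by decide
private theorem block_J3 : ∀ a < 25, J3.getD a 0 ≤ 126 := by decide
private theorem block_J4 : ∀ a < 25, J4.getD a 0 ≤ 126 := by decide
private theorem block_J5 : ∀ a < 25, J5.getD a 0 ≤ 126 := by decide

private theorem block {q : Par} {rows js : List ℕ} {i0 : ℕ} (hlen : js.length = 25)
    (hJ : ∀ a < 25, js.getD a 0 ≤ 126)
    (h : cells q rows aprs js (dr i0 Ys) i0 = true) {k : ℕ} (hk : i0 ≤ k) (hk' : k < i0 + 25) :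
    ∃ j, j ≤ 126 ∧ jOk j (Yk k) (Yk j) = true ∧ cellP q rows aprs k j (Yk k) (Yk (k + 1)) = true ∧
      cellM q rows aprs k j (Yk k) (Yk (k + 1)) = true := by
  obtain ⟨a, rfl⟩ := Nat.exists_eq_add_of_le hk
  have ha : a < 25 := by omega
  obtain ⟨h1, h2, h3⟩ := cells_sound h a (by rw [hlen]; exact ha)
  exact ⟨js.getD a 0, hJ a ha, h1, h2, h3⟩

theorem good_of_checks {q : Par} {rows : List ℕ} {E : ℕ} (hp : parOk q = true) (hlen : rows.length = 351)
    (h1 : cells q rows aprs J1 (dr 1 Ys) 1 = true) (h2 : cells q rows aprs J2 (dr 26 Ys) 26 = true)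
    (h3 : cells q rows aprs J3 (dr 51 Ys) 51 = true) (h4 : cells q rows aprs J4 (dr 76 Ys) 76 = true)
    (h5 : cells q rows aprs J5 (dr 101 Ys) 101 = true)
    (he : ends q (rho 11450) (dd 11450) E rows aprs gns 0 = true) (hb : BaseOk q.P0 E) : Good q.P0 q.P1 rows := by
  have hrow := rowP_all hlen he
  -- the facts about lanes 0 and 126
  have hend : ∀ i, (lane (rowv rows i) 0 ≤ aprs.getD i 0 ∨
        lane (rowv rows i) 0 ≤ v0P q (rho 11450) (dd 11450) i) ∧
      (lane (rowv rows i) 127 ≤ aprs.getD i 0 ∨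
        lane (rowv rows i) 127 ≤ v0M q (rho 11450) (dd 11450) i) ∧
      (lane (rowv rows i) 126 ≤ aprs.getD i 0 ∨ lane (rowv rows i) 126 + E ≤ gns.getD i 0) ∧
      (lane (rowv rows i) (127 + 126) ≤ aprs.getD i 0 ∨
        lane (rowv rows i) (127 + 126) + E ≤ gns.getD i 0) := by
    intro i
    by_cases hi : i < rows.length
    · have h0 := ends_sound he i hi
      unfold endOk at h0
      rw [et_true, et_true, et_true, et_true] at h0
      obtain ⟨_, ha, hb', hc, hd⟩ := h0
      rw [ou_true] at ha hb' hc hd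
      rw [lane_first] at ha
      rw [lane_shift _ 127 4064 (by norm_num)] at hb'
      rw [lane_shift _ 126 4032 (by norm_num)] at hc
      rw [lane_shift _ (127 + 126) 8096 (by norm_num)] at hd
      refine ⟨?_, ?_, ?_, ?_⟩
      · rcases ha with ha | ha
        · exact Or.inl (Nat.le_of_ble_eq_true ha)
        · exact Or.inr (Nat.le_of_ble_eq_true ha)
      · rcases hb' with ha | ha
        · exact Or.inl (Nat.le_of_ble_eq_true ha)
        · exact Or.inr (Nat.le_of_ble_eq_true ha)
      · rcases hc with ha | ha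
        · exact Or.inl (Nat.le_of_ble_eq_true ha)
        · exact Or.inr (Nat.le_of_ble_eq_true ha)
      · rcases hd with ha | ha
        · exact Or.inl (Nat.le_of_ble_eq_true ha)
        · exact Or.inr (Nat.le_of_ble_eq_true ha)
    · rw [rowv_of_ge (not_lt.1 hi)]
      simp only [lane_zero]
      exact ⟨Or.inl (Nat.zero_le _), Or.inl (Nat.zero_le _), Or.inl (Nat.zero_le _),
        Or.inl (Nat.zero_le _)⟩
  -- the cells 1 .. 125
  have hcell : ∀ k, 1 ≤ k → k < 126 → ∃ j, j ≤ 126 ∧ jOk j (Yk k) (Yk j) = true ∧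
      cellP q rows aprs k j (Yk k) (Yk (k + 1)) = true ∧
      cellM q rows aprs k j (Yk k) (Yk (k + 1)) = true := by
    intro k hk hk'
    by_cases c1 : k < 26
    · exact block (by decide) block_J1 h1 hk (by omega)
    by_cases c2 : k < 51
    · exact block (by decide) block_J2 h2 (by omega) (by omega)
    by_cases c3 : k < 76
    · exact block (by decide) block_J3 h3 (by omega) (by omega)
    by_cases c4 : k < 101
    · exact block (by decide) block_J4 h4 (by omega) (by omega)
    · exact block (by decide) block_J5 h5 (by omega) (by omega)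
  intro n
  induction n with
  | zero =>
    intro k hk i
    rcases Nat.eq_zero_or_pos k with rfl | hk1
    · exact ⟨lb0P hp (hend i).1 0, lb0M hp (hend i).2.1 0⟩
    · exact ⟨lb_zero_len hk1 hk, lb_zero_len hk1 hk⟩
  | succ n ih =>
    intro k hk i
    rcases Nat.eq_zero_or_pos k with rfl | hk1
    · exact ⟨lb0P hp (hend i).1 _, lb0M hp (hend i).2.1 _⟩
    · by_cases hk2 : k < 126
      · obtain ⟨j, hj, hjo, hcP, hcM⟩ := hcell k hk1 hk2
        exact ⟨stepP hp hlen hrow ih hk1 hk2 hj hjo hcP i,
          stepM hp hlen hrow ih hk1 hk2 hj hjo hcM i⟩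
      · have hk3 : k = 126 := by omega
        subst hk3
        exact ⟨lb126 hb (hend i).2.2.1, lb126 hb (hend i).2.2.2⟩

end Pool.Agent.MMS14
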