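import Pool.Agent.MMS14.TrigDefs

/-!
# MMS14/ErrDefs: checker for the characteristic function error of the trigonometric minorant

All quantities in fixed point, units `2 ^ -40`.  For the harmonic `m` (frequency `t = m π / 10`):
`x ≥ u² = t² / (10 z₀)`, `z₀ ≤ p (1 - p)`, `κ ≤ 1 - x/12 + x²/360 - x³/20160`, `w ≥ (1 - 2p) u / 6 + u² / 24`, and
`D_m = min (t² w exp (- 0.45 κ t²)) (exp (- κ t² / 2) + exp (- t² / 2))`; the check is `∑ C_m D_m ≤ E / 2 ^ 16`.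
-/

set_option autoImplicit false

namespace Pool.Agent.MMS14

/-- `2 ^ 40` -/
def o40 : ℕ := 1099511627776

/-- upper bound for `exp (- z)` -/
def expU (z : ℕ) : ℕ :=
  Nat.rec (motive := fun _ => ℕ) (Nat.succ (Nat.div (Nat.mul o40 18014398509481984) (Nat.add 18014398509481984 z)))
    (fun _ r => Nat.succ (Nat.div (Nat.mul r r) o40)) (14 : ℕ)

/-- lower and upper bound of `t²` -/
def t2L (m : ℕ) : ℕ := Nat.mul (Nat.mul m m) 108517448005
def t2U (m : ℕ) : ℕ := Nat.mul (Nat.mul m m) 108517448006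

/-- `2 ^ 28 z₀` -/
def z28 (P0 : ℕ) : ℕ := cond (Nat.blt P0 3277) 42949672 (Nat.mul P0 (Nat.sub 16384 P0))

/-- `2 ^ 14 (1 - 2 p)`, upper bound -/
def a14 (P0 : ℕ) : ℕ := cond (Nat.blt P0 3277) 9831 (Nat.sub 16384 (Nat.mul 2 P0))

/-- upper bound of `u²` -/
def xU (P0 m : ℕ) : ℕ := Nat.succ (Nat.div (Nat.mul (t2U m) 268435456) (Nat.mul 10 (z28 P0)))

/-- lower bound of `κ` -/
def kapL (x : ℕ) : ℕ := Nat.sub (Nat.add o40 (Nat.div (Nat.mul x x) (Nat.mul 360 o40)))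
  (Nat.add (Nat.succ (Nat.div x 12)) (Nat.succ (Nat.div (Nat.mul (Nat.mul x x) x) (Nat.mul 20160 (Nat.mul o40 o40)))))

/-- upper bound of `w` -/
def wU (P0 x : ℕ) : ℕ := Nat.add (Nat.succ (Nat.div (Nat.mul (a14 P0) (sqU (Nat.mul x o40))) 98304)) (Nat.succ (Nat.div x 24))

/-- upper bound of `D_m` -/
def dU (P0 m : ℕ) : ℕ := (fun x => (fun k => mn
    (Nat.succ (Nat.div (Nat.mul (Nat.succ (Nat.div (Nat.mul (t2U m) (wU P0 x)) o40))
      (expU (Nat.div (Nat.mul (Nat.mul k (t2L m)) 9) (Nat.mul 20 o40)))) o40))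
    (Nat.add (expU (Nat.div (Nat.mul k (t2L m)) (Nat.mul 2 o40))) (expU (Nat.div (t2L m) 2)))) (kapL x)) (xU P0 m)

/-- `∑ C_m D_m`, units `2 ^ -70` -/
noncomputable def errS (P0 : ℕ) (l : List ℕ) : ℕ → ℕ :=
  List.rec (motive := fun _ => ℕ → ℕ) (fun _ => 0) (fun c _ ih m => Nat.add (Nat.mul c (dU P0 m)) (ih (Nat.succ m))) l

/-- the check -/
noncomputable def eOk (P0 E : ℕ) : Bool := Nat.ble (errS P0 Cm 1) (Nat.mul E 18014398509481984)

end Pool.Agent.MMS14
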