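import Pool.Agent.MMS14.CharB
import Pool.Agent.MMS14.Cover

/-!
# MMS14/ErrS: soundness of the error checker

`sqU_sound`: immediate from the definition (`sqU1`; the last alternative is `n ≤ n²`).
`expU_sound`: `exp (- z / 2^40) = (exp (- z / 2^54))^(2^14)` and `exp (- y) ≤ 1 / (1 + y)`; each of the 14 steps squares and
rounds up (`r² / 2^40 < succ (r * r / o40)`), so by induction `exp (- z 2^j / 2^54) ≤ r_j / 2^40`.
`π² / 100 * 2 ^ 40 ∈ [108517448005, 108517448006]` (`Real.pi_gt_d20`, `Real.pi_lt_d20`), so `t2L m ≤ 2^40 t² ≤ t2U m`, `t = m π / 10`.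
`dU_sound`: put `x = u²`, `u = s h`, `s = t / σ`, `σ² = p (1 - p) ss`, so `u² = t² h² / σ² ≤ t² / (10 p (1 - p)) ≤ xU / 2^40` (`z28 P0 / 2^28
≤ p (1 - p)`: for `P0 < 3277` use `1/5 ≤ p ≤ 1/2`, `42949672 ≤ 0.16 * 2^28`; otherwise `P0/2^14 ≤ p ≤ 1/2`).
`κ := kapL (xU) / 2^40 ≤ 1 - X/12 + X²/360 - X³/20160` with `X = xU / 2^40` (or `κ = 0` if truncated: then use `κ = 0`, and note that
the second bound and the first one need `κ ≤ κ(u²)`: if the truncated subtraction is `0` take the value `0` and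
`chf_norm`/`chf_sub` need `0 ≤ 1 - u²/12 + ..`, which may fail; in that case use `‖chf‖ ≤ 1` for the second alternative, and for the
first alternative the version of `chf_sub` with `κ = 0`, whose proof only needs `‖F'‖ ≤ 1`: see `chf_sub0`), decreasing in `x`.
`w ≤ wU / 2^40` since `1 - 2 p ≤ a14 / 2^14`.  `D_m` is the smaller of the two bounds.
`err_sum`: sum over the 18 harmonics, `eOk` says `∑ C_m dU_m ≤ E 2^54` in units `2^-70`.
-/

set_option autoImplicit false

namespace Pool.Agent.MMS14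

theorem sqU_sound (n : ℕ) : n ≤ sqU n ^ 2 := by
  unfold sqU
  generalize isq n = s
  unfold sqU1
  rcases h1 : Nat.ble n (Nat.mul s s) with _ | _
  · rw [cond_false]
    rcases h2 : Nat.ble n (Nat.mul (Nat.succ s) (Nat.succ s)) with _ | _
    · rw [cond_false]
      exact Nat.le_self_pow (by norm_num) n
    · rw [cond_true]
      have := Nat.le_of_ble_eq_true h2
      rw [sq]
      exact this
  · rw [cond_true]
    have := Nat.le_of_ble_eq_true h1
    rw [sq]
    exact this

theorem sqL_sound (n : ℕ) : sqL n ^ 2 ≤ n := by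
  unfold sqL
  generalize isq n = s
  unfold sqL1
  rcases h1 : Nat.ble (Nat.mul s s) n with _ | _
  · rw [cond_false]
    rcases h2 : Nat.ble (Nat.mul (Nat.pred s) (Nat.pred s)) n with _ | _
    · rw [cond_false]
      exact Nat.zero_le _
    · rw [cond_true]
      have := Nat.le_of_ble_eq_true h2
      rw [sq]
      exact this
  · rw [cond_true]
    have := Nat.le_of_ble_eq_true h1
    rw [sq]
    exact this

private theorem le_succ_div (a : ℕ) {b : ℕ} (hb : 0 < b) :
    (a : ℝ) / b ≤ ((a / b).succ : ℕ) := by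
  have hb' : (0 : ℝ) < b := by exact_mod_cast hb
  rw [div_le_iff₀ hb']
  have h := Nat.lt_div_mul_add hb (a := a)
  have h2 : a ≤ (a / b).succ * b := by
    rw [Nat.succ_mul]
    exact h.le
  exact_mod_cast h2

private theorem div_le' (a b : ℕ) : ((a / b : ℕ) : ℝ) ≤ (a : ℝ) / b := Nat.cast_div_le

private noncomputable def expR (z : ℕ) (n : ℕ) : ℕ :=
  Nat.rec (motive := fun _ => ℕ) (Nat.succ (Nat.div (Nat.mul o40 18014398509481984) (Nat.add 18014398509481984 z)))
    (fun _ r => Nat.succ (Nat.div (Nat.mul r r) o40)) n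

private theorem expR_zero (z : ℕ) :
    expR z 0 = (o40 * 18014398509481984 / (18014398509481984 + z)).succ := rfl

private theorem expR_succ (z n : ℕ) :
    expR z (n + 1) = (expR z n * expR z n / o40).succ := rfl

private theorem o40_cast : ((o40 : ℕ) : ℝ) = 1099511627776 := by
  unfold o40
  norm_num

private theorem o40_pos : 0 < o40 := by
  unfold o40
  norm_num

private theorem expR_sound (z n : ℕ) :
    Real.exp (-((z : ℝ) / 18014398509481984)) ^ (2 ^ n) ≤ (expR z n : ℝ) / 1099511627776 := by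
  induction n with
  | zero =>
    rw [pow_zero, pow_one, expR_zero]
    have h1 := le_succ_div (o40 * 18014398509481984) (b := 18014398509481984 + z) (by omega)
    have h2 : Real.exp (-((z : ℝ) / 18014398509481984)) ≤
        1 / (1 + (z : ℝ) / 18014398509481984) := by
      rw [Real.exp_neg, ← one_div]
      apply one_div_le_one_div_of_le (by positivity)
      have := Real.add_one_le_exp ((z : ℝ) / 18014398509481984)
      linarith
    refine h2.trans ?_
    rw [le_div_iff₀ (by norm_num)]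
    refine le_trans (le_of_eq ?_) h1
    push_cast
    rw [o40_cast]
    have hz : (0 : ℝ) ≤ z := Nat.cast_nonneg z
    field_simp
  | succ n ih =>
    rw [expR_succ, pow_succ, pow_mul, sq]
    have h1 := le_succ_div (expR z n * expR z n) o40_pos
    have h0 : 0 ≤ Real.exp (-((z : ℝ) / 18014398509481984)) ^ (2 ^ n) := by positivity
    have h2 := mul_le_mul ih ih h0 (h0.trans ih)
    refine h2.trans ?_
    rw [le_div_iff₀ (by norm_num)]
    refine le_trans (le_of_eq ?_) h1
    push_cast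
    rw [o40_cast]
    ring

theorem expU_sound (z : ℕ) : Real.exp (-((z : ℝ) / 1099511627776)) ≤ (expU z : ℝ) / 1099511627776 := by
  have h := expR_sound z 14
  have e : expR z 14 = expU z := rfl
  rw [e] at h
  refine le_trans (le_of_eq ?_) h
  rw [← Real.exp_nat_mul]
  congr 1
  push_cast
  ring

private theorem chf_le_one {p s : ℝ} (h0 : 0 ≤ p) (h1 : p ≤ 1) (l : List ℝ) : ‖chf p s l‖ ≤ 1 := by
  induction l with
  | nil => simp [chf]
  | cons a l ih =>
    rw [chf_cons, norm_mul]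
    have h2 := one_norm h0 h1 (s * a)
    have h3 : Real.exp (-(p * (1 - p) * (1 - Real.cos (s * a)))) ≤ 1 := by
      rw [Real.exp_le_one_iff]
      have h4 := Real.cos_le_one (s * a)
      have h5 : 0 ≤ p * (1 - p) := mul_nonneg h0 (by linarith)
      have h6 := mul_nonneg h5 (sub_nonneg.2 h4)
      linarith
    exact mul_le_one₀ (h2.trans h3) (norm_nonneg _) ih

theorem chf_sub0 {p s h : ℝ} (h0 : 0 ≤ p) (h1 : p ≤ 1 / 2) (hs : 0 ≤ s) {l : List ℝ} (hl : ∀ a ∈ l, |a| ≤ h) :
    ‖chf p s l - (Real.exp (-(s ^ 2 * (p * (1 - p) * ss l) / 2)) : ℂ)‖ ≤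
      s ^ 2 * (p * (1 - p) * ss l) * ((1 - 2 * p) * (s * h) / 6 + (s * h) ^ 2 / 24) := by
  induction l with
  | nil => simp [chf, ss_nil]
  | cons a l ih =>
    have ih' := ih (fun b hb => hl b (List.mem_cons_of_mem _ hb))
    have ha := hl a List.mem_cons_self
    have h3 := one_gauss h0 h1 (s * a)
    set g : ℝ := Real.exp (-(p * (1 - p) * (s * a) ^ 2 / 2)) with hg
    set G : ℝ := Real.exp (-(s ^ 2 * (p * (1 - p) * ss l) / 2)) with hG
    have hq : 0 ≤ p * (1 - p) := mul_nonneg h0 (by linarith)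
    have hg1 : g ≤ 1 := by
      rw [hg, Real.exp_le_one_iff]
      have := mul_nonneg hq (sq_nonneg (s * a))
      linarith
    have hg0 : 0 ≤ g := (Real.exp_pos _).le
    have hprod : Real.exp (-(s ^ 2 * (p * (1 - p) * ss (a :: l)) / 2)) = g * G := by
      rw [hg, hG, ← Real.exp_add, ss_cons]
      congr 1
      ring
    have hsplit : chf p s (a :: l) - ((g * G : ℝ) : ℂ) =
        (f1 p (s * a) - (g : ℂ)) * chf p s l + (g : ℂ) * (chf p s l - (G : ℂ)) := by
      rw [chf_cons]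
      push_cast
      ring
    rw [hprod, hsplit, ss_cons]
    have hn1 : ‖(f1 p (s * a) - (g : ℂ)) * chf p s l‖ ≤
        p * (1 - p) * (s * a) ^ 2 * ((1 - 2 * p) * |s * a| / 6 + (s * a) ^ 2 / 24) := by
      rw [norm_mul]
      have h4 := chf_le_one (s := s) h0 (by linarith) l
      have h5 := mul_le_mul h3 h4 (norm_nonneg _) ((norm_nonneg _).trans h3)
      rwa [mul_one] at h5
    have hn2 : ‖(g : ℂ) * (chf p s l - (G : ℂ))‖ ≤
        s ^ 2 * (p * (1 - p) * ss l) * ((1 - 2 * p) * (s * h) / 6 + (s * h) ^ 2 / 24) := by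
      rw [norm_mul, Complex.norm_real, Real.norm_eq_abs, abs_of_nonneg hg0]
      calc g * ‖chf p s l - (G : ℂ)‖ ≤ 1 * ‖chf p s l - (G : ℂ)‖ :=
            mul_le_mul_of_nonneg_right hg1 (norm_nonneg _)
        _ ≤ _ := by rw [one_mul]; exact ih'
    have habs : |s * a| ≤ s * h := by
      rw [abs_mul, abs_of_nonneg hs]
      exact mul_le_mul_of_nonneg_left ha hs
    have hsq : (s * a) ^ 2 ≤ (s * h) ^ 2 := by
      rw [← sq_abs (s * a)]
      exact pow_le_pow_left₀ (abs_nonneg _) habs 2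
    have hw : (1 - 2 * p) * |s * a| / 6 + (s * a) ^ 2 / 24 ≤
        (1 - 2 * p) * (s * h) / 6 + (s * h) ^ 2 / 24 := by
      have := mul_le_mul_of_nonneg_left habs (by linarith : (0 : ℝ) ≤ 1 - 2 * p)
      linarith
    have hn3 : p * (1 - p) * (s * a) ^ 2 * ((1 - 2 * p) * |s * a| / 6 + (s * a) ^ 2 / 24) ≤
        p * (1 - p) * (s * a) ^ 2 * ((1 - 2 * p) * (s * h) / 6 + (s * h) ^ 2 / 24) :=
      mul_le_mul_of_nonneg_left hw (mul_nonneg hq (sq_nonneg _))
    refine (norm_add_le _ _).trans ((add_le_add (hn1.trans hn3) hn2).trans (le_of_eq ?_))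
    ring

private theorem z28_spec {P0 : ℕ} (hP : P0 ≤ 8192) {p : ℝ} (hp : (P0 : ℝ) / 16384 ≤ p)
    (h1 : 1 / 5 ≤ p) (h2 : p ≤ 1 / 2) :
    0 < z28 P0 ∧ (z28 P0 : ℝ) / 268435456 ≤ p * (1 - p) := by
  unfold z28
  rcases h : Nat.blt P0 3277 with _ | _
  · rw [cond_false]
    have h3 : 3277 ≤ P0 := by
      by_contra hlt
      have : Nat.blt P0 3277 = true := by
        unfold Nat.blt
        exact Nat.ble_eq_true_of_le (by omega)
      rw [h] at this
      exact Bool.noConfusion this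
    have e : Nat.mul P0 (Nat.sub 16384 P0) = P0 * (16384 - P0) := rfl
    rw [e]
    constructor
    · exact Nat.mul_pos (by omega) (by omega)
    · rw [Nat.cast_mul, Nat.cast_sub (by omega)]
      push_cast
      rw [div_le_iff₀ (by norm_num)] at hp ⊢
      have hP' : (P0 : ℝ) ≤ 8192 := by exact_mod_cast hP
      have h5 : 0 ≤ (p * 16384 - P0) * (16384 - P0 - p * 16384) :=
        mul_nonneg (by linarith) (by linarith)
      linarith
  · rw [cond_true]
    constructor
    · norm_num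
    · push_cast
      have h5 : 0 ≤ (p - 1 / 5) * (4 / 5 - p) := mul_nonneg (by linarith) (by linarith)
      have h6 : (42949672 : ℝ) / 268435456 ≤ 4 / 25 := by norm_num
      linarith

private theorem a14_spec {P0 : ℕ} (hP : P0 ≤ 8192) {p : ℝ} (hp : (P0 : ℝ) / 16384 ≤ p)
    (h1 : 1 / 5 ≤ p) : 1 - 2 * p ≤ (a14 P0 : ℝ) / 16384 := by
  unfold a14
  rcases h : Nat.blt P0 3277 with _ | _
  · rw [cond_false]
    have e : Nat.sub 16384 (Nat.mul 2 P0) = 16384 - 2 * P0 := rfl
    rw [e, Nat.cast_sub (by omega)]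
    push_cast
    linarith
  · rw [cond_true]
    push_cast
    linarith

private theorem t2_spec (m : ℕ) :
    (t2L m : ℝ) / 1099511627776 ≤ ((m : ℝ) * (Real.pi / 10)) ^ 2 ∧
      ((m : ℝ) * (Real.pi / 10)) ^ 2 ≤ (t2U m : ℝ) / 1099511627776 := by
  have e1 : t2L m = m * m * 108517448005 := rfl
  have e2 : t2U m = m * m * 108517448006 := rfl
  have hl := Real.pi_gt_d20
  have hu := Real.pi_lt_d20
  have hpl : (108517448005 : ℝ) / 1099511627776 ≤ (Real.pi / 10) ^ 2 := by
    have h3 : (3.14159265358979323846 / 10 : ℝ) ^ 2 ≤ (Real.pi / 10) ^ 2 :=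
      pow_le_pow_left₀ (by norm_num) (by linarith) 2
    refine le_trans ?_ h3
    norm_num
  have hpu : (Real.pi / 10) ^ 2 ≤ (108517448006 : ℝ) / 1099511627776 := by
    have h3 : (Real.pi / 10) ^ 2 ≤ (3.14159265358979323847 / 10 : ℝ) ^ 2 :=
      pow_le_pow_left₀ (by positivity) (by linarith) 2
    refine h3.trans ?_
    norm_num
  rw [e1, e2]
  push_cast
  have hm : (0 : ℝ) ≤ (m : ℝ) ^ 2 := by positivity
  have h3 := mul_le_mul_of_nonneg_left hpl hm
  have h4 := mul_le_mul_of_nonneg_left hpu hm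
  rw [mul_pow]
  constructor
  · refine le_trans (le_of_eq ?_) h3
    ring
  · refine h4.trans (le_of_eq ?_)
    ring

private theorem xU_spec {P0 : ℕ} (m : ℕ) (hz : 0 < z28 P0) :
    ((t2U m : ℝ) / 1099511627776) / (10 * ((z28 P0 : ℝ) / 268435456)) ≤
      (xU P0 m : ℝ) / 1099511627776 := by
  have e : xU P0 m = (t2U m * 268435456 / (10 * z28 P0)).succ := rfl
  have h := le_succ_div (t2U m * 268435456) (b := 10 * z28 P0) (by omega)
  rw [e, le_div_iff₀ (by norm_num)]
  refine le_trans (le_of_eq ?_) h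
  push_cast
  have hz' : (z28 P0 : ℝ) ≠ 0 := by exact_mod_cast hz.ne'
  field_simp

private theorem kapL_spec (x : ℕ) (hk : 0 < kapL x) : (kapL x : ℝ) / 1099511627776 ≤
    1 - ((x : ℝ) / 1099511627776) / 12 + ((x : ℝ) / 1099511627776) ^ 2 / 360 -
      ((x : ℝ) / 1099511627776) ^ 3 / 20160 := by
  have e : kapL x = (o40 + x * x / (360 * o40)) -
      ((x / 12).succ + (x * x * x / (20160 * (o40 * o40))).succ) := rfl
  have h1 := div_le' (x * x) (360 * o40)
  have h2 := le_succ_div x (b := 12) (by norm_num)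
  have h3 := le_succ_div (x * x * x) (b := 20160 * (o40 * o40))
    (by have := Nat.mul_pos o40_pos o40_pos; omega)
  have hlt : (x / 12).succ + (x * x * x / (20160 * (o40 * o40))).succ ≤
      o40 + x * x / (360 * o40) := by
    rw [e] at hk
    omega
  rw [e, Nat.cast_sub hlt]
  push_cast at h1 h2 h3 ⊢
  rw [o40_cast] at h1 h3 ⊢
  rw [div_le_iff₀ (by norm_num)]
  have e1 : (x : ℝ) * x / (360 * 1099511627776) =
      ((x : ℝ) / 1099511627776) ^ 2 / 360 * 1099511627776 := by ring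
  have e3 : (x : ℝ) * x * x / (20160 * (1099511627776 * 1099511627776)) =
      ((x : ℝ) / 1099511627776) ^ 3 / 20160 * 1099511627776 := by ring
  rw [e1] at h1
  rw [e3] at h3
  linarith

private theorem wU_spec {P0 x : ℕ} (hP : P0 ≤ 8192) {p u : ℝ} (hp : (P0 : ℝ) / 16384 ≤ p)
    (h1 : 1 / 5 ≤ p) (h2 : p ≤ 1 / 2) (hu : 0 ≤ u) (hux : u ^ 2 ≤ (x : ℝ) / 1099511627776) :
    (1 - 2 * p) * u / 6 + u ^ 2 / 24 ≤ (wU P0 x : ℝ) / 1099511627776 := by
  have e : wU P0 x = (a14 P0 * sqU (x * o40) / 98304).succ + (x / 24).succ := rfl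
  have h3 := le_succ_div (a14 P0 * sqU (x * o40)) (b := 98304) (by norm_num)
  have h4 := le_succ_div x (b := 24) (by norm_num)
  have h5 := sqU_sound (x * o40)
  have h6 : u * 1099511627776 ≤ (sqU (x * o40) : ℝ) := by
    apply le_of_sq_le_sq _ (Nat.cast_nonneg _)
    have h7 : ((x * o40 : ℕ) : ℝ) ≤ ((sqU (x * o40) ^ 2 : ℕ) : ℝ) := Nat.cast_le.2 h5
    rw [Nat.cast_mul, o40_cast, Nat.cast_pow] at h7
    refine le_trans ?_ h7
    rw [le_div_iff₀ (by norm_num)] at hux
    calc (u * 1099511627776) ^ 2 = u ^ 2 * 1099511627776 * 1099511627776 := by ring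
      _ ≤ (x : ℝ) * 1099511627776 := mul_le_mul_of_nonneg_right hux (by norm_num)
  have h8 := a14_spec hP hp h1
  have h9 : (1 - 2 * p) * (u * 1099511627776) ≤ (a14 P0 : ℝ) / 16384 * (sqU (x * o40) : ℝ) :=
    mul_le_mul h8 h6 (by positivity) (by linarith)
  rw [e]
  push_cast at h3 h4 ⊢
  rw [le_div_iff₀ (by norm_num)] at hux ⊢
  have e1 : ((1 - 2 * p) * u / 6 + u ^ 2 / 24) * 1099511627776 =
      (1 - 2 * p) * (u * 1099511627776) / 6 + u ^ 2 * 1099511627776 / 24 := by ring
  have e2 : (a14 P0 : ℝ) * (sqU (x * o40) : ℝ) / 98304 =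
      (a14 P0 : ℝ) / 16384 * (sqU (x * o40) : ℝ) / 6 := by ring
  rw [e2] at h3
  rw [e1]
  linarith

private theorem kap_anti {y X : ℝ} (h0 : 0 ≤ y) (h : y ≤ X) :
    1 - X / 12 + X ^ 2 / 360 - X ^ 3 / 20160 ≤ 1 - y / 12 + y ^ 2 / 360 - y ^ 3 / 20160 := by
  have hb : 0 ≤ 1 / 12 - (y + X) / 360 + (y ^ 2 + y * X + X ^ 2) / 20160 := by
    nlinarith [sq_nonneg (y - X), sq_nonneg (y + X - 37)]
  nlinarith [mul_nonneg (sub_nonneg.2 h) hb]

theorem dU_sound {P0 m : ℕ} (hP : P0 ≤ 8192) {p : ℝ} (hp : (P0 : ℝ) / 16384 ≤ p) (h1 : 1 / 5 ≤ p) (h2 : p ≤ 1 / 2)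
    {h : ℝ} {l : List ℝ} (hl : ∀ a ∈ l, |a| ≤ h) (hh : 0 < h) (hS : 10 * h ^ 2 ≤ ss l) :
    ‖chf p ((m : ℝ) * (Real.pi / 10) / sd p l) l - (Real.exp (-(((m : ℝ) * (Real.pi / 10)) ^ 2 / 2)) : ℂ)‖ ≤
      (dU P0 m : ℝ) / 1099511627776 := by
  obtain ⟨hz0, hz1⟩ := z28_spec hP hp h1 h2
  obtain ⟨htL, htU⟩ := t2_spec m
  set t : ℝ := (m : ℝ) * (Real.pi / 10) with ht
  have ht0 : 0 ≤ t := by positivity
  have hp0 : 0 ≤ p := by linarith
  have hpq : 0 < p * (1 - p) := mul_pos (by linarith) (by linarith)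
  have hss : 0 < ss l := lt_of_lt_of_le (by positivity) hS
  have hV : 0 < p * (1 - p) * ss l := mul_pos hpq hss
  have hsd : 0 < sd p l := Real.sqrt_pos.2 hV
  have hsd2 : sd p l ^ 2 = p * (1 - p) * ss l := Real.sq_sqrt hV.le
  set s : ℝ := t / sd p l with hs
  have hs0 : 0 ≤ s := by positivity
  have hsV : s ^ 2 * (p * (1 - p) * ss l) = t ^ 2 := by
    rw [hs, div_pow, hsd2, div_mul_cancel₀ _ hV.ne']
  set u : ℝ := s * h with hu
  have hu0 : 0 ≤ u := by positivity
  set x : ℕ := xU P0 m with hx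
  have hux : u ^ 2 ≤ (x : ℝ) / 1099511627776 := by
    refine le_trans ?_ (xU_spec m hz0)
    have h3 : u ^ 2 * (10 * (p * (1 - p))) ≤ t ^ 2 := by
      rw [← hsV, hu]
      have h4 : s ^ 2 * (p * (1 - p)) * (10 * h ^ 2) ≤ s ^ 2 * (p * (1 - p)) * ss l :=
        mul_le_mul_of_nonneg_left hS (by positivity)
      calc (s * h) ^ 2 * (10 * (p * (1 - p))) = s ^ 2 * (p * (1 - p)) * (10 * h ^ 2) := by ring
        _ ≤ _ := h4
        _ = _ := by ring
    have hz2 : 0 < (z28 P0 : ℝ) / 268435456 := by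
      have : (0 : ℝ) < z28 P0 := by exact_mod_cast hz0
      positivity
    rw [le_div_iff₀ (by positivity)]
    refine le_trans ?_ (h3.trans htU)
    apply mul_le_mul_of_nonneg_left _ (sq_nonneg u)
    linarith
  have hw := wU_spec hP hp h1 h2 hu0 hux
  set w : ℝ := (1 - 2 * p) * u / 6 + u ^ 2 / 24 with hwd
  have hw0 : 0 ≤ w := by
    have : 0 ≤ (1 - 2 * p) * u := mul_nonneg (by linarith) hu0
    positivity
  set k : ℕ := kapL x with hk
  set κ : ℝ := (k : ℝ) / 1099511627776 with hκ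
  have hκ0 : 0 ≤ κ := by positivity
  -- the two estimates
  have hAB : ‖chf p s l‖ ≤ Real.exp (-(κ * t ^ 2 / 2)) ∧
      ‖chf p s l - (Real.exp (-(t ^ 2 / 2)) : ℂ)‖ ≤
        t ^ 2 * w * Real.exp (-(0.45 * κ * t ^ 2)) := by
    rcases Nat.eq_zero_or_pos k with hk0 | hk0
    · have hκz : κ = 0 := by rw [hκ, hk0]; simp
      rw [hκz]
      constructor
      · have := chf_le_one (s := s) hp0 (by linarith) l
        simpa using this
      · have := chf_sub0 hp0 h2 hs0 hl
        rw [hsV] at this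
        refine this.trans (le_of_eq ?_)
        simp [hwd, hu]
    · have hkap : κ ≤ 1 - (s * h) ^ 2 / 12 + (s * h) ^ 4 / 360 - (s * h) ^ 6 / 20160 := by
        have h3 := kapL_spec x hk0
        have h4 := kap_anti (sq_nonneg u) hux
        refine (h3.trans h4).trans (le_of_eq ?_)
        rw [hu]
        ring
      constructor
      · have := chf_norm hp0 (by linarith) hs0 hl hkap
        rwa [hsV] at this
      · have := chf_sub hp0 h2 hs0 hl hS hκ0 hkap
        rw [hsV] at this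
        exact this
  obtain ⟨hA, hB⟩ := hAB
  have e : dU P0 m = mn
      (((t2U m * wU P0 x / o40).succ * expU (k * t2L m * 9 / (20 * o40)) / o40).succ)
      (expU (k * t2L m / (2 * o40)) + expU (t2L m / 2)) := rfl
  rw [e, mn_eq, Nat.cast_min, ← min_div_div_right (by norm_num)]
  rw [le_min_iff]
  have hcmp : ∀ (z : ℕ) (y : ℝ), (z : ℝ) / 1099511627776 ≤ y →
      Real.exp (-y) ≤ (expU z : ℝ) / 1099511627776 := by
    intro z y hzy
    refine le_trans ?_ (expU_sound z)
    rw [Real.exp_le_exp]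
    linarith
  have hkt : κ * ((t2L m : ℝ) / 1099511627776) ≤ κ * t ^ 2 := mul_le_mul_of_nonneg_left htL hκ0
  constructor
  · have hz3 : ((k * t2L m * 9 / (20 * o40) : ℕ) : ℝ) / 1099511627776 ≤ 0.45 * κ * t ^ 2 := by
      have h3 := div_le' (k * t2L m * 9) (20 * o40)
      push_cast at h3
      rw [o40_cast] at h3
      rw [div_le_iff₀ (by norm_num)]
      refine h3.trans ?_
      calc (k : ℝ) * (t2L m : ℝ) * 9 / (20 * 1099511627776) =
          0.45 * (κ * ((t2L m : ℝ) / 1099511627776)) * 1099511627776 := by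
            rw [hκ]
            ring
        _ ≤ 0.45 * (κ * t ^ 2) * 1099511627776 := by
            apply mul_le_mul_of_nonneg_right _ (by norm_num)
            apply mul_le_mul_of_nonneg_left hkt (by norm_num)
        _ = _ := by ring
    have h4 := hcmp _ _ hz3
    have h5 := le_succ_div (t2U m * wU P0 x) o40_pos
    have h6 := le_succ_div ((t2U m * wU P0 x / o40).succ *
      expU (k * t2L m * 9 / (20 * o40))) o40_pos
    generalize (t2U m * wU P0 x / o40).succ = T at h5 h6 ⊢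
    generalize expU (k * t2L m * 9 / (20 * o40)) = E at h4 h6 ⊢
    push_cast at h5
    rw [o40_cast] at h5
    have h7 : t ^ 2 * w ≤ (T : ℝ) / 1099511627776 := by
      have h8 : t ^ 2 * w ≤ ((t2U m : ℝ) / 1099511627776) * ((wU P0 x : ℝ) / 1099511627776) :=
        mul_le_mul htU hw hw0 (by positivity)
      refine h8.trans ?_
      rw [le_div_iff₀ (by norm_num)]
      refine le_trans (le_of_eq ?_) h5
      ring
    have h9 : t ^ 2 * w * Real.exp (-(0.45 * κ * t ^ 2)) ≤
        ((T : ℝ) / 1099511627776) * ((E : ℝ) / 1099511627776) :=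
      mul_le_mul h7 h4 (Real.exp_pos _).le (by positivity)
    refine (hB.trans h9).trans ?_
    rw [le_div_iff₀ (by norm_num)]
    refine le_trans (le_of_eq ?_) h6
    push_cast
    rw [o40_cast]
    ring
  · have hz3 : ((k * t2L m / (2 * o40) : ℕ) : ℝ) / 1099511627776 ≤ κ * t ^ 2 / 2 := by
      have h3 := div_le' (k * t2L m) (2 * o40)
      push_cast at h3
      rw [o40_cast] at h3
      rw [div_le_iff₀ (by norm_num)]
      refine h3.trans ?_
      calc (k : ℝ) * (t2L m : ℝ) / (2 * 1099511627776) =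
          (κ * ((t2L m : ℝ) / 1099511627776)) / 2 * 1099511627776 := by
            rw [hκ]
            ring
        _ ≤ (κ * t ^ 2) / 2 * 1099511627776 := by
            apply mul_le_mul_of_nonneg_right _ (by norm_num)
            linarith
    have hz4 : ((t2L m / 2 : ℕ) : ℝ) / 1099511627776 ≤ t ^ 2 / 2 := by
      have h3 := div_le' (t2L m) 2
      push_cast at h3
      rw [div_le_iff₀ (by norm_num)] at htL ⊢
      linarith
    have h4 := hcmp _ _ hz3
    have h5 := hcmp _ _ hz4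
    refine (norm_sub_le _ _).trans ?_
    have h6 : ‖((Real.exp (-(t ^ 2 / 2)) : ℝ) : ℂ)‖ = Real.exp (-(t ^ 2 / 2)) := by
      rw [Complex.norm_real, Real.norm_eq_abs, abs_of_pos (Real.exp_pos _)]
    rw [h6, Nat.cast_add, add_div]
    exact add_le_add (hA.trans h4) h5

private theorem errS_eq (P0 : ℕ) (l : List ℕ) (m : ℕ) :
    errS P0 l m = ∑ i ∈ Finset.range l.length, l.getD i 0 * dU P0 (m + i) := by
  induction l generalizing m with
  | nil => rfl
  | cons c l ih =>
    have e : errS P0 (c :: l) m = c * dU P0 m + errS P0 l (m + 1) := rfl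
    have e2 : ∀ i, l.getD i 0 * dU P0 (m + 1 + i) =
        (c :: l).getD (i + 1) 0 * dU P0 (m + (i + 1)) := by
      intro i
      rw [List.getD_cons_succ, add_assoc, add_comm 1 i]
    have e3 : (c :: l).getD 0 0 * dU P0 (m + 0) = c * dU P0 m := by
      rw [List.getD_cons_zero, add_zero]
    rw [e, ih, List.length_cons, Finset.sum_range_succ', Finset.sum_congr rfl (fun i _ => e2 i),
      e3]
    exact add_comm _ _

theorem err_sum {P0 E : ℕ} (h : eOk P0 E = true) :
    ∑ m ∈ Finset.range 18, (Cm.getD m 0 : ℝ) / 1073741824 * ((dU P0 (m + 1) : ℝ) / 1099511627776) ≤ (E : ℝ) / 65536 := by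
  have h1 : errS P0 Cm 1 ≤ E * 18014398509481984 := Nat.le_of_ble_eq_true h
  have h2 : Cm.length = 18 := rfl
  rw [errS_eq, h2] at h1
  have h3 : ((∑ i ∈ Finset.range 18, Cm.getD i 0 * dU P0 (1 + i) : ℕ) : ℝ) ≤
      ((E * 18014398509481984 : ℕ) : ℝ) := Nat.cast_le.2 h1
  rw [Nat.cast_sum, Nat.cast_mul] at h3
  have h4 : ∑ m ∈ Finset.range 18, (Cm.getD m 0 : ℝ) / 1073741824 *
      ((dU P0 (m + 1) : ℝ) / 1099511627776) =
      (∑ i ∈ Finset.range 18, ((Cm.getD i 0 * dU P0 (1 + i) : ℕ) : ℝ)) /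
        1180591620717411303424 := by
    rw [Finset.sum_div]
    apply Finset.sum_congr rfl
    intro i _
    rw [Nat.cast_mul, add_comm 1 i]
    ring
  rw [h4, div_le_div_iff₀ (by norm_num) (by norm_num)]
  have e : ((18014398509481984 : ℕ) : ℝ) = 18014398509481984 := by norm_num
  rw [e] at h3
  linarith

end Pool.Agent.MMS14
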