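import Pool.Agent.MMS14.CosT

/-!
# MMS14/EvS: values of trigonometric polynomials at the points `j / 100`

`Am m = (coP_m.1 - coN_m.1) / 2^30`, `Bm m = (coP_m.2 - coN_m.2) / 2^30` (`m = 1 .. 18`, list index `m - 1`), `g0 y = A0 / 2^30 + ∑ (Am cos (m π/10 y) + Bm sin (m π/10 y))`,
`dA`, `dB` the same with `dmP`, `dmN`.
`ev_sound`: unfold `evS` (18 terms, or induction over the list with the start index `m`), `|ct - ..| ≤ 2^-40` (`ct_cos`, `ct_sin` at `m j`), the sum of
all coefficients of `coP`, `coN` is at most `3 * 2^30`: total error at most `3 * 2^-40 ≤ 2^-38`.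
-/

set_option autoImplicit false

namespace Pool.Agent.MMS14

/-- coefficient number `m + 1` of the cosine, `P`, `N` positive and negative parts -/
noncomputable def cA (P N : List (ℕ × ℕ)) (m : ℕ) : ℝ := (((P.getD m (0, 0)).1 : ℝ) - ((N.getD m (0, 0)).1 : ℝ)) / 1073741824

/-- coefficient number `m + 1` of the sine -/
noncomputable def cB (P N : List (ℕ × ℕ)) (m : ℕ) : ℝ := (((P.getD m (0, 0)).2 : ℝ) - ((N.getD m (0, 0)).2 : ℝ)) / 1073741824

/-- the trigonometric polynomial (period 20) -/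
noncomputable def tp (P N : List (ℕ × ℕ)) (y : ℝ) : ℝ := (A0 : ℝ) / 1073741824 + ∑ m ∈ Finset.range 18,
  (cA P N m * Real.cos (((m : ℝ) + 1) * (Real.pi / 10) * y) + cB P N m * Real.sin (((m : ℝ) + 1) * (Real.pi / 10) * y))

/-- the real value of a list -/
private noncomputable def rS (l : List (ℕ × ℕ)) (m j : ℕ) : ℝ := ∑ i ∈ Finset.range l.length,
  (((l.getD i (0, 0)).1 : ℝ) * Real.cos (Real.pi * (((m + i) * j : ℕ) : ℝ) / 1000) +
    ((l.getD i (0, 0)).2 : ℝ) * Real.sin (Real.pi * (((m + i) * j : ℕ) : ℝ) / 1000))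

private theorem evS_nil (m j : ℕ) : evS [] m j = 0 := rfl

private theorem evS_cons (ab : ℕ × ℕ) (l : List (ℕ × ℕ)) (m j : ℕ) :
    evS (ab :: l) m j = ab.1 * ct (m * j) + ab.2 * ct (m * j + 1500) + evS l (m + 1) j := rfl

private theorem suS_nil : suS [] = 0 := rfl

private theorem suS_cons (ab : ℕ × ℕ) (l : List (ℕ × ℕ)) : suS (ab :: l) = ab.1 + ab.2 + suS l := rfl

private theorem rS_cons (ab : ℕ × ℕ) (l : List (ℕ × ℕ)) (m j : ℕ) :
    rS (ab :: l) m j = (ab.1 : ℝ) * Real.cos (Real.pi * ((m * j : ℕ) : ℝ) / 1000) +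
      (ab.2 : ℝ) * Real.sin (Real.pi * ((m * j : ℕ) : ℝ) / 1000) + rS l (m + 1) j := by
  unfold rS
  rw [List.length_cons, Finset.sum_range_succ']
  rw [add_comm]
  congr 1
  · refine Finset.sum_congr rfl fun i _ => ?_
    rw [List.getD_cons_succ]
    have : m + (i + 1) = m + 1 + i := by omega
    rw [this]

private theorem evS_sound (l : List (ℕ × ℕ)) (j : ℕ) : ∀ m : ℕ,
    |(evS l m j : ℝ) / 72057594037927936 - (suS l : ℝ) - rS l m j| ≤ (suS l : ℝ) * (1 / 2 ^ 40) := by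
  induction l with
  | nil =>
    intro m
    simp [evS_nil, suS_nil, rS]
  | cons ab l ih =>
    intro m
    rw [evS_cons, suS_cons, rS_cons]
    have h1 := ih (m + 1)
    have h2 := ct_cos (m * j)
    have h3 := ct_sin (m * j)
    have h4 : ((ab.1 * ct (m * j) + ab.2 * ct (m * j + 1500) + evS l (m + 1) j : ℕ) : ℝ) / 72057594037927936 -
        ((ab.1 + ab.2 + suS l : ℕ) : ℝ) -
        ((ab.1 : ℝ) * Real.cos (Real.pi * ((m * j : ℕ) : ℝ) / 1000) +
          (ab.2 : ℝ) * Real.sin (Real.pi * ((m * j : ℕ) : ℝ) / 1000) + rS l (m + 1) j) =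
        (ab.1 : ℝ) * ((ct (m * j) : ℝ) / 72057594037927936 - 1 - Real.cos (Real.pi * ((m * j : ℕ) : ℝ) / 1000)) +
        (ab.2 : ℝ) * ((ct (m * j + 1500) : ℝ) / 72057594037927936 - 1 - Real.sin (Real.pi * ((m * j : ℕ) : ℝ) / 1000)) +
        ((evS l (m + 1) j : ℝ) / 72057594037927936 - (suS l : ℝ) - rS l (m + 1) j) := by
      push_cast
      ring
    rw [h4]
    refine (abs_add_three _ _ _).trans ?_
    rw [abs_mul, abs_mul, Nat.abs_cast, Nat.abs_cast]
    have h5 := mul_le_mul_of_nonneg_left h2 (Nat.cast_nonneg (α := ℝ) ab.1)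
    have h6 := mul_le_mul_of_nonneg_left h3 (Nat.cast_nonneg (α := ℝ) ab.2)
    push_cast at h5 h6 ⊢
    linarith

private theorem tp_eq {P N : List (ℕ × ℕ)} (hP : P.length = 18) (hN : N.length = 18) (j : ℕ) :
    tp P N ((j : ℝ) / 100) = (A0 : ℝ) / 1073741824 + (rS P 1 j - rS N 1 j) / 1073741824 := by
  unfold tp rS cA cB
  rw [hP, hN, ← Finset.sum_sub_distrib, Finset.sum_div]
  congr 1
  refine Finset.sum_congr rfl fun i _ => ?_
  have : ((i : ℝ) + 1) * (Real.pi / 10) * ((j : ℝ) / 100) = Real.pi * (((1 + i) * j : ℕ) : ℝ) / 1000 := by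
    push_cast
    ring
  rw [this]
  ring

/-- for the two pairs of lists `(P, N) = (coP, coN), (dmP, dmN)`: `(lhs - rhs) / 2 ^ 86` is the value at `y = j / 100` -/
theorem ev_sound {P N : List (ℕ × ℕ)} (hP : P.length = 18) (hN : N.length = 18) (hs : suS P + suS N ≤ 3221225472) (j : ℕ) :
    |((lhs P N j : ℝ) - (rhs P N j : ℝ)) / (1073741824 * 72057594037927936) - tp P N ((j : ℝ) / 100)| ≤ 1 / 2 ^ 38 := by
  rw [tp_eq hP hN]
  have h1 := evS_sound P j 1
  have h2 := evS_sound N j 1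
  have ho : (o56 : ℝ) = 72057594037927936 := by unfold o56; norm_num
  have hl : (lhs P N j : ℝ) = (A0 : ℝ) * o56 + (evS P 1 j : ℝ) + (suS N : ℝ) * o56 := by
    have : lhs P N j = A0 * o56 + evS P 1 j + suS N * o56 := rfl
    rw [this]; push_cast; ring
  have hr : (rhs P N j : ℝ) = (evS N 1 j : ℝ) + (suS P : ℝ) * o56 := by
    have : rhs P N j = evS N 1 j + suS P * o56 := rfl
    rw [this]; push_cast; ring
  rw [hl, hr, ho]
  have h3 : ((A0 : ℝ) * 72057594037927936 + (evS P 1 j : ℝ) + (suS N : ℝ) * 72057594037927936 -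
      ((evS N 1 j : ℝ) + (suS P : ℝ) * 72057594037927936)) / (1073741824 * 72057594037927936) -
      ((A0 : ℝ) / 1073741824 + (rS P 1 j - rS N 1 j) / 1073741824) =
      (((evS P 1 j : ℝ) / 72057594037927936 - (suS P : ℝ) - rS P 1 j) -
        ((evS N 1 j : ℝ) / 72057594037927936 - (suS N : ℝ) - rS N 1 j)) / 1073741824 := by
    ring
  rw [h3, abs_div]
  have h4 : |(1073741824 : ℝ)| = 1073741824 := abs_of_pos (by norm_num)
  rw [h4, div_le_iff₀ (by norm_num)]
  refine (abs_sub _ _).trans ?_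
  have hs' : (suS P : ℝ) + (suS N : ℝ) ≤ 3221225472 := by exact_mod_cast hs
  have h5 : ((suS P : ℝ) + (suS N : ℝ)) * (1 / 2 ^ 40) ≤ 3221225472 * (1 / 2 ^ 40) :=
    mul_le_mul_of_nonneg_right hs' (by positivity)
  have h6 : (3221225472 : ℝ) * (1 / 2 ^ 40) ≤ 1 / 2 ^ 38 * 1073741824 := by norm_num
  linarith

theorem su_co : suS coP + suS coN ≤ 3221225472 := by
  decide +kernel

theorem su_dm : suS dmP + suS dmN ≤ 3221225472 := by
  decide +kernel

theorem tp_period (P N : List (ℕ × ℕ)) (y : ℝ) : tp P N (y + 20) = tp P N y := by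
  unfold tp
  congr 1
  refine Finset.sum_congr rfl fun i _ => ?_
  have : ((i : ℝ) + 1) * (Real.pi / 10) * (y + 20) = ((i : ℝ) + 1) * (Real.pi / 10) * y + ((i + 1 : ℕ) : ℝ) * (2 * Real.pi) := by
    push_cast
    ring
  rw [this, Real.cos_add_nat_mul_two_pi, Real.sin_add_nat_mul_two_pi]

end Pool.Agent.MMS14
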