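import Pool.Agent.MMS14.PrB

/-!
# MMS14/ExM: the expectation functional and the moments

All by induction on the list, generalizing the function.  `Ex` is linear and monotone (for `0 ≤ p ≤ 1`); with
`X = ∑ a (ξ_a - p)`: `E X = 0`, `E X² = p (1 - p) ss`, and for the fourth moment prove first
`E (X + c)^j` formulas, or directly
`E X³ = p (1 - p) (1 - 2 p) ∑ a³`, `E X⁴ = 3 (p (1-p) ss)² + p (1 - p) (1 - 6 p (1 - p)) ∑ a⁴`
(expand `(x + (1 - p) a)^4` and `(x - p a)^4`, use linearity).  Then `∑ a⁴ ≤ ss²`, and with `z = p (1 - p) ∈ [4/25, 1/4]`: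
`3 z² ss² + z (1 - 6 z) ∑ a⁴ ≤ 3 z² ss² + z max(0, 1 - 6 z) ss² ≤ (13/4) z² ss²` because `1 - 6 z ≤ z / 4` for `z ≥ 4 / 25`.
`Pr_eq_Ex`: immediate by induction (`t ≤ x + (1 - p) a ↔ t - (1 - p) a ≤ x`).
-/

set_option autoImplicit false

namespace Pool.Agent.MMS14

private theorem Ex_cons' (p a : ℝ) (l : List ℝ) (f : ℝ → ℝ) : Ex p (a :: l) f =
    p * Ex p l (fun x => f (x + (1 - p) * a)) + (1 - p) * Ex p l (fun x => f (x - p * a)) := rfl

theorem Ex_add (p : ℝ) (l : List ℝ) (f g : ℝ → ℝ) : Ex p l (fun x => f x + g x) = Ex p l f + Ex p l g := by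
  induction l generalizing f g with
  | nil => rfl
  | cons a l ih =>
    rw [Ex_cons', Ex_cons', Ex_cons',
      ih (fun x => f (x + (1 - p) * a)) (fun x => g (x + (1 - p) * a)),
      ih (fun x => f (x - p * a)) (fun x => g (x - p * a))]
    ring

theorem Ex_smul (p c : ℝ) (l : List ℝ) (f : ℝ → ℝ) : Ex p l (fun x => c * f x) = c * Ex p l f := by
  induction l generalizing f with
  | nil => rfl
  | cons a l ih =>
    rw [Ex_cons', Ex_cons', ih (fun x => f (x + (1 - p) * a)), ih (fun x => f (x - p * a))]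
    ring

theorem Ex_const (p c : ℝ) (l : List ℝ) : Ex p l (fun _ => c) = c := by
  induction l with
  | nil => rfl
  | cons a l ih =>
    rw [Ex_cons', ih]
    ring

theorem Ex_mono {p : ℝ} (h0 : 0 ≤ p) (h1 : p ≤ 1) (l : List ℝ) {f g : ℝ → ℝ} (h : ∀ x, f x ≤ g x) :
    Ex p l f ≤ Ex p l g := by
  induction l generalizing f g with
  | nil => exact h 0
  | cons a l ih =>
    rw [Ex_cons', Ex_cons']
    have e1 := ih (f := fun x => f (x + (1 - p) * a)) (g := fun x => g (x + (1 - p) * a))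
      (fun x => h _)
    have e2 := ih (f := fun x => f (x - p * a)) (g := fun x => g (x - p * a)) (fun x => h _)
    exact add_le_add (mul_le_mul_of_nonneg_left e1 h0)
      (mul_le_mul_of_nonneg_left e2 (by linarith))

theorem Ex_id (p : ℝ) (l : List ℝ) : Ex p l (fun x => x) = 0 := by
  induction l with
  | nil => rfl
  | cons a l ih =>
    rw [Ex_cons']
    have e1 : Ex p l (fun x => x + (1 - p) * a) = Ex p l (fun x => x) + (1 - p) * a := by
      rw [Ex_add p l (fun x => x) (fun _ => (1 - p) * a), Ex_const]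
    have e2 : Ex p l (fun x => x - p * a) = Ex p l (fun x => x) + -(p * a) := by
      have : (fun x : ℝ => x - p * a) = fun x => x + -(p * a) := by
        funext x
        ring
      rw [this, Ex_add p l (fun x => x) (fun _ => -(p * a)), Ex_const]
    rw [e1, e2, ih]
    ring

private theorem Ex_sq_shift (p c : ℝ) (l : List ℝ) :
    Ex p l (fun x => (x + c) ^ 2) = Ex p l (fun x => x ^ 2) + c ^ 2 := by
  have h : (fun x : ℝ => (x + c) ^ 2) = fun x => x ^ 2 + (2 * c * x + c ^ 2) := by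
    funext x
    ring
  rw [h, Ex_add p l (fun x => x ^ 2) (fun x => 2 * c * x + c ^ 2),
    Ex_add p l (fun x => 2 * c * x) (fun _ => c ^ 2), Ex_smul p (2 * c) l (fun x => x), Ex_id,
    Ex_const]
  ring

theorem Ex_sq (p : ℝ) (l : List ℝ) : Ex p l (fun x => x ^ 2) = p * (1 - p) * ss l := by
  induction l with
  | nil =>
    rw [ss_nil]
    simp [Ex]
  | cons a l ih =>
    rw [Ex_cons', ss_cons, Ex_sq_shift]
    have h : (fun x : ℝ => (x - p * a) ^ 2) = fun x => (x + -(p * a)) ^ 2 := by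
      funext x
      ring
    rw [h, Ex_sq_shift, ih]
    ring

private theorem Ex_four_shift (p c : ℝ) (l : List ℝ) :
    Ex p l (fun x => (x + c) ^ 4) = Ex p l (fun x => x ^ 4) + 4 * c * Ex p l (fun x => x ^ 3) +
      6 * c ^ 2 * Ex p l (fun x => x ^ 2) + c ^ 4 := by
  have h : (fun x : ℝ => (x + c) ^ 4) = fun x => x ^ 4 + (4 * c * x ^ 3 +
      (6 * c ^ 2 * x ^ 2 + (4 * c ^ 3 * x + c ^ 4))) := by
    funext x
    ring
  rw [h, Ex_add p l (fun x => x ^ 4) (fun x => 4 * c * x ^ 3 +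
      (6 * c ^ 2 * x ^ 2 + (4 * c ^ 3 * x + c ^ 4))),
    Ex_add p l (fun x => 4 * c * x ^ 3) (fun x => 6 * c ^ 2 * x ^ 2 + (4 * c ^ 3 * x + c ^ 4)),
    Ex_add p l (fun x => 6 * c ^ 2 * x ^ 2) (fun x => 4 * c ^ 3 * x + c ^ 4),
    Ex_add p l (fun x => 4 * c ^ 3 * x) (fun _ => c ^ 4),
    Ex_smul p (4 * c) l (fun x => x ^ 3), Ex_smul p (6 * c ^ 2) l (fun x => x ^ 2),
    Ex_smul p (4 * c ^ 3) l (fun x => x), Ex_id, Ex_const]
  ring

/-- sum of fourth powers -/
private noncomputable def s4 (l : List ℝ) : ℝ := (l.map (fun a => a ^ 4)).sum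

private theorem s4_cons (a : ℝ) (l : List ℝ) : s4 (a :: l) = a ^ 4 + s4 l := by
  simp [s4]

private theorem s4_nonneg (l : List ℝ) : 0 ≤ s4 l := by
  induction l with
  | nil => simp [s4]
  | cons a l ih =>
    rw [s4_cons]
    positivity

private theorem s4_le (l : List ℝ) : s4 l ≤ ss l ^ 2 := by
  induction l with
  | nil => simp [s4, ss_nil]
  | cons a l ih =>
    rw [s4_cons, ss_cons]
    have h1 := ss_nonneg l
    have h2 : 0 ≤ a ^ 2 * ss l := by positivity
    nlinarith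

private theorem Ex_four_eq (p : ℝ) (l : List ℝ) : Ex p l (fun x => x ^ 4) =
    3 * (p * (1 - p) * ss l) ^ 2 + p * (1 - p) * (1 - 6 * (p * (1 - p))) * s4 l := by
  induction l with
  | nil => simp [Ex, s4, ss_nil]
  | cons a l ih =>
    rw [Ex_cons', ss_cons, s4_cons, Ex_four_shift]
    have h : (fun x : ℝ => (x - p * a) ^ 4) = fun x => (x + -(p * a)) ^ 4 := by
      funext x
      ring
    rw [h, Ex_four_shift, ih, Ex_sq]
    ring

theorem Ex_four {p : ℝ} (h0 : 1 / 5 ≤ p) (h1 : p ≤ 1 / 2) (l : List ℝ) :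
    Ex p l (fun x => x ^ 4) ≤ 13 / 4 * (p * (1 - p) * ss l) ^ 2 := by
  rw [Ex_four_eq]
  have hz : 4 / 25 ≤ p * (1 - p) := by nlinarith
  have hs := s4_nonneg l
  have hl := s4_le l
  have h2 : p * (1 - p) * (1 - 6 * (p * (1 - p))) * s4 l ≤
      p * (1 - p) * (p * (1 - p) / 4) * s4 l := by
    apply mul_le_mul_of_nonneg_right _ hs
    apply mul_le_mul_of_nonneg_left _ (by linarith)
    linarith
  have h3 : p * (1 - p) * (p * (1 - p) / 4) * s4 l ≤
      p * (1 - p) * (p * (1 - p) / 4) * ss l ^ 2 := by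
    apply mul_le_mul_of_nonneg_left hl
    have : 0 ≤ p * (1 - p) := by linarith
    positivity
  have h4 : 3 * (p * (1 - p) * ss l) ^ 2 + p * (1 - p) * (p * (1 - p) / 4) * ss l ^ 2 =
      13 / 4 * (p * (1 - p) * ss l) ^ 2 := by ring
  linarith

theorem Pr_eq_Ex (p : ℝ) (l : List ℝ) (t : ℝ) : Pr p l t = Ex p l (fun x => if t ≤ x then 1 else 0) := by
  induction l generalizing t with
  | nil => rfl
  | cons a l ih =>
    rw [Ex_cons']
    have h1 : (fun x : ℝ => (if t ≤ x + (1 - p) * a then 1 else 0 : ℝ)) =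
        fun x => if t - (1 - p) * a ≤ x then 1 else 0 := by
      funext x
      simp only [sub_le_iff_le_add]
    have h2 : (fun x : ℝ => (if t ≤ x - p * a then 1 else 0 : ℝ)) =
        fun x => if t + p * a ≤ x then 1 else 0 := by
      funext x
      simp only [le_sub_iff_add_le]
    rw [h1, h2, ← ih, ← ih]
    rfl

end Pool.Agent.MMS14
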