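import Pool.Agent.H36.MMSMain

/-!
# MMS14/IndS: from `n` to `n + k`

`|U| = n + k`, `F` the `k`-subsets with sum `≥ 0`, `G` the others.  For `S ∈ G` the complement `U \ S` has `n` elements and positive sum, so it contains at
least `C(n - 1, k - 1)` sets of `F`; every `T ∈ F` is disjoint from exactly `C(n, k)` `k`-subsets.  Double counting:
`|G| C(n-1, k-1) ≤ |F| C(n, k)`, `C(n-1,k-1) = k/n C(n,k)` (`choose_eq`), `|F| + |G| = C(n + k, k)`, so `|F| ≥ k/(n+k) C(n+k, k) = C(n+k-1, k-1)`.
-/

open Finset Pool.Agent.H36.MMS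

set_option autoImplicit false

namespace Pool.Agent.MMS14

/-- the Manickam–Miklós–Singhi inequality for `n`, `k` -/
def MMSp (n k : ℕ) : Prop :=
  ∀ (U : Finset ℕ) (x : ℕ → ℝ), U.card = n → 0 ≤ sg x U →
    (n - 1).choose (k - 1) ≤ ((U.powersetCard k).filter (fun S => 0 ≤ sg x S)).card

theorem ind_step {n k : ℕ} (hk : 1 ≤ k) (hkn : k ≤ n) (h : MMSp n k) : MMSp (n + k) k := by
  classical
  intro U x hU hx
  obtain ⟨F, hF⟩ : ∃ F, F = (U.powersetCard k).filter (fun S => 0 ≤ sg x S) := ⟨_, rfl⟩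
  obtain ⟨G, hG⟩ : ∃ G, G = (U.powersetCard k).filter (fun S => ¬ 0 ≤ sg x S) := ⟨_, rfl⟩
  rw [← hF]
  have hFG : F.card + G.card = (n + k).choose k := by
    rw [hF, hG, card_filter_add_card_filter_not, card_powersetCard, hU]
  -- every set of `G` is disjoint from many sets of `F`
  have h1 : ∀ S ∈ G, (n - 1).choose (k - 1) ≤ (F.filter (fun T => Disjoint S T)).card := by
    intro S hS
    rw [hG, mem_filter, mem_powersetCard] at hS
    obtain ⟨⟨hSU, hSk⟩, hS0⟩ := hS
    have hc : (U \ S).card = n := by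
      rw [card_sdiff_of_subset hSU, hU, hSk]; omega
    have hs : 0 ≤ sg x (U \ S) := by
      have e : sg x (U \ S) + sg x S = sg x U := by
        unfold sg
        exact sum_sdiff hSU
      push Not at hS0
      linarith
    refine (h (U \ S) x hc hs).trans (card_le_card ?_)
    intro T hT
    rw [mem_filter, mem_powersetCard] at hT
    rw [mem_filter, hF, mem_filter, mem_powersetCard]
    refine ⟨⟨⟨hT.1.1.trans sdiff_subset, hT.1.2⟩, hT.2⟩, ?_⟩
    exact (disjoint_of_subset_left hT.1.1 sdiff_disjoint).symm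
  -- every set of `F` is disjoint from at most `C(n, k)` sets of `G`
  have h2 : ∀ T ∈ F, (G.filter (fun S => Disjoint S T)).card ≤ n.choose k := by
    intro T hT
    rw [hF, mem_filter, mem_powersetCard] at hT
    obtain ⟨⟨hTU, hTk⟩, -⟩ := hT
    have hc : (U \ T).card = n := by
      rw [card_sdiff_of_subset hTU, hU, hTk]; omega
    have e : ((U \ T).powersetCard k).card = n.choose k := by rw [card_powersetCard, hc]
    rw [← e]
    apply card_le_card
    intro S hS
    rw [mem_filter, hG, mem_filter, mem_powersetCard] at hS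
    rw [mem_powersetCard]
    exact ⟨subset_sdiff.2 ⟨hS.1.1.1, hS.2⟩, hS.1.1.2⟩
  have h3 : G.card * (n - 1).choose (k - 1) ≤ F.card * n.choose k := by
    calc G.card * (n - 1).choose (k - 1) = ∑ _S ∈ G, (n - 1).choose (k - 1) := by
          rw [sum_const, smul_eq_mul]
      _ ≤ ∑ S ∈ G, (F.filter (fun T => Disjoint S T)).card := sum_le_sum h1
      _ = ∑ T ∈ F, (G.filter (fun S => Disjoint S T)).card := by
          simp only [card_filter]
          exact sum_comm
      _ ≤ ∑ _T ∈ F, n.choose k := sum_le_sum h2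
      _ = F.card * n.choose k := by rw [sum_const, smul_eq_mul]
  have hn : (0:ℝ) < n := by exact_mod_cast (show 0 < n by omega)
  have hnk : (0:ℝ) < ((n + k : ℕ) : ℝ) := by exact_mod_cast (show 0 < n + k by omega)
  have hC : (0:ℝ) < (n.choose k : ℝ) := by exact_mod_cast Nat.choose_pos hkn
  have h4 : (G.card : ℝ) * ((n - 1).choose (k - 1) : ℝ) ≤ (F.card : ℝ) * (n.choose k : ℝ) := by
    exact_mod_cast h3
  rw [choose_eq hk hkn] at h4
  have h5 : (G.card : ℝ) * k ≤ F.card * n := by
    have h6 : ((G.card : ℝ) * k) * (n.choose k : ℝ) ≤ (F.card * n) * (n.choose k : ℝ) := by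
      have h7 := mul_le_mul_of_nonneg_left h4 hn.le
      have e1 : (n:ℝ) * ((G.card : ℝ) * ((k:ℝ) / n * (n.choose k : ℝ))) = ((G.card : ℝ) * k) * (n.choose k : ℝ) := by
        field_simp
      rw [e1] at h7
      linarith
    exact le_of_mul_le_mul_right h6 hC
  have h8 : (F.card : ℝ) + G.card = ((n + k).choose k : ℝ) := by exact_mod_cast hFG
  have h9 : (((n + k - 1).choose (k - 1) : ℕ) : ℝ) ≤ (F.card : ℝ) := by
    rw [choose_eq hk (by omega), div_mul_eq_mul_div, div_le_iff₀ hnk, ← h8]
    push_cast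
    nlinarith
  exact_mod_cast h9

end Pool.Agent.MMS14
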