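import Mathlib

/-!
# MMS14/HajB: mean absolute deviation of the binomial distribution

`∑_N C(n, N) p^N (1-p)^(n-N) (N - n p)² = n p (1 - p)` (evaluate `bernsteinPolynomial.variance` at `p`, or
`bernsteinPolynomial.sum`, `sum_smul`, `sum_mul_smul`), `n p = k`; Cauchy–Schwarz with total weight 1: `≤ √(n p (1 - p)) ≤ √n / 2`.
-/

set_option autoImplicit false

namespace Pool.Agent.MMS14

theorem binom_sum (n : ℕ) (p : ℝ) :
    ∑ N ∈ Finset.range (n + 1), (n.choose N : ℝ) * p ^ N * (1 - p) ^ (n - N) = 1 := by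
  have h := add_pow p (1 - p) n
  have h1 : (p + (1 - p)) ^ n = 1 := by
    rw [add_sub_cancel, one_pow]
  rw [h1] at h
  refine Eq.trans ?_ h.symm
  refine Finset.sum_congr rfl fun N _ => ?_
  ring

theorem binom_var (n : ℕ) (p : ℝ) :
    ∑ N ∈ Finset.range (n + 1), (n.choose N : ℝ) * p ^ N * (1 - p) ^ (n - N) * ((N : ℝ) - n * p) ^ 2 =
      n * p * (1 - p) := by
  have h := congrArg (Polynomial.eval p) (bernsteinPolynomial.variance ℝ n)
  simp only [Polynomial.eval_finsetSum, bernsteinPolynomial, Polynomial.eval_mul, Polynomial.eval_pow,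
    Polynomial.eval_sub, Polynomial.eval_X, Polynomial.eval_natCast, Polynomial.eval_one, nsmul_eq_mul] at h
  rw [← h]
  refine Finset.sum_congr rfl fun N _ => ?_
  ring

theorem binom_abs {n k : ℕ} (hn : 0 < n) (hk : k ≤ n) :
    ∑ N ∈ Finset.range (n + 1), (n.choose N : ℝ) * ((k : ℝ) / n) ^ N * (1 - (k : ℝ) / n) ^ (n - N) * |(N : ℝ) - k| ≤
      √(n : ℝ) / 2 := by
  have hn' : (0 : ℝ) < n := by exact_mod_cast hn
  set p : ℝ := (k : ℝ) / n with hp
  have hp0 : 0 ≤ p := by positivity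
  have hp1 : 0 ≤ 1 - p := by
    have : p ≤ 1 := by
      rw [hp, div_le_one hn']
      exact_mod_cast hk
    linarith
  have hnp : (n : ℝ) * p = k := by
    rw [hp]; field_simp
  have hw : ∀ N ∈ Finset.range (n + 1), 0 ≤ (n.choose N : ℝ) * p ^ N * (1 - p) ^ (n - N) := fun N _ => by positivity
  have hv := binom_var n p
  rw [hnp] at hv
  have hc : (∑ N ∈ Finset.range (n + 1), (n.choose N : ℝ) * p ^ N * (1 - p) ^ (n - N) * |(N : ℝ) - k|) ^ 2 ≤
      (∑ N ∈ Finset.range (n + 1), (n.choose N : ℝ) * p ^ N * (1 - p) ^ (n - N)) *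
        ∑ N ∈ Finset.range (n + 1), (n.choose N : ℝ) * p ^ N * (1 - p) ^ (n - N) * ((N : ℝ) - k) ^ 2 := by
    refine Finset.sum_sq_le_sum_mul_sum_of_sq_le_mul _ hw (fun N hN => mul_nonneg (hw N hN) (sq_nonneg _)) ?_
    intro N _
    rw [mul_pow, sq_abs]
    apply le_of_eq
    ring
  rw [binom_sum, hv, one_mul] at hc
  have h4 : (k : ℝ) * (1 - p) ≤ n / 4 := by
    rw [← hnp]
    nlinarith [sq_nonneg (p - 1 / 2)]
  have h0 : 0 ≤ ∑ N ∈ Finset.range (n + 1), (n.choose N : ℝ) * p ^ N * (1 - p) ^ (n - N) * |(N : ℝ) - k| :=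
    Finset.sum_nonneg fun N hN => mul_nonneg (hw N hN) (abs_nonneg _)
  have h5 : ∑ N ∈ Finset.range (n + 1), (n.choose N : ℝ) * p ^ N * (1 - p) ^ (n - N) * |(N : ℝ) - k| ≤
      √((n : ℝ) / 4) := Real.le_sqrt_of_sq_le (hc.trans h4)
  have h6 : √((n : ℝ) / 4) = √(n : ℝ) / 2 := by
    rw [Real.sqrt_div hn'.le, show (4 : ℝ) = 2 ^ 2 by norm_num, Real.sqrt_sq (by norm_num)]
  rw [← h6]
  exact h5

end Pool.Agent.MMS14
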