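import Pool.Agent.MMS14.PrB
import Pool.Agent.H36.MMSMain

/-!
# MMS14/HajC: `Pr` as a mixture of uniform `N`-subsets

First, by `Finset.induction_on` (with `Pr_perm` and `Finset.toList_insert`), for all `t`
`Pr p (U.toList.map x) t = ∑_(S ⊆ U) p^|S| (1-p)^(|U| - |S|) 1(t ≤ sg x S - p sg x U)`; then group by `|S|`
(`Finset.sum_powerset`/`Finset.powerset_card_disjiUnion`, `pr_eq`).
-/

open Finset Pool.Agent.H36.MMS

set_option autoImplicit false

namespace Pool.Agent.MMS14

variable {α : Type*} [DecidableEq α]

theorem ss_toList (U : Finset α) (x : α → ℝ) : ss (U.toList.map x) = ps x 2 U := by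
  unfold ss ps
  rw [List.map_map]
  exact Finset.sum_map_toList U _

theorem Pr_powerset (p : ℝ) (U : Finset α) (x : α → ℝ) (t : ℝ) :
    Pr p (U.toList.map x) t =
      ∑ S ∈ U.powerset, p ^ S.card * (1 - p) ^ (U.card - S.card) * (if t ≤ sg x S - p * sg x U then 1 else 0) := by
  induction U using Finset.induction_on generalizing t with
  | empty =>
    simp [Pr, sg]
  | insert a U ha ih =>
    have hperm : ((insert a U).toList.map x).Perm (x a :: U.toList.map x) := by
      have := (Finset.toList_insert ha).map x
      simpa using this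
    rw [Pr_perm hperm, Pr, ih, ih, Finset.sum_powerset_insert ha, Finset.mul_sum, Finset.mul_sum, add_comm]
    have hsg : sg x (insert a U) = x a + sg x U := by
      unfold sg
      exact Finset.sum_insert ha
    congr 1
    · refine Finset.sum_congr rfl fun S hS => ?_
      have hSU := Finset.mem_powerset.mp hS
      have hc := Finset.card_le_card hSU
      rw [Finset.card_insert_of_notMem ha, show U.card + 1 - S.card = (U.card - S.card) + 1 by omega, hsg]
      have he : (t + p * x a ≤ sg x S - p * sg x U) ↔ (t ≤ sg x S - p * (x a + sg x U)) := by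
        constructor <;> intro h <;> linarith
      rw [if_congr he rfl rfl, pow_succ]
      ring
    · refine Finset.sum_congr rfl fun S hS => ?_
      have hSU := Finset.mem_powerset.mp hS
      have haS : a ∉ S := fun h => ha (hSU h)
      have hc := Finset.card_le_card hSU
      have hsgS : sg x (insert a S) = x a + sg x S := by
        unfold sg
        exact Finset.sum_insert haS
      rw [Finset.card_insert_of_notMem ha, Finset.card_insert_of_notMem haS,
        show U.card + 1 - (S.card + 1) = U.card - S.card by omega, hsg, hsgS]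
      have he : (t - (1 - p) * x a ≤ sg x S - p * sg x U) ↔ (t ≤ x a + sg x S - p * (x a + sg x U)) := by
        constructor <;> intro h <;> linarith
      rw [if_congr he rfl rfl, pow_succ]
      ring

theorem Pr_mix (p : ℝ) (U : Finset α) (x : α → ℝ) (t : ℝ) :
    Pr p (U.toList.map x) t = ∑ N ∈ Finset.range (U.card + 1), (U.card.choose N : ℝ) * p ^ N * (1 - p) ^ (U.card - N) *
      pr U N (fun S => t ≤ sg x S - p * sg x U) := by
  rw [Pr_powerset, Finset.sum_powerset]
  refine Finset.sum_congr rfl fun N hN => ?_
  have hNU : N ≤ U.card := by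
    have := Finset.mem_range.mp hN
    omega
  have h1 : ∑ S ∈ Finset.powersetCard N U, p ^ S.card * (1 - p) ^ (U.card - S.card) *
      (if t ≤ sg x S - p * sg x U then 1 else 0) =
      p ^ N * (1 - p) ^ (U.card - N) * ∑ S ∈ Finset.powersetCard N U, (if t ≤ sg x S - p * sg x U then (1 : ℝ) else 0) := by
    rw [Finset.mul_sum]
    refine Finset.sum_congr rfl fun S hS => ?_
    rw [(Finset.mem_powersetCard.mp hS).2]
  rw [h1, Finset.sum_boole, pr_eq]
  have hne : (U.card.choose N : ℝ) ≠ 0 := by
    exact_mod_cast (Nat.choose_pos hNU).ne'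
  field_simp

end Pool.Agent.MMS14
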