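import Pool.Agent.MMS14.HajA
import Pool.Agent.MMS14.HajB
import Pool.Agent.MMS14.HajC

/-!
# MMS14/HajD: comparison of sampling without replacement and Bernoulli sampling

`ps x 2 U > 0`: `Pr_mix` with `p = k / n`, `sg x U = 0`, `nest` with `η = ε √(ps x 2 U)` for every `N` (`ps x 2 U / η² = 1 / ε²`), sum the weights with
`binom_sum`, `binom_abs`: error `≤ (√n / 2) / ((n - 1) ε²)`.
`ps x 2 U = 0`: all `x i = 0` on `U`, both sides are `1(s ≤ 0)` (`Pr_zero`; the error term is `≥ 0`).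
-/

open Finset Pool.Agent.H36.MMS

set_option autoImplicit false

namespace Pool.Agent.MMS14

variable {α : Type*} [DecidableEq α]

theorem hajek {U : Finset α} {k : ℕ} (hk : k ≤ U.card) (hU : 2 ≤ U.card) (x : α → ℝ) (h0 : sg x U = 0) {s ε : ℝ}
    (hε : 0 < ε) :
    Pr ((k : ℝ) / U.card) (U.toList.map x) (s + ε * √(ps x 2 U)) - √(U.card : ℝ) / (2 * ((U.card : ℝ) - 1) * ε ^ 2) ≤
      pr U k (fun S => s ≤ sg x S) := by
  have hn2 : (2 : ℝ) ≤ U.card := by exact_mod_cast hU
  have hn1 : (0 : ℝ) < (U.card : ℝ) - 1 := by linarith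
  have herr : 0 ≤ √(U.card : ℝ) / (2 * ((U.card : ℝ) - 1) * ε ^ 2) := by positivity
  have hps : 0 ≤ ps x 2 U := Finset.sum_nonneg fun i _ => sq_nonneg _
  rcases hps.eq_or_lt with hV | hV
  · -- all values are zero
    have hx : ∀ i ∈ U, x i = 0 := by
      intro i hi
      have h1 := (Finset.sum_eq_zero_iff_of_nonneg fun i _ => sq_nonneg (x i)).1 hV.symm i hi
      exact pow_eq_zero_iff (two_ne_zero) |>.1 h1
    rw [Pr_zero (by
      intro a ha
      obtain ⟨i, hi, rfl⟩ := List.mem_map.1 ha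
      exact hx i (Finset.mem_toList.1 hi)), ← hV, Real.sqrt_zero, mul_zero, add_zero]
    have h2 : pr U k (fun S => s ≤ sg x S) = if s ≤ 0 then 1 else 0 := by
      unfold pr
      rw [avg_congr (g := fun _ => if s ≤ 0 then (1 : ℝ) else 0), avg_const hk]
      intro S hS _
      have h3 : sg x S = 0 := Finset.sum_eq_zero fun i hi => hx i (hS hi)
      show (if s ≤ sg x S then (1 : ℝ) else 0) = if s ≤ 0 then 1 else 0
      rw [h3]
    rw [h2]
    linarith
  · have hsq : 0 < √(ps x 2 U) := Real.sqrt_pos.2 hV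
    have hη : 0 < ε * √(ps x 2 U) := by positivity
    have hη2 : ps x 2 U / (ε * √(ps x 2 U)) ^ 2 = 1 / ε ^ 2 := by
      rw [mul_pow, Real.sq_sqrt hps]
      field_simp
    have hp0 : 0 ≤ (k : ℝ) / U.card := by positivity
    have hp1 : 0 ≤ 1 - (k : ℝ) / U.card := by
      have : (k : ℝ) / U.card ≤ 1 := by
        rw [div_le_one (by linarith)]
        exact_mod_cast hk
      linarith
    have hmix := Pr_mix ((k : ℝ) / U.card) U x (s + ε * √(ps x 2 U))
    simp only [h0, mul_zero, sub_zero] at hmix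
    rw [hmix]
    have hterm : ∀ N ∈ Finset.range (U.card + 1), (U.card.choose N : ℝ) * ((k : ℝ) / U.card) ^ N *
        (1 - (k : ℝ) / U.card) ^ (U.card - N) * pr U N (fun S => s + ε * √(ps x 2 U) ≤ sg x S) ≤
        (U.card.choose N : ℝ) * ((k : ℝ) / U.card) ^ N * (1 - (k : ℝ) / U.card) ^ (U.card - N) *
          pr U k (fun S => s ≤ sg x S) +
        (U.card.choose N : ℝ) * ((k : ℝ) / U.card) ^ N * (1 - (k : ℝ) / U.card) ^ (U.card - N) *
          |(N : ℝ) - k| * (1 / (((U.card : ℝ) - 1) * ε ^ 2)) := by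
      intro N hN
      have hN' : N ≤ U.card := Nat.lt_succ_iff.1 (Finset.mem_range.1 hN)
      have h3 := nest hk hN' hU x h0 (s := s) hη
      have h4 : |(N : ℝ) - k| / ((U.card : ℝ) - 1) * ps x 2 U / (ε * √(ps x 2 U)) ^ 2 =
          |(N : ℝ) - k| * (1 / (((U.card : ℝ) - 1) * ε ^ 2)) := by
        rw [mul_div_assoc, hη2]
        field_simp
      rw [h4] at h3
      have hw : 0 ≤ (U.card.choose N : ℝ) * ((k : ℝ) / U.card) ^ N *
        (1 - (k : ℝ) / U.card) ^ (U.card - N) := by positivity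
      calc _ ≤ (U.card.choose N : ℝ) * ((k : ℝ) / U.card) ^ N *
        (1 - (k : ℝ) / U.card) ^ (U.card - N) * (pr U k (fun S => s ≤ sg x S) +
          |(N : ℝ) - k| * (1 / (((U.card : ℝ) - 1) * ε ^ 2))) := mul_le_mul_of_nonneg_left h3 hw
        _ = _ := by ring
    have hsum := Finset.sum_le_sum hterm
    rw [Finset.sum_add_distrib, ← Finset.sum_mul, ← Finset.sum_mul, binom_sum, one_mul] at hsum
    have habs := binom_abs (n := U.card) (k := k) (by omega) hk
    have h5 : 0 ≤ 1 / (((U.card : ℝ) - 1) * ε ^ 2) := by positivity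
    have h6 := mul_le_mul_of_nonneg_right habs h5
    have h7 : √(U.card : ℝ) / 2 * (1 / (((U.card : ℝ) - 1) * ε ^ 2)) =
        √(U.card : ℝ) / (2 * ((U.card : ℝ) - 1) * ε ^ 2) := by
      field_simp
    rw [h7] at h6
    linarith

end Pool.Agent.MMS14
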