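import Pool.Agent.MMS14.TabN
import Pool.Agent.MMS14.HajD

/-!
# MMS14/NonS: vectors that are not star-like

`ps x 2 Ω = 0`: all `x i = 0`, every `k`-subset counts.  Otherwise `l = Ω.toList.map x`, `ss l = ps x 2 Ω` (`ss_toList`), for a positive entry
`b = x i`: `2.03 b² < ss l`.  `nonStar_all` with `p = k / n ∈ [1/5, 1/4]`, `hajek` with `s = 0`, `ε = 0.000019`; the loss
`√n / (2 (n - 1) ε²)` is at most `2^-13` for `n ≥ 4 * 10^26` (`√n ≥ 2 * 10^13`).  So `k / n ≤ pr Ω k (0 ≤ sg x S)`, and `from_pr` with `U = Ω`, `T = 0`.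
-/

open Finset Pool.Agent.H36.MMS

set_option autoImplicit false

namespace Pool.Agent.MMS14

variable {α : Type*} [DecidableEq α]

theorem nonstar_final {Ω : Finset α} {n k : ℕ} (x : α → ℝ) (hk : 10 ^ 26 ≤ k) (hkn : 4 * k ≤ n) (hkn5 : n ≤ 5 * k)
    (hΩ : Ω.card = n) (hsum : sg x Ω = 0) (hb : ∀ i ∈ Ω, 0 < x i → 1.03 * x i ^ 2 < ps x 2 (Ω.erase i)) :
    (n - 1).choose (k - 1) ≤ ((Ω.powersetCard k).filter (fun S => 0 ≤ sg x S)).card := by
  have hk1 : 1 ≤ k := le_trans (by norm_num) hk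
  have hn0 : 4 * 10 ^ 26 ≤ n := by omega
  have hps0 : 0 ≤ ps x 2 Ω := Finset.sum_nonneg (fun i _ => sq_nonneg _)
  rcases hps0.eq_or_lt with h0 | hpos
  · have hz : ∀ i ∈ Ω, x i = 0 := by
      intro i hi
      have h1 := (Finset.sum_eq_zero_iff_of_nonneg (fun i _ => sq_nonneg (x i))).1 h0.symm i hi
      exact pow_eq_zero_iff (two_ne_zero) |>.1 h1
    have h1 : (Ω.powersetCard k).filter (fun S => 0 ≤ sg x S) = Ω.powersetCard k := by
      rw [Finset.filter_eq_self]
      intro S hS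
      have h2 := (Finset.mem_powersetCard.1 hS).1
      have h3 : sg x S = 0 := Finset.sum_eq_zero (fun i hi => hz i (h2 hi))
      rw [h3]
    rw [h1, Finset.card_powersetCard, hΩ]
    obtain ⟨m, rfl⟩ : ∃ m, n = m + 1 := ⟨n - 1, by omega⟩
    obtain ⟨j, rfl⟩ : ∃ j, k = j + 1 := ⟨k - 1, by omega⟩
    rw [Nat.add_sub_cancel, Nat.add_sub_cancel, Nat.choose_succ_succ]
    exact Nat.le_add_right _ _
  · have hkr : (1 : ℝ) ≤ k := by exact_mod_cast hk1
    have hnr : (4 * 10 ^ 26 : ℝ) ≤ n := by exact_mod_cast hn0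
    have hn1 : (0 : ℝ) < n := lt_of_lt_of_le (by norm_num) hnr
    have h5 : (n : ℝ) ≤ 5 * k := by exact_mod_cast hkn5
    have h4 : 4 * (k : ℝ) ≤ n := by exact_mod_cast hkn
    have hp5 : (1 : ℝ) / 5 ≤ (k : ℝ) / n := by
      rw [div_le_div_iff₀ (by norm_num) hn1]
      linarith
    have hp4 : (k : ℝ) / n ≤ 1 / 4 := by
      rw [div_le_div_iff₀ hn1 (by norm_num)]
      linarith
    have hss : ss (Ω.toList.map x) = ps x 2 Ω := ss_toList Ω x
    have h1 := nonStar_all hp5 hp4 (l := Ω.toList.map x) (by rw [hss]; exact hpos) (by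
      intro b hb' hb0
      obtain ⟨i, hi, rfl⟩ := List.mem_map.1 hb'
      rw [Finset.mem_toList] at hi
      have h6 := hb i hi hb0
      rw [ps_erase x 2 hi] at h6
      rw [hss]
      linarith)
    have h2 := hajek (U := Ω) (k := k) (by omega) (by omega) x hsum (s := 0) (ε := 0.000019) (by norm_num)
    rw [zero_add, hΩ] at h2
    rw [hss] at h1
    have hr2 : √(n : ℝ) ^ 2 = n := Real.sq_sqrt hn1.le
    have hr : (2 * 10 ^ 13 : ℝ) ≤ √(n : ℝ) := by
      apply Real.le_sqrt_of_sq_le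
      refine le_trans (le_of_eq ?_) hnr
      norm_num
    have hloss : √(n : ℝ) / (2 * ((n : ℝ) - 1) * 0.000019 ^ 2) ≤ 1 / 2 ^ 13 := by
      set r := √(n : ℝ) with hrdef
      have h3 : (3 / 4 : ℝ) * r ^ 2 ≤ (n : ℝ) - 1 := by
        rw [hr2]
        norm_num at hnr ⊢
        linarith
      have h7 : 0 < (n : ℝ) - 1 := by
        norm_num at hnr ⊢
        linarith
      rw [div_le_div_iff₀ (by positivity) (by norm_num), one_mul]
      have h8 : r * (2 * 10 ^ 13) ≤ r ^ 2 := by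
        rw [sq]
        exact mul_le_mul_of_nonneg_left hr (Real.sqrt_nonneg _)
      norm_num at h8 ⊢
      nlinarith
    apply from_pr x (U := Ω) (T := 0) hk1 (by omega) (Finset.Subset.refl _) (by omega)
    rw [Nat.cast_zero, zero_mul, sub_zero, mul_one]
    linarith

end Pool.Agent.MMS14
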