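import Pool.Agent.MMS14.StarE
import Pool.Agent.MMS14.NonS
import Pool.Agent.MMS14.IndS

/-!
# MMS14/Fin4: the Manickam–Miklós–Singhi inequality for all `k ≥ 10 ^ 26`, `n ≥ 4 k`

`window`: `y i = x i - mean`, `sg y U = 0`, and sets with `0 ≤ sg y S` have `0 ≤ sg x S` (`k`-sets: `sg x S = sg y S + k mean`).  If there is `i ∈ U` with
`0 < y i` and `ps y 2 (U.erase i) ≤ 1.03 * y i ^ 2`, apply `star_final` to `y / y i`; otherwise `nonstar_final`.
`mms_large`: strong induction on `n`: `n < 5 k` is `window`, otherwise `n = (n - k) + k`, `n - k ≥ 4 k`, `ind_step`.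
`mms_four`: `U = range n`, `x` extended by `0`; the subsets of `range n` correspond to the subsets of `Fin n` (`Fin.valEmbedding`/`Finset.map`).
-/

open Finset Pool.Agent.H36.MMS

set_option autoImplicit false

namespace Pool.Agent.MMS14

theorem window {n k : ℕ} (hk : 10 ^ 26 ≤ k) (hkn : 4 * k ≤ n) (hkn5 : n < 5 * k) : MMSp n k := by
  classical
  intro U x hU hx
  have hk0 : 0 < k := lt_of_lt_of_le (by norm_num) hk
  have hn0 : 0 < U.card := by rw [hU]; omega
  have hm : 0 ≤ mean x U := div_nonneg hx (Nat.cast_nonneg _)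
  have hsum : sg (zc x U) U = 0 := by rw [← ps_one]; exact ps_zc_one x U hn0
  have hle : ((U.powersetCard k).filter (fun S => 0 ≤ sg (zc x U) S)).card ≤
      ((U.powersetCard k).filter (fun S => 0 ≤ sg x S)).card := by
    apply card_le_card
    intro S hS
    rw [mem_filter] at hS ⊢
    refine ⟨hS.1, ?_⟩
    have h1 := hS.2
    rw [sg_zc] at h1
    have h2 : 0 ≤ (S.card : ℝ) * mean x U := mul_nonneg (Nat.cast_nonneg _) hm
    linarith
  refine le_trans ?_ hle
  generalize zc x U = y at hsum hle ⊢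
  by_cases hst : ∃ i ∈ U, 0 < y i ∧ ps y 2 (U.erase i) ≤ 1.03 * y i ^ 2
  · obtain ⟨i, hi, hyi, hps⟩ := hst
    have hsg : ∀ S : Finset ℕ, sg (fun j => y j / y i) S = sg y S / y i := by
      intro S
      unfold sg
      rw [sum_div]
    have h1 := star_final (Ω := U) (a0 := i) (fun j => y j / y i) hk hkn hkn5 hU hi
      (div_self hyi.ne') (by rw [hsg, hsum, zero_div]) (by
        have h2 : ps (fun j => y j / y i) 2 (U.erase i) = ps y 2 (U.erase i) / y i ^ 2 := by
          unfold ps
          rw [sum_div]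
          exact sum_congr rfl fun j _ => div_pow _ _ _
        rw [h2, div_le_iff₀ (by positivity)]
        exact hps)
    refine h1.trans (card_le_card ?_)
    intro S hS
    rw [mem_filter] at hS ⊢
    refine ⟨hS.1, ?_⟩
    have h2 := hS.2
    rw [hsg] at h2
    have h3 := mul_nonneg h2 hyi.le
    rwa [div_mul_cancel₀ _ hyi.ne'] at h3
  · push Not at hst
    exact nonstar_final y hk hkn hkn5.le hU hsum hst

theorem mms_large {n k : ℕ} (hk : 10 ^ 26 ≤ k) (hkn : 4 * k ≤ n) : MMSp n k := by
  have hk0 : 0 < k := lt_of_lt_of_le (by norm_num) hk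
  induction n using Nat.strong_induction_on with
  | _ n ih =>
    rcases lt_or_ge n (5 * k) with h | h
    · exact window hk hkn h
    · obtain ⟨m, rfl⟩ : ∃ m, n = m + k := ⟨n - k, by omega⟩
      exact ind_step hk0 (by omega) (ih m (by omega) (by omega))

theorem mms_four (k n : ℕ) (hk : 10 ^ 26 ≤ k) (hn : 4 * k ≤ n) (x : Fin n → ℝ) (hx : 0 ≤ ∑ i, x i) :
    (n - 1).choose (k - 1) ≤
      (((Finset.univ : Finset (Fin n)).powersetCard k).filter (fun s => 0 ≤ ∑ i ∈ s, x i)).card := by
  classical
  obtain ⟨x', hx'⟩ : ∃ x' : ℕ → ℝ, ∀ i : Fin n, x' i = x i :=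
    ⟨fun i => if h : i < n then x ⟨i, h⟩ else 0, fun i => by simp⟩
  have hU : (Finset.univ : Finset (Fin n)).map Fin.valEmbedding = range n := by
    ext i
    simp only [mem_map, mem_univ, true_and, mem_range]
    constructor
    · rintro ⟨j, rfl⟩
      exact j.2
    · intro h
      exact ⟨⟨i, h⟩, rfl⟩
  have hsg : ∀ s : Finset (Fin n), sg x' (s.map Fin.valEmbedding) = ∑ i ∈ s, x i := by
    intro s
    unfold sg
    rw [sum_map]
    exact sum_congr rfl fun i _ => hx' i
  have h1 := mms_large hk hn (range n) x' (card_range n) (by rw [← hU, hsg]; exact hx)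
  rw [← hU, powersetCard_map, filter_map, card_map] at h1
  refine h1.trans (le_of_eq ?_)
  congr 1
  refine filter_congr fun s _ => ?_
  simp only [Function.comp]
  have h2 : (mapEmbedding (Fin.valEmbedding (n := n))).toEmbedding s = s.map Fin.valEmbedding := rfl
  rw [h2, hsg]

end Pool.Agent.MMS14
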