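import Pool.Agent.H36.MMSMain

/-!
# MMS14/HajA: uniform `N`-subsets against uniform `k`-subsets

`avg`, `sg`, `ps`, `pr`, `mom2`, .. are in `Pool/Agent/H36/MMS*.lean`.
`avg_avg`: both sides are the average over all pairs of disjoint sets `(S, D)` in `U` of sizes `k`, `N - k` (bijection
`(B, S) ↔ (S, B \ S)`, and `C(n, N) C(N, k) = C(n, k) C(n - k, N - k)`, `Nat.choose_mul`).
`nest`: for `k ≤ N`: `1(s + η ≤ sg x B) ≤ 1(s ≤ sg x S) + (sg x (B \ S))² / η²` for `S ⊆ B`; average over `B`, `S ⊆ B` (`avg_avg` with `F S D = f S`, and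
with `F S D = (sg x D)²`, where the order of the two averages may be exchanged: `avg_avg` for `k` and `N - k`, `B \ (B \ S) = S`);
`E (sg x D)² = d (n - d) / (n (n - 1)) ps x 2 U ≤ d / (n - 1) ps x 2 U` by `mom2` (`ps x 1 U = sg x U = 0`), `d = N - k`.
For `N < k`: average over `S` of size `k` and `B ⊆ S` of size `N`: `1(s + η ≤ sg x B) ≤ 1(s ≤ sg x S) + (sg x (S \ B))² / η²`.
-/

open Finset Pool.Agent.H36.MMS

set_option autoImplicit false

namespace Pool.Agent.MMS14

variable {α : Type*} [DecidableEq α]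

private theorem sum_pairs {U : Finset α} {N k : ℕ} (hk : k ≤ N) (F : Finset α → Finset α → ℝ) :
    ∑ B ∈ U.powersetCard N, ∑ S ∈ B.powersetCard k, F S (B \ S) =
      ∑ S ∈ U.powersetCard k, ∑ D ∈ (U \ S).powersetCard (N - k), F S D := by
  rw [Finset.sum_sigma', Finset.sum_sigma']
  refine Finset.sum_bij' (fun p _ => ⟨p.2, p.1 \ p.2⟩)
    (fun p _ => ⟨p.1 ∪ p.2, p.1⟩) ?_ ?_ ?_ ?_ ?_
  · rintro ⟨B, S⟩ h
    simp only [mem_sigma, mem_powersetCard] at h ⊢
    obtain ⟨⟨hBU, hB⟩, hS, hSc⟩ := h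
    refine ⟨⟨hS.trans hBU, hSc⟩, Finset.sdiff_subset_sdiff hBU (le_refl _), ?_⟩
    rw [Finset.card_sdiff_of_subset hS, hB, hSc]
  · rintro ⟨S, D⟩ h
    simp only [mem_sigma, mem_powersetCard] at h ⊢
    obtain ⟨⟨hSU, hSc⟩, hD, hDc⟩ := h
    have hdis : Disjoint S D := by
      rw [Finset.disjoint_left]
      intro a haS haD
      exact (Finset.mem_sdiff.1 (hD haD)).2 haS
    refine ⟨⟨Finset.union_subset hSU (hD.trans Finset.sdiff_subset), ?_⟩, Finset.subset_union_left, hSc⟩
    rw [Finset.card_union_of_disjoint hdis, hSc, hDc]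
    omega
  · rintro ⟨B, S⟩ h
    simp only [mem_sigma, mem_powersetCard] at h
    obtain ⟨⟨hBU, hB⟩, hS, hSc⟩ := h
    have e : S ∪ B \ S = B := Finset.union_sdiff_of_subset hS
    simp only [e]
  · rintro ⟨S, D⟩ h
    simp only [mem_sigma, mem_powersetCard] at h
    obtain ⟨⟨hSU, hSc⟩, hD, hDc⟩ := h
    have hdis : Disjoint S D := by
      rw [Finset.disjoint_left]
      intro a haS haD
      exact (Finset.mem_sdiff.1 (hD haD)).2 haS
    have e : (S ∪ D) \ S = D := Finset.union_sdiff_cancel_left hdis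
    simp only [e]
  · rintro ⟨B, S⟩ h
    rfl

theorem avg_avg {U : Finset α} {N k : ℕ} (hk : k ≤ N) (hN : N ≤ U.card) (F : Finset α → Finset α → ℝ) :
    avg U N (fun B => avg B k (fun S => F S (B \ S))) = avg U k (fun S => avg (U \ S) (N - k) (fun D => F S D)) := by
  unfold avg
  have h1 : ∑ B ∈ U.powersetCard N, (∑ S ∈ B.powersetCard k, F S (B \ S)) / (B.card.choose k : ℝ) =
      (∑ B ∈ U.powersetCard N, ∑ S ∈ B.powersetCard k, F S (B \ S)) / (N.choose k : ℝ) := by
    rw [Finset.sum_div]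
    refine Finset.sum_congr rfl fun B hB => ?_
    rw [(mem_powersetCard.1 hB).2]
  have h2 : ∑ S ∈ U.powersetCard k, (∑ D ∈ (U \ S).powersetCard (N - k), F S D) / ((U \ S).card.choose (N - k) : ℝ) =
      (∑ S ∈ U.powersetCard k, ∑ D ∈ (U \ S).powersetCard (N - k), F S D) / ((U.card - k).choose (N - k) : ℝ) := by
    rw [Finset.sum_div]
    refine Finset.sum_congr rfl fun S hS => ?_
    obtain ⟨hS, hSc⟩ := mem_powersetCard.1 hS
    rw [Finset.card_sdiff_of_subset hS, hSc]
  rw [h1, h2, sum_pairs hk F, div_div, div_div]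
  congr 1
  have h3 : U.card.choose N * N.choose k = U.card.choose k * (U.card - k).choose (N - k) :=
    Nat.choose_mul hk
  have h4 : (U.card.choose N : ℝ) * (N.choose k : ℝ) = (U.card.choose k : ℝ) * ((U.card - k).choose (N - k) : ℝ) := by
    exact_mod_cast h3
  rw [mul_comm, h4, mul_comm]

private theorem avg_sdiff {B : Finset α} {a : ℕ} (ha : a ≤ B.card) (G : Finset α → ℝ) :
    avg B a (fun S => G (B \ S)) = avg B (B.card - a) G := by
  unfold avg
  rw [Nat.choose_symm ha]
  congr 1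
  refine Finset.sum_bij' (fun S _ => B \ S) (fun S _ => B \ S) ?_ ?_ ?_ ?_ ?_
  · intro S hS
    obtain ⟨hS, hSc⟩ := mem_powersetCard.1 hS
    rw [mem_powersetCard]
    refine ⟨Finset.sdiff_subset, ?_⟩
    rw [Finset.card_sdiff_of_subset hS, hSc]
  · intro S hS
    obtain ⟨hS, hSc⟩ := mem_powersetCard.1 hS
    rw [mem_powersetCard]
    refine ⟨Finset.sdiff_subset, ?_⟩
    rw [Finset.card_sdiff_of_subset hS, hSc]
    omega
  · intro S hS
    obtain ⟨hS, hSc⟩ := mem_powersetCard.1 hS
    exact Finset.sdiff_sdiff_eq_self hS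
  · intro S hS
    obtain ⟨hS, hSc⟩ := mem_powersetCard.1 hS
    exact Finset.sdiff_sdiff_eq_self hS
  · intro S hS
    rfl

private theorem avg_compl {U : Finset α} {a b : ℕ} (hab : a ≤ b) (hb : b ≤ U.card) (G : Finset α → ℝ) :
    avg U b (fun B => avg B a (fun S => G (B \ S))) = avg U (b - a) G := by
  have h1 : avg U b (fun B => avg B a (fun S => G (B \ S))) = avg U b (fun B => avg B (b - a) G) := by
    refine avg_congr fun B hB hBc => ?_
    rw [avg_sdiff (by omega) G, hBc]
  rw [h1]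
  have h2 := avg_avg (U := U) (N := b) (k := b - a) (by omega) hb (fun S _ => G S)
  rw [h2]
  refine avg_congr fun S hS hSc => ?_
  refine avg_const ?_ _
  rw [Finset.card_sdiff_of_subset hS]
  omega

private theorem avg_first {U : Finset α} {a b : ℕ} (hab : a ≤ b) (hb : b ≤ U.card) (G : Finset α → ℝ) :
    avg U b (fun B => avg B a (fun S => G S)) = avg U a G := by
  have h2 := avg_avg (U := U) (N := b) (k := a) hab hb (fun S _ => G S)
  rw [h2]
  refine avg_congr fun S hS hSc => ?_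
  refine avg_const ?_ _
  rw [Finset.card_sdiff_of_subset hS]
  omega

private theorem mom2_le {U : Finset α} {d : ℕ} (hd : d ≤ U.card) (hU : 2 ≤ U.card) (x : α → ℝ) (h0 : sg x U = 0) :
    avg U d (fun S => sg x S ^ 2) ≤ (d : ℝ) / ((U.card : ℝ) - 1) * ps x 2 U := by
  rw [mom2 hd, ps_one, h0]
  have h1 : (2 : ℝ) ≤ U.card := by exact_mod_cast hU
  have h2 : (0 : ℝ) < U.card := by linarith
  have h3 : (0 : ℝ) < (U.card : ℝ) - 1 := by linarith
  have hp : 0 ≤ ps x 2 U := by
    unfold ps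
    exact Finset.sum_nonneg fun i _ => by positivity
  have hd' : (0 : ℝ) ≤ d := Nat.cast_nonneg d
  have e : (d : ℝ) / U.card * (ps x 2 U + ((d : ℝ) - 1) / ((U.card : ℝ) - 1) * (0 ^ 2 - ps x 2 U)) =
      (d : ℝ) / ((U.card : ℝ) - 1) * ps x 2 U - (d : ℝ) ^ 2 * ps x 2 U / (U.card * ((U.card : ℝ) - 1)) := by
    field_simp
    ring
  rw [e]
  have h4 : 0 ≤ (d : ℝ) ^ 2 * ps x 2 U / (U.card * ((U.card : ℝ) - 1)) := by positivity
  linarith

theorem nest {U : Finset α} {N k : ℕ} (hk : k ≤ U.card) (hN : N ≤ U.card) (hU : 2 ≤ U.card) (x : α → ℝ)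
    (h0 : sg x U = 0) {s η : ℝ} (hη : 0 < η) :
    pr U N (fun B => s + η ≤ sg x B) ≤
      pr U k (fun S => s ≤ sg x S) + |(N : ℝ) - k| / ((U.card : ℝ) - 1) * ps x 2 U / η ^ 2 := by
  have hη2 : 0 < η ^ 2 := by positivity
  rcases le_total k N with h | h
  · -- `k ≤ N`
    have e1 : pr U N (fun B => s + η ≤ sg x B) =
        avg U N (fun B => avg B k (fun _ => if s + η ≤ sg x B then (1 : ℝ) else 0)) := by
      unfold pr
      refine avg_congr fun B hB hBc => ?_
      rw [avg_const (by omega)]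
    have e2 : avg U N (fun B => avg B k (fun _ => if s + η ≤ sg x B then (1 : ℝ) else 0)) ≤
        avg U N (fun B => avg B k (fun S => (if s ≤ sg x S then (1 : ℝ) else 0)) +
          avg B k (fun S => (1 / η ^ 2) * sg x (B \ S) ^ 2)) := by
      refine avg_mono fun B hB hBc => ?_
      rw [← avg_add]
      refine avg_mono fun S hS hSc => ?_
      have hsum : sg x B = sg x S + sg x (B \ S) := by
        unfold sg
        rw [add_comm, Finset.sum_sdiff hS]
      by_cases h1 : s + η ≤ sg x B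
      · rw [if_pos h1]
        by_cases h2 : s ≤ sg x S
        · rw [if_pos h2]
          have : 0 ≤ (1 / η ^ 2) * sg x (B \ S) ^ 2 := by positivity
          linarith
        · rw [if_neg h2]
          push Not at h2
          have h3 : η ≤ sg x (B \ S) := by linarith
          have h4 : η ^ 2 ≤ sg x (B \ S) ^ 2 := pow_le_pow_left₀ hη.le h3 2
          have h5 : 1 ≤ (1 / η ^ 2) * sg x (B \ S) ^ 2 := by
            rw [one_div, inv_mul_eq_div, le_div_iff₀ hη2]
            linarith
          linarith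
      · rw [if_neg h1]
        have h5 : 0 ≤ (1 / η ^ 2) * sg x (B \ S) ^ 2 := by positivity
        have h6 : (0 : ℝ) ≤ (if s ≤ sg x S then (1 : ℝ) else 0) := by split_ifs <;> norm_num
        linarith
    rw [e1]
    refine e2.trans ?_
    rw [avg_add, avg_first h hN]
    have e3 : avg U N (fun B => avg B k (fun S => (1 / η ^ 2) * sg x (B \ S) ^ 2)) =
        (1 / η ^ 2) * avg U (N - k) (fun S => sg x S ^ 2) := by
      rw [avg_compl h hN (fun D => (1 / η ^ 2) * sg x D ^ 2), avg_mul]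
    rw [e3]
    have e4 := mom2_le (U := U) (d := N - k) (by omega) hU x h0
    have e5 : |(N : ℝ) - k| = ((N - k : ℕ) : ℝ) := by
      rw [Nat.cast_sub h, abs_of_nonneg]
      have : (k : ℝ) ≤ N := by exact_mod_cast h
      linarith
    rw [e5]
    unfold pr
    have e6 : (1 / η ^ 2) * avg U (N - k) (fun S => sg x S ^ 2) ≤
        (1 / η ^ 2) * (((N - k : ℕ) : ℝ) / ((U.card : ℝ) - 1) * ps x 2 U) :=
      mul_le_mul_of_nonneg_left e4 (by positivity)
    have e7 : (1 / η ^ 2) * (((N - k : ℕ) : ℝ) / ((U.card : ℝ) - 1) * ps x 2 U) =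
        ((N - k : ℕ) : ℝ) / ((U.card : ℝ) - 1) * ps x 2 U / η ^ 2 := by ring
    rw [e7] at e6
    linarith
  · -- `N ≤ k`
    have e1 : pr U N (fun B => s + η ≤ sg x B) =
        avg U k (fun S => avg S N (fun B => if s + η ≤ sg x B then (1 : ℝ) else 0)) := by
      unfold pr
      rw [avg_first h hk]
    have e2 : avg U k (fun S => avg S N (fun B => if s + η ≤ sg x B then (1 : ℝ) else 0)) ≤
        avg U k (fun S => (if s ≤ sg x S then (1 : ℝ) else 0) +
          avg S N (fun B => (1 / η ^ 2) * sg x (S \ B) ^ 2)) := by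
      refine avg_mono fun S hS hSc => ?_
      have e0 : (if s ≤ sg x S then (1 : ℝ) else 0) =
          avg S N (fun _ => if s ≤ sg x S then (1 : ℝ) else 0) := by
        rw [avg_const (by omega)]
      rw [e0, ← avg_add]
      refine avg_mono fun B hB hBc => ?_
      have hsum : sg x S = sg x B + sg x (S \ B) := by
        unfold sg
        rw [add_comm, Finset.sum_sdiff hB]
      by_cases h1 : s + η ≤ sg x B
      · rw [if_pos h1]
        by_cases h2 : s ≤ sg x S
        · rw [if_pos h2]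
          have : 0 ≤ (1 / η ^ 2) * sg x (S \ B) ^ 2 := by positivity
          linarith
        · rw [if_neg h2]
          push Not at h2
          have h3 : η ≤ -sg x (S \ B) := by linarith
          have h4 : η ^ 2 ≤ (-sg x (S \ B)) ^ 2 := pow_le_pow_left₀ hη.le h3 2
          have h5 : 1 ≤ (1 / η ^ 2) * sg x (S \ B) ^ 2 := by
            rw [one_div, inv_mul_eq_div, le_div_iff₀ hη2]
            rw [neg_sq] at h4
            linarith
          linarith
      · rw [if_neg h1]
        have h5 : 0 ≤ (1 / η ^ 2) * sg x (S \ B) ^ 2 := by positivity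
        have h6 : (0 : ℝ) ≤ (if s ≤ sg x S then (1 : ℝ) else 0) := by split_ifs <;> norm_num
        linarith
    rw [e1]
    refine e2.trans ?_
    rw [avg_add]
    have e3 : avg U k (fun S => avg S N (fun B => (1 / η ^ 2) * sg x (S \ B) ^ 2)) =
        (1 / η ^ 2) * avg U (k - N) (fun S => sg x S ^ 2) := by
      rw [avg_compl h hk (fun D => (1 / η ^ 2) * sg x D ^ 2), avg_mul]
    rw [e3]
    have e4 := mom2_le (U := U) (d := k - N) (by omega) hU x h0
    have e5 : |(N : ℝ) - k| = ((k - N : ℕ) : ℝ) := by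
      rw [Nat.cast_sub h, abs_sub_comm, abs_of_nonneg]
      have : (N : ℝ) ≤ k := by exact_mod_cast h
      linarith
    rw [e5]
    unfold pr
    have e6 : (1 / η ^ 2) * avg U (k - N) (fun S => sg x S ^ 2) ≤
        (1 / η ^ 2) * (((k - N : ℕ) : ℝ) / ((U.card : ℝ) - 1) * ps x 2 U) :=
      mul_le_mul_of_nonneg_left e4 (by positivity)
    have e7 : (1 / η ^ 2) * (((k - N : ℕ) : ℝ) / ((U.card : ℝ) - 1) * ps x 2 U) =
        ((k - N : ℕ) : ℝ) / ((U.card : ℝ) - 1) * ps x 2 U / η ^ 2 := by ring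
    rw [e7] at e6
    linarith

end Pool.Agent.MMS14
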