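import Pool.Agent.MMS14.Base

/-!
# MMS14/LoopS: soundness of the loops over rows and cells

`hd0`, `tl`, `dr`, `mx`, `et`, `ou` are `headD 0`, `tail`, `drop`, `max`, `&&`, `||`; the recursors unfold by `rfl`.
`loop_sound`: prove by induction on the list `lm` of the remaining rows a statement with general `la = dr ia rows`,
`lb = dr ib rows`, `ia ≤ idx (mx xa xb)`, `ib ≤ idx (mx ya yb)`; `idx` is monotone, `dr a (dr b l) = dr (a + b) l`, and the start
values increase by `ra`, `rb` from row to row.  (`(n : ℕ)` counts the rows already done.)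
`cells_sound`: induction on `js`.
-/

set_option autoImplicit false

namespace Pool.Agent.MMS14

private theorem tl_eq {α : Type} (l : List α) : tl l = l.tail := by
  cases l <;> rfl

private theorem hd0_eq (l : List ℕ) : hd0 l = l.getD 0 0 := by
  cases l <;> rfl

private theorem dr_succ {α : Type} (n : ℕ) (l : List α) : dr (n + 1) l = tl (dr n l) := rfl

private theorem tl_getD (l : List ℕ) (n : ℕ) : (tl l).getD n 0 = l.getD (n + 1) 0 := by
  cases l <;> rfl

private theorem getD_zero_cons (a : ℕ) (l : List ℕ) : (a :: l).getD 0 0 = a := rfl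

private theorem getD_succ_cons (a : ℕ) (l : List ℕ) (n : ℕ) :
    (a :: l).getD (n + 1) 0 = l.getD n 0 := rfl

theorem dr_eq {α : Type} (n : ℕ) (l : List α) : dr n l = l.drop n := by
  induction n with
  | zero => rfl
  | succ n ih => rw [dr_succ, ih, tl_eq, List.tail_drop]

theorem hd0_dr (n : ℕ) (l : List ℕ) : hd0 (dr n l) = l.getD n 0 := by
  rw [hd0_eq, dr_eq]
  simp [List.getD_eq_getElem?_getD]

theorem mx_eq (a b : ℕ) : mx a b = max a b := by
  unfold mx
  rcases h : Nat.ble a b with _ | _
  · have h1 : ¬ a ≤ b := by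
      intro hc
      rw [Nat.ble_eq_true_of_le hc] at h
      exact absurd h (by decide)
    rw [cond_false]
    omega
  · have h1 : a ≤ b := Nat.le_of_ble_eq_true h
    rw [cond_true]
    omega

theorem mn_eq (a b : ℕ) : mn a b = min a b := by
  unfold mn
  rcases h : Nat.ble a b with _ | _
  · have h1 : ¬ a ≤ b := by
      intro hc
      rw [Nat.ble_eq_true_of_le hc] at h
      exact absurd h (by decide)
    rw [cond_false]
    omega
  · have h1 : a ≤ b := Nat.le_of_ble_eq_true h
    rw [cond_true]
    omega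

theorem et_true {a b : Bool} : et a b = true ↔ a = true ∧ b = true := by
  cases a <;> cases b <;> decide

theorem ou_true {a b : Bool} : ou a b = true ↔ a = true ∨ b = true := by
  cases a <;> cases b <;> decide

theorem idx_mono {m m' : ℕ} (h : m ≤ m') : idx m ≤ idx m' := by
  show (m + 1048575) >>> 20 - 4096 ≤ (m' + 1048575) >>> 20 - 4096
  rw [Nat.shiftRight_eq_div_pow, Nat.shiftRight_eq_div_pow]
  have : (m + 1048575) / 2 ^ 20 ≤ (m' + 1048575) / 2 ^ 20 := Nat.div_le_div_right (by omega)
  omega

private theorem dr_dr {α : Type} (a b : ℕ) (l : List α) : dr a (dr b l) = dr (b + a) l := by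
  rw [dr_eq, dr_eq, dr_eq, List.drop_drop]

private theorem loop_cons (P Q O OH sh ra rb : ℕ) (r : ℕ) (lm lp la lb : List ℕ)
    (ia ib xa xb ya yb : ℕ) :
    loop P Q O OH sh ra rb (r :: lm) lp la lb ia ib xa xb ya yb =
      et (ou (Nat.ble (Nat.land (Nat.shiftRight r sh) 4294967295) (hd0 lp))
        (entOk P Q (hd0 (dr (idx (mx xa xb) - ia) la)) (hd0 (dr (idx (mx ya yb) - ib) lb))
          (Nat.land (Nat.shiftRight r sh) 4294967295) O OH))
        (loop P Q O OH sh ra rb lm (tl lp) (dr (idx (mx xa xb) - ia) la)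
          (dr (idx (mx ya yb) - ib) lb) (idx (mx xa xb)) (idx (mx ya yb)) (xa + ra) (xb + rb)
          (ya + ra) (yb + rb)) := rfl

private theorem loop_gen {P Q O OH sh ra rb : ℕ} {rows : List ℕ} (lm : List ℕ) :
    ∀ (lp : List ℕ) (ia ib xa xb ya yb : ℕ), ia ≤ idx (mx xa xb) → ib ≤ idx (mx ya yb) →
      loop P Q O OH sh ra rb lm lp (dr ia rows) (dr ib rows) ia ib xa xb ya yb = true →
      ∀ r, r < lm.length →
      (Nat.land (Nat.shiftRight (lm.getD r 0) sh) 4294967295 ≤ lp.getD r 0 ∨
      entOk P Q (rowv rows (idx (max (xa + r * ra) (xb + r * rb))))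
        (rowv rows (idx (max (ya + r * ra) (yb + r * rb))))
        (Nat.land (Nat.shiftRight (lm.getD r 0) sh) 4294967295) O OH = true) := by
  induction lm with
  | nil =>
    intro lp ia ib xa xb ya yb _ _ _ r hr
    exact absurd hr (Nat.not_lt_zero r)
  | cons r0 lm ih =>
    intro lp ia ib xa xb ya yb ha hb h r hr
    rw [loop_cons, et_true, dr_dr, dr_dr, Nat.add_sub_cancel' ha, Nat.add_sub_cancel' hb] at h
    obtain ⟨h1, h2⟩ := h
    cases r with
    | zero =>
      rw [getD_zero_cons, Nat.zero_mul, Nat.zero_mul, Nat.add_zero, Nat.add_zero, Nat.add_zero,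
        Nat.add_zero, ← mx_eq, ← mx_eq]
      rw [ou_true, hd0_eq, hd0_dr, hd0_dr] at h1
      rcases h1 with h1 | h1
      · exact Or.inl (Nat.le_of_ble_eq_true h1)
      · exact Or.inr h1
    | succ r =>
      rw [getD_succ_cons]
      have h3 := ih (tl lp) _ _ (xa + ra) (xb + rb) (ya + ra) (yb + rb)
        (idx_mono (by rw [mx_eq, mx_eq]; omega)) (idx_mono (by rw [mx_eq, mx_eq]; omega)) h2 r
        (by simpa using hr)
      rw [tl_getD] at h3
      have e1 : xa + (r + 1) * ra = xa + ra + r * ra := by ring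
      have e2 : xb + (r + 1) * rb = xb + rb + r * rb := by ring
      have e3 : ya + (r + 1) * ra = ya + ra + r * ra := by ring
      have e4 : yb + (r + 1) * rb = yb + rb + r * rb := by ring
      rw [e1, e2, e3, e4]
      exact h3

theorem loop_sound {P Q O OH sh ra rb : ℕ} {rows apr : List ℕ} {xa xb ya yb : ℕ}
    (h : loop P Q O OH sh ra rb rows apr rows rows 0 0 xa xb ya yb = true) (r : ℕ) (hr : r < rows.length) :
    Nat.land (Nat.shiftRight (rowv rows r) sh) 4294967295 ≤ apr.getD r 0 ∨
      entOk P Q (rowv rows (idx (max (xa + r * ra) (xb + r * rb)))) (rowv rows (idx (max (ya + r * ra) (yb + r * rb))))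
        (Nat.land (Nat.shiftRight (rowv rows r) sh) 4294967295) O OH = true :=
  loop_gen rows apr 0 0 xa xb ya yb (Nat.zero_le _) (Nat.zero_le _) h r hr

private theorem cells_cons (q : Par) (rows apr : List ℕ) (j : ℕ) (js ly : List ℕ) (i : ℕ) :
    cells q rows apr (j :: js) ly i = et (jOk j (hd0 ly) (hd0 (dr j Ys)))
      (et (cellP q rows apr i j (hd0 ly) (hd0 (tl ly)))
      (et (cellM q rows apr i j (hd0 ly) (hd0 (tl ly))) (cells q rows apr js (tl ly) (i + 1)))) := rfl

theorem cells_sound {q : Par} {rows apr js : List ℕ} {i0 : ℕ} (h : cells q rows apr js (dr i0 Ys) i0 = true)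
    (a : ℕ) (ha : a < js.length) :
    jOk (js.getD a 0) (Yk (i0 + a)) (Yk (js.getD a 0)) = true ∧
      cellP q rows apr (i0 + a) (js.getD a 0) (Yk (i0 + a)) (Yk (i0 + a + 1)) = true ∧
      cellM q rows apr (i0 + a) (js.getD a 0) (Yk (i0 + a)) (Yk (i0 + a + 1)) = true := by
  induction js generalizing i0 a with
  | nil => exact absurd ha (Nat.not_lt_zero a)
  | cons j js ih =>
    rw [cells_cons, et_true, et_true, et_true, ← dr_succ, hd0_dr, hd0_dr, hd0_dr] at h
    obtain ⟨h1, h2, h3, h4⟩ := h
    cases a with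
    | zero => exact ⟨h1, h2, h3⟩
    | succ a =>
      have h5 := ih h4 a (by simpa using ha)
      rw [getD_succ_cons]
      have e1 : i0 + (a + 1) = i0 + 1 + a := by omega
      rw [e1]
      exact h5

private theorem ends_cons (q : Par) (ρ d E : ℕ) (r : ℕ) (lm lp lg : List ℕ) (i : ℕ) :
    ends q ρ d E (r :: lm) lp lg i = et (endOk q ρ d E r (hd0 lp) (hd0 lg) i)
      (ends q ρ d E lm (tl lp) (tl lg) (i + 1)) := rfl

private theorem ends_gen {q : Par} {ρ d E : ℕ} (lm : List ℕ) :
    ∀ (lp lg : List ℕ) (k : ℕ), ends q ρ d E lm lp lg k = true → ∀ i, i < lm.length →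
      endOk q ρ d E (lm.getD i 0) (lp.getD i 0) (lg.getD i 0) (k + i) = true := by
  induction lm with
  | nil =>
    intro lp lg k _ i hi
    exact absurd hi (Nat.not_lt_zero i)
  | cons r0 lm ih =>
    intro lp lg k h i hi
    rw [ends_cons, et_true, hd0_eq, hd0_eq] at h
    obtain ⟨h1, h2⟩ := h
    cases i with
    | zero => exact h1
    | succ i =>
      have h3 := ih _ _ _ h2 i (by simpa using hi)
      rw [tl_getD, tl_getD] at h3
      rw [getD_succ_cons]
      have e1 : k + (i + 1) = k + 1 + i := by omega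
      rw [e1]
      exact h3

theorem ends_sound {q : Par} {ρ d E : ℕ} {rows apr g : List ℕ} (h : ends q ρ d E rows apr g 0 = true) (i : ℕ)
    (hi : i < rows.length) : endOk q ρ d E (rowv rows i) (apr.getD i 0) (g.getD i 0) i = true := by
  have h1 := ends_gen rows apr g 0 h i hi
  rw [Nat.zero_add] at h1
  exact h1

private theorem lookOk_cons (tab : List (List ℕ)) (r : ℕ) (lm : List ℕ) (i : ℕ) :
    lookOk tab (r :: lm) i = et (Nat.beq (look tab i) r) (lookOk tab lm (i + 1)) := rfl

private theorem lookOk_gen {tab : List (List ℕ)} (lm : List ℕ) :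
    ∀ k : ℕ, lookOk tab lm k = true → ∀ i, i < lm.length → look tab (k + i) = lm.getD i 0 := by
  induction lm with
  | nil =>
    intro k _ i hi
    exact absurd hi (Nat.not_lt_zero i)
  | cons r0 lm ih =>
    intro k h i hi
    rw [lookOk_cons, et_true] at h
    obtain ⟨h1, h2⟩ := h
    cases i with
    | zero => exact Nat.eq_of_beq_eq_true h1
    | succ i =>
      have h3 := ih _ h2 i (by simpa using hi)
      rw [getD_succ_cons]
      have e1 : k + (i + 1) = k + 1 + i := by omega
      rw [e1]
      exact h3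

theorem lookOk_sound {tab : List (List ℕ)} {rows : List ℕ} (h : lookOk tab rows 0 = true) (i : ℕ) (hi : i < rows.length) :
    look tab i = rowv rows i := by
  have h1 := lookOk_gen rows 0 h i hi
  rw [Nat.zero_add] at h1
  exact h1

private theorem minOk_cons (tab : List (List ℕ)) (v : ℕ) (lv : List ℕ) (i : ℕ) :
    minOk tab (v :: lv) i = et (geOk (look tab i) v (msk 0) (Nat.mul (msk 0) 2147483648))
      (minOk tab lv (Nat.pred i)) := rfl

theorem minOk_sound {tab : List (List ℕ)} {lv : List ℕ} {i0 : ℕ} (h : minOk tab lv i0 = true) (m : ℕ) (hm : m < lv.length)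
    (hi : m ≤ i0) : geOk (look tab (i0 - m)) (lv.getD m 0) (msk 0) (Nat.mul (msk 0) 2147483648) = true := by
  induction lv generalizing i0 m with
  | nil => exact absurd hm (Nat.not_lt_zero m)
  | cons v lv ih =>
    rw [minOk_cons, et_true] at h
    obtain ⟨h1, h2⟩ := h
    cases m with
    | zero => exact h1
    | succ m =>
      have h3 := ih h2 m (by simpa using hm) (by rw [Nat.pred_eq_sub_one]; omega)
      rw [getD_succ_cons]
      have e1 : i0 - (m + 1) = Nat.pred i0 - m := by rw [Nat.pred_eq_sub_one]; omega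
      rw [e1]
      exact h3

end Pool.Agent.MMS14
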