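import Pool.Agent.MMS14.RootD
import Pool.Agent.MMS14.Dp

/-!
# MMS14/NonStar: lists that are not star-like

`NonStarOk P0 P1`: for `p ∈ [P0, P1] / 2^14`, `p ≥ 1/5`, and every list with `ss l > 0` and `2.03 b² < ss l` for all positive entries `b`,
`Pr p l (1.9e-5 √ss) ≥ p + 2^-13`.
Proof: sort (`exists_srt`, `Pr_perm`), the head `h` is `≠ 0`; scale by `1 / |h|` (`Pr_scale`, `Srt_map`, `ss_map`), so the list is `±1 :: l`, `S = 1 + ss l`.
`S ≤ 10.02`: `1.9e-5 √S ≤ 1024 / 16384000 = 6.25e-5` (`√10.02 < 3.17`), `Pr_anti`, and `rangeP_sound` for `sa = 2030 + 2000 j`, `j < 4`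
(`S > 2.03` from the hypothesis for `b = 1`) or `rangeM_sound` for `sa = 1000 + 2000 j` (the last block reaches `10020`).
`S > 10.02 ≥ Sc 126`: `Good` in the cell `126`, row `201`: `1.9e-5 √S ≤ (1/50) √(p (1-p) S)`, `htop` (with `n = l.length`).
`tgt / 2^16 = (4 P1 + 8) / 2^16 ≥ p + 2^-13`.
-/

set_option autoImplicit false

namespace Pool.Agent.MMS14

def NonStarOk (P0 P1 : ℕ) : Prop :=
  ∀ p : ℝ, (P0 : ℝ) / 16384 ≤ p → p ≤ (P1 : ℝ) / 16384 → 1 / 5 ≤ p → ∀ l : List ℝ, 0 < ss l →
    (∀ b ∈ l, 0 < b → 2.03 * b ^ 2 < ss l) → p + 1 / 2 ^ 13 ≤ Pr p l (0.000019 * √(ss l))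

private theorem et_iffN {a b : Bool} : et a b = true ↔ a = true ∧ b = true := by
  cases a <;> cases b <;> simp [et]

private theorem nonStar_core {q : Par} {rows : List ℕ} {tab : List (List ℕ)} (hpar : parOk q = true) (hlen : rows.length = 351)
    (hrow : ∀ r, RowP (rowv rows r)) (hG : Good q.P0 q.P1 rows) (hlook : lookOk tab rows 0 = true) {tgt : ℕ}
    (htgt : tgt ≤ 65536) (hq2 : q.P1 ≤ 8192)
    (hP : ∀ j, j < 4 → rangeP q tab Su tgt 1024 2 20 100 (2030 + 2000 * j) = true)
    (hM : ∀ j, j < 4 → rangeM q tab Su tgt 1024 2 20 100 (1000 + 2000 * j) = true)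
    (hM' : rangeM q tab Su tgt 1024 2 20 51 9000 = true)
    (htop : tgt ≤ lane (rowv rows 201) 126 ∧ tgt ≤ lane (rowv rows 201) 253)
    {p : ℝ} (hp0 : (q.P0 : ℝ) / 16384 ≤ p) (hp1 : p ≤ (q.P1 : ℝ) / 16384) (hp5 : 1 / 5 ≤ p)
    {h : ℝ} {l : List ℝ} (hh : h = 1 ∨ h = -1) (hs : Srt (h :: l))
    (hb : ∀ b ∈ h :: l, 0 < b → 2.03 * b ^ 2 < ss (h :: l)) :
    (tgt : ℝ) / 65536 ≤ Pr p (h :: l) (0.000019 * √(ss (h :: l))) := by
  have hh2 : h ^ 2 = 1 := by rcases hh with rfl | rfl <;> norm_num
  have hss : ss (h :: l) = 1 + ss l := by rw [ss_cons, hh2]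
  have hsl := ss_nonneg l
  have hp2 : p ≤ 1 / 2 := by
    have h1 : (q.P1 : ℝ) ≤ 8192 := by exact_mod_cast hq2
    have h2 : (q.P1 : ℝ) / 16384 ≤ 1 / 2 := by
      rw [div_le_iff₀ (by norm_num)]
      linarith
    linarith
  by_cases hS : 1 + ss l ≤ 10.02
  · -- small S
    have hsq : 0.000019 * √(ss (h :: l)) ≤ ((1024 : ℕ) : ℝ) / 16384000 := by
      have h1 : √(ss (h :: l)) ≤ 3.17 := by
        rw [hss]
        apply Real.sqrt_le_iff.2
        constructor
        · norm_num
        · norm_num at hS ⊢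
          linarith
      push_cast
      norm_num at h1 ⊢
      linarith
    refine le_trans ?_ (Pr_anti (by linarith) (by linarith) (h :: l) hsq)
    rcases hh with rfl | rfl
    · -- positive head
      have h1 := hb 1 List.mem_cons_self one_pos
      rw [hss] at h1
      have h2030 : (2030 : ℝ) ≤ 1000 * (1 + ss l) := by
        norm_num at h1
        linarith
      have hup : 1000 * (1 + ss l) ≤ 10020 := by
        norm_num at hS
        linarith
      have key : ∃ j : ℕ, j < 4 ∧ ((2030 + 2000 * j : ℕ) : ℝ) ≤ 1000 * (1 + ss l) ∧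
          1000 * (1 + ss l) ≤ ((2030 + 2000 * j : ℕ) : ℝ) + ((20 : ℕ) : ℝ) * ((100 : ℕ) : ℝ) := by
        by_cases c1 : 1000 * (1 + ss l) ≤ 4030
        · exact ⟨0, by norm_num, by push_cast; linarith, by push_cast; linarith⟩
        by_cases c2 : 1000 * (1 + ss l) ≤ 6030
        · exact ⟨1, by norm_num, by push_cast; linarith, by push_cast; linarith⟩
        by_cases c3 : 1000 * (1 + ss l) ≤ 8030
        · exact ⟨2, by norm_num, by push_cast; linarith, by push_cast; linarith⟩
        · exact ⟨3, by norm_num, by push_cast; linarith, by push_cast; linarith⟩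
      obtain ⟨j, hj, k1, k2⟩ := key
      exact rangeP_sound hpar hlen hrow hG hlook htgt (by norm_num) (by norm_num) (by omega)
        (hP j hj) hp0 hp1 hp5 hs k1 k2
    · have hb' : ∀ b ∈ l, 0 < b → 2.03 * b ^ 2 < 1 + ss l := by
        intro b hbl hb0
        have := hb b (List.mem_cons_of_mem _ hbl) hb0
        rwa [hss] at this
      have hup : 1000 * (1 + ss l) ≤ 10020 := by
        norm_num at hS
        linarith
      by_cases c9 : 1000 * (1 + ss l) ≤ 9000
      · have key : ∃ j : ℕ, j < 4 ∧ ((1000 + 2000 * j : ℕ) : ℝ) ≤ 1000 * (1 + ss l) ∧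
            1000 * (1 + ss l) ≤ ((1000 + 2000 * j : ℕ) : ℝ) + ((20 : ℕ) : ℝ) * ((100 : ℕ) : ℝ) := by
          by_cases c1 : 1000 * (1 + ss l) ≤ 3000
          · exact ⟨0, by norm_num, by push_cast; linarith, by push_cast; linarith⟩
          by_cases c2 : 1000 * (1 + ss l) ≤ 5000
          · exact ⟨1, by norm_num, by push_cast; linarith, by push_cast; linarith⟩
          by_cases c3 : 1000 * (1 + ss l) ≤ 7000
          · exact ⟨2, by norm_num, by push_cast; linarith, by push_cast; linarith⟩
          · exact ⟨3, by norm_num, by push_cast; linarith, by push_cast; linarith⟩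
        obtain ⟨j, hj, k1, k2⟩ := key
        exact rangeM_sound hpar hlen hrow hG hlook htgt (by norm_num) (by norm_num) (by omega)
          (hM j hj) hp0 hp1 hp5 hs k1 k2 hb'
      · exact rangeM_sound hpar hlen hrow hG hlook htgt (by norm_num) (by norm_num) (by norm_num)
          hM' hp0 hp1 hp5 hs (by push_cast; linarith) (by push_cast; linarith) hb'
  · -- large S
    have hS' : (10.02 : ℝ) < 1 + ss l := not_le.1 hS
    have hC : InC 126 (ss (h :: l) / h ^ 2) := by
      rw [hh2, div_one, hss]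
      refine ⟨le_rfl, ?_, fun hf => absurd hf (lt_irrefl _)⟩
      have := Sc_126.2
      norm_num at this hS' ⊢
      linarith
    have ht : 0.000019 * √(ss (h :: l)) ≤ (((201 : ℕ) : ℝ) - 200) / 50 * sd p (h :: l) := by
      unfold sd
      have h1 : √(0.16 * ss (h :: l)) ≤ √(p * (1 - p) * ss (h :: l)) := by
        apply Real.sqrt_le_sqrt
        apply mul_le_mul_of_nonneg_right _ (ss_nonneg _)
        norm_num
        nlinarith
      have h2 : √(0.16 * ss (h :: l)) = 0.4 * √(ss (h :: l)) := by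
        rw [Real.sqrt_mul (by norm_num)]
        congr 1
        rw [show (0.16 : ℝ) = 0.4 ^ 2 by norm_num]
        exact Real.sqrt_sq (by norm_num)
      have h3 := Real.sqrt_nonneg (ss (h :: l))
      push_cast
      norm_num at h1 h2 ⊢
      linarith
    rcases hh with rfl | rfl
    · have h1 := (hG l.length 126 le_rfl 201).1 p hp0 hp1 hp5 hp2 1 l hs le_rfl (by simp) hC _ ht
      refine le_trans ?_ h1
      have h2 : (tgt : ℝ) ≤ (lane (rowv rows 201) 126 : ℝ) := by exact_mod_cast htop.1
      linarith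
    · have h1 := (hG l.length 126 le_rfl 201).2 p hp0 hp1 hp5 hp2 (-1) l hs le_rfl (by simp) hC _ ht
      refine le_trans ?_ h1
      have h2 : (tgt : ℝ) ≤ (lane (rowv rows 201) (127 + 126) : ℝ) := by exact_mod_cast htop.2
      linarith

theorem nonStar_of {q : Par} {rows : List ℕ} {tab : List (List ℕ)} (hpar : parOk q = true) (hlen : rows.length = 351)
    (hrow : ∀ r, RowP (rowv rows r)) (hG : Good q.P0 q.P1 rows) (hlook : lookOk tab rows 0 = true) {tgt : ℕ}
    (htgt : tgt = 4 * q.P1 + 8)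
    (hP : ∀ j, j < 4 → rangeP q tab Su tgt 1024 2 20 100 (2030 + 2000 * j) = true)
    (hM : ∀ j, j < 4 → rangeM q tab Su tgt 1024 2 20 100 (1000 + 2000 * j) = true)
    (hM' : rangeM q tab Su tgt 1024 2 20 51 9000 = true)
    (htop : tgt ≤ lane (rowv rows 201) 126 ∧ tgt ≤ lane (rowv rows 201) 253) : NonStarOk q.P0 q.P1 := by
  have hq2 : q.P1 ≤ 8192 := by
    have h := hpar
    unfold parOk at h
    simp only [et_iffN, Nat.ble_eq] at h
    exact h.2.2.1
  intro p hp0 hp1 hp5 l hl hb
  obtain ⟨l', hperm, hs⟩ := exists_srt l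
  rw [Pr_perm hperm, ss_perm hperm]
  rw [ss_perm hperm] at hl hb
  have hb2 : ∀ b ∈ l', 0 < b → 2.03 * b ^ 2 < ss l' := fun b hb' => hb b (hperm.mem_iff.2 hb')
  clear hb hperm
  match l', hs, hl, hb2 with
  | [], _, hl, _ =>
    rw [ss_nil] at hl
    exact absurd hl (lt_irrefl _)
  | h :: l1, hs, hl, hb2 =>
    have hh : h ≠ 0 := by
      rintro rfl
      have h0 : ∀ b ∈ l1, b = 0 := fun b hb' => by
        have := Srt_head hs b hb'
        rw [abs_zero] at this
        exact abs_nonpos_iff.1 this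
      have h1 : ss ((0 : ℝ) :: l1) = 0 := by
        rw [ss_cons]
        have : ss l1 = 0 := by
          unfold ss
          apply List.sum_eq_zero
          intro x hx
          obtain ⟨b, hb', rfl⟩ := List.mem_map.1 hx
          rw [h0 b hb']
          norm_num
        rw [this]
        norm_num
      rw [h1] at hl
      exact absurd hl (lt_irrefl _)
    have habs : 0 < |h| := abs_pos.2 hh
    obtain ⟨c, hc0, hc⟩ : ∃ c : ℝ, 0 < c ∧ c * |h| = 1 := ⟨|h|⁻¹, inv_pos.2 habs, inv_mul_cancel₀ habs.ne'⟩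
    have hch : c * h = 1 ∨ c * h = -1 := by
      rcases abs_choice h with h1 | h1
      · left; rw [← h1]; exact hc
      · right
        have : c * |h| = 1 := hc
        rw [h1] at this
        linarith
    have hs' := Srt_map hs c
    have hss' := ss_map c (h :: l1)
    rw [List.map_cons] at hs' hss'
    have key := nonStar_core hpar hlen hrow hG hlook (tgt := tgt) (by omega) hq2 hP hM hM' htop hp0 hp1 hp5
      hch hs' (by
        intro b hbm hb0
        rw [← List.map_cons (f := fun a => c * a)] at hbm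
        obtain ⟨a, ha, rfl⟩ := List.mem_map.1 hbm
        have ha0 : 0 < a := by
          by_contra hna
          have : c * a ≤ 0 := mul_nonpos_of_nonneg_of_nonpos hc0.le (not_lt.1 hna)
          linarith
        have h1 := hb2 a ha ha0
        rw [hss']
        have hc2 : 0 < c ^ 2 := by positivity
        have h2 := mul_lt_mul_of_pos_left h1 hc2
        calc 2.03 * (c * a) ^ 2 = c ^ 2 * (2.03 * a ^ 2) := by ring
          _ < c ^ 2 * ss (h :: l1) := h2)
    have hscale := Pr_scale p hc0 (h :: l1) (0.000019 * √(ss (h :: l1)))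
    rw [List.map_cons] at hscale
    have hsq : √(ss (c * h :: l1.map (fun a => c * a))) = c * √(ss (h :: l1)) := by
      rw [hss', Real.sqrt_mul (by positivity), Real.sqrt_sq hc0.le]
    rw [hsq] at key
    rw [show 0.000019 * (c * √(ss (h :: l1))) = c * (0.000019 * √(ss (h :: l1))) by ring, hscale] at key
    refine le_trans ?_ key
    rw [htgt]
    push_cast
    rw [le_div_iff₀ (by norm_num)]
    rw [le_div_iff₀ (by norm_num)] at hp1
    norm_num
    linarith

end Pool.Agent.MMS14
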