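import Pool.Agent.MMS14.Base

/-!
# MMS14/PrB: basic properties of `Pr`

Everything by induction on the list (generalizing the threshold).  `Pr_perm`: use `List.Perm.rec` (swap: both sides expand to
the same four terms, `ring_nf`).  `Pr_scale`: thresholds `c * t`, in the empty case `c * t ≤ 0 ↔ t ≤ 0`.
`Pr_low`: `p A + (1 - p) B` with `A ≥ B` is at least `P A + (1 - P) B` for `P ≤ p` (positive head), and for a negative head
`A ≤ B`, so it is at least `P A + (1 - P) B` for `P ≥ p` (use `Pr_anti`).  `exists_srt`: insertion sort / `List.mergeSort` for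
the total preorder `|b| ≤ |a|`, or induction on the length by taking out an element of maximal absolute value.
-/

set_option autoImplicit false

namespace Pool.Agent.MMS14

theorem Pr_nonneg {p : ℝ} (h0 : 0 ≤ p) (h1 : p ≤ 1) (l : List ℝ) (t : ℝ) : 0 ≤ Pr p l t := by
  induction l generalizing t with
  | nil =>
    unfold Pr
    split_ifs <;> norm_num
  | cons a l ih =>
    unfold Pr
    have h2 := ih (t - (1 - p) * a)
    have h3 := ih (t + p * a)
    have h4 : 0 ≤ 1 - p := by linarith
    positivity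

theorem Pr_le_one {p : ℝ} (h0 : 0 ≤ p) (h1 : p ≤ 1) (l : List ℝ) (t : ℝ) : Pr p l t ≤ 1 := by
  induction l generalizing t with
  | nil =>
    unfold Pr
    split_ifs <;> norm_num
  | cons a l ih =>
    unfold Pr
    have h2 := ih (t - (1 - p) * a)
    have h3 := ih (t + p * a)
    have h4 : 0 ≤ 1 - p := by linarith
    nlinarith [mul_le_mul_of_nonneg_left h2 h0, mul_le_mul_of_nonneg_left h3 h4]

theorem Pr_anti {p : ℝ} (h0 : 0 ≤ p) (h1 : p ≤ 1) (l : List ℝ) {t t' : ℝ} (h : t ≤ t') : Pr p l t' ≤ Pr p l t := by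
  induction l generalizing t t' with
  | nil =>
    unfold Pr
    by_cases ht : t' ≤ 0
    · rw [if_pos ht, if_pos (h.trans ht)]
    · rw [if_neg ht]
      split_ifs <;> norm_num
  | cons a l ih =>
    unfold Pr
    have h2 := ih (t := t - (1 - p) * a) (t' := t' - (1 - p) * a) (by linarith)
    have h3 := ih (t := t + p * a) (t' := t' + p * a) (by linarith)
    have h4 : 0 ≤ 1 - p := by linarith
    exact add_le_add (mul_le_mul_of_nonneg_left h2 h0) (mul_le_mul_of_nonneg_left h3 h4)

theorem Pr_perm {l l' : List ℝ} (h : l.Perm l') (p t : ℝ) : Pr p l t = Pr p l' t := by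
  induction h generalizing t with
  | nil => rfl
  | cons a _ ih =>
    unfold Pr
    rw [ih, ih]
  | swap a b l =>
    simp only [Pr]
    have e1 : t - (1 - p) * b - (1 - p) * a = t - (1 - p) * a - (1 - p) * b := by ring
    have e2 : t - (1 - p) * b + p * a = t + p * a - (1 - p) * b := by ring
    have e3 : t + p * b - (1 - p) * a = t - (1 - p) * a + p * b := by ring
    have e4 : t + p * b + p * a = t + p * a + p * b := by ring
    rw [e1, e2, e3, e4]
    ring
  | trans _ _ ih1 ih2 => rw [ih1, ih2]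

theorem Pr_scale (p : ℝ) {c : ℝ} (hc : 0 < c) (l : List ℝ) (t : ℝ) :
    Pr p (l.map (fun a => c * a)) (c * t) = Pr p l t := by
  induction l generalizing t with
  | nil =>
    simp only [List.map_nil, Pr]
    have h : c * t ≤ 0 ↔ t ≤ 0 := by
      constructor
      · intro h
        by_contra ht
        have := mul_pos hc (not_le.1 ht)
        linarith
      · intro h
        exact mul_nonpos_of_nonneg_of_nonpos hc.le h
    simp only [h]
  | cons a l ih =>
    simp only [List.map_cons, Pr]
    have e1 : c * t - (1 - p) * (c * a) = c * (t - (1 - p) * a) := by ring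
    have e2 : c * t + p * (c * a) = c * (t + p * a) := by ring
    rw [e1, e2, ih, ih]

theorem Pr_zero {l : List ℝ} (h : ∀ a ∈ l, a = 0) (p t : ℝ) : Pr p l t = if t ≤ 0 then 1 else 0 := by
  induction l generalizing t with
  | nil => rfl
  | cons a l ih =>
    have ha : a = 0 := h a List.mem_cons_self
    have hl : ∀ b ∈ l, b = 0 := fun b hb => h b (List.mem_cons_of_mem _ hb)
    simp only [Pr]
    rw [ih hl, ih hl, ha]
    have e1 : t - (1 - p) * 0 = t := by ring
    have e2 : t + p * 0 = t := by ring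
    rw [e1, e2]
    split_ifs <;> ring

/-- positive head: the weight may be lowered -/
theorem Pr_low_pos {p P : ℝ} (h0 : 0 ≤ P) (hP : P ≤ p) (h1 : p ≤ 1) {a : ℝ} (ha : 0 ≤ a) (l : List ℝ) (t : ℝ) :
    P * Pr p l (t - (1 - p) * a) + (1 - P) * Pr p l (t + p * a) ≤ Pr p (a :: l) t := by
  have h2 : Pr p l (t + p * a) ≤ Pr p l (t - (1 - p) * a) :=
    Pr_anti (h0.trans hP) h1 l (by nlinarith)
  simp only [Pr]
  nlinarith [mul_nonneg (sub_nonneg.2 hP) (sub_nonneg.2 h2)]

/-- negative head: the weight may be raised -/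
theorem Pr_low_neg {p P : ℝ} (h0 : 0 ≤ p) (hP : p ≤ P) (h1 : P ≤ 1) {a : ℝ} (ha : a ≤ 0) (l : List ℝ) (t : ℝ) :
    P * Pr p l (t - (1 - p) * a) + (1 - P) * Pr p l (t + p * a) ≤ Pr p (a :: l) t := by
  have h2 : Pr p l (t - (1 - p) * a) ≤ Pr p l (t + p * a) :=
    Pr_anti h0 (hP.trans h1) l (by nlinarith)
  simp only [Pr]
  nlinarith [mul_nonneg (sub_nonneg.2 hP) (sub_nonneg.2 h2)]

theorem ss_nil : ss [] = 0 := by
  simp [ss]

theorem ss_cons (a : ℝ) (l : List ℝ) : ss (a :: l) = a ^ 2 + ss l := by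
  simp [ss]

theorem ss_nonneg (l : List ℝ) : 0 ≤ ss l := by
  induction l with
  | nil => rw [ss_nil]
  | cons a l ih =>
    rw [ss_cons]
    positivity

theorem ss_perm {l l' : List ℝ} (h : l.Perm l') : ss l = ss l' := by
  exact (h.map _).sum_eq

theorem ss_map (c : ℝ) (l : List ℝ) : ss (l.map (fun a => c * a)) = c ^ 2 * ss l := by
  induction l with
  | nil => simp [ss]
  | cons a l ih =>
    rw [List.map_cons, ss_cons, ss_cons, ih]
    ring

theorem ss_zero {l : List ℝ} (h : ss l = 0) : ∀ a ∈ l, a = 0 := by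
  induction l with
  | nil => simp
  | cons b l ih =>
    rw [ss_cons] at h
    have h1 := ss_nonneg l
    have h2 : b ^ 2 = 0 := by nlinarith [sq_nonneg b]
    have h3 : ss l = 0 := by nlinarith [sq_nonneg b]
    intro a ha
    rcases List.mem_cons.1 ha with rfl | ha
    · exact pow_eq_zero_iff (two_ne_zero) |>.1 h2
    · exact ih h3 a ha

theorem Srt_map {l : List ℝ} (h : Srt l) (c : ℝ) : Srt (l.map (fun a => c * a)) := by
  unfold Srt at h ⊢
  rw [List.pairwise_map]
  refine h.imp ?_
  intro a b hab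
  rw [abs_mul, abs_mul]
  exact mul_le_mul_of_nonneg_left hab (abs_nonneg c)

theorem Srt_tail {a : ℝ} {l : List ℝ} (h : Srt (a :: l)) : Srt l := by
  exact (List.pairwise_cons.1 h).2

theorem Srt_head {a : ℝ} {l : List ℝ} (h : Srt (a :: l)) : ∀ b ∈ l, |b| ≤ |a| := by
  exact (List.pairwise_cons.1 h).1

private theorem srt_insert (a : ℝ) (l : List ℝ) (h : Srt l) :
    ∃ l' : List ℝ, (a :: l).Perm l' ∧ Srt l' := by
  induction l with
  | nil => exact ⟨[a], List.Perm.refl _, List.pairwise_singleton _ _⟩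
  | cons b l ih =>
    by_cases hab : |b| ≤ |a|
    · refine ⟨a :: b :: l, List.Perm.refl _, ?_⟩
      refine List.pairwise_cons.2 ⟨?_, h⟩
      intro c hc
      rcases List.mem_cons.1 hc with rfl | hc
      · exact hab
      · exact (Srt_head h c hc).trans hab
    · obtain ⟨l', h1, h2⟩ := ih (Srt_tail h)
      refine ⟨b :: l', (List.Perm.swap b a l).trans (h1.cons b), ?_⟩
      refine List.pairwise_cons.2 ⟨?_, h2⟩
      intro c hc
      have hc' : c ∈ a :: l := h1.mem_iff.2 hc
      rcases List.mem_cons.1 hc' with rfl | hc'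
      · exact (not_le.1 hab).le
      · exact Srt_head h c hc'

theorem exists_srt (l : List ℝ) : ∃ l' : List ℝ, l.Perm l' ∧ Srt l' := by
  induction l with
  | nil => exact ⟨[], List.Perm.refl _, List.Pairwise.nil⟩
  | cons a l ih =>
    obtain ⟨l', h1, h2⟩ := ih
    obtain ⟨l'', h3, h4⟩ := srt_insert a l' h2
    exact ⟨l'', (h1.cons a).trans h3, h4⟩

end Pool.Agent.MMS14
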