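import Pool.Agent.MMS14.PrB
import Pool.Agent.MMS14.LoopS

/-!
# MMS14/RootA: trees of prefix patterns, one more atom

Let `16384 p = (1 - u) P0 + u P1`, `0 ≤ u ≤ 1`.  A leaf `(a, b)` stands for the threshold `((1 - u) a + u b - 2^40) / (1000 * 2^14)`.
`extP_val` (`c ∈ [lo, hi] / 1000`, `c ≥ 0`): induction on the tree; at a leaf with threshold `T`:
`Pr p (c :: l) T ≥ (P0/2^14) Pr p l (T - (1 - p) c) + (1 - P0/2^14) Pr p l (T + p c)` (`Pr_low_pos`), and
`T - (1 - p) c ≤ T - (1 - p) lo / 1000 ≤ (value of the leaf (a - (2^14 - P0) lo, b - (2^14 - P1) lo))` (truncated subtraction makes the leaf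
larger), `T + p c ≤ T + p hi / 1000`; `Pr_anti`.  `extM_val` (`c ∈ -[lo, hi] / 1000`) with `Pr_low_neg` and weight `P1`.
-/

set_option autoImplicit false

namespace Pool.Agent.MMS14

private theorem cast_sub_le (a b : ℕ) : (a : ℝ) - (b : ℝ) ≤ ((Nat.sub a b : ℕ) : ℝ) := by
  change (a : ℝ) - (b : ℝ) ≤ ((a - b : ℕ) : ℝ)
  rcases le_total b a with h | h
  · rw [Nat.cast_sub h]
  · rw [Nat.sub_eq_zero_of_le h]
    have : (a : ℝ) ≤ b := by exact_mod_cast h
    push_cast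
    linarith

private theorem p_bounds {q : Par} {p u : ℝ} (hq : q.P0 ≤ q.P1) (hq' : q.P1 ≤ 8192)
    (hp : 16384 * p = (1 - u) * q.P0 + u * q.P1) (h0 : 0 ≤ u) (h1 : u ≤ 1) :
    0 ≤ (q.P0 : ℝ) / 16384 ∧ (q.P0 : ℝ) / 16384 ≤ p ∧ p ≤ (q.P1 : ℝ) / 16384 ∧
      (q.P1 : ℝ) / 16384 ≤ 1 ∧ 0 ≤ p ∧ p ≤ 1 := by
  have e1 : (q.P0 : ℝ) ≤ q.P1 := by exact_mod_cast hq
  have e2 : (q.P1 : ℝ) ≤ 8192 := by exact_mod_cast hq'
  have e3 : (0 : ℝ) ≤ q.P0 := Nat.cast_nonneg _
  have e4 : (q.P0 : ℝ) ≤ 16384 * p := by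
    rw [hp]
    nlinarith [mul_nonneg h0 (sub_nonneg.2 e1)]
  have e5 : 16384 * p ≤ q.P1 := by
    rw [hp]
    nlinarith [mul_nonneg (sub_nonneg.2 h1) (sub_nonneg.2 e1)]
  refine ⟨by positivity, ?_, ?_, ?_, ?_, ?_⟩
  · rw [div_le_iff₀ (by norm_num)]
    linarith
  · rw [le_div_iff₀ (by norm_num)]
    linarith
  · rw [div_le_iff₀ (by norm_num)]
    linarith
  · linarith
  · linarith

theorem extP_val {q : Par} {p u : ℝ} (hq : q.P0 ≤ q.P1) (hq' : q.P1 ≤ 8192) (hp : 16384 * p = (1 - u) * q.P0 + u * q.P1)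
    (h0 : 0 ≤ u) (h1 : u ≤ 1) {lo hi : ℕ} {c : ℝ} (hc : (lo : ℝ) / 1000 ≤ c) (hc' : c ≤ (hi : ℝ) / 1000) (t : Tr)
    (ht : Tr.Wt t) (l : List ℝ) : Tr.val p u l (Tr.extP q lo hi t) ≤ Tr.val p u (c :: l) t := by
  obtain ⟨b1, b2, b3, b4, b5, b6⟩ := p_bounds hq hq' hp h0 h1
  induction t with
  | lf a b =>
    obtain ⟨T, hT⟩ : ∃ T, T = ((1 - u) * (a : ℝ) + u * (b : ℝ) - 1099511627776) / 16384000 :=
      ⟨_, rfl⟩
    have hc0 : 0 ≤ c := le_trans (by positivity) hc
    have k1 := Pr_low_pos b1 b2 b6 hc0 l T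
    have hr : Tr.val p u (c :: l) (Tr.lf a b) = Pr p (c :: l) T := by
      rw [hT]
      rfl
    have hl : Tr.val p u l (Tr.extP q lo hi (Tr.lf a b)) =
        (q.P0 : ℝ) / 16384 * Pr p l (((1 - u) *
          ((Nat.sub a (Nat.mul (Nat.sub 16384 q.P0) lo) : ℕ) : ℝ) + u *
          ((Nat.sub b (Nat.mul (Nat.sub 16384 q.P1) lo) : ℕ) : ℝ) - 1099511627776) / 16384000) +
        (1 - (q.P0 : ℝ) / 16384) * Pr p l (((1 - u) *
          ((Nat.add a (Nat.mul q.P0 hi) : ℕ) : ℝ) + u *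
          ((Nat.add b (Nat.mul q.P1 hi) : ℕ) : ℝ) - 1099511627776) / 16384000) := rfl
    rw [hr, hl]
    refine le_trans (add_le_add (mul_le_mul_of_nonneg_left ?_ b1)
      (mul_le_mul_of_nonneg_left ?_ (by linarith))) k1
    · refine Pr_anti b5 b6 l ?_
      have s1 := cast_sub_le a (Nat.mul (Nat.sub 16384 q.P0) lo)
      have s2 := cast_sub_le b (Nat.mul (Nat.sub 16384 q.P1) lo)
      have s3 : ((Nat.mul (Nat.sub 16384 q.P0) lo : ℕ) : ℝ) = (16384 - q.P0) * lo := by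
        change (((16384 - q.P0) * lo : ℕ) : ℝ) = _
        rw [Nat.cast_mul, Nat.cast_sub (by omega)]
        norm_num
      have s4 : ((Nat.mul (Nat.sub 16384 q.P1) lo : ℕ) : ℝ) = (16384 - q.P1) * lo := by
        change (((16384 - q.P1) * lo : ℕ) : ℝ) = _
        rw [Nat.cast_mul, Nat.cast_sub (by omega)]
        norm_num
      rw [s3] at s1
      rw [s4] at s2
      rw [hT]
      have s5 := mul_le_mul_of_nonneg_left s1 (sub_nonneg.2 h1)
      have s6 := mul_le_mul_of_nonneg_left s2 h0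
      have s7 : (1 - u) * ((a : ℝ) - (16384 - q.P0) * lo) + u * ((b : ℝ) - (16384 - q.P1) * lo) =
          (1 - u) * a + u * b - 16384 * (1 - p) * lo := by
        linear_combination (-(lo : ℝ)) * hp
      have s8 : (1 - p) * ((lo : ℝ) / 1000) ≤ (1 - p) * c :=
        mul_le_mul_of_nonneg_left hc (by linarith)
      have s9 : ((1 - u) * (a : ℝ) + u * b - 1099511627776) / 16384000 -
          (1 - p) * ((lo : ℝ) / 1000) =
          ((1 - u) * a + u * b - 16384 * (1 - p) * lo - 1099511627776) / 16384000 := by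
        ring
      have s10 : ((1 - u) * (a : ℝ) + u * b - 16384 * (1 - p) * lo - 1099511627776) / 16384000 ≤
          ((1 - u) * ((Nat.sub a (Nat.mul (Nat.sub 16384 q.P0) lo) : ℕ) : ℝ) + u *
          ((Nat.sub b (Nat.mul (Nat.sub 16384 q.P1) lo) : ℕ) : ℝ) - 1099511627776) / 16384000 := by
        refine div_le_div_of_nonneg_right ?_ (by norm_num)
        linarith
      linarith
    · refine Pr_anti b5 b6 l ?_
      have s3 : ((Nat.add a (Nat.mul q.P0 hi) : ℕ) : ℝ) = a + q.P0 * hi := by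
        change ((a + q.P0 * hi : ℕ) : ℝ) = _
        push_cast
        ring
      have s4 : ((Nat.add b (Nat.mul q.P1 hi) : ℕ) : ℝ) = b + q.P1 * hi := by
        change ((b + q.P1 * hi : ℕ) : ℝ) = _
        push_cast
        ring
      rw [s3, s4, hT]
      have s7 : (1 - u) * ((a : ℝ) + q.P0 * hi) + u * ((b : ℝ) + q.P1 * hi) =
          (1 - u) * a + u * b + 16384 * p * hi := by
        linear_combination (-(hi : ℝ)) * hp
      rw [s7]
      have s8 : p * c ≤ p * ((hi : ℝ) / 1000) := mul_le_mul_of_nonneg_left hc' b5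
      have s9 : ((1 - u) * (a : ℝ) + u * b + 16384 * p * hi - 1099511627776) / 16384000 =
          ((1 - u) * (a : ℝ) + u * b - 1099511627776) / 16384000 + p * ((hi : ℝ) / 1000) := by
        ring
      linarith
  | nd P x y ihx ihy =>
    obtain ⟨w1, w2, w3⟩ := ht
    have e1 : (P : ℝ) ≤ 16384 := by exact_mod_cast w1
    have e2 : (P : ℝ) / 16384 ≤ 1 := by
      rw [div_le_iff₀ (by norm_num)]
      linarith
    change (P : ℝ) / 16384 * Tr.val p u l (Tr.extP q lo hi x) +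
      (1 - (P : ℝ) / 16384) * Tr.val p u l (Tr.extP q lo hi y) ≤
      (P : ℝ) / 16384 * Tr.val p u (c :: l) x + (1 - (P : ℝ) / 16384) * Tr.val p u (c :: l) y
    exact add_le_add (mul_le_mul_of_nonneg_left (ihx w2) (by positivity))
      (mul_le_mul_of_nonneg_left (ihy w3) (by linarith))

theorem extM_val {q : Par} {p u : ℝ} (hq : q.P0 ≤ q.P1) (hq' : q.P1 ≤ 8192) (hp : 16384 * p = (1 - u) * q.P0 + u * q.P1)
    (h0 : 0 ≤ u) (h1 : u ≤ 1) {lo hi : ℕ} {c : ℝ} (hc : (lo : ℝ) / 1000 ≤ -c) (hc' : -c ≤ (hi : ℝ) / 1000) (t : Tr)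
    (ht : Tr.Wt t) (l : List ℝ) : Tr.val p u l (Tr.extM q lo hi t) ≤ Tr.val p u (c :: l) t := by
  obtain ⟨b1, b2, b3, b4, b5, b6⟩ := p_bounds hq hq' hp h0 h1
  induction t with
  | lf a b =>
    obtain ⟨T, hT⟩ : ∃ T, T = ((1 - u) * (a : ℝ) + u * (b : ℝ) - 1099511627776) / 16384000 :=
      ⟨_, rfl⟩
    have hc0 : c ≤ 0 := by
      have : (0 : ℝ) ≤ (lo : ℝ) / 1000 := by positivity
      linarith
    have k1 := Pr_low_neg b5 b3 b4 hc0 l T
    have hr : Tr.val p u (c :: l) (Tr.lf a b) = Pr p (c :: l) T := by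
      rw [hT]
      rfl
    have hl : Tr.val p u l (Tr.extM q lo hi (Tr.lf a b)) =
        (q.P1 : ℝ) / 16384 * Pr p l (((1 - u) *
          ((Nat.add a (Nat.mul (Nat.sub 16384 q.P0) hi) : ℕ) : ℝ) + u *
          ((Nat.add b (Nat.mul (Nat.sub 16384 q.P1) hi) : ℕ) : ℝ) - 1099511627776) / 16384000) +
        (1 - (q.P1 : ℝ) / 16384) * Pr p l (((1 - u) *
          ((Nat.sub a (Nat.mul q.P0 lo) : ℕ) : ℝ) + u *
          ((Nat.sub b (Nat.mul q.P1 lo) : ℕ) : ℝ) - 1099511627776) / 16384000) := rfl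
    rw [hr, hl]
    refine le_trans (add_le_add (mul_le_mul_of_nonneg_left ?_ (by positivity))
      (mul_le_mul_of_nonneg_left ?_ (by linarith))) k1
    · refine Pr_anti b5 b6 l ?_
      have s3 : ((Nat.add a (Nat.mul (Nat.sub 16384 q.P0) hi) : ℕ) : ℝ) =
          a + (16384 - q.P0) * hi := by
        change ((a + (16384 - q.P0) * hi : ℕ) : ℝ) = _
        rw [Nat.cast_add, Nat.cast_mul, Nat.cast_sub (by omega)]
        norm_num
      have s4 : ((Nat.add b (Nat.mul (Nat.sub 16384 q.P1) hi) : ℕ) : ℝ) =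
          b + (16384 - q.P1) * hi := by
        change ((b + (16384 - q.P1) * hi : ℕ) : ℝ) = _
        rw [Nat.cast_add, Nat.cast_mul, Nat.cast_sub (by omega)]
        norm_num
      rw [s3, s4, hT]
      have s7 : (1 - u) * ((a : ℝ) + (16384 - q.P0) * hi) + u * ((b : ℝ) + (16384 - q.P1) * hi) =
          (1 - u) * a + u * b + 16384 * (1 - p) * hi := by
        linear_combination ((hi : ℝ)) * hp
      rw [s7]
      have s8 : (1 - p) * (-c) ≤ (1 - p) * ((hi : ℝ) / 1000) :=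
        mul_le_mul_of_nonneg_left hc' (by linarith)
      have s9 : ((1 - u) * (a : ℝ) + u * b + 16384 * (1 - p) * hi - 1099511627776) / 16384000 =
          ((1 - u) * (a : ℝ) + u * b - 1099511627776) / 16384000 +
            (1 - p) * ((hi : ℝ) / 1000) := by
        ring
      linarith
    · refine Pr_anti b5 b6 l ?_
      have s1 := cast_sub_le a (Nat.mul q.P0 lo)
      have s2 := cast_sub_le b (Nat.mul q.P1 lo)
      have s3 : ((Nat.mul q.P0 lo : ℕ) : ℝ) = q.P0 * lo := by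
        change ((q.P0 * lo : ℕ) : ℝ) = _
        push_cast
        ring
      have s4 : ((Nat.mul q.P1 lo : ℕ) : ℝ) = q.P1 * lo := by
        change ((q.P1 * lo : ℕ) : ℝ) = _
        push_cast
        ring
      rw [s3] at s1
      rw [s4] at s2
      rw [hT]
      have s5 := mul_le_mul_of_nonneg_left s1 (sub_nonneg.2 h1)
      have s6 := mul_le_mul_of_nonneg_left s2 h0
      have s7 : (1 - u) * ((a : ℝ) - q.P0 * lo) + u * ((b : ℝ) - q.P1 * lo) =
          (1 - u) * a + u * b - 16384 * p * lo := by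
        linear_combination ((lo : ℝ)) * hp
      have s8 : p * ((lo : ℝ) / 1000) ≤ p * (-c) :=
        mul_le_mul_of_nonneg_left hc b5
      have s9 : ((1 - u) * (a : ℝ) + u * b - 1099511627776) / 16384000 -
          p * ((lo : ℝ) / 1000) =
          ((1 - u) * a + u * b - 16384 * p * lo - 1099511627776) / 16384000 := by
        ring
      have s10 : ((1 - u) * (a : ℝ) + u * b - 16384 * p * lo - 1099511627776) / 16384000 ≤
          ((1 - u) * ((Nat.sub a (Nat.mul q.P0 lo) : ℕ) : ℝ) + u *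
          ((Nat.sub b (Nat.mul q.P1 lo) : ℕ) : ℝ) - 1099511627776) / 16384000 := by
        refine div_le_div_of_nonneg_right ?_ (by norm_num)
        linarith
      linarith
  | nd P x y ihx ihy =>
    obtain ⟨w1, w2, w3⟩ := ht
    have e1 : (P : ℝ) ≤ 16384 := by exact_mod_cast w1
    have e2 : (P : ℝ) / 16384 ≤ 1 := by
      rw [div_le_iff₀ (by norm_num)]
      linarith
    change (P : ℝ) / 16384 * Tr.val p u l (Tr.extM q lo hi x) +
      (1 - (P : ℝ) / 16384) * Tr.val p u l (Tr.extM q lo hi y) ≤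
      (P : ℝ) / 16384 * Tr.val p u (c :: l) x + (1 - (P : ℝ) / 16384) * Tr.val p u (c :: l) y
    exact add_le_add (mul_le_mul_of_nonneg_left (ihx w2) (by positivity))
      (mul_le_mul_of_nonneg_left (ihy w3) (by linarith))

theorem extP_wt {q : Par} (hq : q.P0 ≤ 16384) (lo hi : ℕ) (t : Tr) (ht : Tr.Wt t) : Tr.Wt (Tr.extP q lo hi t) := by
  induction t with
  | lf a b => exact ⟨hq, trivial, trivial⟩
  | nd P x y ihx ihy =>
    obtain ⟨w1, w2, w3⟩ := ht
    exact ⟨w1, ihx w2, ihy w3⟩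

theorem extM_wt {q : Par} (hq : q.P1 ≤ 16384) (lo hi : ℕ) (t : Tr) (ht : Tr.Wt t) : Tr.Wt (Tr.extM q lo hi t) := by
  induction t with
  | lf a b => exact ⟨hq, trivial, trivial⟩
  | nd P x y ihx ihy =>
    obtain ⟨w1, w2, w3⟩ := ht
    exact ⟨w1, ihx w2, ihy w3⟩

/-- empty (or zero) rest -/
theorem emp_val {p u : ℝ} (h0 : 0 ≤ u) (h1 : u ≤ 1) {l : List ℝ} (hl : ∀ a ∈ l, a = 0) (t : Tr) (ht : Tr.Wt t) :
    (Tr.emp t : ℝ) / 65536 ≤ Tr.val p u l t := by
  induction t with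
  | lf a b =>
    have hv : Tr.val p u l (Tr.lf a b) =
        Pr p l (((1 - u) * (a : ℝ) + u * (b : ℝ) - 1099511627776) / 16384000) := rfl
    have he : Tr.emp (Tr.lf a b) = cond (Nat.ble (mx a b) 1099511627776) 65536 0 := rfl
    rw [hv, he, Pr_zero hl]
    by_cases h : mx a b ≤ 1099511627776
    · rw [Nat.ble_eq_true_of_le h]
      have ha : a ≤ 1099511627776 ∧ b ≤ 1099511627776 := by
        rw [mx_eq] at h
        exact max_le_iff.1 h
      have ha1 : (a : ℝ) ≤ 1099511627776 := by exact_mod_cast ha.1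
      have ha2 : (b : ℝ) ≤ 1099511627776 := by exact_mod_cast ha.2
      rw [if_pos]
      · norm_num
      · refine div_nonpos_of_nonpos_of_nonneg ?_ (by norm_num)
        nlinarith [mul_le_mul_of_nonneg_left ha1 (sub_nonneg.2 h1), mul_le_mul_of_nonneg_left ha2 h0]
    · have h2 : Nat.ble (mx a b) 1099511627776 = false := by
        rw [Bool.eq_false_iff]
        intro h3
        exact h (Nat.le_of_ble_eq_true h3)
      rw [h2]
      simp only [cond_false]
      split_ifs <;> norm_num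
  | nd P x y ihx ihy =>
    obtain ⟨w1, w2, w3⟩ := ht
    have e1 : (P : ℝ) ≤ 16384 := by exact_mod_cast w1
    have e2 : (P : ℝ) / 16384 ≤ 1 := by
      rw [div_le_iff₀ (by norm_num)]
      linarith
    have he : Tr.emp (Tr.nd P x y) = (P * Tr.emp x + (16384 - P) * Tr.emp y) >>> 14 := rfl
    have hv : Tr.val p u l (Tr.nd P x y) =
      (P : ℝ) / 16384 * Tr.val p u l x + (1 - (P : ℝ) / 16384) * Tr.val p u l y := rfl
    rw [hv, he, Nat.shiftRight_eq_div_pow]
    have e3 : (((P * Tr.emp x + (16384 - P) * Tr.emp y) / 2 ^ 14 : ℕ) : ℝ) ≤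
        ((P * Tr.emp x + (16384 - P) * Tr.emp y : ℕ) : ℝ) / ((2 ^ 14 : ℕ) : ℝ) := Nat.cast_div_le
    have e4 : ((P * Tr.emp x + (16384 - P) * Tr.emp y : ℕ) : ℝ) =
        P * (Tr.emp x : ℝ) + (16384 - P) * (Tr.emp y : ℝ) := by
      rw [Nat.cast_add, Nat.cast_mul, Nat.cast_mul, Nat.cast_sub w1]
      norm_num
    rw [e4] at e3
    have e5 : (P : ℝ) / 16384 * ((Tr.emp x : ℝ) / 65536) ≤ (P : ℝ) / 16384 * Tr.val p u l x :=
      mul_le_mul_of_nonneg_left (ihx w2) (by positivity)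
    have e6 : (1 - (P : ℝ) / 16384) * ((Tr.emp y : ℝ) / 65536) ≤
        (1 - (P : ℝ) / 16384) * Tr.val p u l y :=
      mul_le_mul_of_nonneg_left (ihy w3) (by linarith)
    have e7 : (P * (Tr.emp x : ℝ) + (16384 - P) * (Tr.emp y : ℝ)) / ((2 ^ 14 : ℕ) : ℝ) / 65536 =
        (P : ℝ) / 16384 * ((Tr.emp x : ℝ) / 65536) +
          (1 - (P : ℝ) / 16384) * ((Tr.emp y : ℝ) / 65536) := by
      push_cast
      ring
    have e8 : (((P * Tr.emp x + (16384 - P) * Tr.emp y) / 2 ^ 14 : ℕ) : ℝ) / 65536 ≤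
        (P * (Tr.emp x : ℝ) + (16384 - P) * (Tr.emp y : ℝ)) / ((2 ^ 14 : ℕ) : ℝ) / 65536 :=
      div_le_div_of_nonneg_right e3 (by norm_num)
    linarith

end Pool.Agent.MMS14
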