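import Pool.Agent.MMS14.RootA
import Pool.Agent.MMS14.Lanes
import Pool.Agent.MMS14.Cover
import Pool.Agent.MMS14.ErrS

/-!
# MMS14/RootB: evaluation of a tree by the table

`P0 / 2^14 ≤ p ≤ P1 / 2^14 ≤ 1/2`, `p ≥ 1/5`.  Let `l = h :: l'`, `h ≠ 0`, `V = ss l`, `R0 ≤ 10^6 V ≤ R1`, `|h| ≤ last / 1000`, `k` the cell of `V / h²`
(`cover_from`, `V / h² ≥ 1`).  `jmax_sound`: `jmax (R0 * 10^6) (last * last) Su` is the number of the first entries of `Su` with `a last² ≤ 10^6 R0`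
(the recursion stops at the first failure), so with `j = jmax ≥ 1`: `Su_j last² ≤ 10^6 R0`, hence `Sc j ≤ Su_j / 10^6 ≤ R0 / last² ≤ V / h²`
(`Su_sound`), `j ≤ 126`.  So the cell may be taken `k ≥ j` (`cover_from`).
`slot_sound`: with `qL ≤ 2^14 * 1000 * sd ≤ qU` and `T = (max a b - 2^40) / (1000 * 2^14)`: `T ≤ (slot - 200)/50 sd`
or `slot > 350`, i.e. the row is `0`.  (`T ≤ 0`: `slot = 200 - ⌊50 (2^40 - max)/qU⌋`; `T > 0`: `201 + ⌊50 (max - 2^40) / qL⌋`.)
`qL`, `qU` from `sqL_sound`, `sqU_sound`: `(2^14 * 1000 sd)² = 2^28 p (1-p) 10^6 V` and `p (1-p)` is increasing on `[0, 1/2]`.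
`row_val`: induction on the tree: lane `k` (or `127 + k`) of `Tr.row` is at most `65536 * Tr.val` and `RowP (Tr.row ..)` (`comb_row`, `comb_lane`, floor;
`lk tab i = rowv rows i` by `lookOk_sound`, `0` for `i > 350`).
`eval_sound`: with `geOk_msk` (lanes `< 2^17`, `tgt ≤ 2^16`).
`eval_zero`: for a zero rest `R0 = 0`, so `qL = 0`; induction on the tree: lane `0` of the row is at most `65536 * val`: a leaf with `max a b > 2^40` has
row `0`; one with `max a b ≤ 2^40` has `val = 1` and lane `0` of every row is `≤ 65536` by `Good` for the list `[1]`; `jmax 0 .. = 0` as `Su_1 last² > 0` (`last > 0`).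
-/

set_option autoImplicit false

namespace Pool.Agent.MMS14

/-! ### `jmax` -/

private theorem rb_jmax_cons (R L2 a : ℕ) (su : List ℕ) :
    jmax R L2 (a :: su) = cond (Nat.ble (Nat.mul a L2) R) (Nat.succ (jmax R L2 su)) 0 := rfl

private theorem rb_jmax (R L2 : ℕ) : ∀ su : List ℕ, jmax R L2 su ≤ su.length ∧
    ∀ i, i < jmax R L2 su → su.getD i 0 * L2 ≤ R
  | [] => ⟨le_rfl, fun i hi => absurd hi (Nat.not_lt_zero i)⟩
  | a :: su => by
    obtain ⟨h1, h2⟩ := rb_jmax R L2 su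
    rw [rb_jmax_cons]
    cases hc : Nat.ble (Nat.mul a L2) R with
    | false => exact ⟨Nat.zero_le _, fun i hi => absurd hi (Nat.not_lt_zero i)⟩
    | true =>
      have hle : a * L2 ≤ R := Nat.le_of_ble_eq_true hc
      refine ⟨Nat.succ_le_succ h1, ?_⟩
      intro i hi
      cases i with
      | zero => simpa using hle
      | succ i =>
        have := h2 i (Nat.lt_of_succ_lt_succ hi)
        simpa using this

/-! ### the cell -/

private theorem rb_cell {h : ℝ} {l : List ℝ} (hh : h ≠ 0) {R0 last : ℕ} (hlast : |h| ≤ (last : ℝ) / 1000)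
    (hR0 : (R0 : ℝ) ≤ 1000000 * ss (h :: l)) :
    jmax (R0 * 1000000) (last * last) Su ≤ 126 ∧
      ∃ k, jmax (R0 * 1000000) (last * last) Su ≤ k ∧ InC k (ss (h :: l) / h ^ 2) := by
  obtain ⟨h1, h2⟩ := rb_jmax (R0 * 1000000) (last * last) Su
  rw [Su_length] at h1
  refine ⟨h1, ?_⟩
  set j := jmax (R0 * 1000000) (last * last) Su with hj
  apply cover_from h1
  have hh2 : 0 < h ^ 2 := by positivity
  rw [le_div_iff₀ hh2]
  have hV : h ^ 2 ≤ ss (h :: l) := by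
    rw [ss_cons]
    linarith [ss_nonneg l]
  rcases Nat.eq_zero_or_pos j with h0 | h0
  · rw [h0, Sc_zero, one_mul]
    exact hV
  · have h3 := h2 (j - 1) (by omega)
    have h4 := Su_sound (k := j) h0 h1
    have h5 : ((Su.getD (j - 1) 0 : ℕ) : ℝ) * ((last : ℝ) * last) ≤ (R0 : ℝ) * 1000000 := by
      exact_mod_cast h3
    have h6 : h ^ 2 * 1000000 ≤ (last : ℝ) * last := by
      have h7 : |h| ^ 2 ≤ ((last : ℝ) / 1000) ^ 2 := by gcongr
      rw [sq_abs] at h7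
      have h8 : ((last : ℝ) / 1000) ^ 2 * 1000000 = (last : ℝ) * last := by ring
      linarith
    have hl0 : (0 : ℝ) ≤ (last : ℝ) * last := by positivity
    have hSc : 0 ≤ Sc j := by unfold Sc; positivity
    have h9 : 1000000 * Sc j * ((last : ℝ) * last) ≤ 1000000 * ss (h :: l) * 1000000 := by
      calc 1000000 * Sc j * ((last : ℝ) * last)
          ≤ ((Su.getD (j - 1) 0 : ℕ) : ℝ) * ((last : ℝ) * last) := by gcongr
        _ ≤ (R0 : ℝ) * 1000000 := h5
        _ ≤ _ := by gcongr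
    have h10 : 1000000 * Sc j * (h ^ 2 * 1000000) ≤ 1000000 * Sc j * ((last : ℝ) * last) := by
      gcongr
    nlinarith

/-! ### the threshold -/

private theorem rb_max {u : ℝ} (h0 : 0 ≤ u) (h1 : u ≤ 1) (a b : ℕ) :
    ((1 - u) * (a : ℝ) + u * (b : ℝ) - 1099511627776) / 16384000 ≤
      (((mx a b : ℕ) : ℝ) - 1099511627776) / 16384000 := by
  rw [mx_eq]
  have ha : (a : ℝ) ≤ ((max a b : ℕ) : ℝ) := by exact_mod_cast le_max_left a b
  have hb : (b : ℝ) ≤ ((max a b : ℕ) : ℝ) := by exact_mod_cast le_max_right a b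
  have : (1 - u) * (a : ℝ) + u * (b : ℝ) ≤ ((max a b : ℕ) : ℝ) := by nlinarith
  gcongr

private theorem rb_slotG (N : ℕ) {qL qU M : ℕ} {σ : ℝ} (hσ : 0 ≤ σ) (hL : (qL : ℝ) ≤ 16384000 * σ)
    (hU : 16384000 * σ ≤ (qU : ℝ)) (hs : (cond (Nat.ble M N)
      (Nat.sub 200 (Nat.div (Nat.mul 50 (Nat.sub N M)) qU))
      (cond (Nat.beq qL 0) 351 (Nat.add 201 (Nat.div (Nat.mul 50 (Nat.sub M N)) qL)))) ≤ 350) :
    ((M : ℝ) - (N : ℝ)) / 16384000 ≤ (((cond (Nat.ble M N)
      (Nat.sub 200 (Nat.div (Nat.mul 50 (Nat.sub N M)) qU))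
      (cond (Nat.beq qL 0) 351 (Nat.add 201 (Nat.div (Nat.mul 50 (Nat.sub M N)) qL))) : ℕ) : ℝ) - 200) /
        50 * σ := by
  cases hc : Nat.ble M N with
  | true =>
    rw [hc] at hs
    simp only [cond_true] at hs ⊢
    have hle : M ≤ N := Nat.le_of_ble_eq_true hc
    obtain ⟨d, rfl⟩ := Nat.exists_eq_add_of_le hle
    have hd : Nat.sub (M + d) M = d := Nat.add_sub_cancel_left M d
    rw [hd]
    obtain ⟨w, hw⟩ : ∃ w : ℕ, w = Nat.div (Nat.mul 50 d) qU := ⟨_, rfl⟩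
    rw [← hw]
    have hd0 : (0 : ℝ) ≤ (d : ℝ) := Nat.cast_nonneg _
    have h1 : -(w : ℝ) ≤ ((Nat.sub 200 w : ℕ) : ℝ) - 200 := by
      have h2 : 200 ≤ (200 - w) + w := by omega
      have h3 : (200 : ℝ) ≤ ((200 - w : ℕ) : ℝ) + (w : ℝ) := by exact_mod_cast h2
      have h4 : ((Nat.sub 200 w : ℕ) : ℝ) = ((200 - w : ℕ) : ℝ) := rfl
      rw [h4]
      linarith
    have h4 : (w : ℝ) * σ ≤ 50 * (d : ℝ) / 16384000 := by
      rcases Nat.eq_zero_or_pos qU with hq | hq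
      · have h5 : w = 0 := by
          rw [hw, hq]; exact Nat.div_zero _
        rw [h5]
        simp only [Nat.cast_zero, zero_mul]
        positivity
      · have h5 : (w : ℝ) ≤ (((50 * d : ℕ)) : ℝ) / (qU : ℝ) := by
          rw [hw]
          exact Nat.cast_div_le
        have hq' : (0 : ℝ) < (qU : ℝ) := by exact_mod_cast hq
        have h6 : σ ≤ (qU : ℝ) / 16384000 := by
          rw [le_div_iff₀ (by norm_num)]
          linarith
        calc (w : ℝ) * σ
            ≤ (((50 * d : ℕ)) : ℝ) / (qU : ℝ) * ((qU : ℝ) / 16384000) :=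
              mul_le_mul h5 h6 hσ (by positivity)
          _ = 50 * (d : ℝ) / 16384000 := by
              push_cast
              field_simp
    have h7 : -((w : ℝ) * σ) ≤ (((Nat.sub 200 w : ℕ) : ℝ) - 200) * σ := by
      nlinarith
    have h8 : ((M : ℝ) - ((M + d : ℕ) : ℝ)) / 16384000 = -(50 * (d : ℝ) / 16384000) / 50 := by
      push_cast; ring
    rw [h8]
    have h9 : (((Nat.sub 200 w : ℕ) : ℝ) - 200) / 50 * σ =
        (((Nat.sub 200 w : ℕ) : ℝ) - 200) * σ / 50 := by ring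
    rw [h9]
    apply div_le_div_of_nonneg_right _ (by norm_num)
    linarith
  | false =>
    rw [hc] at hs
    simp only [cond_false] at hs ⊢
    cases hc2 : Nat.beq qL 0 with
    | true =>
      rw [hc2] at hs
      simp only [cond_true] at hs
      omega
    | false =>
      simp only [cond_false]
      have hlt : N ≤ M := by
        by_contra hcon
        have : Nat.ble M N = true := Nat.ble_eq_true_of_le (by omega)
        rw [this] at hc
        exact absurd hc (by simp)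
      have hq : 0 < qL := by
        rcases Nat.eq_zero_or_pos qL with h | h
        · rw [h] at hc2
          exact absurd hc2 (by decide)
        · exact h
      obtain ⟨d, rfl⟩ := Nat.exists_eq_add_of_le hlt
      have hd : Nat.sub (N + d) N = d := Nat.add_sub_cancel_left N d
      rw [hd]
      obtain ⟨w, hw⟩ : ∃ w : ℕ, w = Nat.div (Nat.mul 50 d) qL := ⟨_, rfl⟩
      rw [← hw]
      have hd0 : (0 : ℝ) ≤ (d : ℝ) := Nat.cast_nonneg _
      have hq' : (0 : ℝ) < (qL : ℝ) := by exact_mod_cast hq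
      have h5 : 50 * (d : ℝ) / (qL : ℝ) ≤ (w : ℝ) + 1 := by
        rw [div_le_iff₀ hq']
        have h6 : 50 * d ≤ (w + 1) * qL := by
          have h7 : 50 * d < qL * (50 * d / qL + 1) := Nat.lt_mul_div_succ (50 * d) hq
          have h8 : w = 50 * d / qL := hw
          rw [h8]
          calc 50 * d ≤ qL * (50 * d / qL + 1) := h7.le
            _ = (50 * d / qL + 1) * qL := mul_comm _ _
        exact_mod_cast h6
      have h9 : ((Nat.add 201 w : ℕ) : ℝ) = 201 + (w : ℝ) := by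
        have : Nat.add 201 w = 201 + w := rfl
        rw [this, Nat.cast_add]
        norm_num
      rw [h9]
      have h10 : 50 * (d : ℝ) / 16384000 ≤ (201 + (w : ℝ) - 200) * σ := by
        have h11 : (qL : ℝ) / 16384000 ≤ σ := by
          rw [div_le_iff₀ (by norm_num)]
          linarith
        calc 50 * (d : ℝ) / 16384000 = 50 * (d : ℝ) / (qL : ℝ) * ((qL : ℝ) / 16384000) := by
              field_simp
          _ ≤ (201 + (w : ℝ) - 200) * σ := by
              apply mul_le_mul _ h11 (by positivity) _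
              · linarith
              · have : (0 : ℝ) ≤ (w : ℝ) := Nat.cast_nonneg _
                linarith
      have h12 : (((N + d : ℕ) : ℝ) - (N : ℝ)) / 16384000 = 50 * (d : ℝ) / 16384000 / 50 := by
        push_cast; ring
      rw [h12]
      calc 50 * (d : ℝ) / 16384000 / 50 ≤ (201 + (w : ℝ) - 200) * σ / 50 :=
            div_le_div_of_nonneg_right h10 (by norm_num)
        _ = _ := by ring

private theorem rb_slot {qL qU M : ℕ} {σ : ℝ} (hσ : 0 ≤ σ) (hL : (qL : ℝ) ≤ 16384000 * σ)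
    (hU : 16384000 * σ ≤ (qU : ℝ)) (hs : slot qL qU M ≤ 350) :
    ((M : ℝ) - 1099511627776) / 16384000 ≤ (((slot qL qU M : ℕ) : ℝ) - 200) / 50 * σ := by
  have h := rb_slotG 1099511627776 hσ hL hU hs
  rw [show ((1099511627776 : ℕ) : ℝ) = 1099511627776 by norm_num] at h
  exact h

/-! ### the parameters -/

private theorem rb_par {q : Par} (h : parOk q = true) : 0 < q.P0 ∧ q.P0 ≤ q.P1 ∧ q.P1 ≤ 8192 := by
  unfold parOk at h
  rw [et_true, et_true, et_true] at h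
  obtain ⟨h1, h2, h3, -⟩ := h
  refine ⟨?_, Nat.le_of_ble_eq_true h2, Nat.le_of_ble_eq_true h3⟩
  have : Nat.ble 1 q.P0 = true := h1
  exact Nat.le_of_ble_eq_true this

private theorem rb_p {q : Par} {p u : ℝ} (hq : q.P0 ≤ q.P1) (hq' : q.P1 ≤ 8192)
    (hp : 16384 * p = (1 - u) * q.P0 + u * q.P1) (h0 : 0 ≤ u) (h1 : u ≤ 1) :
    (q.P0 : ℝ) / 16384 ≤ p ∧ p ≤ (q.P1 : ℝ) / 16384 ∧ p ≤ 1 / 2 := by
  have e1 : (q.P0 : ℝ) ≤ q.P1 := by exact_mod_cast hq
  have e2 : (q.P1 : ℝ) ≤ 8192 := by exact_mod_cast hq'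
  have a1 : (q.P0 : ℝ) / 16384 ≤ p := by
    rw [div_le_iff₀ (by norm_num)]
    nlinarith
  have a2 : p ≤ (q.P1 : ℝ) / 16384 := by
    rw [le_div_iff₀ (by norm_num)]
    nlinarith
  refine ⟨a1, a2, a2.trans ?_⟩
  rw [div_le_iff₀ (by norm_num)]
  linarith

private theorem rb_sd {q : Par} {p : ℝ} (ha : (q.P0 : ℝ) / 16384 ≤ p) (hb : p ≤ (q.P1 : ℝ) / 16384)
    (hq' : q.P1 ≤ 8192) (hq : q.P0 ≤ q.P1) {l : List ℝ} {R0 R1 : ℕ}
    (hR0 : (R0 : ℝ) ≤ 1000000 * ss l) (hR1 : 1000000 * ss l ≤ (R1 : ℝ)) :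
    ((sqL (Nat.mul (Nat.mul q.P0 (Nat.sub 16384 q.P0)) R0) : ℕ) : ℝ) ≤ 16384000 * sd p l ∧
      16384000 * sd p l ≤ ((sqU (Nat.succ (Nat.mul (Nat.mul q.P1 (Nat.sub 16384 q.P1)) R1)) : ℕ) : ℝ) := by
  have e1 : (q.P0 : ℝ) ≤ q.P1 := by exact_mod_cast hq
  have e2 : (q.P1 : ℝ) ≤ 8192 := by exact_mod_cast hq'
  have e0 : (0 : ℝ) ≤ (q.P0 : ℝ) := Nat.cast_nonneg _
  rw [div_le_iff₀ (by norm_num)] at ha
  rw [le_div_iff₀ (by norm_num)] at hb
  have hV := ss_nonneg l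
  have hp0 : 0 ≤ p := by linarith
  have hp1 : p ≤ 1 / 2 := by linarith
  have hsd : (16384000 * sd p l) ^ 2 = 268435456 * (p * (1 - p)) * (1000000 * ss l) := by
    unfold sd
    rw [mul_pow, Real.sq_sqrt (mul_nonneg (mul_nonneg hp0 (by linarith)) hV)]
    ring
  have hsd0 : 0 ≤ 16384000 * sd p l := by unfold sd; positivity
  constructor
  · apply le_of_sq_le_sq _ hsd0
    rw [hsd]
    have h1 := sqL_sound (Nat.mul (Nat.mul q.P0 (Nat.sub 16384 q.P0)) R0)
    have h2 : ((sqL (Nat.mul (Nat.mul q.P0 (Nat.sub 16384 q.P0)) R0) : ℕ) : ℝ) ^ 2 ≤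
        (((q.P0 * (16384 - q.P0)) * R0 : ℕ) : ℝ) := by exact_mod_cast h1
    refine h2.trans ?_
    rw [Nat.cast_mul, Nat.cast_mul, Nat.cast_sub (by omega)]
    push_cast
    have h3 : (q.P0 : ℝ) * (16384 - q.P0) ≤ 268435456 * (p * (1 - p)) := by nlinarith
    have h4 : (0 : ℝ) ≤ (q.P0 : ℝ) * (16384 - q.P0) := mul_nonneg e0 (by linarith)
    exact mul_le_mul h3 hR0 (Nat.cast_nonneg _) (h4.trans h3)
  · apply le_of_sq_le_sq _ (Nat.cast_nonneg _)
    rw [hsd]
    have h1 := sqU_sound (Nat.succ (Nat.mul (Nat.mul q.P1 (Nat.sub 16384 q.P1)) R1))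
    have h2 : ((((q.P1 * (16384 - q.P1)) * R1 + 1 : ℕ)) : ℝ) ≤
        ((sqU (Nat.succ (Nat.mul (Nat.mul q.P1 (Nat.sub 16384 q.P1)) R1)) : ℕ) : ℝ) ^ 2 := by
      exact_mod_cast h1
    refine le_trans ?_ h2
    rw [Nat.cast_add, Nat.cast_mul, Nat.cast_mul, Nat.cast_sub (by omega)]
    push_cast
    have h3 : 268435456 * (p * (1 - p)) ≤ (q.P1 : ℝ) * (16384 - q.P1) := by nlinarith
    have h4 : (0 : ℝ) ≤ 268435456 * (p * (1 - p)) := by
      have : 0 ≤ p * (1 - p) := mul_nonneg hp0 (by linarith)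
      positivity
    have h5 : 268435456 * (p * (1 - p)) * (1000000 * ss l) ≤ (q.P1 : ℝ) * (16384 - q.P1) * R1 :=
      mul_le_mul h3 hR1 (by positivity) (h4.trans h3)
    linarith

/-! ### rows of a tree -/

private theorem rb_node {P A B : ℕ} (hP : P ≤ 16384) {x y : ℝ} (hA : (A : ℝ) / 65536 ≤ x)
    (hB : (B : ℝ) / 65536 ≤ y) :
    (((P * A + (16384 - P) * B) / 16384 : ℕ) : ℝ) / 65536 ≤
      (P : ℝ) / 16384 * x + (1 - (P : ℝ) / 16384) * y := by
  have h1 : (((P * A + (16384 - P) * B) / 16384 : ℕ) : ℝ) ≤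
      ((P * A + (16384 - P) * B : ℕ) : ℝ) / ((16384 : ℕ) : ℝ) := Nat.cast_div_le
  have h2 : ((P * A + (16384 - P) * B : ℕ) : ℝ) = (P : ℝ) * A + (16384 - (P : ℝ)) * B := by
    rw [Nat.cast_add, Nat.cast_mul, Nat.cast_mul, Nat.cast_sub hP]
    norm_num
  rw [h2] at h1
  have hP0 : (0 : ℝ) ≤ (P : ℝ) := Nat.cast_nonneg _
  have hP1 : (P : ℝ) ≤ 16384 := by exact_mod_cast hP
  have h3 : (P : ℝ) / 16384 * ((A : ℝ) / 65536) ≤ (P : ℝ) / 16384 * x := by gcongr
  have h4 : (1 - (P : ℝ) / 16384) * ((B : ℝ) / 65536) ≤ (1 - (P : ℝ) / 16384) * y := by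
    apply mul_le_mul_of_nonneg_left hB
    rw [sub_nonneg, div_le_one (by norm_num)]
    exact hP1
  calc (((P * A + (16384 - P) * B) / 16384 : ℕ) : ℝ) / 65536
      ≤ (((P : ℝ) * A + (16384 - (P : ℝ)) * B) / ((16384 : ℕ) : ℝ)) / 65536 := by gcongr
    _ = (P : ℝ) / 16384 * ((A : ℝ) / 65536) + (1 - (P : ℝ) / 16384) * ((B : ℝ) / 65536) := by
        push_cast
        ring
    _ ≤ _ := add_le_add h3 h4

private theorem rb_row {tab : List (List ℕ)} {qL qU κ : ℕ} (hκ : κ < 254) {p u : ℝ} {l : List ℝ}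
    (hlf : ∀ a b : ℕ, RowP (lk tab (slot qL qU (mx a b))) ∧
      ((lane (lk tab (slot qL qU (mx a b))) κ : ℕ) : ℝ) / 65536 ≤ Tr.val p u l (.lf a b)) :
    ∀ t : Tr, Tr.Wt t → RowP (Tr.row tab qL qU t) ∧
      ((lane (Tr.row tab qL qU t) κ : ℕ) : ℝ) / 65536 ≤ Tr.val p u l t
  | .lf a b, _ => hlf a b
  | .nd P x y, ht => by
    obtain ⟨hP, hx, hy⟩ := ht
    obtain ⟨ax, bx⟩ := rb_row hκ hlf x hx
    obtain ⟨ay, bY⟩ := rb_row hκ hlf y hy
    have e : Tr.row tab qL qU (.nd P x y) = comb P (Tr.row tab qL qU x) (Tr.row tab qL qU y) := rfl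
    rw [e]
    refine ⟨comb_row hP ax ay, ?_⟩
    rw [comb_lane hP ax ay hκ]
    exact rb_node hP bx bY

private theorem rb_rowP_zero : RowP 0 := by
  refine ⟨by positivity, fun k _ => ?_⟩
  rw [lane_zero]
  norm_num

theorem eval_sound {q : Par} {rows : List ℕ} {tab : List (List ℕ)} (hpar : parOk q = true) (hlen : rows.length = 351)
    (hrow : ∀ r, RowP (rowv rows r)) (hG : Good q.P0 q.P1 rows) (hlook : lookOk tab rows 0 = true)
    {tgt : ℕ} (htgt : tgt ≤ 65536) {t : Tr} (ht : Tr.Wt t) {R0 R1 last : ℕ}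
    (he : evalR q tab Su tgt t R0 R1 last = true) {p u : ℝ} (hp : 16384 * p = (1 - u) * q.P0 + u * q.P1)
    (h0 : 0 ≤ u) (h1 : u ≤ 1) (hp5 : 1 / 5 ≤ p) {h : ℝ} {l : List ℝ} (hs : Srt (h :: l)) (hh : h ≠ 0)
    (hlast : |h| ≤ (last : ℝ) / 1000) (hR0 : (R0 : ℝ) ≤ 1000000 * ss (h :: l)) (hR1 : 1000000 * ss (h :: l) ≤ (R1 : ℝ)) :
    (tgt : ℝ) / 65536 ≤ Tr.val p u (h :: l) t := by
  obtain ⟨hP0, hP01, hP1⟩ := rb_par hpar
  obtain ⟨ha, hb, hc⟩ := rb_p hP01 hP1 hp h0 h1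
  obtain ⟨hqL, hqU⟩ := rb_sd ha hb hP1 hP01 hR0 hR1
  obtain ⟨hj, k, hjk, hk⟩ := rb_cell hh hlast hR0
  have hk126 : k ≤ 126 := hk.1
  have hσ : 0 ≤ sd p (h :: l) := Real.sqrt_nonneg _
  have hp0 : 0 ≤ p := by linarith
  have hp1 : p ≤ 1 := by linarith
  -- the lane
  obtain ⟨κ, hκ, hκ2, hlane⟩ : ∃ κ, κ < 254 ∧ (κ = k ∨ κ = 127 + k) ∧ ∀ i : ℕ, ∀ τ : ℝ,
      τ ≤ ((i : ℝ) - 200) / 50 * sd p (h :: l) →
        ((lane (rowv rows i) κ : ℕ) : ℝ) / 65536 ≤ Pr p (h :: l) τ := by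
    rcases lt_or_gt_of_ne hh with hneg | hpos
    · refine ⟨127 + k, by omega, Or.inr rfl, fun i τ hτ => ?_⟩
      exact (hG l.length k hk126 i).2 p ha hb hp5 hc h l hs le_rfl (by simpa using hneg) hk τ hτ
    · refine ⟨k, by omega, Or.inl rfl, fun i τ hτ => ?_⟩
      exact (hG l.length k hk126 i).1 p ha hb hp5 hc h l hs le_rfl (by simpa using hpos) hk τ hτ
  have hrowt := rb_row (tab := tab) (qL := sqL (Nat.mul (Nat.mul q.P0 (Nat.sub 16384 q.P0)) R0))
    (qU := sqU (Nat.succ (Nat.mul (Nat.mul q.P1 (Nat.sub 16384 q.P1)) R1))) hκ (p := p) (u := u)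
    (l := h :: l) ?_ t ht
  · obtain ⟨hA, hB⟩ := hrowt
    have hge := geOk_msk (j := jmax (R0 * 1000000) (last * last) Su) hj (c := tgt) (by omega) hA.1
      (fun k hk => lt_trans (hA.2 k hk) (by norm_num)) he k hjk hk126
    have hle : tgt ≤ lane (Tr.row tab (sqL (Nat.mul (Nat.mul q.P0 (Nat.sub 16384 q.P0)) R0))
        (sqU (Nat.succ (Nat.mul (Nat.mul q.P1 (Nat.sub 16384 q.P1)) R1))) t) κ := by
      rcases hκ2 with e | e
      · rw [e]; exact hge.1
      · rw [e]; exact hge.2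
    refine le_trans ?_ hB
    have : (tgt : ℝ) ≤ ((lane (Tr.row tab (sqL (Nat.mul (Nat.mul q.P0 (Nat.sub 16384 q.P0)) R0))
        (sqU (Nat.succ (Nat.mul (Nat.mul q.P1 (Nat.sub 16384 q.P1)) R1))) t) κ : ℕ) : ℝ) := by
      exact_mod_cast hle
    gcongr
  · intro a b
    have hval : Tr.val p u (h :: l) (.lf a b) =
        Pr p (h :: l) (((1 - u) * (a : ℝ) + u * (b : ℝ) - 1099511627776) / 16384000) := rfl
    rw [hval]
    unfold lk
    cases hi : Nat.ble (slot (sqL (Nat.mul (Nat.mul q.P0 (Nat.sub 16384 q.P0)) R0))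
      (sqU (Nat.succ (Nat.mul (Nat.mul q.P1 (Nat.sub 16384 q.P1)) R1))) (mx a b)) 350 with
    | false =>
      simp only [cond_false]
      refine ⟨rb_rowP_zero, ?_⟩
      rw [lane_zero]
      simpa using Pr_nonneg hp0 hp1 (h :: l) _
    | true =>
      simp only [cond_true]
      have hi' := Nat.le_of_ble_eq_true hi
      rw [lookOk_sound hlook _ (by omega)]
      refine ⟨hrow _, hlane _ _ ?_⟩
      exact (rb_max h0 h1 a b).trans (rb_slot hσ hqL hqU hi')

theorem eval_zero {q : Par} {rows : List ℕ} {tab : List (List ℕ)} (hpar : parOk q = true) (hlen : rows.length = 351)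
    (hrow : ∀ r, RowP (rowv rows r)) (hG : Good q.P0 q.P1 rows) (hlook : lookOk tab rows 0 = true)
    {tgt : ℕ} (htgt : tgt ≤ 65536) {t : Tr} (ht : Tr.Wt t) {R1 last : ℕ} (hl0 : 0 < last)
    (he : evalR q tab Su tgt t 0 R1 last = true) {p u : ℝ} (hp : 16384 * p = (1 - u) * q.P0 + u * q.P1)
    (h0 : 0 ≤ u) (h1 : u ≤ 1) (hp5 : 1 / 5 ≤ p) {l : List ℝ} (hl : ∀ a ∈ l, a = 0) :
    (tgt : ℝ) / 65536 ≤ Tr.val p u l t := by
  obtain ⟨hP0, hP01, hP1⟩ := rb_par hpar
  obtain ⟨ha, hb, hc⟩ := rb_p hP01 hP1 hp h0 h1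
  have hp0 : 0 ≤ p := by linarith
  have hp1 : p ≤ 1 := by linarith
  have hqL : sqL (Nat.mul (Nat.mul q.P0 (Nat.sub 16384 q.P0)) 0) = 0 := by
    have h2 := sqL_sound (Nat.mul (Nat.mul q.P0 (Nat.sub 16384 q.P0)) 0)
    have h3 : Nat.mul (Nat.mul q.P0 (Nat.sub 16384 q.P0)) 0 = 0 := Nat.mul_zero _
    rw [h3] at h2 ⊢
    have h4 : sqL 0 ^ 2 = 0 := Nat.le_zero.1 h2
    exact pow_eq_zero_iff (by norm_num) |>.1 h4
  have hj : jmax (0 * 1000000) (last * last) Su = 0 := by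
    by_contra hne
    have h2 := (rb_jmax (0 * 1000000) (last * last) Su).2 0 (Nat.pos_of_ne_zero hne)
    have h3 : 0 < Su.getD 0 0 := by decide
    have h4 : 0 < Su.getD 0 0 * (last * last) := by positivity
    omega
  have hlane : ∀ i : ℕ, lane (rowv rows i) 0 ≤ 65536 := by
    intro i
    have hcell : InC 0 (ss [(1 : ℝ)] / 1 ^ 2) := by
      have e : ss [(1 : ℝ)] / 1 ^ 2 = 1 := by
        rw [ss_cons, ss_nil]; norm_num
      rw [e]
      refine ⟨by norm_num, Sc_zero.le, fun _ => Sc_one.le⟩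
    have h2 := (hG 0 0 (by norm_num) i).1 p ha hb hp5 hc 1 [] (by simp [Srt]) le_rfl (by simp) hcell
      (((i : ℝ) - 200) / 50 * sd p [1]) le_rfl
    have h3 := h2.trans (Pr_le_one hp0 hp1 [(1 : ℝ)] _)
    rw [div_le_one (by norm_num)] at h3
    exact_mod_cast h3
  have hrowt := rb_row (tab := tab) (qL := sqL (Nat.mul (Nat.mul q.P0 (Nat.sub 16384 q.P0)) 0))
    (qU := sqU (Nat.succ (Nat.mul (Nat.mul q.P1 (Nat.sub 16384 q.P1)) R1))) (κ := 0) (by norm_num)
    (p := p) (u := u) (l := l) ?_ t ht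
  · obtain ⟨hA, hB⟩ := hrowt
    have hge := geOk_msk (j := jmax (0 * 1000000) (last * last) Su) (by omega) (c := tgt) (by omega) hA.1
      (fun k hk => lt_trans (hA.2 k hk) (by norm_num)) he 0 (by omega) (by norm_num)
    refine le_trans ?_ hB
    have : (tgt : ℝ) ≤ ((lane (Tr.row tab (sqL (Nat.mul (Nat.mul q.P0 (Nat.sub 16384 q.P0)) 0))
        (sqU (Nat.succ (Nat.mul (Nat.mul q.P1 (Nat.sub 16384 q.P1)) R1))) t) 0 : ℕ) : ℝ) := by
      exact_mod_cast hge.1
    gcongr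
  · intro a b
    have hval : Tr.val p u l (.lf a b) =
        Pr p l (((1 - u) * (a : ℝ) + u * (b : ℝ) - 1099511627776) / 16384000) := rfl
    rw [hval, hqL]
    unfold lk
    cases hi : Nat.ble (slot 0 (sqU (Nat.succ (Nat.mul (Nat.mul q.P1 (Nat.sub 16384 q.P1)) R1)))
      (mx a b)) 350 with
    | false =>
      simp only [cond_false]
      refine ⟨rb_rowP_zero, ?_⟩
      rw [lane_zero]
      simpa using Pr_nonneg hp0 hp1 l _
    | true =>
      simp only [cond_true]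
      have hi' := Nat.le_of_ble_eq_true hi
      rw [lookOk_sound hlook _ (by omega)]
      refine ⟨hrow _, ?_⟩
      have hM : mx a b ≤ 1099511627776 := by
        by_contra hcon
        have e : Nat.ble (mx a b) 1099511627776 = false := by
          cases hb : Nat.ble (mx a b) 1099511627776 with
          | false => rfl
          | true => exact absurd (Nat.le_of_ble_eq_true hb) hcon
        have e2 : slot 0 (sqU (Nat.succ (Nat.mul (Nat.mul q.P1 (Nat.sub 16384 q.P1)) R1))) (mx a b) =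
            351 := by
          unfold slot
          rw [e]
          rfl
        omega
      have hT : ((1 - u) * (a : ℝ) + u * (b : ℝ) - 1099511627776) / 16384000 ≤ 0 := by
        refine (rb_max h0 h1 a b).trans ?_
        have : ((mx a b : ℕ) : ℝ) ≤ 1099511627776 := by exact_mod_cast hM
        apply div_nonpos_of_nonpos_of_nonneg
        · linarith
        · norm_num
      rw [Pr_zero hl, if_pos hT, div_le_one (by norm_num)]
      exact_mod_cast hlane _

end Pool.Agent.MMS14
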