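import Pool.Agent.MMS14.RootB

/-!
# MMS14/RootC: soundness of the search

`rs_sound`: induction on the fuel `f`, generalizing everything else.  `f = 0`: `eval_sound` / `eval_zero` (if `l` is empty or its head is `0`, then all
entries are `0` (sorted), `ss l = 0`, `R0 = 0`).
`f + 1`: if `evalR` holds, the same.  Otherwise: zero rest: `R0 = 0`, so `tgt ≤ Tr.emp t` and `emp_val`.  `l = c :: l'`, `c ≠ 0`: let `lo = 20 m` with
`lo < 1000 |c| ≤ lo + 20`, `m < 50` (`|c| ≤ last / 1000 ≤ 1`); then `lo < last`, `lo² < 10^6 c² ≤ R1`, and the check gives the recursive call for the sign of `c`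
(for `c > 0` the alternative `cap ≤ lo` is impossible as `1000 c ≤ cap`) with `h = min (lo + 20) (min last cap) ≥ 1000 |c|`;
the new data fit: `R0 - h² ≤ 10^6 (ss l - c²)` (truncated: `0 ≤`), `10^6 (ss l - c²) ≤ R1 - lo²`, all further atoms are `≤ |c| ≤ h / 1000`, the new
cap `2000` is no restriction, the new `last = h > 0`.  Then `extP_val` / `extM_val` with `[lo, h]`.
`allb_sound` is in `CosT`; restate it here if needed.
-/

set_option autoImplicit false

namespace Pool.Agent.MMS14

private theorem et_iff {a b : Bool} : et a b = true ↔ a = true ∧ b = true := by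
  cases a <;> cases b <;> simp [et]

private theorem ou_iff {a b : Bool} : ou a b = true ↔ a = true ∨ b = true := by
  cases a <;> cases b <;> simp [ou]

private theorem allb_succ (n : ℕ) (f : ℕ → Bool) : allb (n + 1) f = et (f n) (allb n f) := rfl

private theorem allb_iff {n : ℕ} {f : ℕ → Bool} (h : allb n f = true) : ∀ m < n, f m = true := by
  induction n with
  | zero => intro m hm; omega
  | succ n ih =>
    rw [allb_succ, et_iff] at h
    intro m hm
    rcases Nat.lt_succ_iff_lt_or_eq.1 hm with h1 | h1
    · exact ih h.2 m h1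
    · rw [h1]; exact h.1

private theorem rs_zero (q : Par) (tab : List (List ℕ)) (su : List ℕ) (tgt : ℕ) (t : Tr)
    (R0 R1 last cap : ℕ) :
    rs q tab su tgt 0 t R0 R1 last cap = evalR q tab su tgt t R0 R1 last := rfl

private theorem rs_succ (q : Par) (tab : List (List ℕ)) (su : List ℕ) (tgt f : ℕ) (t : Tr)
    (R0 R1 last cap : ℕ) :
    rs q tab su tgt (f + 1) t R0 R1 last cap =
      ou (evalR q tab su tgt t R0 R1 last)
        (et (ou (Nat.blt 0 R0) (Nat.ble tgt (Tr.emp t)))
          (allb 50 (fun m =>
            ou (ou (Nat.ble last (20 * m)) (Nat.blt R1 ((20 * m) * (20 * m))))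
              (et (ou (Nat.ble cap (20 * m))
                (rs q tab su tgt f (Tr.extP q (20 * m) (mn (20 * m + 20) (mn last cap)) t)
                  (R0 - (mn (20 * m + 20) (mn last cap)) * (mn (20 * m + 20) (mn last cap)))
                  (R1 - (20 * m) * (20 * m)) (mn (20 * m + 20) (mn last cap)) 2000))
                (rs q tab su tgt f (Tr.extM q (20 * m) (mn (20 * m + 20) last) t)
                  (R0 - (mn (20 * m + 20) last) * (mn (20 * m + 20) last))
                  (R1 - (20 * m) * (20 * m)) (mn (20 * m + 20) last) 2000))))) := rfl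

theorem rs_sound {q : Par} {rows : List ℕ} {tab : List (List ℕ)} (hpar : parOk q = true) (hlen : rows.length = 351)
    (hrow : ∀ r, RowP (rowv rows r)) (hG : Good q.P0 q.P1 rows) (hlook : lookOk tab rows 0 = true)
    {tgt : ℕ} (htgt : tgt ≤ 65536) (f : ℕ) (t : Tr) (ht : Tr.Wt t) (R0 R1 last cap : ℕ) (hl0 : 0 < last) (hl1 : last ≤ 1000)
    (he : rs q tab Su tgt f t R0 R1 last cap = true) {p u : ℝ} (hp : 16384 * p = (1 - u) * q.P0 + u * q.P1)
    (h0 : 0 ≤ u) (h1 : u ≤ 1) (hp5 : 1 / 5 ≤ p) (l : List ℝ) (hs : Srt l) (hlast : ∀ a ∈ l, |a| ≤ (last : ℝ) / 1000)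
    (hcap : ∀ a ∈ l.head?, 0 < a → a ≤ (cap : ℝ) / 1000)
    (hR0 : (R0 : ℝ) ≤ 1000000 * ss l) (hR1 : 1000000 * ss l ≤ (R1 : ℝ)) :
    (tgt : ℝ) / 65536 ≤ Tr.val p u l t := by
  -- the parameters
  have hpar' := hpar
  unfold parOk at hpar'
  simp only [et_iff, Nat.ble_eq] at hpar'
  have hq : q.P0 ≤ q.P1 := hpar'.2.1
  have hq' : q.P1 ≤ 8192 := hpar'.2.2.1
  -- zero rest
  have zero_of : ∀ l : List ℝ, Srt l → (∀ a ∈ l, a = 0) ∨ ∃ c l', l = c :: l' ∧ c ≠ 0 := by
    intro l hs
    cases l with
    | nil => left; intro a ha; simp at ha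
    | cons c l' =>
      by_cases hc : c = 0
      · left
        intro a ha
        rcases List.mem_cons.1 ha with rfl | ha
        · exact hc
        · have := Srt_head hs a ha
          rw [hc, abs_zero] at this
          exact abs_eq_zero.1 (le_antisymm this (abs_nonneg a))
      · right
        exact ⟨c, l', rfl, hc⟩
  have ss_of_zero : ∀ l : List ℝ, (∀ a ∈ l, a = 0) → ss l = 0 := by
    intro l
    induction l with
    | nil => intro _; exact ss_nil
    | cons c l' ih =>
      intro h
      rw [ss_cons, ih (fun a ha => h a (List.mem_cons_of_mem _ ha)), h c (List.mem_cons_self)]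
      ring
  have R0_zero : ∀ (R0 : ℕ) (l : List ℝ), (∀ a ∈ l, a = 0) → (R0 : ℝ) ≤ 1000000 * ss l → R0 = 0 := by
    intro R0 l h hR
    rw [ss_of_zero l h, mul_zero] at hR
    have : R0 ≤ 0 := by exact_mod_cast hR
    omega
  have evalCase : ∀ (t : Tr), Tr.Wt t → ∀ (R0 R1 last : ℕ), 0 < last →
      evalR q tab Su tgt t R0 R1 last = true → ∀ l : List ℝ, Srt l →
      (∀ a ∈ l, |a| ≤ (last : ℝ) / 1000) → (R0 : ℝ) ≤ 1000000 * ss l →
      1000000 * ss l ≤ (R1 : ℝ) → (tgt : ℝ) / 65536 ≤ Tr.val p u l t := by
    intro t ht R0 R1 last hl0 he l hs hlast hR0 hR1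
    rcases zero_of l hs with hz | ⟨c, l', rfl, hc⟩
    · have hR := R0_zero R0 l hz hR0
      subst hR
      exact eval_zero hpar hlen hrow hG hlook htgt ht hl0 he hp h0 h1 hp5 hz
    · exact eval_sound hpar hlen hrow hG hlook htgt ht he hp h0 h1 hp5 hs hc
        (hlast c List.mem_cons_self) hR0 hR1
  induction f generalizing t R0 R1 last cap l with
  | zero =>
    rw [rs_zero] at he
    exact evalCase t ht R0 R1 last hl0 he l hs hlast hR0 hR1
  | succ f ih =>
    rw [rs_succ, ou_iff, et_iff, ou_iff] at he
    rcases he with he | ⟨he1, he2⟩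
    · exact evalCase t ht R0 R1 last hl0 he l hs hlast hR0 hR1
    rcases zero_of l hs with hz | ⟨c, l', rfl, hc⟩
    · -- zero rest
      have hR := R0_zero R0 l hz hR0
      have h2 : tgt ≤ Tr.emp t := by
        rcases he1 with h | h
        · rw [hR] at h
          exact absurd h (by decide)
        · exact Nat.ble_eq.mp h
      have h3 := emp_val (p := p) h0 h1 hz t ht
      have h4 : (tgt : ℝ) ≤ (Tr.emp t : ℝ) := by exact_mod_cast h2
      exact (div_le_div_of_nonneg_right h4 (by norm_num)).trans h3
    · -- a head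
      have hclast : |c| ≤ (last : ℝ) / 1000 := hlast c List.mem_cons_self
      have hcpos : 0 < |c| := abs_pos.2 hc
      have hlast1 : (last : ℝ) ≤ 1000 := by exact_mod_cast hl1
      obtain ⟨m, hm50, hm1, hm2⟩ : ∃ m : ℕ, m < 50 ∧ (20 * m : ℝ) < 1000 * |c| ∧
          1000 * |c| ≤ 20 * m + 20 := by
        obtain ⟨n, hn⟩ : ∃ n, n = ⌈50 * |c|⌉₊ := ⟨_, rfl⟩
        have hn1 : 50 * |c| ≤ (n : ℝ) := by rw [hn]; exact Nat.le_ceil _
        have hn2 : (n : ℝ) < 50 * |c| + 1 := by rw [hn]; exact Nat.ceil_lt_add_one (by positivity)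
        have hn0 : 1 ≤ n := by
          have : (0 : ℝ) < n := lt_of_lt_of_le (by positivity) hn1
          have : 0 < n := by exact_mod_cast this
          omega
        have hn50 : n ≤ 50 := by
          have : (n : ℝ) < 51 := by linarith
          have : n < 51 := by exact_mod_cast this
          omega
        refine ⟨n - 1, by omega, ?_, ?_⟩
        · rw [Nat.cast_sub hn0]
          push_cast
          linarith
        · rw [Nat.cast_sub hn0]
          push_cast
          linarith
      have hm := allb_iff he2 m hm50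
      simp only [ou_iff, et_iff] at hm
      have hssc : ss (c :: l') = |c| ^ 2 + ss l' := by rw [ss_cons, sq_abs]
      have hss' : 0 ≤ ss l' := ss_nonneg l'
      have hm0 : (0 : ℝ) ≤ 20 * m := by positivity
      have hlo2 : ((20 * m : ℝ)) * (20 * m) ≤ 1000000 * |c| ^ 2 := by nlinarith
      have hloR1 : (20 * m) * (20 * m) ≤ R1 := by
        have h2 : (((20 * m) * (20 * m) : ℕ) : ℝ) ≤ (R1 : ℝ) := by
          push_cast
          rw [hssc] at hR1
          nlinarith
        exact_mod_cast h2
      have hlolast : 20 * m < last := by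
        have h2 : ((20 * m : ℕ) : ℝ) < (last : ℝ) := by
          push_cast
          linarith
        exact_mod_cast h2
      rcases hm with (hm | hm) | ⟨hmP, hmM⟩
      · exact absurd (Nat.ble_eq.mp hm) (by omega)
      · exact absurd (Nat.blt_eq.mp hm) (by omega)
      have hs' : Srt l' := Srt_tail hs
      have hhead := Srt_head hs
      -- the data of the rest
      have hrest : ∀ h : ℕ, 1000 * |c| ≤ (h : ℝ) → h ≤ last → 
          0 < h ∧ h ≤ 1000 ∧ (∀ a ∈ l', |a| ≤ (h : ℝ) / 1000) ∧
          (∀ a ∈ l'.head?, 0 < a → a ≤ ((2000 : ℕ) : ℝ) / 1000) ∧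
          ((R0 - h * h : ℕ) : ℝ) ≤ 1000000 * ss l' ∧
          1000000 * ss l' ≤ ((R1 - (20 * m) * (20 * m) : ℕ) : ℝ) := by
        intro h hh hhl
        have hh0 : 0 < h := by
          have : (0 : ℝ) < h := lt_of_lt_of_le (by positivity) hh
          exact_mod_cast this
        refine ⟨hh0, by omega, ?_, ?_, ?_, ?_⟩
        · intro a ha
          have := hhead a ha
          rw [le_div_iff₀ (by norm_num)]
          linarith
        · intro a ha _
          have h2 := hhead a (List.mem_of_mem_head? ha)
          have h3 := le_abs_self a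
          push_cast
          linarith
        · rw [hssc] at hR0
          rcases Nat.le_total (h * h) R0 with h2 | h2
          · rw [Nat.cast_sub h2]
            push_cast
            nlinarith
          · rw [Nat.sub_eq_zero_of_le h2, Nat.cast_zero]
            positivity
        · rw [hssc] at hR1
          rw [Nat.cast_sub hloR1]
          push_cast
          linarith
      rcases lt_or_gt_of_ne hc with hneg | hpos
      · -- negative head
        obtain ⟨h, hh⟩ : ∃ h, h = mn (20 * m + 20) last := ⟨_, rfl⟩
        rw [← hh] at hmM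
        have hab : |c| = -c := abs_of_neg hneg
        have hh1 : 1000 * |c| ≤ (h : ℝ) := by
          rw [hh, mn_eq, Nat.cast_min]
          refine le_min ?_ ?_
          · push_cast; exact hm2
          · linarith
        have hh2 : h ≤ last := by rw [hh, mn_eq]; exact min_le_right _ _
        obtain ⟨k1, k2, k3, k4, k5, k6⟩ := hrest h hh1 hh2
        have k7 := ih (Tr.extM q (20 * m) h t) (extM_wt (by omega) _ _ t ht) (R0 - h * h)
          (R1 - (20 * m) * (20 * m)) h 2000 k1 k2 hmM l' hs' k3 k4 k5 k6
        refine k7.trans (extM_val hq hq' hp h0 h1 ?_ ?_ t ht l')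
        · rw [← hab]
          push_cast
          linarith
        · rw [← hab]
          linarith
      · -- positive head
        have hab : |c| = c := abs_of_pos hpos
        have hcapc : c ≤ (cap : ℝ) / 1000 := hcap c (by simp) hpos
        have hlocap : 20 * m < cap := by
          have h2 : ((20 * m : ℕ) : ℝ) < (cap : ℝ) := by
            push_cast
            rw [hab] at hm1
            linarith
          exact_mod_cast h2
        have hmP' := hmP.resolve_left (fun h => absurd (Nat.ble_eq.mp h) (by omega))
        obtain ⟨h, hh⟩ : ∃ h, h = mn (20 * m + 20) (mn last cap) := ⟨_, rfl⟩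
        rw [← hh] at hmP'
        have hh1 : 1000 * |c| ≤ (h : ℝ) := by
          rw [hh, mn_eq, mn_eq, Nat.cast_min, Nat.cast_min]
          refine le_min ?_ (le_min ?_ ?_)
          · push_cast; exact hm2
          · linarith
          · rw [hab]; linarith
        have hh2 : h ≤ last := by
          rw [hh, mn_eq, mn_eq]
          exact (min_le_right _ _).trans (min_le_left _ _)
        obtain ⟨k1, k2, k3, k4, k5, k6⟩ := hrest h hh1 hh2
        have k7 := ih (Tr.extP q (20 * m) h t) (extP_wt (by omega) _ _ t ht) (R0 - h * h)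
          (R1 - (20 * m) * (20 * m)) h 2000 k1 k2 hmP' l' hs' k3 k4 k5 k6
        refine k7.trans (extP_val hq hq' hp h0 h1 ?_ ?_ t ht l')
        · rw [hab] at hm1
          push_cast
          linarith
        · rw [hab] at hh1
          linarith

end Pool.Agent.MMS14
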