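import Pool.Agent.MMS14.RootC

/-!
# MMS14/RootD: soundness of `rangeP` and `rangeM`

`rangeP_sound`: find `j < c` with `sa + w j ≤ 1000 S ≤ sa + w (j + 1)`, `S = 1 + ss l`; `rootP` is `rs` for the tree `extP 1000 1000` of the leaf with threshold
`eps / (1000 * 2^14)`; `extP_val` with `c = 1`.  `p ∈ [P0, P1] / 2^14` is `16384 p = (1 - u) P0 + u P1` (`u = 0` if `P0 = P1`).
`R0 = 1000 sa - 10^6`, `R1 = 1000 sb - 10^6`.
`rangeM_sound`: head `-1`, `extM_val`; a positive second atom `b` satisfies `b² < S / 2.03`, so `(1000 b)² ≤ sb * 10^5 / 203 < succ ⌊sb 10^5 / 203⌋ ≤ cap²`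
(`sqU_sound`).
-/

set_option autoImplicit false

namespace Pool.Agent.MMS14

private theorem et_iff {a b : Bool} : et a b = true ↔ a = true ∧ b = true := by
  cases a <;> cases b <;> simp [et]

private theorem rangeP_succ (q : Par) (tab : List (List ℕ)) (su : List ℕ) (tgt eps f w c sa : ℕ) :
    rangeP q tab su tgt eps f w (c + 1) sa =
      et (rootP q tab su tgt eps f sa (sa + w)) (rangeP q tab su tgt eps f w c (sa + w)) := rfl

private theorem rangeM_succ (q : Par) (tab : List (List ℕ)) (su : List ℕ) (tgt eps f w c sa : ℕ) :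
    rangeM q tab su tgt eps f w (c + 1) sa =
      et (rootM q tab su tgt eps f sa (sa + w)) (rangeM q tab su tgt eps f w c (sa + w)) := rfl

/-- the cell of `X` -/
private theorem range_find {R : ℕ → ℕ → Bool} {g : ℕ → ℕ → Bool} {w : ℕ}
    (hg : ∀ c sa, g (c + 1) sa = et (R sa (sa + w)) (g c (sa + w))) (c : ℕ) : ∀ sa : ℕ,
    g (c + 1) sa = true → ∀ X : ℝ, (sa : ℝ) ≤ X → X ≤ (sa : ℝ) + w * ((c : ℝ) + 1) →
    ∃ sb : ℕ, sa ≤ sb ∧ (sb : ℝ) ≤ X ∧ X ≤ (sb : ℝ) + w ∧ R sb (sb + w) = true := by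
  induction c with
  | zero =>
    intro sa h X h1 h2
    rw [hg, et_iff] at h
    refine ⟨sa, le_rfl, h1, ?_, h.1⟩
    rw [Nat.cast_zero, zero_add, mul_one] at h2
    exact h2
  | succ c ih =>
    intro sa h X h1 h2
    rw [hg, et_iff] at h
    by_cases hX : X ≤ (sa : ℝ) + w
    · exact ⟨sa, le_rfl, h1, hX, h.1⟩
    · obtain ⟨sb, k1, k2, k3, k4⟩ := ih (sa + w) h.2 X (by push_cast; linarith)
        (by push_cast at h2 ⊢; linarith)
      exact ⟨sb, by omega, k2, k3, k4⟩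

private theorem exists_u {q : Par} (hq : q.P0 ≤ q.P1) {p : ℝ} (hp0 : (q.P0 : ℝ) / 16384 ≤ p)
    (hp1 : p ≤ (q.P1 : ℝ) / 16384) :
    ∃ u : ℝ, 0 ≤ u ∧ u ≤ 1 ∧ 16384 * p = (1 - u) * q.P0 + u * q.P1 := by
  rw [div_le_iff₀ (by norm_num)] at hp0
  rw [le_div_iff₀ (by norm_num)] at hp1
  rcases Nat.eq_or_lt_of_le hq with h | h
  · refine ⟨0, le_rfl, zero_le_one, ?_⟩
    rw [← h] at hp1
    linarith
  · have hlt : (0 : ℝ) < q.P1 - q.P0 := by
      have : (q.P0 : ℝ) < q.P1 := by exact_mod_cast h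
      linarith
    refine ⟨(16384 * p - q.P0) / (q.P1 - q.P0), div_nonneg (by linarith) hlt.le, ?_, ?_⟩
    · rw [div_le_one hlt]
      linarith
    · field_simp
      ring

private theorem par_le {q : Par} (hpar : parOk q = true) : q.P0 ≤ q.P1 ∧ q.P1 ≤ 8192 := by
  unfold parOk at hpar
  simp only [et_iff, Nat.ble_eq] at hpar
  exact ⟨hpar.2.1, hpar.2.2.1⟩

private theorem root_R0 {sb : ℕ} (h : 1000 ≤ sb) {X : ℝ} (hX : (sb : ℝ) ≤ 1000 * (1 + X)) :
    (((1000 * sb - 1000000 : ℕ)) : ℝ) ≤ 1000000 * X := by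
  rw [Nat.cast_sub (by omega)]
  push_cast
  linarith

private theorem root_R1 {sb w : ℕ} (h : 1000 ≤ sb) {X : ℝ} (hX : 1000 * (1 + X) ≤ (sb : ℝ) + w) :
    1000000 * X ≤ (((1000 * (sb + w) - 1000000 : ℕ)) : ℝ) := by
  rw [Nat.cast_sub (by omega)]
  push_cast
  linarith

private theorem root_val {p u : ℝ} (l : List ℝ) (eps : ℕ) :
    Tr.val p u l (Tr.lf (1099511627776 + eps) (1099511627776 + eps)) =
      Pr p l ((eps : ℝ) / 16384000) := by
  show Pr p l (((1 - u) * ((1099511627776 + eps : ℕ) : ℝ) + u * ((1099511627776 + eps : ℕ) : ℝ) -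
    1099511627776) / 16384000) = _
  congr 1
  push_cast
  ring

theorem rangeP_sound {q : Par} {rows : List ℕ} {tab : List (List ℕ)} (hpar : parOk q = true) (hlen : rows.length = 351)
    (hrow : ∀ r, RowP (rowv rows r)) (hG : Good q.P0 q.P1 rows) (hlook : lookOk tab rows 0 = true)
    {tgt : ℕ} (htgt : tgt ≤ 65536) {eps f w c sa : ℕ} (hw : 0 < w) (hc0 : 0 < c) (hsa : 1000 ≤ sa)
    (he : rangeP q tab Su tgt eps f w c sa = true)
    {p : ℝ} (hp0 : (q.P0 : ℝ) / 16384 ≤ p) (hp1 : p ≤ (q.P1 : ℝ) / 16384) (hp5 : 1 / 5 ≤ p)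
    {l : List ℝ} (hs : Srt (1 :: l)) (hS0 : (sa : ℝ) ≤ 1000 * (1 + ss l)) (hS1 : 1000 * (1 + ss l) ≤ (sa : ℝ) + w * c) :
    (tgt : ℝ) / 65536 ≤ Pr p (1 :: l) ((eps : ℝ) / 16384000) := by
  obtain ⟨c, rfl⟩ : ∃ c', c = c' + 1 := ⟨c - 1, by omega⟩
  obtain ⟨hq, hq'⟩ := par_le hpar
  obtain ⟨u, h0, h1, hp⟩ := exists_u hq hp0 hp1
  obtain ⟨sb, k1, k2, k3, k4⟩ := range_find (g := fun c sa => rangeP q tab Su tgt eps f w c sa)
    (R := fun sa sb => rootP q tab Su tgt eps f sa sb) (w := w)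
    (fun c sa => rangeP_succ q tab Su tgt eps f w c sa) c sa he (1000 * (1 + ss l)) hS0
    (by push_cast at hS1; exact hS1)
  have hhead := Srt_head hs
  have k5 := rs_sound hpar hlen hrow hG hlook htgt f
    (Tr.extP q 1000 1000 (Tr.lf (1099511627776 + eps) (1099511627776 + eps)))
    (extP_wt (by omega) _ _ _ trivial) (1000 * sb - 1000000) (1000 * (sb + w) - 1000000) 1000
    2000 (by norm_num) le_rfl k4 hp h0 h1 hp5 l (Srt_tail hs) (fun a ha => by
      have := hhead a ha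
      rw [abs_one] at this
      norm_num
      exact this) (fun a ha _ => by
      have h2 := hhead a (List.mem_of_mem_head? ha)
      rw [abs_one] at h2
      have h3 := le_abs_self a
      push_cast
      linarith) (root_R0 (by omega) k2) (root_R1 (by omega) k3)
  refine k5.trans ((extP_val hq hq' hp h0 h1 (c := 1) (by norm_num) (by norm_num)
    (Tr.lf (1099511627776 + eps) (1099511627776 + eps)) trivial l).trans ?_)
  rw [root_val]

theorem rangeM_sound {q : Par} {rows : List ℕ} {tab : List (List ℕ)} (hpar : parOk q = true) (hlen : rows.length = 351)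
    (hrow : ∀ r, RowP (rowv rows r)) (hG : Good q.P0 q.P1 rows) (hlook : lookOk tab rows 0 = true)
    {tgt : ℕ} (htgt : tgt ≤ 65536) {eps f w c sa : ℕ} (hw : 0 < w) (hc0 : 0 < c) (hsa : 1000 ≤ sa)
    (he : rangeM q tab Su tgt eps f w c sa = true)
    {p : ℝ} (hp0 : (q.P0 : ℝ) / 16384 ≤ p) (hp1 : p ≤ (q.P1 : ℝ) / 16384) (hp5 : 1 / 5 ≤ p)
    {l : List ℝ} (hs : Srt (-1 :: l)) (hS0 : (sa : ℝ) ≤ 1000 * (1 + ss l)) (hS1 : 1000 * (1 + ss l) ≤ (sa : ℝ) + w * c)
    (hb : ∀ b ∈ l, 0 < b → 2.03 * b ^ 2 < 1 + ss l) :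
    (tgt : ℝ) / 65536 ≤ Pr p (-1 :: l) ((eps : ℝ) / 16384000) := by
  obtain ⟨c, rfl⟩ : ∃ c', c = c' + 1 := ⟨c - 1, by omega⟩
  obtain ⟨hq, hq'⟩ := par_le hpar
  obtain ⟨u, h0, h1, hp⟩ := exists_u hq hp0 hp1
  obtain ⟨sb, k1, k2, k3, k4⟩ := range_find (g := fun c sa => rangeM q tab Su tgt eps f w c sa)
    (R := fun sa sb => rootM q tab Su tgt eps f sa sb) (w := w)
    (fun c sa => rangeM_succ q tab Su tgt eps f w c sa) c sa he (1000 * (1 + ss l)) hS0
    (by push_cast at hS1; exact hS1)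
  have hhead := Srt_head hs
  have k5 := rs_sound hpar hlen hrow hG hlook htgt f
    (Tr.extM q 1000 1000 (Tr.lf (1099511627776 + eps) (1099511627776 + eps)))
    (extM_wt (by omega) _ _ _ trivial) (1000 * sb - 1000000) (1000 * (sb + w) - 1000000) 1000
    (sqU (Nat.succ ((sb + w) * 100000 / 203))) (by norm_num) le_rfl k4 hp h0 h1 hp5 l
    (Srt_tail hs) (fun a ha => by
      have := hhead a ha
      rw [abs_neg, abs_one] at this
      norm_num
      exact this) (fun a ha ha0 => by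
      have h2 := hb a (List.mem_of_mem_head? ha) ha0
      have h3 := sqU_sound (Nat.succ ((sb + w) * 100000 / 203))
      have h4 : ((Nat.succ ((sb + w) * 100000 / 203) : ℕ) : ℝ) ≤
          (sqU (Nat.succ ((sb + w) * 100000 / 203)) : ℝ) ^ 2 := by exact_mod_cast h3
      have h5 : (sb + w) * 100000 < 203 * Nat.succ ((sb + w) * 100000 / 203) :=
        Nat.lt_mul_div_succ _ (by norm_num)
      have h6 : ((sb : ℝ) + w) * 100000 <
          203 * ((Nat.succ ((sb + w) * 100000 / 203) : ℕ) : ℝ) := by exact_mod_cast h5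
      have h7 : (1000 * a) ^ 2 ≤ (sqU (Nat.succ ((sb + w) * 100000 / 203)) : ℝ) ^ 2 := by
        nlinarith
      have h8 : 1000 * a ≤ (sqU (Nat.succ ((sb + w) * 100000 / 203)) : ℝ) :=
        (sq_le_sq₀ (by linarith) (Nat.cast_nonneg _)).1 h7
      rw [le_div_iff₀ (by norm_num)]
      linarith) (root_R0 (by omega) k2) (root_R1 (by omega) k3)
  refine k5.trans ((extM_val hq hq' hp h0 h1 (c := -1) (by norm_num) (by norm_num)
    (Tr.lf (1099511627776 + eps) (1099511627776 + eps)) trivial l).trans ?_)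
  rw [root_val]

end Pool.Agent.MMS14
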