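import Mathlib

/-!
# MMS14/SlotA: thresholds on an interval from the values at the ends (pure real analysis)

With `y > 1` put `√S = (y + 1/y) / 2`, `√(S - 1) = (y - 1/y) / 2`; the threshold function is
`F(y) = (n (y² + 1) - 2 C y) / (y² - 1)` (first theorem) or `F(y) = (n (y² + 1) + 2 C y) / (y² - 1)` (second).

`slot_minus` (`C ≥ 0`): `Q(y) = M (y² - 1) - n (y² + 1) + 2 C y = (M - n) y² + 2 C y - (M + n)` is `≥ 0` at `A` and `B`.  If
`M ≥ n`, `Q` is increasing on `y ≥ 0`; if `M < n` it is concave.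

`slot_plus` (`C ≥ 0`, `M = M0 + e`): `Q0(y) = (M0 - n) y² - 2 C y - (M0 + n)` is `≥ 0` at `A`, `B`.  If `M0 - n ≤ 0`, `Q0` is concave,
done.  Otherwise let `a = M0 - n > 0`.  If the vertex `C / a` is outside `(A, B)`, then `Q0` is monotone on `[A, B]` and
`Q0 ≥ min(Q0(A), Q0(B)) ≥ 0`.  Otherwise `a ≤ C / A` and `Q0(y) ≥ (chord) - a (y - A) (B - y) ≥ - a (B - A)² / 4
≥ - C (B - A)² / (4 A)`, and `Q(y) = Q0(y) + e (y² - 1) ≥ Q0(y) + e (A² - 1)`, `e (A² - 1) ≥ C (B - A)² / (2 A)`.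
-/

set_option autoImplicit false

namespace Pool.Agent.MMS14

theorem slot_minus {n C M A B y : ℝ} (hC : 0 ≤ C) (hA : 1 < A) (hAy : A ≤ y) (hyB : y ≤ B)
    (h1 : n * (A ^ 2 + 1) - 2 * C * A ≤ M * (A ^ 2 - 1)) (h2 : n * (B ^ 2 + 1) - 2 * C * B ≤ M * (B ^ 2 - 1)) :
    n * (y ^ 2 + 1) - 2 * C * y ≤ M * (y ^ 2 - 1) := by
  have hy1 : 0 < y := by linarith
  have q1 : 0 ≤ (M - n) * A ^ 2 + 2 * C * A - (M + n) := by linarith
  have q2 : 0 ≤ (M - n) * B ^ 2 + 2 * C * B - (M + n) := by linarith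
  suffices h : 0 ≤ (M - n) * y ^ 2 + 2 * C * y - (M + n) by linarith
  rcases le_total n M with hM | hM
  · have e1 : 0 ≤ (M - n) * ((y - A) * (y + A)) :=
      mul_nonneg (by linarith) (mul_nonneg (by linarith) (by linarith))
    have e2 : 0 ≤ C * (y - A) := mul_nonneg hC (by linarith)
    linarith
  · rcases eq_or_lt_of_le (hAy.trans hyB) with h | h
    · have hy : y = A := le_antisymm (by linarith) hAy
      rw [hy]
      exact q1
    · have e1 : 0 ≤ (B - y) * ((M - n) * A ^ 2 + 2 * C * A - (M + n)) :=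
        mul_nonneg (by linarith) q1
      have e2 : 0 ≤ (y - A) * ((M - n) * B ^ 2 + 2 * C * B - (M + n)) :=
        mul_nonneg (by linarith) q2
      have e3 : 0 ≤ (n - M) * ((y - A) * (B - y) * (B - A)) :=
        mul_nonneg (by linarith) (mul_nonneg (mul_nonneg (by linarith) (by linarith))
          (by linarith))
      have e4 : (B - A) * ((M - n) * y ^ 2 + 2 * C * y - (M + n)) =
          (B - y) * ((M - n) * A ^ 2 + 2 * C * A - (M + n)) +
          (y - A) * ((M - n) * B ^ 2 + 2 * C * B - (M + n)) +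
          (n - M) * ((y - A) * (B - y) * (B - A)) := by ring
      have e5 : 0 ≤ (B - A) * ((M - n) * y ^ 2 + 2 * C * y - (M + n)) := by
        rw [e4]
        linarith
      exact nonneg_of_mul_nonneg_right e5 (by linarith)

theorem slot_plus {n C M e A B y : ℝ} (hC : 0 ≤ C) (he : 0 ≤ e) (hA : 1 < A) (hAy : A ≤ y) (hyB : y ≤ B)
    (h1 : n * (A ^ 2 + 1) + 2 * C * A ≤ M * (A ^ 2 - 1)) (h2 : n * (B ^ 2 + 1) + 2 * C * B ≤ M * (B ^ 2 - 1))
    (h3 : C * (B - A) ^ 2 ≤ e * (2 * A * (A ^ 2 - 1))) :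
    n * (y ^ 2 + 1) + 2 * C * y ≤ (M + e) * (y ^ 2 - 1) := by
  have hy1 : 0 < y := by linarith
  have q1 : 0 ≤ (M - n) * A ^ 2 - 2 * C * A - (M + n) := by linarith
  have q2 : 0 ≤ (M - n) * B ^ 2 - 2 * C * B - (M + n) := by linarith
  have hyA : A ^ 2 ≤ y ^ 2 := pow_le_pow_left₀ (by linarith) hAy 2
  have hey : e * (A ^ 2 - 1) ≤ e * (y ^ 2 - 1) := mul_le_mul_of_nonneg_left (by linarith) he
  have hA1 : 1 ≤ A ^ 2 := by nlinarith
  have heA : 0 ≤ e * (A ^ 2 - 1) := mul_nonneg he (by linarith)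
  suffices h : 0 ≤ ((M - n) * y ^ 2 - 2 * C * y - (M + n)) + e * (y ^ 2 - 1) by linarith
  rcases le_total (C) ((M - n) * A) with hM | hM
  · -- the function is increasing
    have hMn : 0 ≤ M - n := nonneg_of_mul_nonneg_left (hC.trans hM) (by linarith)
    have e1 : 0 ≤ (y - A) * ((M - n) * (y + A) - 2 * C) := by
      apply mul_nonneg (by linarith)
      have : (M - n) * (2 * A) ≤ (M - n) * (y + A) := mul_le_mul_of_nonneg_left (by linarith) hMn
      linarith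
    nlinarith
  · rcases eq_or_lt_of_le (hAy.trans hyB) with h | h
    · have hy : y = A := le_antisymm (by linarith) hAy
      rw [hy]
      linarith
    · have e1 : 0 ≤ (B - y) * ((M - n) * A ^ 2 - 2 * C * A - (M + n)) :=
        mul_nonneg (by linarith) q1
      have e2 : 0 ≤ (y - A) * ((M - n) * B ^ 2 - 2 * C * B - (M + n)) :=
        mul_nonneg (by linarith) q2
      have e4 : (B - A) * ((M - n) * y ^ 2 - 2 * C * y - (M + n) + (M - n) * ((y - A) * (B - y))) =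
          (B - y) * ((M - n) * A ^ 2 - 2 * C * A - (M + n)) +
          (y - A) * ((M - n) * B ^ 2 - 2 * C * B - (M + n)) := by ring
      have e5 : 0 ≤ (B - A) * ((M - n) * y ^ 2 - 2 * C * y - (M + n) +
          (M - n) * ((y - A) * (B - y))) := by
        rw [e4]
        linarith
      have e6 : 0 ≤ (M - n) * y ^ 2 - 2 * C * y - (M + n) + (M - n) * ((y - A) * (B - y)) :=
        nonneg_of_mul_nonneg_right e5 (by linarith)
      have e7 : 0 ≤ (y - A) * (B - y) := mul_nonneg (by linarith) (by linarith)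
      have e8 : (y - A) * (B - y) ≤ (B - A) ^ 2 / 4 := by nlinarith [sq_nonneg (y - A - (B - y))]
      -- multiply by A
      have e9 : ((M - n) * A) * ((y - A) * (B - y)) ≤ C * ((y - A) * (B - y)) :=
        mul_le_mul_of_nonneg_right hM e7
      have e10 : C * ((y - A) * (B - y)) ≤ C * ((B - A) ^ 2 / 4) := mul_le_mul_of_nonneg_left e8 hC
      have hA0 : 0 < A := by linarith
      have e11 : 0 ≤ A * ((M - n) * y ^ 2 - 2 * C * y - (M + n) +
          (M - n) * ((y - A) * (B - y))) := mul_nonneg hA0.le e6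
      have e12 : 0 ≤ A * (((M - n) * y ^ 2 - 2 * C * y - (M + n)) + e * (y ^ 2 - 1)) := by
        have e13 : 0 ≤ C * (B - A) ^ 2 := mul_nonneg hC (sq_nonneg _)
        have e14 : A * (e * (A ^ 2 - 1)) ≤ A * (e * (y ^ 2 - 1)) :=
          mul_le_mul_of_nonneg_left hey hA0.le
        linarith
      exact nonneg_of_mul_nonneg_right e12 hA0

/-- existence of `y` for `S` in a cell -/
theorem exists_y {S A B : ℝ} (hA : 1 < A) (hAB : A ≤ B) (h1 : ((A ^ 2 + 1) / (2 * A)) ^ 2 ≤ S)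
    (h2 : S ≤ ((B ^ 2 + 1) / (2 * B)) ^ 2) :
    ∃ y : ℝ, A ≤ y ∧ y ≤ B ∧ √S = (y ^ 2 + 1) / (2 * y) ∧ √(S - 1) = (y ^ 2 - 1) / (2 * y) := by
  have hA0 : 0 < A := by linarith
  have hB0 : 0 < B := by linarith
  have hA1 : 1 ≤ A ^ 2 := by nlinarith
  have hB1 : 1 ≤ B ^ 2 := by nlinarith
  have iA : ((A ^ 2 + 1) / (2 * A)) ^ 2 - 1 = ((A ^ 2 - 1) / (2 * A)) ^ 2 := by
    field_simp
    ring
  have iB : ((B ^ 2 + 1) / (2 * B)) ^ 2 - 1 = ((B ^ 2 - 1) / (2 * B)) ^ 2 := by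
    field_simp
    ring
  have pA : 0 ≤ (A ^ 2 - 1) / (2 * A) := div_nonneg (by linarith) (by linarith)
  have pB : 0 ≤ (B ^ 2 - 1) / (2 * B) := div_nonneg (by linarith) (by linarith)
  have pA' : 0 ≤ (A ^ 2 + 1) / (2 * A) := by positivity
  have pB' : 0 ≤ (B ^ 2 + 1) / (2 * B) := by positivity
  have hS1 : 0 ≤ S - 1 := by
    have := sq_nonneg ((A ^ 2 - 1) / (2 * A))
    linarith
  have hS0 : 0 ≤ S := by linarith
  have r1 : (A ^ 2 + 1) / (2 * A) ≤ √S := Real.le_sqrt_of_sq_le h1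
  have r2 : √S ≤ (B ^ 2 + 1) / (2 * B) := Real.sqrt_le_iff.2 ⟨pB', h2⟩
  have r3 : (A ^ 2 - 1) / (2 * A) ≤ √(S - 1) := Real.le_sqrt_of_sq_le (by linarith)
  have r4 : √(S - 1) ≤ (B ^ 2 - 1) / (2 * B) := Real.sqrt_le_iff.2 ⟨pB, by linarith⟩
  have eA : (A ^ 2 + 1) / (2 * A) + (A ^ 2 - 1) / (2 * A) = A := by
    field_simp
    ring
  have eB : (B ^ 2 + 1) / (2 * B) + (B ^ 2 - 1) / (2 * B) = B := by
    field_simp
    ring
  have sq1 : √S ^ 2 = S := Real.sq_sqrt hS0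
  have sq2 : √(S - 1) ^ 2 = S - 1 := Real.sq_sqrt hS1
  have hy0 : 0 < √S + √(S - 1) := by linarith
  refine ⟨√S + √(S - 1), by linarith, by linarith, ?_, ?_⟩
  · rw [eq_div_iff (by positivity)]
    nlinarith
  · rw [eq_div_iff (by positivity)]
    nlinarith

end Pool.Agent.MMS14
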