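import Pool.Agent.MMS14.SlotA
import Pool.Agent.MMS14.Cover

/-!
# MMS14/SlotB: the row numbers of the two branches

Put `D = 10 ^ 4`, `Y = Yk i > D`, `Z = Yk (i + 1)`, `n = r - 200`, `G = Y² - D²`.
`slope Y ≥ 2 ^ 20 (Y² + D²) / G - 1`, hence `r * slope Y ≥ 2 ^ 20 r (Y² + D²) / G - 350` for `r ≤ 350`;
`startM Y c ≥ 2 ^ 20 (4296 - 200 (Y² + D²) / G) - 2 c D Y / G - 1 + 352` (truncated subtraction only makes it larger; the floor
of the division costs less than `1`), so with `m = startM Y c + r * slope Y`: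
`m / 2 ^ 20 - 4296 ≥ (n (Y² + D²) - 2 (c / 2 ^ 20) D Y) / G`; the same for `startP` with `+ c`.
`idx m ≥ m / 2 ^ 20 - 4096` (round up; truncated at `0`), so `idx m - 200 ≥ m / 2 ^ 20 - 4296 =: M`.
With `y`, `A = Y / D`, `B = Z / D` from `exists_y` and `slot_minus` / `slot_plus` (`C = c / 2 ^ 20`, `e = exc Y Z c / 2 ^ 20`;
`exc Y Z c ≥ c (Z - Y)² D / (2 Y G)`): multiply by `1 / (2 y)`:
`n √S ∓ C ≤ M √(S - 1)`.  In the first theorem `C ≤ K` only helps.
-/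

set_option autoImplicit false

namespace Pool.Agent.MMS14

theorem idx_ge (m : ℕ) : (m : ℝ) / 1048576 - 4096 ≤ (idx m : ℝ) := by
  have h : m ≤ 1048576 * (idx m + 4096) := by
    have e : idx m = (m + 1048575) / 2 ^ 20 - 4096 := by
      show (m + 1048575) >>> 20 - 4096 = _
      rw [Nat.shiftRight_eq_div_pow]
    rw [e]
    have e2 : (2 : ℕ) ^ 20 = 1048576 := by norm_num
    rw [e2]
    omega
  have h2 : (m : ℝ) ≤ 1048576 * ((idx m : ℝ) + 4096) := by exact_mod_cast h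
  rw [sub_le_iff_le_add, div_le_iff₀ (by norm_num)]
  linarith

private theorem div_ge (a b : ℕ) (hb : 0 < b) : (a : ℝ) ≤ (((a / b : ℕ) : ℝ) + 1) * b := by
  have h : a ≤ (a / b + 1) * b := by
    have h1 := Nat.div_add_mod a b
    have h2 := Nat.mod_lt a hb
    have h3 : (a / b + 1) * b = b * (a / b) + b := by ring
    rw [h3]
    omega
  exact_mod_cast h

private theorem sub_ge (x y : ℕ) : (x : ℝ) - y ≤ ((x - y : ℕ) : ℝ) := by
  have h : x ≤ (x - y) + y := by omega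
  have h2 : (x : ℝ) ≤ ((x - y : ℕ) : ℝ) + y := by exact_mod_cast h
  linarith

private theorem cast_G {Y : ℕ} (hY : 10000 < Y) :
    ((Y * Y - 100000000 : ℕ) : ℝ) = (Y : ℝ) ^ 2 - 100000000 ∧ 0 < (Y : ℝ) ^ 2 - 100000000 ∧
      0 < Y * Y - 100000000 := by
  have h1 : 100000000 < Y * Y := by nlinarith
  have h2 : (100000000 : ℝ) < (Y : ℝ) * Y := by exact_mod_cast h1
  refine ⟨?_, by nlinarith, by omega⟩
  rw [Nat.cast_sub h1.le]
  push_cast
  ring

private theorem slope_ge {Y : ℕ} (hY : 10000 < Y) :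
    1048576 * ((Y : ℝ) ^ 2 + 100000000) ≤ ((slope Y : ℝ) + 1) * ((Y : ℝ) ^ 2 - 100000000) := by
  obtain ⟨h1, h2, h3⟩ := cast_G hY
  have e : slope Y = (1048576 * (Y * Y + 100000000)) / (Y * Y - 100000000) := rfl
  have h := div_ge (1048576 * (Y * Y + 100000000)) (Y * Y - 100000000) h3
  rw [← e, h1] at h
  push_cast at h
  clear e h1 h3
  revert h h2
  generalize (slope Y : ℝ) = sl
  generalize (Y : ℝ) = y
  intro h2 h
  nlinarith

private theorem startM_ge {Y : ℕ} (hY : 10000 < Y) (c : ℕ) :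
    1048576 * (4296 * ((Y : ℝ) ^ 2 - 100000000) - 200 * ((Y : ℝ) ^ 2 + 100000000)) -
      c * (20000 * Y) ≤ ((startM Y c : ℝ) - 351) * ((Y : ℝ) ^ 2 - 100000000) := by
  obtain ⟨h1, h2, h3⟩ := cast_G hY
  have e : startM Y c = (1048576 * (4296 * (Y * Y - 100000000) - 200 * (Y * Y + 100000000)) -
      c * (20000 * Y)) / (Y * Y - 100000000) + 352 := rfl
  obtain ⟨X, hX⟩ : ∃ X, X = 4296 * (Y * Y - 100000000) - 200 * (Y * Y + 100000000) := ⟨_, rfl⟩
  have g1 := sub_ge (4296 * (Y * Y - 100000000)) (200 * (Y * Y + 100000000))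
  rw [← hX] at g1 e
  push_cast at g1
  rw [h1] at g1
  obtain ⟨W, hW⟩ : ∃ W, W = 1048576 * X - c * (20000 * Y) := ⟨_, rfl⟩
  have g2 := sub_ge (1048576 * X) (c * (20000 * Y))
  rw [← hW] at g2 e
  push_cast at g2
  have g3 := div_ge W (Y * Y - 100000000) h3
  obtain ⟨V, hV⟩ : ∃ V, V = W / (Y * Y - 100000000) := ⟨_, rfl⟩
  rw [← hV] at g3 e
  rw [h1] at g3
  rw [e]
  push_cast
  clear e hW hX hV h1 h3
  revert g1 g2 g3 h2
  generalize (V : ℝ) = v
  generalize (W : ℝ) = w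
  generalize (X : ℝ) = x
  generalize (Y : ℝ) = y
  generalize (c : ℝ) = c'
  clear hY
  intro h2 g1 g2 g3
  nlinarith

private theorem startP_ge {Y : ℕ} (hY : 10000 < Y) (c : ℕ) :
    1048576 * (4296 * ((Y : ℝ) ^ 2 - 100000000) - 200 * ((Y : ℝ) ^ 2 + 100000000)) +
      c * (20000 * Y) ≤ ((startP Y c : ℝ) - 351) * ((Y : ℝ) ^ 2 - 100000000) := by
  obtain ⟨h1, h2, h3⟩ := cast_G hY
  have e : startP Y c = (1048576 * (4296 * (Y * Y - 100000000) - 200 * (Y * Y + 100000000)) +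
      c * (20000 * Y)) / (Y * Y - 100000000) + 352 := rfl
  obtain ⟨X, hX⟩ : ∃ X, X = 4296 * (Y * Y - 100000000) - 200 * (Y * Y + 100000000) := ⟨_, rfl⟩
  have g1 := sub_ge (4296 * (Y * Y - 100000000)) (200 * (Y * Y + 100000000))
  rw [← hX] at g1 e
  push_cast at g1
  rw [h1] at g1
  have g3 := div_ge (1048576 * X + c * (20000 * Y)) (Y * Y - 100000000) h3
  obtain ⟨V, hV⟩ : ∃ V, V = (1048576 * X + c * (20000 * Y)) / (Y * Y - 100000000) := ⟨_, rfl⟩
  rw [← hV] at g3 e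
  rw [h1] at g3
  push_cast at g3
  rw [e]
  push_cast
  clear e hX hV h1 h3
  revert g1 g3 h2
  generalize (V : ℝ) = v
  generalize (X : ℝ) = x
  generalize (Y : ℝ) = y
  generalize (c : ℝ) = c'
  clear hY
  intro h2 g1 g3
  nlinarith

private theorem exc_ge {Y Z : ℕ} (hY : 10000 < Y) (hYZ : Y ≤ Z) (c : ℕ) :
    (c : ℝ) * ((Z : ℝ) - Y) ^ 2 * 10000 ≤
      (exc Y Z c : ℝ) * (2 * Y * ((Y : ℝ) ^ 2 - 100000000)) := by
  obtain ⟨h1, h2, h3⟩ := cast_G hY
  have e : exc Y Z c = (c * ((Z - Y) * (Z - Y)) * 10000) / (2 * Y * (Y * Y - 100000000)) + 1 := rfl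
  have h4 : 0 < 2 * Y * (Y * Y - 100000000) := Nat.mul_pos (by omega) h3
  have g := div_ge (c * ((Z - Y) * (Z - Y)) * 10000) (2 * Y * (Y * Y - 100000000)) h4
  obtain ⟨V, hV⟩ : ∃ V, V = (c * ((Z - Y) * (Z - Y)) * 10000) / (2 * Y * (Y * Y - 100000000)) :=
    ⟨_, rfl⟩
  rw [← hV] at g e
  rw [e]
  rw [Nat.cast_mul (2 * Y) (Y * Y - 100000000), h1] at g
  push_cast [Nat.cast_sub hYZ] at g ⊢
  clear e hV h1 h3 h4
  revert g h2
  generalize (V : ℝ) = v
  generalize (Z : ℝ) = z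
  generalize (Y : ℝ) = y
  generalize (c : ℝ) = c'
  clear hY hYZ
  intro h2 g
  nlinarith

/-- the threshold at a boundary, minus sign -/
private theorem bdM {Y c r : ℕ} (hY : 10000 < Y) (hr : r < 351) {M : ℝ}
    (hM : ((startM Y c + r * slope Y : ℕ) : ℝ) / 1048576 - 4296 ≤ M) :
    ((r : ℝ) - 200) * (((Y : ℝ) / 10000) ^ 2 + 1) - 2 * ((c : ℝ) / 1048576) * ((Y : ℝ) / 10000) ≤
      M * (((Y : ℝ) / 10000) ^ 2 - 1) := by
  obtain ⟨_, h2, _⟩ := cast_G hY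
  have g1 := slope_ge hY
  have g2 := startM_ge hY c
  push_cast at hM
  have hr' : (r : ℝ) ≤ 350 := by exact_mod_cast Nat.lt_succ_iff.1 hr
  have hr0 : (0 : ℝ) ≤ r := Nat.cast_nonneg r
  have g3 := mul_le_mul_of_nonneg_left g1 hr0
  have g4 := mul_le_mul_of_nonneg_right hr' h2.le
  have g5 := mul_le_mul_of_nonneg_right hM h2.le
  push_cast at g5
  have e1 : ((r : ℝ) - 200) * (((Y : ℝ) / 10000) ^ 2 + 1) -
      2 * ((c : ℝ) / 1048576) * ((Y : ℝ) / 10000) =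
      (((r : ℝ) - 200) * ((Y : ℝ) ^ 2 + 100000000) - (c : ℝ) / 1048576 * (20000 * Y)) / 100000000 := by
    ring
  have e2 : M * (((Y : ℝ) / 10000) ^ 2 - 1) = M * ((Y : ℝ) ^ 2 - 100000000) / 100000000 := by
    ring
  rw [e1, e2]
  apply div_le_div_of_nonneg_right _ (by norm_num)
  refine le_trans ?_ g5
  have e3 : (((startM Y c : ℝ) + r * slope Y) / 1048576 - 4296) * ((Y : ℝ) ^ 2 - 100000000) =
      (((startM Y c : ℝ) * ((Y : ℝ) ^ 2 - 100000000) + r * (slope Y * ((Y : ℝ) ^ 2 - 100000000))) -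
        1048576 * 4296 * ((Y : ℝ) ^ 2 - 100000000)) / 1048576 := by ring
  rw [e3, le_div_iff₀ (by norm_num)]
  clear e1 e2 e3 g5 hM
  revert g1 g2 g3 g4 h2 hr' hr0
  generalize (startM Y c : ℝ) = st
  generalize (slope Y : ℝ) = sl
  generalize (Y : ℝ) = y
  generalize (c : ℝ) = c'
  generalize (r : ℝ) = r'
  clear hY hr
  intro h2 g1 g2 hr' hr0 g3 g4
  linarith

/-- the threshold at a boundary, plus sign -/
private theorem bdP {Y c r : ℕ} (hY : 10000 < Y) (hr : r < 351) {M : ℝ}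
    (hM : ((startP Y c + r * slope Y : ℕ) : ℝ) / 1048576 - 4296 ≤ M) :
    ((r : ℝ) - 200) * (((Y : ℝ) / 10000) ^ 2 + 1) + 2 * ((c : ℝ) / 1048576) * ((Y : ℝ) / 10000) ≤
      M * (((Y : ℝ) / 10000) ^ 2 - 1) := by
  obtain ⟨_, h2, _⟩ := cast_G hY
  have g1 := slope_ge hY
  have g2 := startP_ge hY c
  push_cast at hM
  have hr' : (r : ℝ) ≤ 350 := by exact_mod_cast Nat.lt_succ_iff.1 hr
  have hr0 : (0 : ℝ) ≤ r := Nat.cast_nonneg r
  have g3 := mul_le_mul_of_nonneg_left g1 hr0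
  have g4 := mul_le_mul_of_nonneg_right hr' h2.le
  have g5 := mul_le_mul_of_nonneg_right hM h2.le
  push_cast at g5
  have e1 : ((r : ℝ) - 200) * (((Y : ℝ) / 10000) ^ 2 + 1) +
      2 * ((c : ℝ) / 1048576) * ((Y : ℝ) / 10000) =
      (((r : ℝ) - 200) * ((Y : ℝ) ^ 2 + 100000000) + (c : ℝ) / 1048576 * (20000 * Y)) / 100000000 := by
    ring
  have e2 : M * (((Y : ℝ) / 10000) ^ 2 - 1) = M * ((Y : ℝ) ^ 2 - 100000000) / 100000000 := by
    ring
  rw [e1, e2]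
  apply div_le_div_of_nonneg_right _ (by norm_num)
  refine le_trans ?_ g5
  have e3 : (((startP Y c : ℝ) + r * slope Y) / 1048576 - 4296) * ((Y : ℝ) ^ 2 - 100000000) =
      (((startP Y c : ℝ) * ((Y : ℝ) ^ 2 - 100000000) + r * (slope Y * ((Y : ℝ) ^ 2 - 100000000))) -
        1048576 * 4296 * ((Y : ℝ) ^ 2 - 100000000)) / 1048576 := by ring
  rw [e3, le_div_iff₀ (by norm_num)]
  clear e1 e2 e3 g5 hM
  revert g1 g2 g3 g4 h2 hr' hr0
  generalize (startP Y c : ℝ) = st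
  generalize (slope Y : ℝ) = sl
  generalize (Y : ℝ) = y
  generalize (c : ℝ) = c'
  generalize (r : ℝ) = r'
  clear hY hr
  intro h2 g1 g2 hr' hr0 g3 g4
  linarith

private theorem get_y {i : ℕ} (hi : 1 ≤ i) (hi' : i < 126) {S : ℝ} (h1 : Sc i ≤ S)
    (h2 : S ≤ Sc (i + 1)) : 10000 < Yk i ∧ Yk i < Yk (i + 1) ∧
      ∃ y : ℝ, (Yk i : ℝ) / 10000 ≤ y ∧ y ≤ (Yk (i + 1) : ℝ) / 10000 ∧
        √S = (y ^ 2 + 1) / (2 * y) ∧ √(S - 1) = (y ^ 2 - 1) / (2 * y) := by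
  have hlt := Yk_lt hi'
  have hY : 10000 < Yk i := by
    have h3 := Yk_ge (k := i - 1) (by omega)
    have h4 := Yk_lt (k := i - 1) (by omega)
    have h5 : i - 1 + 1 = i := by omega
    rw [h5] at h4
    omega
  refine ⟨hY, hlt, ?_⟩
  have hYr : (10000 : ℝ) < Yk i := by exact_mod_cast hY
  have hltr : (Yk i : ℝ) < Yk (i + 1) := by exact_mod_cast hlt
  have hsc : ∀ k, (0 : ℝ) < Yk k →
      Sc k = ((((Yk k : ℝ) / 10000) ^ 2 + 1) / (2 * ((Yk k : ℝ) / 10000))) ^ 2 := by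
    intro k hk
    unfold Sc
    congr 1
    field_simp
    ring
  apply exists_y
  · rw [lt_div_iff₀ (by norm_num)]
    linarith
  · apply div_le_div_of_nonneg_right hltr.le (by norm_num)
  · rw [← hsc i (by linarith)]
    exact h1
  · rw [← hsc (i + 1) (by linarith)]
    exact h2

theorem slotM_sound {i c r : ℕ} (hi : 1 ≤ i) (hi' : i < 126) (hr : r < 351) {S K : ℝ} (h1 : Sc i ≤ S) (h2 : S ≤ Sc (i + 1))
    (hK : (c : ℝ) ≤ 1048576 * K) :
    ((r : ℝ) - 200) * √S - K ≤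
      ((idx (max (startM (Yk i) c + r * slope (Yk i)) (startM (Yk (i + 1)) c + r * slope (Yk (i + 1)))) : ℝ) - 200) *
        √(S - 1) := by
  obtain ⟨hY, hYZ, y, hy1, hy2, e1, e2⟩ := get_y hi hi' h1 h2
  have hZ : 10000 < Yk (i + 1) := by omega
  have hYr : (10000 : ℝ) < Yk i := by exact_mod_cast hY
  set m := max (startM (Yk i) c + r * slope (Yk i)) (startM (Yk (i + 1)) c + r * slope (Yk (i + 1)))
    with hm
  have hidx := idx_ge m
  have hm1 : ((startM (Yk i) c + r * slope (Yk i) : ℕ) : ℝ) ≤ m := by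
    exact_mod_cast le_max_left _ _
  have hm2 : ((startM (Yk (i + 1)) c + r * slope (Yk (i + 1)) : ℕ) : ℝ) ≤ m := by
    exact_mod_cast le_max_right _ _
  have b1 := bdM (c := c) (M := (idx m : ℝ) - 200) hY hr (by linarith)
  have b2 := bdM (c := c) (M := (idx m : ℝ) - 200) hZ hr (by linarith)
  have hA : 1 < (Yk i : ℝ) / 10000 := by
    rw [lt_div_iff₀ (by norm_num)]
    linarith
  have b := slot_minus (n := (r : ℝ) - 200) (C := (c : ℝ) / 1048576) (M := (idx m : ℝ) - 200)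
    (div_nonneg (Nat.cast_nonneg _) (by norm_num)) hA hy1 hy2 b1 b2
  have hy0 : 0 < y := by linarith
  have hyy : 0 < 2 * y := by linarith
  rw [e1, e2]
  have h3 : ((r : ℝ) - 200) * ((y ^ 2 + 1) / (2 * y)) - (c : ℝ) / 1048576 ≤
      ((idx m : ℝ) - 200) * ((y ^ 2 - 1) / (2 * y)) := by
    have e3 : ((r : ℝ) - 200) * ((y ^ 2 + 1) / (2 * y)) - (c : ℝ) / 1048576 =
        (((r : ℝ) - 200) * (y ^ 2 + 1) - 2 * ((c : ℝ) / 1048576) * y) / (2 * y) := by
      field_simp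
    have e4 : ((idx m : ℝ) - 200) * ((y ^ 2 - 1) / (2 * y)) =
        (((idx m : ℝ) - 200) * (y ^ 2 - 1)) / (2 * y) := by ring
    rw [e3, e4]
    exact div_le_div_of_nonneg_right b hyy.le
  have h4 : (c : ℝ) / 1048576 ≤ K := by
    rw [div_le_iff₀ (by norm_num)]
    linarith
  linarith

theorem slotP_sound {i c r : ℕ} (hi : 1 ≤ i) (hi' : i < 126) (hr : r < 351) {S K : ℝ} (h1 : Sc i ≤ S) (h2 : S ≤ Sc (i + 1))
    (hK0 : 0 ≤ K) (hK : 1048576 * K ≤ (c : ℝ)) :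
    ((r : ℝ) - 200) * √S + K ≤
      ((idx (max (startP (Yk i) c + exc (Yk i) (Yk (i + 1)) c + r * slope (Yk i))
          (startP (Yk (i + 1)) c + exc (Yk i) (Yk (i + 1)) c + r * slope (Yk (i + 1)))) : ℝ) - 200) * √(S - 1) := by
  obtain ⟨hY, hYZ, y, hy1, hy2, e1, e2⟩ := get_y hi hi' h1 h2
  have hZ : 10000 < Yk (i + 1) := by omega
  have hYr : (10000 : ℝ) < Yk i := by exact_mod_cast hY
  set X := exc (Yk i) (Yk (i + 1)) c with hX
  set m := max (startP (Yk i) c + X + r * slope (Yk i))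
    (startP (Yk (i + 1)) c + X + r * slope (Yk (i + 1))) with hm
  have hidx := idx_ge m
  have hm1 : ((startP (Yk i) c + r * slope (Yk i) : ℕ) : ℝ) + X ≤ m := by
    have : startP (Yk i) c + r * slope (Yk i) + X ≤ m := by
      have := le_max_left (startP (Yk i) c + X + r * slope (Yk i))
        (startP (Yk (i + 1)) c + X + r * slope (Yk (i + 1)))
      omega
    exact_mod_cast this
  have hm2 : ((startP (Yk (i + 1)) c + r * slope (Yk (i + 1)) : ℕ) : ℝ) + X ≤ m := by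
    have : startP (Yk (i + 1)) c + r * slope (Yk (i + 1)) + X ≤ m := by
      have := le_max_right (startP (Yk i) c + X + r * slope (Yk i))
        (startP (Yk (i + 1)) c + X + r * slope (Yk (i + 1)))
      omega
    exact_mod_cast this
  have b1 := bdP (c := c) (M := (idx m : ℝ) - 200 - (X : ℝ) / 1048576) hY hr (by linarith)
  have b2 := bdP (c := c) (M := (idx m : ℝ) - 200 - (X : ℝ) / 1048576) hZ hr (by linarith)
  have hA : 1 < (Yk i : ℝ) / 10000 := by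
    rw [lt_div_iff₀ (by norm_num)]
    linarith
  have b3 : (c : ℝ) / 1048576 * ((Yk (i + 1) : ℝ) / 10000 - (Yk i : ℝ) / 10000) ^ 2 ≤
      (X : ℝ) / 1048576 * (2 * ((Yk i : ℝ) / 10000) * (((Yk i : ℝ) / 10000) ^ 2 - 1)) := by
    have g := exc_ge hY hYZ.le c
    rw [← hX] at g
    have e3 : (c : ℝ) / 1048576 * ((Yk (i + 1) : ℝ) / 10000 - (Yk i : ℝ) / 10000) ^ 2 =
        ((c : ℝ) * ((Yk (i + 1) : ℝ) - Yk i) ^ 2 * 10000) / (1048576 * 1000000000000) := by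
      ring
    have e4 : (X : ℝ) / 1048576 * (2 * ((Yk i : ℝ) / 10000) * (((Yk i : ℝ) / 10000) ^ 2 - 1)) =
        ((X : ℝ) * (2 * Yk i * ((Yk i : ℝ) ^ 2 - 100000000))) / (1048576 * 1000000000000) := by
      ring
    rw [e3, e4]
    exact div_le_div_of_nonneg_right g (by norm_num)
  have b := slot_plus (n := (r : ℝ) - 200) (C := (c : ℝ) / 1048576)
    (M := (idx m : ℝ) - 200 - (X : ℝ) / 1048576) (e := (X : ℝ) / 1048576)
    (div_nonneg (Nat.cast_nonneg _) (by norm_num)) (div_nonneg (Nat.cast_nonneg _) (by norm_num))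
    hA hy1 hy2 b1 b2 b3
  have hy0 : 0 < y := by linarith
  have hyy : 0 < 2 * y := by linarith
  rw [e1, e2]
  have h3 : ((r : ℝ) - 200) * ((y ^ 2 + 1) / (2 * y)) + (c : ℝ) / 1048576 ≤
      ((idx m : ℝ) - 200) * ((y ^ 2 - 1) / (2 * y)) := by
    have e3 : ((r : ℝ) - 200) * ((y ^ 2 + 1) / (2 * y)) + (c : ℝ) / 1048576 =
        (((r : ℝ) - 200) * (y ^ 2 + 1) + 2 * ((c : ℝ) / 1048576) * y) / (2 * y) := by
      field_simp
    have e4 : ((idx m : ℝ) - 200) * ((y ^ 2 - 1) / (2 * y)) =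
        (((idx m : ℝ) - 200 - (X : ℝ) / 1048576 + (X : ℝ) / 1048576) * (y ^ 2 - 1)) / (2 * y) := by
      ring
    rw [e3, e4]
    exact div_le_div_of_nonneg_right b hyy.le
  have h4 : K ≤ (c : ℝ) / 1048576 := by
    rw [le_div_iff₀ (by norm_num)]
    linarith
  linarith

end Pool.Agent.MMS14
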