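import Pool.Agent.H36.MMSMain

/-!
# MMS14/StarA: double counting of disjoint pairs

`R` has `n - 1` elements.  Bad sets: `U ⊆ R`, `|U| = k - 1`, `sg x U < -1`; good sets: `T ⊆ R`, `|T| = k`, `0 ≤ sg x T`.
`∑_(U bad) ∑_(T good, T ⊆ R \ U) w(T) ≥ #bad * C(n - k, k) * k / (n - k) = #bad * C(n - k - 1, k - 1)` (`h2`; `|R \ U| = n - k`; `choose_eq`), and exchanging the
sums it is `∑_(T good) w(T) #{U bad ⊆ R \ T} = ∑_(T good) w(T) C(n - 1 - k, k - 1) pr(..) ≤ #good * C(n - 1 - k, k - 1)` (`h1`; `|R \ T| = n - 1 - k`).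
-/

open Finset Pool.Agent.H36.MMS

set_option autoImplicit false

namespace Pool.Agent.MMS14

variable {α : Type*} [DecidableEq α]

theorem star_count {R : Finset α} {n k : ℕ} (x : α → ℝ) (hR : R.card + 1 = n) (hk : 1 ≤ k) (hkn : 2 * k ≤ n)
    (w : ℝ → ℝ)
    (h1 : ∀ T, T ⊆ R → T.card = k → 0 ≤ sg x T → pr (R \ T) (k - 1) (fun U => sg x U < -1) * w (sg x T) ≤ 1)
    (h2 : ∀ U, U ⊆ R → U.card = k - 1 → sg x U < -1 →
      (k : ℝ) / ((n : ℝ) - k) ≤ avg (R \ U) k (fun T => if 0 ≤ sg x T then w (sg x T) else 0)) :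
    ((R.powersetCard (k - 1)).filter (fun U => sg x U < -1)).card ≤
      ((R.powersetCard k).filter (fun T => 0 ≤ sg x T)).card := by
  classical
  obtain ⟨A, hA⟩ : ∃ A, A = (R.powersetCard (k - 1)).filter (fun U => sg x U < -1) := ⟨_, rfl⟩
  obtain ⟨S, hS⟩ : ∃ S, S = (R.powersetCard k).filter (fun T => 0 ≤ sg x T) := ⟨_, rfl⟩
  rw [← hA, ← hS]
  obtain ⟨C, hC⟩ : ∃ C : ℝ, C = ((n - k - 1).choose (k - 1) : ℝ) := ⟨_, rfl⟩
  have hCpos : 0 < C := by
    rw [hC]
    exact_mod_cast Nat.choose_pos (by omega)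
  have claimA : ∀ U ∈ A, C ≤ ∑ T ∈ S, (if Disjoint U T then w (sg x T) else 0) := by
    intro U hU
    rw [hA, mem_filter, mem_powersetCard] at hU
    have hc : (R \ U).card = n - k := by
      rw [card_sdiff_of_subset hU.1.1]
      omega
    have e1 : ∑ T ∈ S, (if Disjoint U T then w (sg x T) else 0) =
        ∑ T ∈ (R \ U).powersetCard k, (if 0 ≤ sg x T then w (sg x T) else 0) := by
      rw [← Finset.sum_filter, ← Finset.sum_filter]
      refine Finset.sum_congr ?_ fun _ _ => rfl
      ext T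
      rw [hS, mem_filter, mem_filter, mem_filter, mem_powersetCard, mem_powersetCard,
        subset_sdiff, disjoint_comm]
      tauto
    have e2 : ∑ T ∈ (R \ U).powersetCard k, (if 0 ≤ sg x T then w (sg x T) else 0) =
        avg (R \ U) k (fun T => if 0 ≤ sg x T then w (sg x T) else 0) *
          ((n - k).choose k : ℝ) := by
      unfold avg
      rw [hc, div_mul_cancel₀]
      have := Nat.choose_pos (show k ≤ n - k by omega)
      exact_mod_cast this.ne'
    have e3 := choose_eq (n := n - k) hk (by omega)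
    have e4 := h2 U hU.1.1 hU.1.2 hU.2
    rw [e1, e2, hC, e3, Nat.cast_sub (by omega)]
    exact mul_le_mul_of_nonneg_right e4 (by positivity)
  have claimS : ∀ T ∈ S, ∑ U ∈ A, (if Disjoint U T then w (sg x T) else 0) ≤ C := by
    intro T hT
    rw [hS, mem_filter, mem_powersetCard] at hT
    have hc : (R \ T).card = n - k - 1 := by
      rw [card_sdiff_of_subset hT.1.1]
      omega
    have e1 : ∑ U ∈ A, (if Disjoint U T then w (sg x T) else 0) =
        ((((R \ T).powersetCard (k - 1)).filter (fun U => sg x U < -1)).card : ℝ) *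
          w (sg x T) := by
      rw [← Finset.sum_filter, Finset.sum_const, nsmul_eq_mul]
      congr 2
      congr 1
      ext U
      rw [hA, mem_filter, mem_filter, mem_filter, mem_powersetCard, mem_powersetCard,
        subset_sdiff]
      tauto
    have e2 : ((((R \ T).powersetCard (k - 1)).filter (fun U => sg x U < -1)).card : ℝ) =
        pr (R \ T) (k - 1) (fun U => sg x U < -1) * C := by
      rw [pr_eq, hc, ← hC, div_mul_cancel₀]
      exact hCpos.ne'
    have e3 := h1 T hT.1.1 hT.1.2 hT.2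
    rw [e1, e2]
    calc pr (R \ T) (k - 1) (fun U => sg x U < -1) * C * w (sg x T)
        = (pr (R \ T) (k - 1) (fun U => sg x U < -1) * w (sg x T)) * C := by ring
      _ ≤ 1 * C := mul_le_mul_of_nonneg_right e3 hCpos.le
      _ = C := one_mul C
  have h3 : (A.card : ℝ) * C ≤ ∑ U ∈ A, ∑ T ∈ S, (if Disjoint U T then w (sg x T) else 0) := by
    rw [← nsmul_eq_mul, ← Finset.sum_const]
    exact Finset.sum_le_sum claimA
  rw [Finset.sum_comm] at h3
  have h4 : ∑ T ∈ S, ∑ U ∈ A, (if Disjoint U T then w (sg x T) else 0) ≤ (S.card : ℝ) * C := by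
    rw [← nsmul_eq_mul, ← Finset.sum_const]
    exact Finset.sum_le_sum claimS
  have h5 : (A.card : ℝ) ≤ S.card := le_of_mul_le_mul_right (h3.trans h4) hCpos
  exact_mod_cast h5

end Pool.Agent.MMS14
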