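import Pool.Agent.H36.MMSMain

/-!
# MMS14/StarB: the weight and the Cantelli bound for the bad sets

`P = k / (n - k)`, `v = 1.04 P (1 - P)`, `starW P v g = 1 + (max 0 (1 - P (1 + g)))² / v`.
`star_cantelli`: `M = |R \ T| = n - 1 - k`, `W(U) = sg (zc x (R \ T)) U = sg x U + p (1 + g)`, `p = (k - 1) / M ≤ P` (because `n ≥ 2 k`), `g = sg x T`
(`sg x (R \ T) = -1 - g`).  If `1 - P (1 + g) ≤ 0` the weight is `1`, and `pr ≤ 1`.  Otherwise `λ = 1 - p (1 + g) ≥ 1 - P (1 + g) > 0`, and `cantelli` with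
`V = Vh M (k - 1) * dev x (R \ T)`: `pr ≤ V / (V + λ²)`.  `V ≤ v`: `Vh M (k-1) = p (1 - p) M / (M - 1)`, `p (1 - p) ≤ P (1 - P)` (`p ≤ P ≤ 1/2`),
`M / (M - 1) ≤ 1.04 / 1.03` (`M ≥ 200`), `dev x (R \ T) ≤ ps x 2 R ≤ 1.03` (`dev_le_center` with centre `0`).  Then
`V / (V + λ²) * (1 + φ² / v) ≤ 1` for `φ ≤ λ`, `V ≤ v`.
`var_le`: the same variance bound for `W` with `|W| = n - k` and `k`.
-/

open Finset Pool.Agent.H36.MMS

set_option autoImplicit false

namespace Pool.Agent.MMS14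

variable {α : Type*} [DecidableEq α]

/-- the weight of a good set with sum `g` -/
noncomputable def starW (P v g : ℝ) : ℝ := 1 + (max 0 (1 - P * (1 + g))) ^ 2 / v

private lemma dev_le_ps {R W : Finset α} (x : α → ℝ) (hW : W ⊆ R) : dev x W ≤ ps x 2 R := by
  refine (dev_le_center x W 0).trans ?_
  unfold ps
  have h : ∀ i ∈ W, (x i - 0) ^ 2 = x i ^ 2 := by intro i _; ring
  rw [Finset.sum_congr rfl h]
  exact Finset.sum_le_sum_of_subset_of_nonneg hW (fun i _ _ => by positivity)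

private lemma pr_le_one {U : Finset α} {k : ℕ} (hk : k ≤ U.card) (Q : Finset α → Prop) [DecidablePred Q] :
    pr U k Q ≤ 1 := by
  unfold pr
  have h := avg_mono (U := U) (k := k) (f := fun S => if Q S then (1:ℝ) else 0) (g := fun _ => (1:ℝ))
    (by intro S _ _; split_ifs <;> norm_num)
  rwa [avg_const hk] at h

theorem star_cantelli {R T : Finset α} {n k : ℕ} (x : α → ℝ) (hR : R.card + 1 = n) (hk : 1000 ≤ k) (hkn : 4 * k ≤ n)
    (hs : sg x R = -1) (hV : ps x 2 R ≤ 1.03) (hT : T ⊆ R) (hTc : T.card = k) (hT0 : 0 ≤ sg x T) :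
    pr (R \ T) (k - 1) (fun U => sg x U < -1) *
      starW ((k : ℝ) / ((n : ℝ) - k)) (1.04 * ((k : ℝ) / ((n : ℝ) - k)) * (1 - (k : ℝ) / ((n : ℝ) - k))) (sg x T) ≤ 1 := by
  have hkR : (1000:ℝ) ≤ k := by exact_mod_cast hk
  have hnR : (4:ℝ) * k ≤ n := by exact_mod_cast hkn
  set N : ℝ := (n:ℝ) - k with hN
  have hN3 : 3 * (k:ℝ) ≤ N := by rw [hN]; linarith
  have hNpos : 0 < N := by linarith
  set P : ℝ := (k:ℝ) / N with hP
  set g : ℝ := sg x T with hg
  have hP0 : 0 < P := by rw [hP]; positivity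
  have hP1 : P ≤ 1/3 := by
    rw [hP, div_le_iff₀ hNpos]; linarith
  set v : ℝ := 1.04 * P * (1 - P) with hv
  have hvpos : 0 < v := by
    rw [hv]; have : 0 < 1 - P := by linarith
    positivity
  -- cardinalities
  have hMc : (R \ T).card + k + 1 = n := by
    have := Finset.card_sdiff_add_card_eq_card hT
    omega
  have hMcR : ((R \ T).card : ℝ) = N - 1 := by
    have : (((R \ T).card + k + 1 : ℕ) : ℝ) = n := by exact_mod_cast hMc
    push_cast at this
    rw [hN]; linarith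
  have hk1 : k - 1 ≤ (R \ T).card := by omega
  have hk1R : ((k - 1 : ℕ) : ℝ) = (k:ℝ) - 1 := by
    have : 1 ≤ k := by omega
    push_cast [Nat.cast_sub this]; ring
  have hM0 : 0 < (R \ T).card := by omega
  have hM2 : 2 ≤ (R \ T).card := by omega
  have hpr1 : pr (R \ T) (k - 1) (fun U => sg x U < -1) ≤ 1 := pr_le_one hk1 _
  have hpr0 : 0 ≤ pr (R \ T) (k - 1) (fun U => sg x U < -1) := pr_nonneg _ _ _
  rcases le_or_gt (1 - P * (1 + g)) 0 with hneg | hpos
  · unfold starW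
    rw [max_eq_left hneg]
    simpa using hpr1
  · set φ : ℝ := 1 - P * (1 + g) with hφ
    have hstar : starW P v g = 1 + φ ^ 2 / v := by
      unfold starW
      rw [max_eq_right hpos.le]
    rw [hstar]
    set p : ℝ := ((k:ℝ) - 1) / (N - 1) with hp
    have hN1 : 0 < N - 1 := by linarith
    have hpP : p ≤ P := by
      rw [hp, hP, div_le_div_iff₀ hN1 hNpos]
      nlinarith
    set lam : ℝ := 1 - p * (1 + g) with hlam
    have hlamφ : φ ≤ lam := by
      rw [hφ, hlam]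
      have : p * (1 + g) ≤ P * (1 + g) := mul_le_mul_of_nonneg_right hpP (by linarith)
      linarith
    have hlampos : 0 < lam := lt_of_lt_of_le hpos hlamφ
    -- mean
    have hsW : sg x (R \ T) = -1 - g := by
      rw [sg_sdiff x hT, hs]
    have hmean : mean x (R \ T) = (-1 - g) / (N - 1) := by
      unfold mean
      rw [hsW, hMcR]
    set V : ℝ := Vh (R \ T).card ((k - 1 : ℕ) : ℝ) * dev x (R \ T) with hVdef
    have hVh : Vh (R \ T).card ((k - 1 : ℕ) : ℝ) = ((k:ℝ) - 1) * (N - k) / ((N - 1) * (N - 2)) := by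
      unfold Vh
      rw [hMcR, hk1R]
      congr 1 <;> ring
    have hN2 : 0 < N - 2 := by linarith
    have hNk : 0 < N - k := by linarith
    have hVh0 : 0 ≤ Vh (R \ T).card ((k - 1 : ℕ) : ℝ) := by
      rw [hVh]
      have : 0 ≤ (k:ℝ) - 1 := by linarith
      positivity
    have hdev0 := dev_nonneg x (R \ T)
    have hdev : dev x (R \ T) ≤ 1.03 := (dev_le_ps x Finset.sdiff_subset).trans hV
    have hV0 : 0 ≤ V := mul_nonneg hVh0 hdev0
    have hVv : V ≤ v := by
      have h1 : V ≤ Vh (R \ T).card ((k - 1 : ℕ) : ℝ) * 1.03 := mul_le_mul_of_nonneg_left hdev hVh0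
      refine h1.trans ?_
      rw [hVh]
      have hveq : v = 1.04 * (k * (N - k)) / (N * N) := by
        rw [hv, hP]; field_simp
      rw [hveq, div_mul_eq_mul_div, div_le_div_iff₀ (by positivity) (by positivity)]
      have hkey : 1.03 * ((k:ℝ) - 1) * (N * N) ≤ 1.04 * k * ((N - 1) * (N - 2)) := by
        have e1 : 1.03 * (N * N) ≤ 1.04 * ((N - 1) * (N - 2)) := by nlinarith
        have e0 : 0 ≤ 1.03 * (N * N) := by positivity
        calc 1.03 * ((k:ℝ) - 1) * (N * N) = k * (1.03 * (N * N)) - 1.03 * (N * N) := by ring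
          _ ≤ k * (1.03 * (N * N)) := by linarith
          _ ≤ k * (1.04 * ((N - 1) * (N - 2))) := mul_le_mul_of_nonneg_left e1 (by linarith)
          _ = 1.04 * k * ((N - 1) * (N - 2)) := by ring
      calc ((k:ℝ) - 1) * (N - k) * 1.03 * (N * N) = (1.03 * ((k:ℝ) - 1) * (N * N)) * (N - k) := by ring
        _ ≤ (1.04 * k * ((N - 1) * (N - 2))) * (N - k) := mul_le_mul_of_nonneg_right hkey hNk.le
        _ = 1.04 * (k * (N - k)) * ((N - 1) * (N - 2)) := by ring
    have hav1 : avg (R \ T) (k - 1) (fun S => sg (zc x (R \ T)) S ^ 1) = 0 := avg_W1 x hk1 hM0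
    have hav2 : avg (R \ T) (k - 1) (fun S => sg (zc x (R \ T)) S ^ 2) = V := avg_W2 x hk1 hM2
    have hc := cantelli hk1 (fun S => sg (zc x (R \ T)) S) hav1 hav2 hV0 hlampos
    have hpr : pr (R \ T) (k - 1) (fun U => sg x U < -1) ≤ V / (V + lam ^ 2) := by
      refine le_trans (pr_mono ?_) hc
      intro S _ hSc hS
      rw [sg_zc, hSc, hmean, hk1R, hlam, hp]
      have : ((k:ℝ) - 1) * ((-1 - g) / (N - 1)) = - (((k:ℝ) - 1) / (N - 1) * (1 + g)) := by
        field_simp; ring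
      rw [this]; linarith
    have h5 : V / (V + lam ^ 2) ≤ v / (v + φ ^ 2) := by
      rw [div_le_div_iff₀ (by positivity) (by positivity)]
      have h51 : V * φ ^ 2 ≤ v * lam ^ 2 := by
        have h52 : φ ^ 2 ≤ lam ^ 2 := pow_le_pow_left₀ hpos.le hlamφ 2
        exact mul_le_mul hVv h52 (by positivity) hvpos.le
      calc V * (v + φ ^ 2) = V * v + V * φ ^ 2 := by ring
        _ ≤ V * v + v * lam ^ 2 := by linarith
        _ = v * (V + lam ^ 2) := by ring
    have h6 : v / (v + φ ^ 2) * (1 + φ ^ 2 / v) = 1 := by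
      have : v + φ ^ 2 ≠ 0 := by positivity
      field_simp
    calc pr (R \ T) (k - 1) (fun U => sg x U < -1) * (1 + φ ^ 2 / v)
        ≤ v / (v + φ ^ 2) * (1 + φ ^ 2 / v) :=
          mul_le_mul_of_nonneg_right (hpr.trans h5) (by positivity)
      _ = 1 := h6

theorem var_le {R W : Finset α} {n k : ℕ} (x : α → ℝ) (hk : 1000 ≤ k) (hkn : 4 * k ≤ n) (hV : ps x 2 R ≤ 1.03)
    (hW : W ⊆ R) (hWc : W.card + k = n) :
    Vh W.card k * dev x W ≤ 1.04 * ((k : ℝ) / ((n : ℝ) - k)) * (1 - (k : ℝ) / ((n : ℝ) - k)) := by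
  have hkR : (1000:ℝ) ≤ k := by exact_mod_cast hk
  have hnR : (4:ℝ) * k ≤ n := by exact_mod_cast hkn
  set N : ℝ := (n:ℝ) - k with hN
  have hN3 : 3 * (k:ℝ) ≤ N := by rw [hN]; linarith
  have hNpos : 0 < N := by linarith
  have hN1 : 0 < N - 1 := by linarith
  have hNk : 0 < N - k := by linarith
  have hWR : (W.card : ℝ) = N := by
    have : ((W.card + k : ℕ) : ℝ) = n := by exact_mod_cast hWc
    push_cast at this
    rw [hN]; linarith
  have hdev0 := dev_nonneg x W
  have hdev : dev x W ≤ 1.03 := (dev_le_ps x hW).trans hV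
  have hVh : Vh W.card k = (k:ℝ) * (N - k) / (N * (N - 1)) := by
    unfold Vh
    rw [hWR]
  have hVh0 : 0 ≤ Vh W.card k := by
    rw [hVh]; positivity
  refine (mul_le_mul_of_nonneg_left hdev hVh0).trans ?_
  rw [hVh]
  have hveq : 1.04 * ((k:ℝ) / N) * (1 - (k:ℝ) / N) = 1.04 * (k * (N - k)) / (N * N) := by
    field_simp
  rw [hveq, div_mul_eq_mul_div, div_le_div_iff₀ (by positivity) (by positivity)]
  have e1 : 1.03 * N ≤ 1.04 * (N - 1) := by linarith
  have e2 : 0 ≤ (k:ℝ) * (N - k) * N := by positivity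
  calc (k:ℝ) * (N - k) * 1.03 * (N * N) = ((k:ℝ) * (N - k) * N) * (1.03 * N) := by ring
    _ ≤ ((k:ℝ) * (N - k) * N) * (1.04 * (N - 1)) := mul_le_mul_of_nonneg_left e1 e2
    _ = 1.04 * (k * (N - k)) * (N * (N - 1)) := by ring

end Pool.Agent.MMS14
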