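import Pool.Agent.MMS14.StarB

/-!
# MMS14/StarC: the conditional Jensen inequality

`A(T) = 1(0 ≤ sg x T)`, `π = avg A`, `g = sg x T`, `μ = k * mean x W = avg g` (`avg_W1`, `sg_zc`), `V = avg (g - μ)² = Vh * dev ≤ v` (`avg_W2`).
`avg (A (g - μ)) = avg ((A - π)(g - μ)) ≤ √(π (1 - π) V)` (Cauchy–Schwarz for `avg`: `0 ≤ avg ((a f + b h)²)` or `Finset.inner_mul_le_norm_mul_norm`), so
`avg (A (1 - P (1 + g))) ≥ π (1 - P (1 + μ)) - P √(π (1 - π) v) = π (1 - P (1 + h))`, `h = μ + √(v (1 - π) / π)`.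
With `φ = max 0 (1 - P (1 + g)) ≥ 1 - P (1 + g)`: `avg (A φ²) ≥ (avg (A φ))² / π ≥ π (max 0 (1 - P (1 + h)))²` (Cauchy–Schwarz again, `avg A² = π`).
-/

open Finset Pool.Agent.H36.MMS

set_option autoImplicit false

namespace Pool.Agent.MMS14

variable {α : Type*} [DecidableEq α]

theorem avg_cs {U : Finset α} {k : ℕ} (f g : Finset α → ℝ) :
    (avg U k (fun S => f S * g S)) ^ 2 ≤ avg U k (fun S => f S ^ 2) * avg U k (fun S => g S ^ 2) := by
  unfold avg
  rw [div_pow, div_mul_div_comm, ← pow_two]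
  exact div_le_div_of_nonneg_right (Finset.sum_mul_sq_le_sq_mul_sq _ _ _) (by positivity)

theorem star_jensen {W : Finset α} {k : ℕ} (x : α → ℝ) (hk : k ≤ W.card) (hW : 2 ≤ W.card) {P v π : ℝ} (hP : 0 ≤ P)
    (hv : 0 < v) (hV : Vh W.card k * dev x W ≤ v) (hπ : π = pr W k (fun T => 0 ≤ sg x T)) (hπ0 : 0 < π) :
    π * (1 + (max 0 (1 - P * (1 + (k * mean x W + √(v * ((1 - π) / π)))))) ^ 2 / v) ≤
      avg W k (fun T => if 0 ≤ sg x T then starW P v (sg x T) else 0) := by
  set μ : ℝ := k * mean x W with hμ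
  set c : ℝ := √(v * ((1 - π) / π)) with hc
  set A : Finset α → ℝ := fun T => if 0 ≤ sg x T then (1 : ℝ) else 0 with hA
  set G : Finset α → ℝ := fun T => sg (zc x W) T with hG
  have hGe : ∀ T : Finset α, T.card = k → G T = sg x T - μ := by
    intro T hT
    rw [hG, hμ]
    simp only [sg_zc, hT]
  have hπA : avg W k A = π := by rw [hπ]; rfl
  have hG1 : avg W k G = 0 := by
    have := avg_W1 x hk (by omega : 0 < W.card)
    simpa using this
  have hG2 : avg W k (fun T => G T ^ 2) ≤ v := by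
    have := avg_W2 x hk hW
    rw [hG]
    linarith
  have hπ1 : π ≤ 1 := by
    rw [← hπA, ← avg_const hk (1 : ℝ)]
    refine avg_mono fun S _ _ => ?_
    simp only [hA]
    split_ifs <;> norm_num
  have hA2 : avg W k (fun T => (A T - π) ^ 2) = π * (1 - π) := by
    have e : avg W k (fun T => (A T - π) ^ 2) = avg W k (fun T => (1 - 2 * π) * A T + π ^ 2) := by
      refine avg_congr fun T _ _ => ?_
      simp only [hA]
      split_ifs <;> ring
    rw [e, avg_add, avg_mul, avg_const hk, hπA]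
    ring
  have hAG : avg W k (fun T => A T * G T) ≤ √(v * (π * (1 - π))) := by
    have e : avg W k (fun T => A T * G T) = avg W k (fun T => (A T - π) * G T) := by
      have e1 : avg W k (fun T => (A T - π) * G T) =
          avg W k (fun T => A T * G T - π * G T) := by
        refine avg_congr fun T _ _ => ?_
        ring
      rw [e1, avg_sub, avg_mul, hG1]
      ring
    rw [e]
    have h1 := avg_cs (U := W) (k := k) (fun T => A T - π) G
    rw [hA2] at h1
    have h2 : 0 ≤ π * (1 - π) := mul_nonneg hπ0.le (by linarith)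
    have h3 : (avg W k (fun T => (A T - π) * G T)) ^ 2 ≤ v * (π * (1 - π)) := by
      refine h1.trans ?_
      rw [mul_comm v]
      exact mul_le_mul_of_nonneg_left hG2 h2
    exact Real.le_sqrt_of_sq_le h3
  have hπc : √(v * (π * (1 - π))) = π * c := by
    have e : v * (π * (1 - π)) = π ^ 2 * (v * ((1 - π) / π)) := by
      field_simp
    rw [e, Real.sqrt_mul (by positivity), Real.sqrt_sq hπ0.le]
  set ψ : ℝ := 1 - P * (1 + (μ + c)) with hψ
  set t : ℝ := max 0 ψ with ht
  have ht0 : 0 ≤ t := le_max_left _ _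
  have htψ : t * ψ = t ^ 2 := by
    rcases le_total 0 ψ with h | h
    · rw [ht, max_eq_right h]; ring
    · rw [ht, max_eq_left h]; ring
  have hlin : π * ψ ≤ avg W k (fun T => (1 - P * (1 + μ)) * A T - P * (A T * G T)) := by
    rw [avg_sub, avg_mul, avg_mul, hπA]
    have h1 : P * avg W k (fun T => A T * G T) ≤ P * (π * c) := by
      rw [← hπc]
      exact mul_le_mul_of_nonneg_left hAG hP
    rw [hψ]
    nlinarith [h1]
  have hmain : avg W k (fun T => (1 - t ^ 2 / v) * A T + (2 * t / v) *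
      ((1 - P * (1 + μ)) * A T - P * (A T * G T))) ≤
      avg W k (fun T => if 0 ≤ sg x T then starW P v (sg x T) else 0) := by
    refine avg_mono fun T _ hT => ?_
    rw [hGe T hT]
    simp only [hA]
    split_ifs with h
    · unfold starW
      have h1 : 2 * t * (1 - P * (1 + sg x T)) - t ^ 2 ≤ (max 0 (1 - P * (1 + sg x T))) ^ 2 := by
        have h2 : 1 - P * (1 + sg x T) ≤ max 0 (1 - P * (1 + sg x T)) := le_max_right _ _
        nlinarith [sq_nonneg (t - max 0 (1 - P * (1 + sg x T))), mul_le_mul_of_nonneg_left h2 ht0]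
      have h3 := div_le_div_of_nonneg_right h1 hv.le
      refine le_trans (le_of_eq ?_) (add_le_add_right h3 1)
      field_simp
      ring
    · simp
  refine le_trans ?_ hmain
  rw [avg_add, avg_mul, avg_mul, hπA]
  have h4 : (2 * t / v) * (π * ψ) ≤ (2 * t / v) *
      avg W k (fun T => (1 - P * (1 + μ)) * A T - P * (A T * G T)) :=
    mul_le_mul_of_nonneg_left hlin (by positivity)
  refine le_trans (le_of_eq ?_) (add_le_add_right h4 ((1 - t ^ 2 / v) * π))
  have h5 : (2 * t / v) * (π * ψ) = 2 * π * (t * ψ) / v := by ring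
  rw [h5, htψ]
  ring

end Pool.Agent.MMS14
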