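import Pool.Agent.MMS14.Dp

/-!
# MMS14/StarLow: lower bounds for all lists from `minOk`

Sort the list (`exists_srt`, `Pr_perm`, `ss_perm`); the head is `≠ 0` as `ss l > 0`; `ss / h² ≥ 1 = Sc 0`, `cover_from` gives a cell; row `i = 201 - m`:
`(i - 200)/50 = (1 - m)/50` (`m ≤ 201`); `minOk_sound`, `lookOk_sound`, `geOk_msk` with `j = 0` (lanes of a row are `< 2^17`;
`hvs` gives `vs_m ≤ 65536`).
-/

set_option autoImplicit false

namespace Pool.Agent.MMS14

def StarLowOk (P0 P1 : ℕ) (vs : List ℕ) : Prop :=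
  ∀ p : ℝ, (P0 : ℝ) / 16384 ≤ p → p ≤ (P1 : ℝ) / 16384 → 1 / 5 ≤ p → ∀ l : List ℝ, 0 < ss l →
    ∀ m, m < vs.length → ∀ t : ℝ, t ≤ (1 - (m : ℝ)) / 50 * sd p l → ((vs.getD m 0 : ℕ) : ℝ) / 65536 ≤ Pr p l t

theorem starLow_of {q : Par} {rows : List ℕ} {tab : List (List ℕ)} {vs : List ℕ} (hpar : parOk q = true)
    (hlen : rows.length = 351) (hrow : ∀ r, RowP (rowv rows r)) (hG : Good q.P0 q.P1 rows)
    (hlook : lookOk tab rows 0 = true) (hmin : minOk tab vs 201 = true) (hvl : vs.length ≤ 201)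
    (hvs : ∀ v ∈ vs, v ≤ 65536) : StarLowOk q.P0 q.P1 vs := by
  intro p hp0 hp1 hp5 l hl m hm t ht
  have hP1 : q.P1 ≤ 8192 := by
    unfold parOk et at hpar
    simp only [Bool.cond_false_right, Bool.and_eq_true] at hpar
    exact Nat.le_of_ble_eq_true hpar.2.2.1
  have hp2 : p ≤ 1 / 2 := by
    have h1 : (q.P1 : ℝ) ≤ 8192 := by exact_mod_cast hP1
    linarith
  obtain ⟨l', hperm, hsrt⟩ := exists_srt l
  have hsd : sd p l = sd p l' := by
    unfold sd
    rw [ss_perm hperm]
  rw [ss_perm hperm] at hl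
  rw [Pr_perm hperm]
  rw [hsd] at ht
  cases l' with
  | nil =>
    simp [ss] at hl
  | cons h l' =>
    have hssn : 0 ≤ ss l' := by
      unfold ss
      refine List.sum_nonneg fun x hx => ?_
      obtain ⟨a, _, rfl⟩ := List.mem_map.1 hx
      exact sq_nonneg a
    have hss : ss (h :: l') = h ^ 2 + ss l' := by
      unfold ss
      rw [List.map_cons, List.sum_cons]
    have hh : h ≠ 0 := by
      intro h0
      have h1 : ∀ a ∈ l', a = 0 := by
        intro a ha
        have h2 := List.rel_of_pairwise_cons hsrt ha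
        rw [h0, abs_zero] at h2
        exact abs_nonpos_iff.1 h2
      have h2 : ss l' = 0 := by
        unfold ss
        refine List.sum_eq_zero fun x hx => ?_
        obtain ⟨a, ha, rfl⟩ := List.mem_map.1 hx
        rw [h1 a ha]
        norm_num
      rw [hss, h2, h0] at hl
      norm_num at hl
    have hh2 : 0 < h ^ 2 := by positivity
    have hS : Sc 0 ≤ ss (h :: l') / h ^ 2 := by
      rw [Sc_zero, le_div_iff₀ hh2, one_mul, hss]
      linarith
    obtain ⟨k, -, hk⟩ := cover_from (Nat.zero_le 126) hS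
    have hm' : m ≤ 201 := by omega
    have hi : 201 - m < rows.length := by omega
    have hval : vs.getD m 0 ≤ 65536 := by
      rw [List.getD_eq_getElem _ _ hm]
      exact hvs _ (List.getElem_mem hm)
    have h3 := minOk_sound hmin m hm hm'
    rw [lookOk_sound hlook _ hi] at h3
    have hr := hrow (201 - m)
    have h4 := geOk_msk (Nat.zero_le 126) (hval.trans (by norm_num)) hr.1
      (fun k hk => (hr.2 k hk).trans (by norm_num)) h3 k (Nat.zero_le k) hk.1
    have hcast : (((201 - m : ℕ) : ℝ) - 200) / 50 = (1 - (m : ℝ)) / 50 := by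
      rw [Nat.cast_sub hm']
      push_cast
      ring
    rw [← hcast] at ht
    have h5 := hG l'.length k hk.1 (201 - m)
    rcases lt_or_gt_of_ne hh with hneg | hpos
    · have h6 := h5.2 p hp0 hp1 hp5 hp2 h l' hsrt le_rfl (by simpa using hneg) hk t ht
      refine le_trans (div_le_div_of_nonneg_right ?_ (by norm_num)) h6
      exact_mod_cast h4.2
    · have h6 := h5.1 p hp0 hp1 hp5 hp2 h l' hsrt le_rfl (by simpa using hpos) hk t ht
      refine le_trans (div_le_div_of_nonneg_right ?_ (by norm_num)) h6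
      exact_mod_cast h4.1

end Pool.Agent.MMS14
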