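import Pool.Agent.MMS14.StarC
import Pool.Agent.MMS14.StarLow
import Pool.Agent.MMS14.HajD

/-!
# MMS14/StarD: the complement of a bad set, with the table

`W` (the complement of a bad set in `R`) has `n - k` elements, `sg x W > 0`, `P = k / (n - k) ∈ [P0, P1] / 2^14`, `v = 1.04 P (1 - P)`,
`D = dev x W ≤ 1.03` (`dev_le_center` with centre 0).
* `D = 0`: `x` is constant on `W`, equal to `mean > 0`, all sums are positive; the average is at least `1 ≥ P`.
* `D > 0`: `l = W.toList.map (zc x W)`, `ss l = D` (`ss_toList`), `sg (zc x W) W = 0`, `σ = √(P (1 - P) D) = sd P l`, `μ = k mean > 0`,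
  `0 ≤ sg x T ↔ -μ ≤ sg (zc x W) T` (`sg_zc`).  `m0 = ⌊50 μ / σ⌋₊`, `m = min m0 ws.length`.  `hajek` with `ε = 0.008`: the threshold
  `-μ + 0.008 √D ≤ (1 - m)/50 σ` (`μ ≥ m σ / 50`, `σ ≥ 0.4 √D` as `P (1 - P) ≥ 0.16` for `P ∈ [1/5, 1/2]`); loss
  `√(n-k) / (2 (n-k-1) 0.000064) ≤ 8 / 65536` (`n - k ≥ 3 * 10^26`).  So `π ≥ π₀ = (vs_m - 8) / 65536` (`StarLowOk`).
  - `m = ws.length`: the last condition of `starS` gives `π₀ ≥ P1 / 2^14 ≥ P`, and the average is at least `π`.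
  - `m = m0 < ws.length`: `μ < (m + 1)/50 σ`, `σ ≤ √v`, `√((1 - π)/π) ≤ √((1 - π₀)/π₀) ≤ w_m / 2^20` (`starC`), so `h ≤ √v ((m+1)/50 + w_m/2^20)`, and
    `(1 - P (1 + h)) / √v ≥ √((1 - P)/(1.04 P)) - P ((m+1)/50 + w_m / 2^20) ≥ g / 2^20` with the `g` of `starC` (`P ≤ P1/2^14`, the condition on `c1`); `star_jensen`
    gives the average `≥ π (1 + (g/2^20)²) ≥ π₀ (1 + (g / 2^20)²) ≥ P1 / 2^14 ≥ P`.
`starS_sound`: unfold the recursion: for all `m < ws.length` the condition `starC P1 c1 (ws_m) (vs_m) m`, and `4 P1 + 8 ≤ vs_(ws.length)`.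
-/

open Finset Pool.Agent.H36.MMS

set_option autoImplicit false

namespace Pool.Agent.MMS14

private theorem hd0_getD' (l : List ℕ) : hd0 l = l.getD 0 0 := by cases l <;> rfl

private theorem tl_getD' (l : List ℕ) (j : ℕ) : (tl l).getD j 0 = l.getD (j + 1) 0 := by
  cases l
  · simp [tl]
  · simp [tl]

private theorem et_true' {a b : Bool} (h : et a b = true) : a = true ∧ b = true := by
  cases a
  · exact absurd h (by simp [et])
  · exact ⟨rfl, h⟩

private theorem starS_aux {P1 c1 : ℕ} (ws : List ℕ) : ∀ (lv : List ℕ) (m : ℕ),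
    starS P1 c1 ws lv m = true →
    (∀ j, j < ws.length → starC P1 c1 (ws.getD j 0) (lv.getD j 0) (m + j) = true) ∧
      4 * P1 + 8 ≤ lv.getD ws.length 0 := by
  induction ws with
  | nil =>
    intro lv m h
    refine ⟨fun j hj => absurd hj (by simp), ?_⟩
    have h1 : Nat.ble (4 * P1 + 8) (hd0 lv) = true := h
    rw [hd0_getD'] at h1
    exact Nat.le_of_ble_eq_true h1
  | cons w ws ih =>
    intro lv m h
    have h1 : et (starC P1 c1 w (hd0 lv) m) (starS P1 c1 ws (tl lv) (m + 1)) = true := h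
    obtain ⟨h2, h3⟩ := et_true' h1
    obtain ⟨h4, h5⟩ := ih _ _ h3
    constructor
    · intro j hj
      cases j with
      | zero =>
        rw [hd0_getD'] at h2
        simpa using h2
      | succ j =>
        have h6 := h4 j (by simpa using hj)
        rw [tl_getD'] at h6
        rw [show m + (j + 1) = m + 1 + j by ring]
        simpa using h6
    · rw [tl_getD'] at h5
      simpa using h5

theorem starS_sound {P1 c1 : ℕ} {ws lv : List ℕ} (h : starS P1 c1 ws lv 0 = true) :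
    (∀ m, m < ws.length → starC P1 c1 (ws.getD m 0) (lv.getD m 0) m = true) ∧ 4 * P1 + 8 ≤ lv.getD ws.length 0 := by
  obtain ⟨h1, h2⟩ := starS_aux ws lv 0 h
  refine ⟨fun m hm => ?_, h2⟩
  have h3 := h1 m hm
  rwa [zero_add] at h3

private theorem nmul' (a b : ℕ) : Nat.mul a b = a * b := rfl

private theorem nadd' (a b : ℕ) : Nat.add a b = a + b := rfl

private theorem nsub' (a b : ℕ) : Nat.sub a b = a - b := rfl

private theorem ndiv' (a b : ℕ) : Nat.div a b = a / b := rfl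

private theorem starC_iff {P1 c1 w vm m : ℕ} (h : starC P1 c1 w vm m = true) :
    1099511627776 * (65544 - vm) ≤ w * w * (vm - 8) ∧
    P1 * 4398046511104 ≤ (vm - 8) * (1099511627776 +
      (c1 - (P1 * (1048576 * (m + 1) + 50 * w) / 819200 + 1)) *
      (c1 - (P1 * (1048576 * (m + 1) + 50 * w) / 819200 + 1))) := by
  unfold starC at h
  obtain ⟨h1, h2⟩ := et_true' h
  have h1' := Nat.le_of_ble_eq_true h1
  have h2' := Nat.le_of_ble_eq_true h2
  simp only [nmul', nadd', nsub', ndiv', Nat.succ_eq_add_one] at h1' h2'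
  exact ⟨h1', h2'⟩

private theorem sq_le' {a b : ℝ} (hb : 0 ≤ b) (h : a ^ 2 ≤ b ^ 2) : a ≤ b :=
  le_of_sq_le_sq h hb

private theorem num_a {a w : ℕ} {π : ℝ} (h3 : 1099511627776 * (65536 - (a + 1)) ≤ w * w * (a + 1))
    (hπ0 : ((a : ℝ) + 1) / 65536 ≤ π) : (1 - π) / π ≤ ((w : ℝ) / 1048576) ^ 2 := by
  have ha : (0 : ℝ) < (a : ℝ) + 1 := by positivity
  have hπp : 0 < π := lt_of_lt_of_le (by positivity) hπ0
  have h5 : (1099511627776 : ℝ) * (65536 - ((a : ℝ) + 1)) ≤ (w : ℝ) * w * ((a : ℝ) + 1) := by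
    have h6 : ((1099511627776 * (65536 - (a + 1)) : ℕ) : ℝ) ≤ ((w * w * (a + 1) : ℕ) : ℝ) :=
      Nat.cast_le.2 h3
    have h7 : (65536 : ℝ) - ((a : ℝ) + 1) ≤ ((65536 - (a + 1) : ℕ) : ℝ) := by
      rcases le_total (a + 1) 65536 with h | h
      · rw [Nat.cast_sub h]
        push_cast
        exact le_refl _
      · have h8 : ((65536 : ℕ) : ℝ) ≤ ((a + 1 : ℕ) : ℝ) := Nat.cast_le.2 h
        have h9 : (0 : ℝ) ≤ ((65536 - (a + 1) : ℕ) : ℝ) := Nat.cast_nonneg _
        push_cast at h8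
        linarith
    rw [Nat.cast_mul, Nat.cast_mul, Nat.cast_mul, Nat.cast_add a 1, Nat.cast_one,
      Nat.cast_ofNat] at h6
    linarith
  rw [div_le_iff₀ hπp, div_pow]
  have h7 : (1 : ℝ) * 1099511627776 - π * 1099511627776 ≤ (w : ℝ) ^ 2 * π := by
    have e1 : (a : ℝ) + 1 ≤ 65536 * π := by
      rw [div_le_iff₀ (by norm_num)] at hπ0
      linarith
    have e2 : (0 : ℝ) ≤ (w : ℝ) ^ 2 := by positivity
    have e3 : 1099511627776 * 65536 ≤ ((w : ℝ) ^ 2 + 1099511627776) * ((a : ℝ) + 1) := by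
      linarith
    have e4 : ((w : ℝ) ^ 2 + 1099511627776) * ((a : ℝ) + 1) ≤
        ((w : ℝ) ^ 2 + 1099511627776) * (65536 * π) :=
      mul_le_mul_of_nonneg_left e1 (by positivity)
    linarith
  have h8 : (w : ℝ) ^ 2 / 1048576 ^ 2 * π = ((w : ℝ) ^ 2 * π) / 1099511627776 := by
    norm_num
    ring
  rw [h8, le_div_iff₀ (by norm_num)]
  linarith

private theorem num_b {P1 c1 : ℕ} {P : ℝ} (hP5 : 1 / 5 ≤ P) (hP : P ≤ (P1 : ℝ) / 16384)
    (hPh : P ≤ 1 / 2) (hP1 : P1 ≤ 8192)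
    (hc2 : c1 * c1 * (104 * P1) ≤ 109951162777600 * (16384 - P1)) :
    (c1 : ℝ) / 1048576 * √(1.04 * P * (1 - P)) ≤ 1 - P := by
  have hv : 0 < 1.04 * P * (1 - P) := by nlinarith
  have hs2 : √(1.04 * P * (1 - P)) ^ 2 = 1.04 * P * (1 - P) := Real.sq_sqrt hv.le
  apply sq_le' (by linarith)
  rw [mul_pow, hs2, div_pow]
  have e1 : (c1 : ℝ) * c1 * (104 * P1) ≤ 109951162777600 * (16384 - (P1 : ℝ)) := by
    have e2 : ((c1 * c1 * (104 * P1) : ℕ) : ℝ) ≤ ((109951162777600 * (16384 - P1) : ℕ) : ℝ) :=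
      Nat.cast_le.2 hc2
    rw [Nat.cast_mul 109951162777600, Nat.cast_sub (hP1.trans (by norm_num))] at e2
    push_cast at e2
    exact e2
  have e2 : (c1 : ℝ) ^ 2 * (1.04 * P) ≤ 1099511627776 * (1 - P) := by
    have e3 : (16384 : ℝ) * P ≤ P1 := by
      rw [le_div_iff₀ (by norm_num)] at hP
      linarith
    have e4 : (0 : ℝ) ≤ (c1 : ℝ) ^ 2 := by positivity
    have e5 : (c1 : ℝ) ^ 2 * (104 * (16384 * P)) ≤ (c1 : ℝ) ^ 2 * (104 * P1) :=
      mul_le_mul_of_nonneg_left (by linarith) e4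
    nlinarith
  have e3 : (c1 : ℝ) ^ 2 / 1048576 ^ 2 * (1.04 * P * (1 - P)) =
      (c1 : ℝ) ^ 2 * (1.04 * P) * (1 - P) / 1099511627776 := by
    norm_num
    ring
  rw [e3, div_le_iff₀ (by norm_num)]
  have e4 : 0 ≤ 1 - P := by linarith
  nlinarith

private theorem num_c {P1 c1 w m : ℕ} {P μ σ s X : ℝ} (hP0 : 0 ≤ P)
    (hP : P ≤ (P1 : ℝ) / 16384)
    (hσ : σ ≤ s) (hs0 : 0 < s) (hμ : μ ≤ ((m : ℝ) + 1) / 50 * σ)
    (h7 : X ≤ s * ((w : ℝ) / 1048576)) (h9 : (c1 : ℝ) / 1048576 * s ≤ 1 - P) :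
    s * (((c1 - (P1 * (1048576 * (m + 1) + 50 * w) / 819200 + 1) : ℕ) : ℝ) / 1048576) ≤
      max 0 (1 - P * (1 + (μ + X))) := by
  generalize hg : c1 - (P1 * (1048576 * (m + 1) + 50 * w) / 819200 + 1) = g
  rcases Nat.eq_zero_or_pos g with hg0 | hg0
  · rw [hg0]
    simp
  · refine le_trans ?_ (le_max_right _ _)
    have e1 : (g : ℝ) ≤ c1 - P1 * (1048576 * ((m : ℝ) + 1) + 50 * w) / 819200 := by
      have e3 : P1 * (1048576 * (m + 1) + 50 * w) <
          819200 * (P1 * (1048576 * (m + 1) + 50 * w) / 819200 + 1) :=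
        Nat.lt_mul_div_succ _ (by norm_num)
      have e7 : ((P1 * (1048576 * (m + 1) + 50 * w) : ℕ) : ℝ) =
        P1 * (1048576 * ((m : ℝ) + 1) + 50 * w) := by push_cast; ring
      generalize P1 * (1048576 * (m + 1) + 50 * w) = y at hg e3 e7
      generalize y / 819200 = z at hg e3
      have e2 : g + (z + 1) = c1 := by omega
      have e4 : (y : ℝ) < ((819200 * (z + 1) : ℕ) : ℝ) := Nat.cast_lt.2 e3
      have e5 : ((g + (z + 1) : ℕ) : ℝ) = c1 := by rw [e2]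
      push_cast at e4 e5
      rw [← e7]
      have e6 : (y : ℝ) / 819200 ≤ z + 1 := by
        rw [div_le_iff₀ (by norm_num)]
        linarith
      linarith
    have e2 : P * (((m : ℝ) + 1) / 50 + (w : ℝ) / 1048576) ≤
        (P1 : ℝ) / 16384 * (((m : ℝ) + 1) / 50 + (w : ℝ) / 1048576) :=
      mul_le_mul_of_nonneg_right hP (by positivity)
    have e3 : (P1 : ℝ) / 16384 * (((m : ℝ) + 1) / 50 + (w : ℝ) / 1048576) =
        (P1 * (1048576 * ((m : ℝ) + 1) + 50 * w) / 819200) / 1048576 := by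
      ring
    have e4 : (g : ℝ) / 1048576 ≤ (c1 : ℝ) / 1048576 -
        P * (((m : ℝ) + 1) / 50 + (w : ℝ) / 1048576) := by
      rw [e3] at e2
      have e5 : (g : ℝ) / 1048576 ≤
          (c1 - P1 * (1048576 * ((m : ℝ) + 1) + 50 * w) / 819200) / 1048576 := by
        gcongr
      rw [sub_div] at e5
      linarith
    have e5 : μ ≤ ((m : ℝ) + 1) / 50 * s :=
      hμ.trans (mul_le_mul_of_nonneg_left hσ (by positivity))
    have e6 : s * ((g : ℝ) / 1048576) ≤ s *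
        ((c1 : ℝ) / 1048576 - P * (((m : ℝ) + 1) / 50 + (w : ℝ) / 1048576)) :=
      mul_le_mul_of_nonneg_left e4 hs0.le
    have e7 : P * (μ + X) ≤
        P * (((m : ℝ) + 1) / 50 * s + s * ((w : ℝ) / 1048576)) :=
      mul_le_mul_of_nonneg_left (add_le_add e5 h7) hP0
    have e8 : s * ((c1 : ℝ) / 1048576 - P * (((m : ℝ) + 1) / 50 + (w : ℝ) / 1048576)) =
      (c1 : ℝ) / 1048576 * s - P * (((m : ℝ) + 1) / 50 * s + s * ((w : ℝ) / 1048576)) := by ring
    rw [e8] at e6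
    have e9 : 1 - P * (1 + (μ + X)) = (1 - P) - P * (μ + X) := by ring
    rw [e9]
    linarith

private theorem num_d {P1 a g : ℕ} (h4 : P1 * 4398046511104 ≤ (a + 1) * (1099511627776 + g * g)) :
    (P1 : ℝ) / 16384 ≤ ((a : ℝ) + 1) / 65536 * (1 + ((g : ℝ) / 1048576) ^ 2) := by
  have e1 : ((P1 * 4398046511104 : ℕ) : ℝ) ≤ (((a + 1) * (1099511627776 + g * g) : ℕ) : ℝ) :=
    Nat.cast_le.2 h4
  push_cast at e1
  have e2 : ((a : ℝ) + 1) / 65536 * (1 + ((g : ℝ) / 1048576) ^ 2) =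
      ((a : ℝ) + 1) * (1099511627776 + g * g) / (65536 * 1099511627776) := by
    rw [div_pow]
    norm_num
    ring
  rw [e2, div_le_div_iff₀ (by norm_num) (by norm_num)]
  linarith

/-- the numeric part -/
theorem star_num {P1 c1 w vm m : ℕ} {P π μ σ : ℝ} (hP5 : 1 / 5 ≤ P) (hP : P ≤ (P1 : ℝ) / 16384)
    (hP1 : P1 ≤ 8192)
    (hc : Nat.ble (Nat.mul (Nat.mul c1 c1) (Nat.mul 104 P1))
      (Nat.mul 109951162777600 (Nat.sub 16384 P1)) = true)
    (hs : starC P1 c1 w vm m = true)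
    (hσ : σ ≤ √(1.04 * P * (1 - P))) (hμ : μ ≤ ((m : ℝ) + 1) / 50 * σ)
    (hπ : ((vm : ℝ) - 8) / 65536 ≤ π) :
    P ≤ π * (1 + (max 0 (1 - P * (1 + (μ + √(1.04 * P * (1 - P) * ((1 - π) / π)))))) ^ 2 /
      (1.04 * P * (1 - P))) := by
  have hP1r : (P1 : ℝ) ≤ 8192 := by
    have h : (P1 : ℝ) ≤ ((8192 : ℕ) : ℝ) := Nat.cast_le.2 hP1
    rwa [Nat.cast_ofNat] at h
  have hPh : P ≤ 1 / 2 := by
    refine hP.trans ?_
    rw [div_le_iff₀ (by norm_num)]
    linarith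
  have hv : 0 < 1.04 * P * (1 - P) := by nlinarith
  have hs2 : √(1.04 * P * (1 - P)) ^ 2 = 1.04 * P * (1 - P) := Real.sq_sqrt hv.le
  have hs0 : 0 < √(1.04 * P * (1 - P)) := Real.sqrt_pos.2 hv
  obtain ⟨h3, h4⟩ := starC_iff hs
  have hc2 := Nat.le_of_ble_eq_true hc
  rw [nmul', nmul', nmul', nmul', nsub'] at hc2
  have h8 : 8 < vm := by
    by_contra h
    have h9 : vm - 8 = 0 := by omega
    rw [h9, mul_zero] at h3
    have h10 : 65536 ≤ 65544 - vm := by omega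
    generalize 65544 - vm = y at h3 h10
    omega
  obtain ⟨a, ha⟩ : ∃ a, vm = 9 + a := ⟨vm - 9, by omega⟩
  have e1 : vm - 8 = a + 1 := by omega
  have e2 : 65544 - vm = 65536 - (a + 1) := by omega
  rw [e1, e2] at h3
  rw [e1] at h4
  have hπ0 : ((a : ℝ) + 1) / 65536 ≤ π := by
    refine le_trans (le_of_eq ?_) hπ
    rw [ha]
    push_cast
    ring
  have hπp : 0 < π := lt_of_lt_of_le (by positivity) hπ0
  have h6 := num_a h3 hπ0
  have h7 : √(1.04 * P * (1 - P) * ((1 - π) / π)) ≤ √(1.04 * P * (1 - P)) * ((w : ℝ) / 1048576) := by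
    rw [Real.sqrt_mul hv.le]
    refine mul_le_mul_of_nonneg_left ?_ hs0.le
    rw [← Real.sqrt_sq (show (0 : ℝ) ≤ (w : ℝ) / 1048576 by positivity)]
    exact Real.sqrt_le_sqrt h6
  have h9 := num_b hP5 hP hPh hP1 hc2
  have h10 := num_c (P1 := P1) (m := m) (by linarith) hP hσ hs0 hμ h7 h9
  generalize c1 - (P1 * (1048576 * (m + 1) + 50 * w) / 819200 + 1) = g at h4 h10
  have h11 : ((g : ℝ) / 1048576) ^ 2 ≤
      (max 0 (1 - P * (1 + (μ + √(1.04 * P * (1 - P) * ((1 - π) / π)))))) ^ 2 /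
      (1.04 * P * (1 - P)) := by
    rw [le_div_iff₀ hv]
    have e1 := pow_le_pow_left₀ (by positivity) h10 2
    rw [mul_pow, hs2] at e1
    linarith
  have h12 := num_d h4
  refine hP.trans (h12.trans ?_)
  have e1 : 1 + ((g : ℝ) / 1048576) ^ 2 ≤ 1 +
      (max 0 (1 - P * (1 + (μ + √(1.04 * P * (1 - P) * ((1 - π) / π)))))) ^ 2 /
      (1.04 * P * (1 - P)) := by linarith
  exact mul_le_mul hπ0 e1 (by positivity) hπp.le

variable {α : Type*} [DecidableEq α]

theorem star_low {P0 P1 c1 : ℕ} {vs ws : List ℕ} (hlow : StarLowOk P0 P1 vs) (hst : starOk P1 c1 ws vs = true)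
    (hlen : ws.length < vs.length) (hP1 : P1 ≤ 8192) {R W : Finset α} {n k : ℕ} (x : α → ℝ) (hk : 10 ^ 26 ≤ k)
    (hkn : 4 * k ≤ n) (hp0 : (P0 : ℝ) / 16384 ≤ (k : ℝ) / ((n : ℝ) - k)) (hp1 : (k : ℝ) / ((n : ℝ) - k) ≤ (P1 : ℝ) / 16384)
    (hp5 : 1 / 5 ≤ (k : ℝ) / ((n : ℝ) - k)) (hV : ps x 2 R ≤ 1.03) (hW : W ⊆ R) (hWc : W.card + k = n) (hpos : 0 < sg x W) :
    (k : ℝ) / ((n : ℝ) - k) ≤ avg W k (fun T => if 0 ≤ sg x T then
      starW ((k : ℝ) / ((n : ℝ) - k)) (1.04 * ((k : ℝ) / ((n : ℝ) - k)) * (1 - (k : ℝ) / ((n : ℝ) - k))) (sg x T) else 0) := by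
  have hk' : 100000000000000000000000000 ≤ k := by norm_num at hk; exact hk
  have hkr : (100000000000000000000000000 : ℝ) ≤ k := by exact_mod_cast hk'
  have hnr : 4 * (k : ℝ) ≤ n := by exact_mod_cast hkn
  have hWr : (W.card : ℝ) = (n : ℝ) - k := by
    have h : (W.card : ℝ) + k = n := by exact_mod_cast hWc
    linarith
  have hN0 : (0 : ℝ) < (n : ℝ) - k := by linarith
  have hkW : k ≤ W.card := by omega
  have hW2 : 2 ≤ W.card := by omega
  have hvar := var_le (R := R) (W := W) x (by omega : 1000 ≤ k) hkn hV hW hWc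
  have hP3 : (k : ℝ) / ((n : ℝ) - k) ≤ 1 / 3 := by
    rw [div_le_iff₀ hN0]
    linarith
  have hPW : (k : ℝ) / W.card = (k : ℝ) / ((n : ℝ) - k) := by rw [hWr]
  generalize hPd : (k : ℝ) / ((n : ℝ) - k) = P at *
  have hv : 0 < 1.04 * P * (1 - P) := by nlinarith
  have hmean : 0 < mean x W := by
    unfold mean
    exact div_pos hpos (by rw [hWr]; exact hN0)
  have hge1 : ∀ g : ℝ, 1 ≤ starW P (1.04 * P * (1 - P)) g := by
    intro g
    unfold starW
    have h : 0 ≤ (max 0 (1 - P * (1 + g))) ^ 2 / (1.04 * P * (1 - P)) := by positivity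
    linarith
  have hD : dev x W ≤ 1.03 := by
    refine (dev_le_center x W 0).trans ?_
    refine le_trans ?_ hV
    unfold ps
    simp only [sub_zero]
    exact Finset.sum_le_sum_of_subset_of_nonneg hW (fun i _ _ => sq_nonneg _)
  have hsgS : ∀ S, S ⊆ W → S.card = k → sg (zc x W) S = sg x S - k * mean x W := by
    intro S _ hS
    rw [sg_zc, hS]
  rcases (dev_nonneg x W).eq_or_lt with h0 | hDpos
  · have hz : ∀ i ∈ W, zc x W i = 0 := by
      have h1 : ∑ i ∈ W, zc x W i ^ 2 = 0 := h0.symm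
      intro i hi
      have h2 := (Finset.sum_eq_zero_iff_of_nonneg (fun i _ => sq_nonneg _)).1 h1 i hi
      exact pow_eq_zero_iff (two_ne_zero) |>.1 h2
    have h1 : (1 : ℝ) = avg W k (fun _ => (1 : ℝ)) := (avg_const hkW 1).symm
    refine le_trans (by linarith : P ≤ 1) (le_trans h1.le ?_)
    apply avg_mono
    intro S hS hSc
    have h2 : sg (zc x W) S = 0 := Finset.sum_eq_zero (fun i hi => hz i (hS hi))
    have h3 := hsgS S hS hSc
    rw [h2] at h3
    have h4 : 0 ≤ (k : ℝ) * mean x W := by positivity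
    rw [if_pos (by linarith)]
    exact hge1 _
  -- `D > 0`
  have hst' := hst
  unfold starOk at hst'
  obtain ⟨hc, hS⟩ := et_true' hst'
  obtain ⟨hS1, hS2⟩ := starS_sound hS
  have hz0 : sg (zc x W) W = 0 := by
    rw [sg_zc, card_mul_mean x W (by omega), sub_self]
  have hss : ss (W.toList.map (zc x W)) = dev x W := ss_toList W (zc x W)
  have hPP : 0.16 ≤ P * (1 - P) := by nlinarith
  set σ : ℝ := sd P (W.toList.map (zc x W)) with hσd
  have hσ2 : σ = √(P * (1 - P) * dev x W) := by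
    rw [hσd]
    unfold sd
    rw [hss]
  have hσpos : 0 < σ := by
    rw [hσ2]
    apply Real.sqrt_pos.2
    positivity
  have hσv : σ ≤ √(1.04 * P * (1 - P)) := by
    rw [hσ2]
    apply Real.sqrt_le_sqrt
    nlinarith
  have hσD : 0.4 * √(dev x W) ≤ σ := by
    apply sq_le' hσpos.le
    rw [hσ2, mul_pow, Real.sq_sqrt hDpos.le, Real.sq_sqrt (by positivity)]
    nlinarith
  have hμ0 : 0 < (k : ℝ) * mean x W := by positivity
  have hcomp : pr W k (fun S => -((k : ℝ) * mean x W) ≤ sg (zc x W) S) ≤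
      pr W k (fun T => 0 ≤ sg x T) := by
    apply pr_mono
    intro S hS hSc h
    rw [hsgS S hS hSc] at h
    linarith
  have hhaj := hajek hkW hW2 (zc x W) hz0 (s := -((k : ℝ) * mean x W)) (ε := 0.008) (by norm_num)
  rw [hPW] at hhaj
  have hloss : √(W.card : ℝ) / (2 * ((W.card : ℝ) - 1) * 0.008 ^ 2) ≤ 8 / 65536 := by
    have hN : (100000000000000000000 : ℝ) ≤ W.card := by rw [hWr]; linarith
    have h1 : √(W.card : ℝ) * 10000000000 ≤ W.card := by
      have h2 : (10000000000 : ℝ) ≤ √(W.card : ℝ) := by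
        rw [show (10000000000 : ℝ) = √(10000000000 ^ 2) from (Real.sqrt_sq (by norm_num)).symm]
        apply Real.sqrt_le_sqrt
        linarith
      have h3 : √(W.card : ℝ) * √(W.card : ℝ) = W.card := Real.mul_self_sqrt (by positivity)
      nlinarith
    rw [div_le_iff₀ (by nlinarith)]
    linarith
  have hm1 : (⌊50 * ((k : ℝ) * mean x W) / σ⌋₊ : ℝ) ≤ 50 * ((k : ℝ) * mean x W) / σ :=
    Nat.floor_le (by positivity)
  have hm2 : 50 * ((k : ℝ) * mean x W) / σ < (⌊50 * ((k : ℝ) * mean x W) / σ⌋₊ : ℝ) + 1 :=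
    Nat.lt_floor_add_one _
  set m0 : ℕ := ⌊50 * ((k : ℝ) * mean x W) / σ⌋₊ with hm0
  rw [le_div_iff₀ hσpos] at hm1
  rw [div_lt_iff₀ hσpos] at hm2
  -- lower bound for `π`
  have hπge : ∀ m, m ≤ m0 → m ≤ ws.length →
      (((vs.getD m 0 : ℕ) : ℝ) - 8) / 65536 ≤ pr W k (fun T => 0 ≤ sg x T) := by
    intro m hm hm'
    have hmr : (m : ℝ) ≤ m0 := by exact_mod_cast hm
    have h1 := hlow P hp0 hp1 hp5 (W.toList.map (zc x W)) (by rw [hss]; exact hDpos) m
      (lt_of_le_of_lt hm' hlen) (-((k : ℝ) * mean x W) + 0.008 * √(ps (zc x W) 2 W)) (by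
        have h2 : ps (zc x W) 2 W = dev x W := rfl
        rw [h2]
        have h3 : (m : ℝ) * σ ≤ m0 * σ := mul_le_mul_of_nonneg_right hmr hσpos.le
        have h4 : (1 - (m : ℝ)) / 50 * σ = σ / 50 - (m : ℝ) * σ / 50 := by ring
        rw [← hσd, h4]
        linarith)
    rw [sub_div]
    linarith
  rcases lt_or_ge m0 ws.length with hlt | hge
  · have h1 := hπge m0 le_rfl hlt.le
    have h2 := star_num (m := m0) hp5 hp1 hP1 hc (hS1 m0 hlt) hσv
      (μ := (k : ℝ) * mean x W) (by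
        have h3 : ((m0 : ℝ) + 1) / 50 * σ = ((m0 : ℝ) + 1) * σ / 50 := by ring
        rw [h3, le_div_iff₀ (by norm_num)]
        linarith) h1
    have hπ0 : 0 < pr W k (fun T => 0 ≤ sg x T) := by
      by_contra h
      have h3 : pr W k (fun T => 0 ≤ sg x T) = 0 := le_antisymm (not_lt.1 h) (pr_nonneg _ _ _)
      rw [h3, zero_mul] at h2
      linarith
    exact h2.trans (star_jensen x hkW hW2 (by linarith) hv hvar rfl hπ0)
  · have h1 := hπge ws.length hge le_rfl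
    have h2 : ((4 * P1 + 8 : ℕ) : ℝ) ≤ ((vs.getD ws.length 0 : ℕ) : ℝ) := by exact_mod_cast hS2
    push_cast at h2
    have h3 : (P1 : ℝ) / 16384 ≤ (((vs.getD ws.length 0 : ℕ) : ℝ) - 8) / 65536 := by
      rw [div_le_div_iff₀ (by norm_num) (by norm_num)]
      linarith
    refine hp1.trans (h3.trans (h1.trans ?_))
    unfold pr
    apply avg_mono
    intro S _ _
    split_ifs
    · exact hge1 _
    · exact le_refl _

end Pool.Agent.MMS14
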