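import Pool.Agent.MMS14.TabS
import Pool.Agent.MMS14.StarA

/-!
# MMS14/StarE: the star regime

`R = Ω.erase a0`, `sg x R = -1`.  `from_star`: the sets `A ∋ a0` with `sg x A < 0` correspond to `U = A.erase a0 ⊆ R`, `|U| = k - 1`, `sg x U < -1`, the sets `S ∌ a0`
with `0 ≤ sg x S` are the good subsets of `R`.  `star_count` with `w = starW P v`, `P = k / (n - k)`, `v = 1.04 P (1 - P)`, `h1 = star_cantelli`,
`h2 = star_low_all` for `W = R \ U` (`|W| + k = n`, `sg x W = -1 - sg x U > 0`); `4 k ≤ n < 5 k` gives `1/4 ≤ P ≤ 1/3`.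
-/

open Finset Pool.Agent.H36.MMS

set_option autoImplicit false

namespace Pool.Agent.MMS14

variable {α : Type*} [DecidableEq α]

theorem star_final {Ω : Finset α} {n k : ℕ} {a0 : α} (x : α → ℝ) (hk : 10 ^ 26 ≤ k) (hkn : 4 * k ≤ n) (hkn5 : n < 5 * k)
    (hΩ : Ω.card = n) (ha0 : a0 ∈ Ω) (hxa : x a0 = 1) (hsum : sg x Ω = 0) (hV : ps x 2 (Ω.erase a0) ≤ 1.03) :
    (n - 1).choose (k - 1) ≤ ((Ω.powersetCard k).filter (fun S => 0 ≤ sg x S)).card := by
  have hk1 : 1000 ≤ k := le_trans (by norm_num) hk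
  have hk0 : (0 : ℝ) < k := by
    have : 0 < k := by omega
    exact_mod_cast this
  have hR : (Ω.erase a0).card + 1 = n := by
    rw [card_erase_of_mem ha0, hΩ]
    omega
  have hs : sg x (Ω.erase a0) = -1 := by
    have h1 := sg_erase x Ω ha0
    rw [hxa, hsum] at h1
    linarith
  have hn4 : 4 * (k : ℝ) ≤ n := by exact_mod_cast hkn
  have hn5 : (n : ℝ) < 5 * k := by exact_mod_cast hkn5
  have hnk : 0 < (n : ℝ) - k := by linarith
  have hP0 : 1 / 4 ≤ (k : ℝ) / ((n : ℝ) - k) := by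
    rw [le_div_iff₀ hnk]
    linarith
  have hP1 : (k : ℝ) / ((n : ℝ) - k) ≤ 1 / 3 := by
    rw [div_le_iff₀ hnk]
    linarith
  have hmain := star_count (R := Ω.erase a0) (n := n) (k := k) x hR (by omega) (by omega)
    (starW ((k : ℝ) / ((n : ℝ) - k)) (1.04 * ((k : ℝ) / ((n : ℝ) - k)) * (1 - (k : ℝ) / ((n : ℝ) - k))))
    (fun T hT hTc hT0 => star_cantelli x hR hk1 hkn hs hV hT hTc hT0)
    (fun U hU hUc hU1 => by
      have hWc : ((Ω.erase a0) \ U).card + k = n := by
        have h1 := card_sdiff_add_card_eq_card hU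
        omega
      have hsW : 0 < sg x ((Ω.erase a0) \ U) := by
        rw [sg_sdiff x hU, hs]
        linarith
      exact star_low_all x hk hkn hP0 hP1 hV sdiff_subset hWc hsW)
  apply from_star x (by omega) hΩ ha0
  refine le_trans ?_ (hmain.trans ?_)
  · apply card_le_card_of_injOn (fun A => A.erase a0)
    · intro A hA
      rw [mem_coe, mem_filter, mem_powersetCard] at hA
      obtain ⟨⟨hAΩ, hAc⟩, haA, hAs⟩ := hA
      rw [mem_coe, mem_filter, mem_powersetCard]
      refine ⟨⟨erase_subset_erase a0 hAΩ, ?_⟩, ?_⟩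
      · rw [card_erase_of_mem haA, hAc]
      · have h1 := sg_erase x A haA
        rw [hxa] at h1
        linarith
    · intro A hA B hB hAB
      rw [mem_coe, mem_filter] at hA hB
      simp only at hAB
      rw [← insert_erase hA.2.1, ← insert_erase hB.2.1, hAB]
  · apply card_le_card
    intro T hT
    rw [mem_filter, mem_powersetCard] at hT ⊢
    refine ⟨⟨hT.1.1.trans (erase_subset _ _), hT.1.2⟩, fun h => ?_, hT.2⟩
    exact (mem_erase.1 (hT.1.1 h)).1 rfl

end Pool.Agent.MMS14
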