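import Pool.Agent.MMS14.StepAux

/-!
# MMS14/StepP: one step of the game, positive head, cell `i ∈ [1, 125]`

Let `p`, `h > 0`, `l`, `S = ss (h :: l) / h² ∈ [S_i, S_(i+1)]`, row `r`, `t ≤ (r - 200) / 50 σ`, `v = lane (rowv rows r) i`.  For
`r ≥ 351` the row is `0`, `v = 0`.  Apply `loop_sound` to `cellP` (`sh = 32 i`, so the value is `v`; `apr = aprs`).
If `v ≤ aprs_r` use `aprs_sound`.  Otherwise `entOk` with the rows `ja`, `jb`.
`ss l = (S - 1) h² > 0` (`S ≥ S_1 > 1`), so `l = h' :: l'` with `h' ≠ 0` (sorted), `|h'| ≤ h`, `S' = ss l / h'² ≥ S - 1 ≥ S_j`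
(`jOk_sound`; if `j = 0` use `S' ≥ 1 = S_0`), `cover_from` gives `k' ≥ j` with `InC k' S'`, and `GoodN .. n` gives for the rows `ja`, `jb`
the bounds `lane (rowv rows ja) k'` or `lane .. (127 + k')` according to the sign of `h'`
for `Pr p l (t - (1 - p) h)` and `Pr p l (t + p h)`: the thresholds are
right by `slotM_sound` with `K = 50 √((1 - p) / p)`, `c = q.c1m` and `slotP_sound` with `K = 50 √(p / (1 - p))`, `c = q.c2p`
(multiply by `√(p (1 - p)) h / 50`; `sd p l = √(p (1-p)) √(S - 1) h`, `sd p (h :: l) = √(p (1 - p)) √S h`).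
`parOk` gives `c1m² P1 ≤ (50 * 2 ^ 20)² (2 ^ 14 - P1)`, so `c1m ≤ 50 * 2 ^ 20 √((1 - p) / p)` as `p ≤ P1 / 2 ^ 14`
(`2748779069440000 = 2500 * 2 ^ 40`), etc.  Finally `Pr_low_pos` with `P = P0 / 2 ^ 14` and `entOk_msk`.
-/

set_option autoImplicit false

namespace Pool.Agent.MMS14

theorem stepP {q : Par} {rows : List ℕ} (hp : parOk q = true) (hlen : rows.length = 351)
    (hrow : ∀ r, RowP (rowv rows r)) {n : ℕ} (hG : GoodN q.P0 q.P1 rows n) {i j : ℕ} (hi : 1 ≤ i) (hi' : i < 126)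
    (hj : j ≤ 126) (hjo : jOk j (Yk i) (Yk j) = true) (hc : cellP q rows aprs i j (Yk i) (Yk (i + 1)) = true) (r : ℕ) :
    LB q.P0 q.P1 (n + 1) (lane (rowv rows r) i) true i r := by
  intro p hpa hpb hp5 hp2 h l hs hl hpos hin t ht
  have hh : 0 < h := by simpa using hpos
  obtain ⟨hi126, hS1, hS2⟩ := hin
  have hS2 := hS2 hi'
  have p0 : 0 < p := by linarith
  have p1 : p < 1 := by linarith
  obtain ⟨q1, q2, q3, -⟩ := parOk_spec hp
  by_cases hr : r < 351
  swap
  · rw [lane_out (by omega), Nat.cast_zero, zero_div]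
    exact Pr_nonneg p0.le p1.le _ _
  have hssp : 0 < ss (h :: l) := by
    rw [ss_cons]
    have := ss_nonneg l
    positivity
  rcases loop_sound hc r (by omega) with h1 | h1
  · have h2 : lane (rowv rows r) i ≤ aprs.getD r 0 := h1
    refine le_trans ?_ (aprs_sound hp5 hp2 (h :: l) hssp r t ht)
    have h3 : ((lane (rowv rows r) i : ℕ) : ℝ) ≤ ((aprs.getD r 0 : ℕ) : ℝ) := Nat.cast_le.2 h2
    linarith
  · obtain ⟨k, hk1, hk2, o, ho, hlow⟩ := tail_low hG hi hi' hj hjo hpa hpb hp5 hp2 hs hl hh.ne' hS1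
    set ja := idx (max (startM (Yk i) q.c1m + r * slope (Yk i))
      (startM (Yk (i + 1)) q.c1m + r * slope (Yk (i + 1)))) with hja
    set jb := idx (max (startP (Yk i) q.c2p + exc (Yk i) (Yk (i + 1)) q.c2p + r * slope (Yk i))
      (startP (Yk (i + 1)) q.c2p + exc (Yk i) (Yk (i + 1)) q.c2p + r * slope (Yk (i + 1)))) with hjb
    have h1' : entOk q.P0 (16384 - q.P0) (rowv rows ja) (rowv rows jb) (lane (rowv rows r) i) (msk j)
        (Nat.mul (msk j) 2147483648) = true := h1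
    have hPQ : q.P0 + (16384 - q.P0) = 16384 := by omega
    have h3 := entOk_msk hj hPQ (hrow ja) (hrow jb) ((hrow r).2 i (by omega)) h1' k hk1 hk2
    have h4 : lane (rowv rows r) i * 16384 ≤ q.P0 * lane (rowv rows ja) (o + k) +
        (16384 - q.P0) * lane (rowv rows jb) (o + k) := by
      rcases ho with rfl | rfl
      · rw [Nat.zero_add]; exact h3.1
      · exact h3.2
    set S := ss (h :: l) / h ^ 2 with hS
    have hh0 : h ≠ 0 := ne_of_gt hh
    have hh2 : 0 < h ^ 2 := by positivity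
    have e1 : ss (h :: l) = S * h ^ 2 := by rw [hS]; field_simp
    have e2 : ss l = (S - 1) * h ^ 2 := by
      have := ss_cons h l
      rw [e1] at this
      linarith
    have hS1' : 1 < S := lt_of_lt_of_le Sc_one ((Sc_mono hi (by omega)).trans hS1)
    have e3 := sd_eq p0.le p1.le (by linarith : 0 ≤ S) e1
    have e4 := sd_eq p0.le p1.le (by linarith : 0 ≤ S - 1) e2
    rw [abs_of_pos hh] at e3 e4
    rw [e3] at ht
    have w0 : 0 ≤ √(p * (1 - p)) := Real.sqrt_nonneg _
    have t1 : t - (1 - p) * h ≤ ((ja : ℝ) - 200) / 50 * sd p l := by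
      rw [e4]
      refine thr_low w0 hh.le (K := 50 * √((1 - p) / p)) ?_ ?_ ht
      · have := sq_fac1 p0 p1
        linear_combination 50 * this
      · exact slotM_sound hi hi' hr hS1 hS2 (par_c1m hp p0 hpb)
    have t2 : t + p * h ≤ ((jb : ℝ) - 200) / 50 * sd p l := by
      rw [e4]
      refine thr_up w0 hh.le (K := 50 * √(p / (1 - p))) ?_ ?_ ht
      · have := sq_fac2 p0 p1
        linear_combination 50 * this
      · exact slotP_sound hi hi' hr hS1 hS2 (by positivity) (par_c2p hp p1 hpb)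
    exact comb_low hPQ h4 (hlow ja _ t1) (hlow jb _ t2)
      (Pr_low_pos (by positivity) hpa p1.le hh.le l t)

end Pool.Agent.MMS14
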