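import Pool.Agent.MMS14.NonStar
import Pool.Agent.MMS14.BaseF
import Pool.Agent.MMS14.T1
import Pool.Agent.MMS14.T2
import Pool.Agent.MMS14.T3
import Pool.Agent.MMS14.T4
import Pool.Agent.MMS14.T5
import Pool.Agent.MMS14.T6

/-!
# MMS14/TabN: the six tables for non-star lists, `p ∈ [1/5, 1/4]` (glue, complete)
-/

set_option autoImplicit false

namespace Pool.Agent.MMS14

theorem top_of {rows : List ℕ} {tgt r : ℕ} (hr : rowv rows 201 = r)
    (h : et (Nat.ble tgt (Nat.land (Nat.shiftRight r 4032) 4294967295))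
      (Nat.ble tgt (Nat.land (Nat.shiftRight r 8096) 4294967295)) = true) :
    tgt ≤ lane (rowv rows 201) 126 ∧ tgt ≤ lane (rowv rows 201) 253 := by
  rw [et_true] at h
  rw [hr]
  exact ⟨Nat.le_of_ble_eq_true h.1, Nat.le_of_ble_eq_true h.2⟩

theorem nsT1 : NonStarOk 3276 3536 :=
  nonStar_of (q := T1.par) (rows := T1.rows) (tab := T1.tab) (tgt := 14152) T1.par_ok T1.len_ok
    (rowP_all T1.len_ok T1.ends_ok)
    (good_of_checks T1.par_ok T1.len_ok T1.cells1 T1.cells2 T1.cells3 T1.cells4 T1.cells5 T1.ends_ok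
      (base_ok (by decide) T1.err_ok)) T1.look_ok rfl
    (fun j hj => match j, hj with
      | 0, _ => T1.rootP0 | 1, _ => T1.rootP1 | 2, _ => T1.rootP2 | 3, _ => T1.rootP3
      | (n+4), h => absurd h (by omega))
    (fun j hj => match j, hj with
      | 0, _ => T1.rootM0 | 1, _ => T1.rootM1 | 2, _ => T1.rootM2 | 3, _ => T1.rootM3
      | (n+4), h => absurd h (by omega))
    T1.rootM4 (top_of rfl T1.top_ok)

theorem nsT2 : NonStarOk 3536 3666 :=
  nonStar_of (q := T2.par) (rows := T2.rows) (tab := T2.tab) (tgt := 14672) T2.par_ok T2.len_ok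
    (rowP_all T2.len_ok T2.ends_ok)
    (good_of_checks T2.par_ok T2.len_ok T2.cells1 T2.cells2 T2.cells3 T2.cells4 T2.cells5 T2.ends_ok
      (base_ok (by decide) T2.err_ok)) T2.look_ok rfl
    (fun j hj => match j, hj with
      | 0, _ => T2.rootP0 | 1, _ => T2.rootP1 | 2, _ => T2.rootP2 | 3, _ => T2.rootP3
      | (n+4), h => absurd h (by omega))
    (fun j hj => match j, hj with
      | 0, _ => T2.rootM0 | 1, _ => T2.rootM1 | 2, _ => T2.rootM2 | 3, _ => T2.rootM3
      | (n+4), h => absurd h (by omega))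
    T2.rootM4 (top_of rfl T2.top_ok)

theorem nsT3 : NonStarOk 3666 3796 :=
  nonStar_of (q := T3.par) (rows := T3.rows) (tab := T3.tab) (tgt := 15192) T3.par_ok T3.len_ok
    (rowP_all T3.len_ok T3.ends_ok)
    (good_of_checks T3.par_ok T3.len_ok T3.cells1 T3.cells2 T3.cells3 T3.cells4 T3.cells5 T3.ends_ok
      (base_ok (by decide) T3.err_ok)) T3.look_ok rfl
    (fun j hj => match j, hj with
      | 0, _ => T3.rootP0 | 1, _ => T3.rootP1 | 2, _ => T3.rootP2 | 3, _ => T3.rootP3
      | (n+4), h => absurd h (by omega))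
    (fun j hj => match j, hj with
      | 0, _ => T3.rootM0 | 1, _ => T3.rootM1 | 2, _ => T3.rootM2 | 3, _ => T3.rootM3
      | (n+4), h => absurd h (by omega))
    T3.rootM4 (top_of rfl T3.top_ok)

theorem nsT4 : NonStarOk 3796 3956 :=
  nonStar_of (q := T4.par) (rows := T4.rows) (tab := T4.tab) (tgt := 15832) T4.par_ok T4.len_ok
    (rowP_all T4.len_ok T4.ends_ok)
    (good_of_checks T4.par_ok T4.len_ok T4.cells1 T4.cells2 T4.cells3 T4.cells4 T4.cells5 T4.ends_ok
      (base_ok (by decide) T4.err_ok)) T4.look_ok rfl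
    (fun j hj => match j, hj with
      | 0, _ => T4.rootP0 | 1, _ => T4.rootP1 | 2, _ => T4.rootP2 | 3, _ => T4.rootP3
      | (n+4), h => absurd h (by omega))
    (fun j hj => match j, hj with
      | 0, _ => T4.rootM0 | 1, _ => T4.rootM1 | 2, _ => T4.rootM2 | 3, _ => T4.rootM3
      | (n+4), h => absurd h (by omega))
    T4.rootM4 (top_of rfl T4.top_ok)

theorem nsT5 : NonStarOk 3956 4026 :=
  nonStar_of (q := T5.par) (rows := T5.rows) (tab := T5.tab) (tgt := 16112) T5.par_ok T5.len_ok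
    (rowP_all T5.len_ok T5.ends_ok)
    (good_of_checks T5.par_ok T5.len_ok T5.cells1 T5.cells2 T5.cells3 T5.cells4 T5.cells5 T5.ends_ok
      (base_ok (by decide) T5.err_ok)) T5.look_ok rfl
    (fun j hj => match j, hj with
      | 0, _ => T5.rootP0 | 1, _ => T5.rootP1 | 2, _ => T5.rootP2 | 3, _ => T5.rootP3
      | (n+4), h => absurd h (by omega))
    (fun j hj => match j, hj with
      | 0, _ => T5.rootM0 | 1, _ => T5.rootM1 | 2, _ => T5.rootM2 | 3, _ => T5.rootM3
      | (n+4), h => absurd h (by omega))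
    T5.rootM4 (top_of rfl T5.top_ok)

theorem nsT6 : NonStarOk 4026 4096 :=
  nonStar_of (q := T6.par) (rows := T6.rows) (tab := T6.tab) (tgt := 16392) T6.par_ok T6.len_ok
    (rowP_all T6.len_ok T6.ends_ok)
    (good_of_checks T6.par_ok T6.len_ok T6.cells1 T6.cells2 T6.cells3 T6.cells4 T6.cells5 T6.ends_ok
      (base_ok (by decide) T6.err_ok)) T6.look_ok rfl
    (fun j hj => match j, hj with
      | 0, _ => T6.rootP0 | 1, _ => T6.rootP1 | 2, _ => T6.rootP2 | 3, _ => T6.rootP3
      | (n+4), h => absurd h (by omega))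
    (fun j hj => match j, hj with
      | 0, _ => T6.rootM0 | 1, _ => T6.rootM1 | 2, _ => T6.rootM2 | 3, _ => T6.rootM3
      | (n+4), h => absurd h (by omega))
    T6.rootM4 (top_of rfl T6.top_ok)

/-- every `p ∈ [1/5, 1/4]` -/
theorem nonStar_all {p : ℝ} (h0 : 1 / 5 ≤ p) (h1 : p ≤ 1 / 4) {l : List ℝ} (hl : 0 < ss l)
    (hb : ∀ b ∈ l, 0 < b → 2.03 * b ^ 2 < ss l) : p + 1 / 2 ^ 13 ≤ Pr p l (0.000019 * √(ss l)) := by
  rcases le_total p (3536 / 16384) with h | h
  · exact nsT1 p (by push_cast; linarith) (by push_cast; linarith) h0 l hl hb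
  rcases le_total p (3666 / 16384) with h' | h'
  · exact nsT2 p (by push_cast; linarith) (by push_cast; linarith) h0 l hl hb
  rcases le_total p (3796 / 16384) with h2 | h2
  · exact nsT3 p (by push_cast; linarith) (by push_cast; linarith) h0 l hl hb
  rcases le_total p (3956 / 16384) with h3 | h3
  · exact nsT4 p (by push_cast; linarith) (by push_cast; linarith) h0 l hl hb
  rcases le_total p (4026 / 16384) with h4 | h4
  · exact nsT5 p (by push_cast; linarith) (by push_cast; linarith) h0 l hl hb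
  · exact nsT6 p (by push_cast; linarith) (by push_cast; linarith) h0 l hl hb

end Pool.Agent.MMS14
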