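import Pool.Agent.MMS14.StarD
import Pool.Agent.MMS14.BaseF
import Pool.Agent.MMS14.T7
import Pool.Agent.MMS14.T8
import Pool.Agent.MMS14.T9
import Pool.Agent.MMS14.T10

/-!
# MMS14/TabS: the four tables for the star regime, `P = k / (n - k) ∈ [1/4, 1/3]` (glue, complete)
-/

open Finset Pool.Agent.H36.MMS

set_option autoImplicit false

namespace Pool.Agent.MMS14

theorem all_le {l : List ℕ} {c : ℕ} (h : l.all (fun v => Nat.ble v c) = true) : ∀ v ∈ l, v ≤ c := by
  intro v hv
  exact Nat.le_of_ble_eq_true (List.all_eq_true.mp h v hv)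

theorem lowT7 : StarLowOk 4096 4696 T7.vs :=
  starLow_of (q := T7.par) (rows := T7.rows) (tab := T7.tab) (vs := T7.vs) T7.par_ok T7.len_ok
    (rowP_all T7.len_ok T7.ends_ok)
    (good_of_checks T7.par_ok T7.len_ok T7.cells1 T7.cells2 T7.cells3 T7.cells4 T7.cells5 T7.ends_ok
      (base_ok (by decide) T7.err_ok)) T7.look_ok T7.min_ok (by decide) (all_le (by decide))

theorem lowT8 : StarLowOk 4696 5116 T8.vs :=
  starLow_of (q := T8.par) (rows := T8.rows) (tab := T8.tab) (vs := T8.vs) T8.par_ok T8.len_ok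
    (rowP_all T8.len_ok T8.ends_ok)
    (good_of_checks T8.par_ok T8.len_ok T8.cells1 T8.cells2 T8.cells3 T8.cells4 T8.cells5 T8.ends_ok
      (base_ok (by decide) T8.err_ok)) T8.look_ok T8.min_ok (by decide) (all_le (by decide))

theorem lowT9 : StarLowOk 5116 5346 T9.vs :=
  starLow_of (q := T9.par) (rows := T9.rows) (tab := T9.tab) (vs := T9.vs) T9.par_ok T9.len_ok
    (rowP_all T9.len_ok T9.ends_ok)
    (good_of_checks T9.par_ok T9.len_ok T9.cells1 T9.cells2 T9.cells3 T9.cells4 T9.cells5 T9.ends_ok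
      (base_ok (by decide) T9.err_ok)) T9.look_ok T9.min_ok (by decide) (all_le (by decide))

theorem lowT10 : StarLowOk 5346 5462 T10.vs :=
  starLow_of (q := T10.par) (rows := T10.rows) (tab := T10.tab) (vs := T10.vs) T10.par_ok T10.len_ok
    (rowP_all T10.len_ok T10.ends_ok)
    (good_of_checks T10.par_ok T10.len_ok T10.cells1 T10.cells2 T10.cells3 T10.cells4 T10.cells5 T10.ends_ok
      (base_ok (by decide) T10.err_ok)) T10.look_ok T10.min_ok (by decide) (all_le (by decide))

variable {α : Type*} [DecidableEq α]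

/-- every `P = k / (n - k) ∈ [1/4, 1/3]` -/
theorem star_low_all {R W : Finset α} {n k : ℕ} (x : α → ℝ) (hk : 10 ^ 26 ≤ k)
    (hkn : 4 * k ≤ n) (h0 : 1 / 4 ≤ (k : ℝ) / ((n : ℝ) - k)) (h1 : (k : ℝ) / ((n : ℝ) - k) ≤ 1 / 3)
    (hV : ps x 2 R ≤ 1.03) (hW : W ⊆ R) (hWc : W.card + k = n) (hpos : 0 < sg x W) :
    (k : ℝ) / ((n : ℝ) - k) ≤ avg W k (fun T => if 0 ≤ sg x T then
      starW ((k : ℝ) / ((n : ℝ) - k)) (1.04 * ((k : ℝ) / ((n : ℝ) - k)) * (1 - (k : ℝ) / ((n : ℝ) - k))) (sg x T) else 0) := by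
  rcases le_total ((k : ℝ) / ((n : ℝ) - k)) (4696 / 16384) with h | h
  · exact star_low lowT7 T7.star_ok (by decide) (by decide) x hk hkn (by push_cast; linarith) (by push_cast; linarith)
      (by linarith) hV hW hWc hpos
  rcases le_total ((k : ℝ) / ((n : ℝ) - k)) (5116 / 16384) with h2 | h2
  · exact star_low lowT8 T8.star_ok (by decide) (by decide) x hk hkn (by push_cast; linarith) (by push_cast; linarith)
      (by linarith) hV hW hWc hpos
  rcases le_total ((k : ℝ) / ((n : ℝ) - k)) (5346 / 16384) with h3 | h3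
  · exact star_low lowT9 T9.star_ok (by decide) (by decide) x hk hkn (by push_cast; linarith) (by push_cast; linarith)
      (by linarith) hV hW hWc hpos
  · exact star_low lowT10 T10.star_ok (by decide) (by decide) x hk hkn (by push_cast; linarith) (by push_cast; linarith)
      (by linarith) hV hW hWc hpos

end Pool.Agent.MMS14
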